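import Pool.Agent.Work.MP_f194bb_nt.KMul
import Pool.Agent.Work.MP_f194bb_nt.Dir

/-!
# MP_f194bb_nt: `K_n` for odd `n` as an integral over the real points (definitions)
-/

set_option autoImplicit false

open scoped ComplexConjugate PeriodPair
open MeasureTheory Filter Topology

noncomputable section

namespace Pool.Agent.F194.Y

universe u

/-! ### constants -/

/-- `2^i B_i / i!` for even `i`, otherwise `0` -/
def bt (i : ℕ) : ℝ := if Even i then 2 ^ i * ((bernoulli i : ℚ) : ℝ) / (i.factorial : ℝ) else 0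

/-- `1/(j+1)!` for even `j`, otherwise `0` -/
def ee (j : ℕ) : ℝ := if Even j then 1 / ((j + 1).factorial : ℝ) else 0

/-- `(n-1)/n!`, `n = q + 3` -/
def rr (q : ℕ) : ℝ := ((q : ℝ) + 2) / ((q + 3).factorial : ℝ)

/-! ### polylogarithms -/

/-- `h ↦ Re (c h)` -/
def rl (c : ℂ) : ℂ →L[ℝ] ℝ := Complex.reCLM.comp (ContinuousLinearMap.mul ℝ ℂ c)

/-- `h ↦ Im (c h)` -/
def il (c : ℂ) : ℂ →L[ℝ] ℝ := Complex.imCLM.comp (ContinuousLinearMap.mul ℝ ℂ c)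

@[simp] theorem rl_apply (c h : ℂ) : rl c h = (c * h).re := rfl
@[simp] theorem il_apply (c h : ℂ) : il c h = (c * h).im := rfl

/-- The single valued polylogarithms of all weights `k ≥ 2`. -/
structure PLs where
  L : ℕ → ℂ → ℝ
  C : ℕ → ℝ
  d2 : ∀ z, z ≠ 0 → z ≠ 1 → HasFDerivAt (L 2)
    (Real.log ‖z‖ • il (z - 1)⁻¹ - Real.log ‖1 - z‖ • il z⁻¹) z
  d : ∀ k, 3 ≤ k → ∀ z, z ≠ 0 → z ≠ 1 → HasFDerivAt (L k)
    (((-1) ^ k * L (k - 1) z) • il z⁻¹ -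
      (∑ i ∈ Finset.Icc 2 (k - 2), bt i * Real.log ‖z‖ ^ (i - 1) * L (k - i) z) • rl z⁻¹ -
      (bt (k - 1) * Real.log ‖z‖ ^ (k - 2)) •
        (Real.log ‖z‖ • rl (z - 1)⁻¹ - Real.log ‖1 - z‖ • rl z⁻¹)) z
  r : ∀ k, Even k → ∀ z, z.im = 0 → L k z = 0
  cont : ∀ k, 2 ≤ k → Continuous (L k)
  zero : ∀ k, L k 0 = 0
  lim : ∀ k, 2 ≤ k → Tendsto (L k) (cocompact ℂ) (𝓝 0)
  b : ∀ k z, |L k z| ≤ C k
  bz : ∀ k z, L k z ^ 2 ≤ C k * ‖z‖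
  bi : ∀ k z, L k z ^ 2 * ‖z‖ ≤ C k
  bo : ∀ k, Even k → ∀ z, L k z ^ 2 ≤ C k * ‖1 - z‖

/-! ### real lattices and the functionals -/

/-- `L` is stable under conjugation, `ω₁ > 0` and `Im ω₂ < 0` -/
structure RL (L : PeriodPair) : Prop where
  re1 : L.ω₁.im = 0
  pos1 : 0 < L.ω₁.re
  neg2 : L.ω₂.im < 0
  cj : ∀ l ∈ L.lattice, conj l ∈ L.lattice

/-- `log |u|` -/
def la (u : ℂ → ℂ) (z : ℂ) : ℝ := Real.log ‖u z‖

/-- `u'/u` -/
def ld (u : ℂ → ℂ) (z : ℂ) : ℂ := deriv u z / u z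

/-- derivative of `log |u|` in the direction `1` -/
def lx (u : ℂ → ℂ) (z : ℂ) : ℝ := (ld u z).re

/-- derivative of `log |u|` in the direction `I` -/
def ly (u : ℂ → ℂ) (z : ℂ) : ℝ := -(ld u z).im

/-- the mean of `log |u|` -/
def mu (L : PeriodPair) (u : ℂ → ℂ) : ℝ := ∫ x in box, la u (E L x)

/-- linear combinations of the four functionals -/
def fl (L : PeriodPair) (c : Fin 4 → ℝ) (u : ℂ → ℂ) (z : ℂ) : ℝ :=
  c 0 * la u z + c 1 * lx u z + c 2 * ly u z + c 3 * mu L u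

/-- A 2-cocycle of weight `n = q + 3`, as a system of functions on `ℂ`: `h i = 1 - f i`. -/
structure Sys (L : PeriodPair) (P : PLs) (q : ℕ) (ι : Type) [Fintype ι] where
  f : ι → ℂ → ℂ
  h : ι → ℂ → ℂ
  g : ι → ℂ → ℂ
  C : Set ℂ
  fE : ∀ i, Pool.Agent.F194.Ell L (f i)
  hE : ∀ i, Pool.Agent.F194.Ell L (h i)
  gE : ∀ i, Pool.Agent.F194.Ell L (g i)
  closed : IsClosed C
  cnt : C.Countable
  isol : ∀ s, ∀ᶠ z in 𝓝[≠] s, z ∉ C
  per : ∀ (l : L.lattice) (z : ℂ), z + l ∈ C ↔ z ∈ C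
  cj : ∀ z, conj z ∈ C ↔ z ∈ C
  fa : ∀ i z, z ∉ C → AnalyticAt ℂ (f i) z
  f0 : ∀ i z, z ∉ C → f i z ≠ 0
  ha : ∀ i z, z ∉ C → AnalyticAt ℂ (h i) z
  h0 : ∀ i z, z ∉ C → h i z ≠ 0
  ga : ∀ i z, z ∉ C → AnalyticAt ℂ (g i) z
  g0 : ∀ i z, z ∉ C → g i z ≠ 0
  add : ∀ i z, z ∉ C → f i z + h i z = 1
  fc : ∀ i z, z ∉ C → f i (conj z) = conj (f i z)
  hc : ∀ i z, z ∉ C → h i (conj z) = conj (h i z)
  gc : ∀ i z, z ∉ C → g i (conj z) = conj (g i z)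
  rel : ∀ k j, 2 ≤ k → k + j = q + 1 → ∀ (c : Fin j → Fin 4 → ℝ) (a b : Fin 4 → ℝ) (z : ℂ),
    z ∉ C → ∑ i, P.L k (f i z) * (∏ s, fl L (c s) (f i) z) *
      (fl L a (f i) z * fl L b (g i) z - fl L a (g i) z * fl L b (f i) z) = 0
  el : ∀ j, j + 1 = q → ∀ (p r : Fin 4 → ℝ) (c : Fin j → Fin 4 → ℝ) (a b : Fin 4 → ℝ) (z : ℂ),
    z ∉ C → ∑ i, (fl L p (h i) z * fl L r (f i) z - fl L r (h i) z * fl L p (f i) z) *
      (∏ s, fl L (c s) (f i) z) *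
      (fl L a (f i) z * fl L b (g i) z - fl L a (g i) z * fl L b (f i) z) = 0
  cusp : ∀ s, Tendsto (fun z => ∑ i, (dv (g i) s : ℝ) * P.L (q + 2) (f i z)) (𝓝[≠] s) (𝓝 0)

/-! ### the closed form -/

section
variable {L : PeriodPair} {P : PLs} {q : ℕ} {ι : Type} [Fintype ι] (S : Sys L P q ι)

/-- the elementary integrand `∑ b a^(n-3) (a w_x - w a_x)` -/
def I0 (z : ℂ) : ℝ := ∑ i, la (S.g i) z * la (S.f i) z ^ q *
  (la (S.f i) z * lx (S.h i) z - la (S.h i) z * lx (S.f i) z)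

/-- the `dx` component of `∑ L_{n-1}(f) d arg g + ∑_j e_j b a^(j-1) L_{n-1-j}(f) d arg f +
((n-1)/n!) b a^(n-3) (a dw - w da)` -/
def Rx (z : ℂ) : ℝ := ∑ i, (-(P.L (q + 2) (S.f i z) * ly (S.g i) z) -
  (∑ j ∈ Finset.Icc 2 q, ee j * (la (S.g i) z * la (S.f i) z ^ (j - 1) *
    P.L (q + 2 - j) (S.f i z) * ly (S.f i) z)) +
  rr q * (la (S.g i) z * la (S.f i) z ^ q *
    (la (S.f i) z * lx (S.h i) z - la (S.h i) z * lx (S.f i) z)))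

/-- the `dy` component -/
def Ry (z : ℂ) : ℝ := ∑ i, (P.L (q + 2) (S.f i z) * lx (S.g i) z +
  (∑ j ∈ Finset.Icc 2 q, ee j * (la (S.g i) z * la (S.f i) z ^ (j - 1) *
    P.L (q + 2 - j) (S.f i z) * lx (S.f i) z)) +
  rr q * (la (S.g i) z * la (S.f i) z ^ q *
    (la (S.f i) z * ly (S.h i) z - la (S.h i) z * ly (S.f i) z)))

/-- the integral of the closed form over a horizontal line -/
def ri (y : ℝ) : ℝ := ∫ t in (0 : ℝ)..L.ω₁.re, Rx S (t + y * Complex.I)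

/-- the means: `T 1 = mean I0`; for `2 ≤ k ≤ n - 2` the mean of `∑ b a^(n-2-k) L_k(f) ∂a` with
`∂ = ∂_y` for even and `∂_x` for odd `k`; `T (n-1)` the mean of `∑ L_{n-1}(f) ∂_y b` -/
def TT (k : ℕ) : ℝ :=
  if k = 1 then ∫ x in box, I0 S (E L x)
  else if k = q + 2 then ∫ x in box, ∑ i, P.L k (S.f i (E L x)) * ly (S.g i) (E L x)
  else if Even k then ∫ x in box, ∑ i, la (S.g i) (E L x) * la (S.f i) (E L x) ^ (q + 1 - k) *
    P.L k (S.f i (E L x)) * ly (S.f i) (E L x)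
  else ∫ x in box, ∑ i, la (S.g i) (E L x) * la (S.f i) (E L x) ^ (q + 1 - k) *
    P.L k (S.f i (E L x)) * lx (S.f i) (E L x)

end

/-! ### the functionals on Goncharov's groups -/

/-- `L_k` on `P¹(ℂ)` -/
def vL (P : PLs) (k : ℕ) : Option ℂ → ℝ
  | none => 0
  | some z => P.L k z

/-- `{x} ↦ L_k(p x) ∏ φ_s(x)` for an embedding `p : F → ℂ` and homomorphisms `φ_s : F* → ℝ` -/
def TF (P : PLs) (k : ℕ) {F : Type u} [Field F] (p : F →+* ℂ) {j : ℕ}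
    (φ : Fin j → (Additive Fˣ →+ ℝ)) : FreeAbelianGroup (Option F) →+ ℝ :=
  FreeAbelianGroup.lift fun x => vL P k (x.map p) * ∏ s, φ s (unitOf x)

/-- `h` takes the value `c ∈ P¹(ℂ)` at `z` -/
def HasVal (h : ℂ → ℂ) (z : ℂ) : Option ℂ → Prop
  | none => Tendsto (fun w => ‖h w‖) (𝓝[≠] z) atTop
  | some c => Tendsto h (𝓝[≠] z) (𝓝 c)

/-- Condition (ii) for `n = k + 3`: `∑ v_z(g i) {f i (z)}_{n-1} = 0` in `B_{n-1}(ℚ̄)` at every point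
`z` where the `f i` take values in `P¹(ℚ̄)` (for every embedding of `ℚ̄` in `ℂ`). -/
def CocycleII (k : ℕ) {L : PeriodPair} {K : Type u} [Field K] (ρ : EllRep L K) {ι : Type}
    [Fintype ι] (f g : ι → Kˣ) : Prop :=
  ∀ (σ : AlgebraicClosure ℚ →+* ℂ) (z : ℂ) (t : ι → Option (AlgebraicClosure ℚ)),
    (∀ i, HasVal (ρ.ev (f i : K)) z ((t i).map σ)) →
      ∑ i, dv (ρ.ev (g i : K)) z • cls k (t i) = 0

/-- what is used about `K = ℚ(E)` -/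
structure RepQ {L : PeriodPair} {K : Type u} [Field K] (ρ : EllRep L K) : Prop where
  cnt : Countable K
  real : ∀ f : K, (fun z => conj (ρ.ev f (conj z))) =ᶠ[codiscrete ℂ] ρ.ev f
  alg : ∀ (f g : Kˣ) (z : ℂ), dv (ρ.ev (g : K)) z ≠ 0 → ∀ σ : AlgebraicClosure ℚ →+* ℂ,
    ∃ t : Option (AlgebraicClosure ℚ), HasVal (ρ.ev (f : K)) z (t.map σ)

end Pool.Agent.F194.Y

end
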