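import Pool.Agent.Work.MP_f194bb_nt.Y.Path

/-!
# MP_f194bb_nt, odd n: the functionals kill the relations
-/

set_option autoImplicit false

open scoped ComplexConjugate PeriodPair
open MeasureTheory Filter Topology

noncomputable section

namespace Pool.Agent.F194.Y

universe u

open Cardinal Polynomial in
theorem kill_countable_ratFunc (F : Type u) [Field F] [Countable F] : Countable (RatFunc F) := by
  have h1 : Countable F[X] := by
    rw [← Cardinal.mk_le_aleph0_iff]
    refine Polynomial.cardinalMk_le_max.trans (max_le ?_ le_rfl)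
    exact Cardinal.mk_le_aleph0_iff.2 inferInstance
  have h2 : Function.Injective (fun x : RatFunc F => (x.num, x.denom)) := by
    intro x y hxy
    have h3 : x.num = y.num := congrArg Prod.fst hxy
    have h4 : x.denom = y.denom := congrArg Prod.snd hxy
    rw [← RatFunc.num_div_denom x, ← RatFunc.num_div_denom y, h3, h4]
  exact h2.countable

theorem TF_of (P : PLs) (k : ℕ) {F : Type u} [Field F] (p : F →+* ℂ) {j : ℕ}
    (φ : Fin j → (Additive Fˣ →+ ℝ)) (x : Option F) :
    TF P k p φ (FreeAbelianGroup.of x) = vL P k (x.map p) * ∏ s, φ s (unitOf x) :=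
  FreeAbelianGroup.lift_apply_of _ _

theorem GG_of (P : PLs) (k : ℕ) {F : Type u} [Field F] (p : F →+* ℂ)
    (x : Option (RatFunc F)) (l : ℂ) :
    GG P k p (FreeAbelianGroup.of x) l = vL P k (evC p l x) :=
  FreeAbelianGroup.lift_apply_of _ _

/-- where the value is neither `0` nor `∞`, the leading coefficient is the value -/
theorem kill_lcU {F : Type u} [Field F] (t₀ : F) (x : Option (RatFunc F)) :
    evalAt t₀ x = none ∨ evalAt t₀ x = some 0 ∨ lcU t₀ (unitOf x) = unitOf (evalAt t₀ x) := by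
  classical
  rcases x with _ | f
  · left
    rfl
  by_cases hd : f.denom.eval t₀ = 0
  · left
    simp only [evalAt, if_pos hd]
  have he : evalAt t₀ (some f) = some (f.num.eval t₀ / f.denom.eval t₀) := by
    simp only [evalAt, if_neg hd]
  by_cases hn : f.num.eval t₀ = 0
  · right; left
    rw [he, hn, zero_div]
  right; right
  rw [lcU_unitOf, he]
  congr 2
  have hlc : ∀ p : Polynomial F, lcRat t₀ (algebraMap _ (RatFunc F) p) = lcPoly t₀ p := by
    intro p
    have := RatFunc.liftMonoidWithZeroHom_apply_div' (lcPoly t₀) (lcPoly_cond t₀) p 1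
    simp only [map_one, div_one] at this
    exact this
  conv_lhs => rw [← RatFunc.num_div_denom f]
  rw [map_div₀, hlc, hlc, lcPoly_of_ne _ _ hn, lcPoly_of_ne _ _ hd]

/-- `∑ n_i L_k(f_i(l)) ∏ φ_s(f_i)` -/
def GP (P : PLs) (k : ℕ) {F : Type u} [Field F] (p : F →+* ℂ) {j : ℕ}
    (ψ : Fin j → (Additive (RatFunc F)ˣ →+ ℝ)) (α : FreeAbelianGroup (Option (RatFunc F)))
    (l : ℂ) : ℝ :=
  FreeAbelianGroup.lift (fun x => vL P k (evC p l x) * ∏ s, ψ s (unitOf x)) α

theorem GP_cont (P : PLs) {k : ℕ} (hk : 2 ≤ k) {F : Type u} [Field F] (p : F →+* ℂ) {j : ℕ}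
    (ψ : Fin j → (Additive (RatFunc F)ˣ →+ ℝ)) (α : FreeAbelianGroup (Option (RatFunc F))) :
    Continuous (GP P k p ψ α) := by
  induction α using FreeAbelianGroup.induction_on with
  | zero =>
    have h : GP P k p ψ 0 = fun _ => 0 := by
      funext l
      exact map_zero _
    rw [h]
    exact continuous_const
  | of x =>
    have h : GP P k p ψ (FreeAbelianGroup.of x) =
        fun l => GG P k p (FreeAbelianGroup.of x) l * ∏ s, ψ s (unitOf x) := by
      funext l
      rw [GG_of]
      exact FreeAbelianGroup.lift_apply_of _ _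
    rw [h]
    exact (GG_cont P hk p _).mul continuous_const
  | neg x hx =>
    have h : GP P k p ψ (-FreeAbelianGroup.of x) = fun l => -GP P k p ψ (FreeAbelianGroup.of x) l := by
      funext l
      exact map_neg _ _
    rw [h]
    exact hx.neg
  | add x y hx hy =>
    have h : GP P k p ψ (x + y) = fun l => GP P k p ψ x l + GP P k p ψ y l := by
      funext l
      exact map_add _ _ _
    rw [h]
    exact hx.add hy

/-- The limit at `0`, `1`: for homomorphisms `φ` on `F*` and `φ_s ∘ lcU t₀` on `F(t)*`, if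
`∑ n_i L_k(f_i(l)) ∏ φ_s(lcU t₀ f_i) = 0` for all generic `l`, then `TF` kills `α(t₀)`. -/
theorem TF_lim (P : PLs) {k : ℕ} (hk : 2 ≤ k) {F : Type u} [Field F] [Countable F] (p : F →+* ℂ)
    (t₀ : F) {j : ℕ} (hj : 1 ≤ j) (φ : Fin j → (Additive Fˣ →+ ℝ))
    (α : FreeAbelianGroup (Option (RatFunc F)))
    (h : ∀ l, Gen p l → ∀ e : RatFunc F →+* ℂ,
      (∀ x : Option (RatFunc F), evC p l x = x.map e) →
      TF P k e (fun s => (φ s).comp (lcU t₀)) α = 0) :
    TF P k p φ (FreeAbelianGroup.map (evalAt t₀) α) = 0 := by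
  have _ := hj
  set ψ : Fin j → (Additive (RatFunc F)ˣ →+ ℝ) := fun s => (φ s).comp (lcU t₀) with hψ
  have h1 : ∀ l, Gen p l → GP P k p ψ α l = 0 := by
    intro l hl
    obtain ⟨e, he, -⟩ := gen_hom p hl
    have h2 := h l hl e he
    rw [← h2]
    unfold GP TF
    congr 2
    funext x
    rw [he]
  have h2 : GP P k p ψ α = fun _ => 0 := by
    refine Continuous.ext_on (gen_dense p) (GP_cont P hk p ψ α) continuous_const ?_
    intro l hl
    exact h1 l hl
  have h3 : GP P k p ψ α (p t₀) = 0 := by rw [h2]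
  rw [← h3]
  have h4 : ∀ β : FreeAbelianGroup (Option (RatFunc F)),
      TF P k p φ (FreeAbelianGroup.map (evalAt t₀) β) = GP P k p ψ β (p t₀) := by
    intro β
    have h5 : (TF P k p φ).comp (FreeAbelianGroup.map (evalAt t₀)) =
        FreeAbelianGroup.lift (fun x => vL P k (evC p (p t₀) x) * ∏ s, ψ s (unitOf x)) := by
      ext x
      rw [AddMonoidHom.comp_apply, FreeAbelianGroup.map_of_apply, TF_of,
        FreeAbelianGroup.lift_apply_of, evC_const]
      rcases kill_lcU t₀ x with h6 | h6 | h6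
      · rw [h6]
        simp [vL]
      · rw [h6]
        simp [vL, P.zero]
      · congr 1
        refine Finset.prod_congr rfl fun s _ => ?_
        rw [hψ]
        show φ s (unitOf (evalAt t₀ x)) = φ s (lcU t₀ (unitOf x))
        rw [h6]
    exact DFunLike.congr_fun h5 β
  exact h4 α

/-- derivative of `GG` from the derivatives of the terms -/
theorem GG_fd (P : PLs) (k : ℕ) {F : Type u} [Field F] (p : F →+* ℂ) {l : ℂ}
    (A : Option (RatFunc F) → (ℂ →L[ℝ] ℝ))
    (hA : ∀ x, HasFDerivAt (fun w => vL P k (evC p w x)) (A x) l)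
    (α : FreeAbelianGroup (Option (RatFunc F))) :
    HasFDerivAt (GG P k p α) (FreeAbelianGroup.lift A α) l := by
  induction α using FreeAbelianGroup.induction_on with
  | zero =>
    have h : GG P k p 0 = fun _ => 0 := by
      funext l
      exact map_zero _
    rw [h, map_zero]
    exact hasFDerivAt_const _ _
  | of x =>
    have h : GG P k p (FreeAbelianGroup.of x) = fun w => vL P k (evC p w x) := by
      funext w
      exact GG_of P k p x w
    rw [h, FreeAbelianGroup.lift_apply_of]
    exact hA x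
  | neg x hx =>
    have h : GG P k p (-FreeAbelianGroup.of x) = fun l => -GG P k p (FreeAbelianGroup.of x) l := by
      funext l
      exact map_neg _ _
    rw [h, map_neg]
    exact hx.neg
  | add x y hx hy =>
    have h : GG P k p (x + y) = fun l => GG P k p x l + GG P k p y l := by
      funext l
      exact map_add _ _ _
    rw [h, map_add]
    exact hx.add hy

/-- evaluation of the derivative -/
theorem kill_lift_apply {X : Type u} (A : X → (ℂ →L[ℝ] ℝ)) (α : FreeAbelianGroup X) (v : ℂ) :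
    FreeAbelianGroup.lift A α v = FreeAbelianGroup.lift (fun x => A x v) α := by
  induction α using FreeAbelianGroup.induction_on with
  | zero =>
    rw [map_zero, map_zero]
    rfl
  | of x =>
    rw [FreeAbelianGroup.lift_apply_of, FreeAbelianGroup.lift_apply_of]
  | neg x hx =>
    rw [map_neg, map_neg, ← hx]
    rfl
  | add x y hx hy =>
    rw [map_add, map_add, ← hx, ← hy]
    rfl

/-- `u ↦ Re (c D(u))` -/
def kill_re {A : Type u} [AddCommGroup A] (D : A →+ ℂ) (v : ℂ) : A →+ ℝ :=
  (Complex.reAddGroupHom.comp (AddMonoidHom.mulRight v)).comp D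

/-- `u ↦ Im (c D(u))` -/
def kill_im {A : Type u} [AddCommGroup A] (D : A →+ ℂ) (v : ℂ) : A →+ ℝ :=
  (Complex.imAddGroupHom.comp (AddMonoidHom.mulRight v)).comp D

theorem kill_re_apply {A : Type u} [AddCommGroup A] (D : A →+ ℂ) (v : ℂ) (x : A) :
    kill_re D v x = (D x * v).re := rfl

theorem kill_im_apply {A : Type u} [AddCommGroup A] (D : A →+ ℂ) (v : ℂ) (x : A) :
    kill_im D v x = (D x * v).im := rfl

/-- a functional of the form `Φ ⊗ ψ` vanishes on the kernel of `δ` -/
theorem kill_delta {F : Type u} [Field F] {m : ℕ} (Φ : FreeAbelianGroup (Option F) →+ ℝ)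
    (hΦ : ∀ β ∈ R m F, Φ β = 0) (ψ : Additive Fˣ →+ ℝ) {α : FreeAbelianGroup (Option F)}
    (hα : deltaN F (R m F) α = 0) :
    FreeAbelianGroup.lift (fun x => Φ (FreeAbelianGroup.of x) * ψ (unitOf x)) α = 0 := by
  let φ : (FreeAbelianGroup (Option F) ⧸ R m F) →+ ℝ := QuotientAddGroup.lift _ Φ hΦ
  have h : FreeAbelianGroup.lift (fun x => Φ (FreeAbelianGroup.of x) * ψ (unitOf x)) =
      (show TQ F (R m F) →+ ℝ from tmapR φ ψ).comp (deltaN F (R m F)) := by
    ext x
    rw [AddMonoidHom.comp_apply, deltaN, FreeAbelianGroup.lift_apply_of,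
      FreeAbelianGroup.lift_apply_of]
    rfl
  rw [h, AddMonoidHom.comp_apply, hα, map_zero]

theorem kill_lift_add {X : Type u} (a b : X → ℝ) (α : FreeAbelianGroup X) :
    FreeAbelianGroup.lift (fun x => a x + b x) α =
      FreeAbelianGroup.lift a α + FreeAbelianGroup.lift b α := by
  have h : FreeAbelianGroup.lift (fun x => a x + b x) =
      FreeAbelianGroup.lift a + FreeAbelianGroup.lift b := by
    ext x
    rw [AddMonoidHom.add_apply, FreeAbelianGroup.lift_apply_of, FreeAbelianGroup.lift_apply_of,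
      FreeAbelianGroup.lift_apply_of]
  rw [h, AddMonoidHom.add_apply]

theorem kill_lift_mul {X : Type u} (c : ℝ) (b : X → ℝ) (α : FreeAbelianGroup X) :
    FreeAbelianGroup.lift (fun x => c * b x) α = c * FreeAbelianGroup.lift b α := by
  have h : FreeAbelianGroup.lift (fun x => c * b x) =
      (AddMonoidHom.mulLeft c).comp (FreeAbelianGroup.lift b) := by
    ext x
    rw [AddMonoidHom.comp_apply, FreeAbelianGroup.lift_apply_of, FreeAbelianGroup.lift_apply_of]
    rfl
  rw [h]
  rfl

theorem kill_lift_sum {X : Type u} (s : Finset ℕ) (b : ℕ → X → ℝ) (α : FreeAbelianGroup X) :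
    FreeAbelianGroup.lift (fun x => ∑ i ∈ s, b i x) α =
      ∑ i ∈ s, FreeAbelianGroup.lift (b i) α := by
  classical
  induction s using Finset.induction_on with
  | empty =>
    have h : (FreeAbelianGroup.lift (fun _ : X => (0 : ℝ))) = 0 := by
      ext x
      rw [FreeAbelianGroup.lift_apply_of]
      rfl
    simp only [Finset.sum_empty]
    rw [h]
    rfl
  | insert a s ha ih =>
    simp only [Finset.sum_insert ha]
    rw [kill_lift_add, ih]

/-- the case without homomorphisms, weight 2 -/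
theorem kill_base (P : PLs) {F : Type u} [Field F] [Countable F] (p : F →+* ℂ)
    (α : FreeAbelianGroup (Option (RatFunc F))) (hα : delta2 (RatFunc F) α = 0) {l : ℂ}
    (hl : Gen p l) : HasFDerivAt (GG P 2 p α) (0 : ℂ →L[ℝ] ℝ) l := by
  obtain ⟨e, lg, D, h1, h2, h3⟩ := exists_logHom p hl
  have h4 := GG_fd P 2 p (l := l) _ (fun x => (vL_fd (P := P) p h1 h2 h3 x).1) α
  convert h4 using 1
  symm
  ext v
  rw [kill_lift_apply]
  have h5 : FreeAbelianGroup.lift (fun x : Option (RatFunc F) =>
      (lg (unitOf x) • il (D (unitOf (oneSub x))) - lg (unitOf (oneSub x)) • il (D (unitOf x))) v) =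
      (-(wmapR lg (kill_im D v))).comp (delta2 (RatFunc F)) := by
    ext x
    rw [FreeAbelianGroup.lift_apply_of, AddMonoidHom.comp_apply, delta2,
      FreeAbelianGroup.lift_apply_of, AddMonoidHom.neg_apply, wmapR_wdg, kill_im_apply,
      kill_im_apply]
    simp only [_root_.sub_apply, _root_.smul_apply, il_apply,
      smul_eq_mul]
    ring
  rw [h5, AddMonoidHom.comp_apply, hα, map_zero]
  rfl

/-- the case without homomorphisms, weight `≥ 3` -/
theorem kill_step (P : PLs) (m : ℕ) {F : Type u} [Field F] [Countable F] (p : F →+* ℂ)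
    (ih : ∀ (e : RatFunc F →+* ℂ) (k j : ℕ), 2 ≤ k → k + j = m + 2 →
      ∀ (φ : Fin j → (Additive (RatFunc F)ˣ →+ ℝ)), ∀ α ∈ R m (RatFunc F), TF P k e φ α = 0)
    (α : FreeAbelianGroup (Option (RatFunc F)))
    (hα : deltaN (RatFunc F) (R m (RatFunc F)) α = 0) {l : ℂ}
    (hl : Gen p l) : HasFDerivAt (GG P (m + 3) p α) (0 : ℂ →L[ℝ] ℝ) l := by
  obtain ⟨e, lg, D, h1, h2, h3⟩ := exists_logHom p hl
  have h4 := GG_fd P (m + 3) p (l := l) _
    (fun x => (vL_fd (P := P) p h1 h2 h3 x).2 (m + 3) (by omega)) α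
  convert h4 using 1
  symm
  ext v
  rw [kill_lift_apply]
  -- the three types of terms
  have t1 : FreeAbelianGroup.lift (fun x : Option (RatFunc F) =>
      TF P (m + 2) e (j := 0) Fin.elim0 (FreeAbelianGroup.of x) * kill_im D v (unitOf x)) α = 0 :=
    kill_delta _ (ih e (m + 2) 0 (by omega) rfl _) _ hα
  have t2 : ∀ i ∈ Finset.Icc 2 (m + 1), FreeAbelianGroup.lift (fun x : Option (RatFunc F) =>
      TF P (m + 3 - i) e (fun _ : Fin (i - 1) => lg) (FreeAbelianGroup.of x) *
        kill_re D v (unitOf x)) α = 0 := by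
    intro i hi
    rw [Finset.mem_Icc] at hi
    exact kill_delta _ (ih e (m + 3 - i) (i - 1) (by omega) (by omega) _) _ hα
  have t3 : FreeAbelianGroup.lift (fun x : Option (RatFunc F) =>
      phiR lg (kill_re D v) (fun _ : Fin m => lg) (FreeAbelianGroup.of x) * lg (unitOf x)) α = 0 :=
    kill_delta _ (phiR_kills m (RatFunc F) lg (kill_re D v) _) _ hα
  have h5 : (fun x : Option (RatFunc F) =>
      (((-1) ^ (m + 3) * vL P (m + 3 - 1) (x.map e)) • il (D (unitOf x)) -
        (∑ i ∈ Finset.Icc 2 (m + 3 - 2), bt i * lg (unitOf x) ^ (i - 1) *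
          vL P (m + 3 - i) (x.map e)) • rl (D (unitOf x)) -
        (bt (m + 3 - 1) * lg (unitOf x) ^ (m + 3 - 2)) •
          (lg (unitOf x) • rl (D (unitOf (oneSub x))) -
            lg (unitOf (oneSub x)) • rl (D (unitOf x)))) v) =
      fun x => ((-1) ^ (m + 3) * (TF P (m + 2) e (j := 0) Fin.elim0 (FreeAbelianGroup.of x) *
          kill_im D v (unitOf x)) +
        (-1) * ∑ i ∈ Finset.Icc 2 (m + 1), bt i * (TF P (m + 3 - i) e (fun _ : Fin (i - 1) => lg)
          (FreeAbelianGroup.of x) * kill_re D v (unitOf x))) +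
        bt (m + 2) * (phiR lg (kill_re D v) (fun _ : Fin m => lg) (FreeAbelianGroup.of x) *
          lg (unitOf x)) := by
    funext x
    simp only [_root_.sub_apply, _root_.smul_apply, il_apply, rl_apply,
      smul_eq_mul, TF_of, phiR_of, kill_im_apply, kill_re_apply, Finset.prod_const,
      Finset.card_univ, Fintype.card_fin, Finset.univ_eq_empty, Finset.prod_empty]
    have e1 : m + 3 - 1 = m + 2 := rfl
    have e2 : m + 3 - 2 = m + 1 := rfl
    rw [e1, e2, mul_one, Finset.mul_sum]
    have h6 : (∑ i ∈ Finset.Icc 2 (m + 1), bt i * lg (unitOf x) ^ (i - 1) *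
        vL P (m + 3 - i) (x.map e)) * (D (unitOf x) * v).re =
        ∑ i ∈ Finset.Icc 2 (m + 1), bt i * (vL P (m + 3 - i) (x.map e) * lg (unitOf x) ^ (i - 1) *
          (D (unitOf x) * v).re) := by
      rw [Finset.sum_mul]
      refine Finset.sum_congr rfl fun i _ => ?_
      ring
    rw [h6]
    have h7 : ∑ i ∈ Finset.Icc 2 (m + 1), (-1 : ℝ) * (bt i * (vL P (m + 3 - i) (x.map e) *
        lg (unitOf x) ^ (i - 1) * (D (unitOf x) * v).re)) =
        -∑ i ∈ Finset.Icc 2 (m + 1), bt i * (vL P (m + 3 - i) (x.map e) *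
          lg (unitOf x) ^ (i - 1) * (D (unitOf x) * v).re) := by
      rw [← Finset.sum_neg_distrib]
      refine Finset.sum_congr rfl fun i _ => ?_
      ring
    rw [h7]
    ring
  rw [h5, kill_lift_add, kill_lift_add, kill_lift_mul, kill_lift_mul, kill_lift_mul,
    kill_lift_sum, t1, t3]
  have h8 : ∑ i ∈ Finset.Icc 2 (m + 1), FreeAbelianGroup.lift (fun x : Option (RatFunc F) =>
      bt i * (TF P (m + 3 - i) e (fun _ : Fin (i - 1) => lg) (FreeAbelianGroup.of x) *
        kill_re D v (unitOf x))) α = 0 := by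
    refine Finset.sum_eq_zero fun i hi => ?_
    rw [kill_lift_mul, t2 i hi, mul_zero]
  rw [h8]
  simp

/-- `{x} ↦ L_k(p x) ∏ φ_s(x)` is well defined on `B_{k+j}(F)` for a countable field `F`. Induction on
`m`; for `j ≥ 1` by `TF_lim`, for `j = 0` by `path`, `vL_fd` and `phiR_kills`. -/
theorem TF_kill (P : PLs) (m : ℕ) : ∀ (F : Type u) [Field F] [Countable F] (p : F →+* ℂ)
    (k j : ℕ), 2 ≤ k → k + j = m + 2 → ∀ (φ : Fin j → (Additive Fˣ →+ ℝ)),
    ∀ α ∈ R m F, TF P k p φ α = 0 := by
  have gens : ∀ (F : Type u) [Field F] (Z : Set (FreeAbelianGroup (Option (RatFunc F))))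
      (p : F →+* ℂ) (k j : ℕ) (φ : Fin j → (Additive Fˣ →+ ℝ)),
      (∀ α ∈ Z, TF P k p φ (FreeAbelianGroup.map (evalAt 0) α) =
        TF P k p φ (FreeAbelianGroup.map (evalAt 1) α)) →
      ∀ x ∈ relOf F Z, TF P k p φ x = 0 := by
    intro F _ Z p k j φ hZ x hx
    have h1 : relOf F Z ≤ (TF P k p φ).ker := by
      rw [relOf, AddSubgroup.closure_le]
      rintro y ((h | h) | ⟨α, hα, h⟩)
      · rw [SetLike.mem_coe, AddMonoidHom.mem_ker, h, TF_of]
        simp [vL, P.zero]
      · rw [SetLike.mem_coe, AddMonoidHom.mem_ker, h, TF_of]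
        simp [vL]
      · rw [SetLike.mem_coe, AddMonoidHom.mem_ker, h, map_sub, hZ α hα, sub_self]
    exact h1 hx
  induction m with
  | zero =>
    intro F _ _ p k j hk hkj φ α hα
    obtain rfl : k = 2 := by omega
    obtain rfl : j = 0 := by omega
    refine gens F _ p 2 0 φ ?_ α hα
    intro β hβ
    have hφ : φ = Fin.elim0 := Subsingleton.elim _ _
    rw [hφ]
    exact path P hk p β (fun l hl => kill_base P p β hβ hl)
  | succ m ih =>
    intro F _ _ p k j hk hkj φ α hα
    have _ := kill_countable_ratFunc F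
    refine gens F _ p k j φ ?_ α hα
    intro β hβ
    rcases j with _ | j
    · obtain rfl : k = m + 3 := by omega
      have hφ : φ = Fin.elim0 := Subsingleton.elim _ _
      rw [hφ]
      exact path P hk p β (fun l hl => kill_step P m p
        (fun e k j h1 h2 φ α hα => ih (RatFunc F) e k j h1 h2 φ α hα) β hβ hl)
    · have h1 : ∀ t₀ : F, TF P k p φ (FreeAbelianGroup.map (evalAt t₀) β) = 0 := by
        intro t₀
        refine TF_lim P hk p t₀ (by omega) φ β ?_
        intro l _ e _
        have h2 := kill_delta (F := RatFunc F) (m := m)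
          (TF P k e (fun s : Fin j => (φ s.castSucc).comp (lcU t₀)))
          (fun γ hγ => ih (RatFunc F) e k j hk (by omega) _ γ hγ)
          ((φ (Fin.last j)).comp (lcU t₀)) hβ
        rw [← h2]
        unfold TF
        congr 2
        funext x
        rw [FreeAbelianGroup.lift_apply_of, Fin.prod_univ_castSucc, mul_assoc]
      rw [h1 0, h1 1]

/-- condition (i) under the functionals -/
theorem relR (P : PLs) (m : ℕ) {K : Type u} [Field K] [Countable K] (p : K →+* ℂ) {ι : Type}
    [Fintype ι] (f g : ι → Kˣ) (h : CocycleI m f g) (k j : ℕ) (hk : 2 ≤ k) (hkj : k + j = m + 2)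
    (φ : Fin j → (Additive Kˣ →+ ℝ)) (a b : Additive Kˣ →+ ℝ) :
    ∑ i, P.L k (p (f i : K)) * (∏ s, φ s (Additive.ofMul (f i))) *
      (a (Additive.ofMul (f i)) * b (Additive.ofMul (g i)) -
        a (Additive.ofMul (g i)) * b (Additive.ofMul (f i))) = 0 := by
  classical
  let Φ : B m K →+ ℝ := QuotientAddGroup.lift _ (TF P k p φ) (TF_kill P m K p k j hk hkj φ)
  have h1 := congrArg (tmapR Φ (wmapR a b)) h
  rw [map_sum, map_zero] at h1
  rw [← h1]
  refine Finset.sum_congr rfl fun i _ => ?_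
  rw [tmapR_tmul]
  have h2 : Φ (cls m (some (f i : K))) =
      vL P k ((some (f i : K)).map p) * ∏ s, φ s (unitOf (some (f i : K))) := TF_of P k p φ _
  have h3 : unitOf (some (f i : K)) = Additive.ofMul (f i) := by
    simp only [unitOf, dif_neg (f i).ne_zero, Units.mk0_val]
  have h4 : (wmapR a b) (wdg (Additive.ofMul (f i)) (Additive.ofMul (g i))) =
      a (Additive.ofMul (f i)) * b (Additive.ofMul (g i)) -
        a (Additive.ofMul (g i)) * b (Additive.ofMul (f i)) := wmapR_wdg a b _ _
  rw [h2, h4, h3]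
  rfl

/-- condition (ii) under `L_{m+2}` -/
theorem relII (P : PLs) (m : ℕ) {F : Type u} [Field F] [Countable F] (p : F →+* ℂ) {ι : Type}
    [Fintype ι] (t : ι → Option F) (c : ι → ℤ) (h : ∑ i, c i • cls m (t i) = 0) :
    ∑ i, (c i : ℝ) * vL P (m + 2) ((t i).map p) = 0 := by
  classical
  let Φ : B m F →+ ℝ := QuotientAddGroup.lift _ (TF P (m + 2) p (j := 0) Fin.elim0)
    (TF_kill P m F p (m + 2) 0 (by omega) rfl _)
  have h1 := congrArg Φ h
  rw [map_sum, map_zero] at h1
  rw [← h1]
  refine Finset.sum_congr rfl fun i _ => ?_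
  rw [map_zsmul]
  have h2 : Φ (cls m (t i)) = vL P (m + 2) ((t i).map p) * ∏ s : Fin 0,
      (Fin.elim0 s : Additive Fˣ →+ ℝ) (unitOf (t i)) := TF_of P (m + 2) p _ _
  rw [h2]
  simp

end Pool.Agent.F194.Y

end
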