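import Pool.Agent.Work.MP_f194bb_nt.Y.Gen
import Pool.Agent.Work.MP_f194bb_nt.Y.Kill
import Pool.Agent.Work.MP_f194bb_nt.Divs

/-!
# MP_f194bb_nt, odd n: the system of a 2-cocycle
-/

set_option autoImplicit false

open scoped ComplexConjugate PeriodPair
open MeasureTheory Filter Topology

noncomputable section

namespace Pool.Agent.F194.Y

universe u

variable {L : PeriodPair} {K : Type u} [Field K]

/-! ### the exceptional set -/

section
variable (ρ : EllRep L K)

private theorem isol1 (u : K) (s : ℂ) : ∀ᶠ z in 𝓝[≠] s, dv (ρ.ev u) z = 0 := by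
  have hfin := dv_fin (ρ.mero u) (‖s‖ + 1)
  have h1 : ∀ᶠ z in 𝓝 s, z ∉ (Metric.closedBall (0 : ℂ) (‖s‖ + 1) ∩
      Function.support (dv (ρ.ev u))) \ {s} := by
    have hc : IsClosed ((Metric.closedBall (0 : ℂ) (‖s‖ + 1) ∩
      Function.support (dv (ρ.ev u))) \ {s}) := (hfin.subset Set.diff_subset).isClosed
    exact hc.isOpen_compl.mem_nhds fun h => h.2 rfl
  have h2 : ∀ᶠ z in 𝓝 s, z ∈ Metric.closedBall (0 : ℂ) (‖s‖ + 1) := by
    refine Metric.closedBall_mem_nhds_of_mem ?_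
    rw [mem_ball_zero_iff]
    linarith
  filter_upwards [nhdsWithin_le_nhds h1, nhdsWithin_le_nhds h2, self_mem_nhdsWithin] with z a b c
  by_contra hne
  exact a ⟨⟨b, hne⟩, c⟩

variable {α : Type} (U : α → Kˣ)

/-- the points where one of the functions has a zero or a pole -/
private def CC : Set ℂ := {z | ∃ a, dv (ρ.ev (U a : K)) z ≠ 0}

private theorem notCC {z : ℂ} : z ∉ CC ρ U ↔ ∀ a, dv (ρ.ev (U a : K)) z = 0 := by
  simp [CC]

private theorem CC_isol [Finite α] (s : ℂ) : ∀ᶠ z in 𝓝[≠] s, z ∉ CC ρ U := by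
  have h : ∀ᶠ z in 𝓝[≠] s, ∀ a, dv (ρ.ev (U a : K)) z = 0 :=
    Filter.eventually_all.2 fun a => isol1 ρ _ s
  filter_upwards [h] with z hz
  exact (notCC ρ U).2 hz

private theorem CC_closed [Finite α] : IsClosed (CC ρ U) := by
  rw [← isOpen_compl_iff, isOpen_iff_mem_nhds]
  intro z hz
  have h := CC_isol ρ U z
  rw [eventually_nhdsWithin_iff] at h
  filter_upwards [h] with w hw
  by_cases hwz : w = z
  · rw [hwz]
    exact hz
  · exact hw hwz

private theorem CC_cnt [Finite α] : (CC ρ U).Countable := by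
  apply (HereditarilyLindelofSpace.isLindelof _).countable_of_isDiscrete
  rw [isDiscrete_iff_nhdsNE]
  intro x _
  refine _root_.disjoint_iff.1 ?_
  rw [Filter.disjoint_principal_right]
  exact CC_isol ρ U x

private theorem CC_per (l : L.lattice) (z : ℂ) : z + l ∈ CC ρ U ↔ z ∈ CC ρ U := by
  simp only [CC, Set.mem_setOf_eq, dv_per L (ρ.per _) l z]

private theorem CC_cj
    (hr : ∀ f : K, (fun z => conj (ρ.ev f (conj z))) =ᶠ[codiscrete ℂ] ρ.ev f) (z : ℂ) :
    conj z ∈ CC ρ U ↔ z ∈ CC ρ U := by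
  have h : ∀ z, z ∉ CC ρ U → conj z ∉ CC ρ U := fun z hz => by
    rw [notCC] at hz ⊢
    exact fun a => (nf_real ρ hr (hz a)).1
  constructor
  · intro h1
    by_contra h2
    exact h z h2 h1
  · intro h1
    by_contra h2
    have := h _ h2
    rw [Complex.conj_conj] at this
    exact this h1

end

/-! ### the functionals at a generic point -/

section
variable {ρ : EllRep L K}

/-- `fl L c` as a homomorphism -/
private def flH {z : ℂ} (G : GPt ρ z) (m : Additive Kˣ →+ ℝ) (c : Fin 4 → ℝ) :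
    Additive Kˣ →+ ℝ :=
  (AddMonoidHom.mulLeft (c 0)).comp G.lg +
    (AddMonoidHom.mulLeft (c 1)).comp (Complex.reAddGroupHom.comp G.D) -
    (AddMonoidHom.mulLeft (c 2)).comp (Complex.imAddGroupHom.comp G.D) +
    (AddMonoidHom.mulLeft (c 3)).comp m

private theorem flH_apply {z : ℂ} (G : GPt ρ z) {m : Additive Kˣ →+ ℝ}
    (hm : ∀ u : Kˣ, m (Additive.ofMul u) = mu L (nf ρ (u : K))) (c : Fin 4 → ℝ) (u : Kˣ) :
    flH G m c (Additive.ofMul u) = fl L c (nf ρ (u : K)) z := by
  have h1 : flH G m c (Additive.ofMul u) = c 0 * G.lg (Additive.ofMul u) +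
    c 1 * (G.D (Additive.ofMul u)).re - c 2 * (G.D (Additive.ofMul u)).im +
    c 3 * m (Additive.ofMul u) := rfl
  rw [h1, G.hlg, G.hD, hm, fl, lx, ly]
  ring

private theorem fl_cont {u : Kˣ} {z : ℂ} (h : dv (ρ.ev (u : K)) z = 0) (c : Fin 4 → ℝ) :
    ContinuousAt (fl L c (nf ρ (u : K))) z := by
  obtain ⟨h1, h2⟩ := nf_an ρ h
  have hla : ContinuousAt (la (nf ρ (u : K))) z :=
    h1.continuousAt.norm.log (norm_ne_zero_iff.2 h2)
  have hld : ContinuousAt (ld (nf ρ (u : K))) z := h1.deriv.continuousAt.div h1.continuousAt h2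
  have hlx : ContinuousAt (lx (nf ρ (u : K))) z := Complex.continuous_re.continuousAt.comp hld
  have hly : ContinuousAt (ly (nf ρ (u : K))) z :=
    (Complex.continuous_im.continuousAt.comp hld).neg
  exact ((((hla.const_mul _).add (hlx.const_mul _)).add (hly.const_mul _)).add
    continuousAt_const)

private theorem dense_zero {F : ℂ → ℝ} {C Z : Set ℂ} (hC : IsClosed C) (hZ : Z.Countable)
    (hF : ∀ z, z ∉ C → ContinuousAt F z) (h : ∀ z, z ∉ C → z ∉ Z → F z = 0) {z : ℂ}
    (hz : z ∉ C) : F z = 0 := by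
  by_contra hne
  have h1 : ∀ᶠ w in 𝓝 z, F w ≠ 0 := (hF z hz).eventually_ne hne
  have h2 : ∀ᶠ w in 𝓝 z, w ∉ C := hC.isOpen_compl.mem_nhds hz
  have hd : Dense Zᶜ := hZ.dense_compl ℝ
  obtain ⟨w, hw, hw2⟩ := mem_closure_iff_nhds.1 (hd z) _ (h1.and h2)
  exact hw.1 (h w hw.2 hw2)

end

private theorem unit_one_sub {u : Kˣ} (hu : u ≠ 1) : (1 - (u : K)) ≠ 0 := by
  intro h
  apply hu
  ext
  rw [Units.val_one]
  exact (sub_eq_zero.1 h).symm

private theorem unitOf_one_sub {u : Kˣ} (hu : u ≠ 1) :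
    unitOf (some (1 - (u : K))) = Additive.ofMul (Units.mk0 (1 - (u : K)) (unit_one_sub hu)) := by
  simp only [unitOf, dif_neg (unit_one_sub hu)]

/-- a 2-cocycle gives a system (the `i` with `f i = 1` are left out) -/
theorem exists_sys (hL : RL L) (ρ : EllRep L K) (hρ : RepQ ρ) (P : PLs) {q : ℕ} (hq : Even q)
    (hq2 : 2 ≤ q) {ι : Type} [Fintype ι] (f g : ι → Kˣ)
    (h1 : CocycleI (q - 1) f g) (h2 : CocycleII q ρ f g)
    (κ : Type) [Fintype κ] (e : κ → ι) (he : Function.Injective e)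
    (hr : Set.range e = {i | f i ≠ 1}) :
    ∃ S : Sys L P q κ, (∀ i, S.f i = nf ρ (f (e i) : K)) ∧
      (∀ i, S.h i = nf ρ (1 - (f (e i) : K))) ∧ (∀ i, S.g i = nf ρ (g (e i) : K)) := by
  classical
  have := hρ.cnt
  have hne : ∀ k : κ, f (e k) ≠ 1 := fun k => by
    have : e k ∈ Set.range e := ⟨k, rfl⟩
    rw [hr] at this
    exact this
  -- sums over `ι` and over `κ`
  have hsum : ∀ T : ι → ℝ, (∀ i, f i = 1 → T i = 0) → ∑ k, T (e k) = ∑ i, T i := by
    intro T hT
    refine Fintype.sum_of_injective e he _ _ (fun i hi => ?_) fun k => rfl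
    apply hT
    by_contra h
    apply hi
    rw [hr]
    exact h
  obtain ⟨hU, hhU⟩ : ∃ hU : κ → Kˣ, ∀ k, hU k = Units.mk0 (1 - (f (e k) : K))
    (unit_one_sub (hne k)) := ⟨_, fun k => rfl⟩
  have hUv : ∀ k, (hU k : K) = 1 - (f (e k) : K) := fun k => by rw [hhU, Units.val_mk0]
  obtain ⟨U, hU'⟩ : ∃ U : κ × Fin 3 → Kˣ, U = fun a => ![f (e a.1), hU a.1, g (e a.1)] a.2 :=
    ⟨_, rfl⟩
  have hUf : ∀ k, U (k, 0) = f (e k) := fun k => by rw [hU']; rfl
  have hUh : ∀ k, U (k, 1) = hU k := fun k => by rw [hU']; rfl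
  have hUg : ∀ k, U (k, 2) = g (e k) := fun k => by rw [hU']; rfl
  have hf0 : ∀ k z, z ∉ CC ρ U → dv (ρ.ev (f (e k) : K)) z = 0 := fun k z hz => by
    have := (notCC ρ U).1 hz (k, 0)
    rwa [hUf] at this
  have hh0 : ∀ k z, z ∉ CC ρ U → dv (ρ.ev (hU k : K)) z = 0 := fun k z hz => by
    have := (notCC ρ U).1 hz (k, 1)
    rwa [hUh] at this
  have hg0 : ∀ k z, z ∉ CC ρ U → dv (ρ.ev (g (e k) : K)) z = 0 := fun k z hz => by
    have := (notCC ρ U).1 hz (k, 2)
    rwa [hUg] at this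
  obtain ⟨Z, hZ, hGP⟩ := gpt ρ hρ.cnt
  obtain ⟨m, hm⟩ := muHom ρ
  have hclosed : IsClosed (CC ρ U) := CC_closed ρ U
  have hPc : ∀ k, 2 ≤ k → ∀ i z, z ∉ CC ρ U →
      ContinuousAt (fun z => P.L k (nf ρ (f (e i) : K) z)) z := fun k hk i z hz =>
    (P.cont k hk).continuousAt.comp (nf_an ρ (hf0 i z hz)).1.continuousAt
  have hrel : ∀ k j, 2 ≤ k → k + j = q + 1 → ∀ (c : Fin j → Fin 4 → ℝ) (a b : Fin 4 → ℝ) (z : ℂ),
      z ∉ CC ρ U → ∑ i, P.L k (nf ρ (f (e i) : K) z) * (∏ s, fl L (c s) (nf ρ (f (e i) : K)) z) *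
        (fl L a (nf ρ (f (e i) : K)) z * fl L b (nf ρ (g (e i) : K)) z -
          fl L a (nf ρ (g (e i) : K)) z * fl L b (nf ρ (f (e i) : K)) z) = 0 := by
    intro k j hk hkj c a b z hz
    refine dense_zero (F := fun z => ∑ i, P.L k (nf ρ (f (e i) : K) z) *
      (∏ s, fl L (c s) (nf ρ (f (e i) : K)) z) *
        (fl L a (nf ρ (f (e i) : K)) z * fl L b (nf ρ (g (e i) : K)) z -
          fl L a (nf ρ (g (e i) : K)) z * fl L b (nf ρ (f (e i) : K)) z)) hclosed hZ
      (fun w hw => ?_) (fun w hw hwZ => ?_) hz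
    · refine tendsto_finsetSum _ fun i _ => ?_
      refine ((hPc k hk i w hw).mul (tendsto_finsetProd _ fun s _ => ?_)).mul
        (((fl_cont (hf0 i w hw) a).mul (fl_cont (hg0 i w hw) b)).sub
          ((fl_cont (hg0 i w hw) a).mul (fl_cont (hf0 i w hw) b)))
      exact fl_cont (hf0 i w hw) (c s)
    · obtain ⟨G⟩ := hGP w hwZ
      have h3 := relR P (q - 1) G.p f g h1 k j hk (by omega) (fun s => flH G m (c s))
        (flH G m a) (flH G m b)
      simp only [flH_apply G hm, G.hp] at h3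
      rw [← h3]
      refine hsum (fun i => P.L k (nf ρ (f i : K) w) * (∏ s, fl L (c s) (nf ρ (f i : K)) w) *
        (fl L a (nf ρ (f i : K)) w * fl L b (nf ρ (g i : K)) w -
          fl L a (nf ρ (g i : K)) w * fl L b (nf ρ (f i : K)) w)) fun i hi => ?_
      have h4 : ∀ c, fl L c (nf ρ (f i : K)) w = 0 := fun c => by
        rw [← flH_apply G hm, hi, ofMul_one, map_zero]
      rw [h4, h4, zero_mul, mul_zero, sub_zero, mul_zero]
  have hel : ∀ j, j + 1 = q → ∀ (p r : Fin 4 → ℝ) (c : Fin j → Fin 4 → ℝ) (a b : Fin 4 → ℝ)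
      (z : ℂ), z ∉ CC ρ U →
      ∑ i, (fl L p (nf ρ (1 - (f (e i) : K))) z * fl L r (nf ρ (f (e i) : K)) z -
        fl L r (nf ρ (1 - (f (e i) : K))) z * fl L p (nf ρ (f (e i) : K)) z) *
      (∏ s, fl L (c s) (nf ρ (f (e i) : K)) z) *
      (fl L a (nf ρ (f (e i) : K)) z * fl L b (nf ρ (g (e i) : K)) z -
        fl L a (nf ρ (g (e i) : K)) z * fl L b (nf ρ (f (e i) : K)) z) = 0 := by
    intro j hj p r c a b z hz
    obtain rfl : j = q - 1 := by omega
    refine dense_zero (F := fun z => ∑ i, (fl L p (nf ρ (1 - (f (e i) : K))) z *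
        fl L r (nf ρ (f (e i) : K)) z -
        fl L r (nf ρ (1 - (f (e i) : K))) z * fl L p (nf ρ (f (e i) : K)) z) *
      (∏ s, fl L (c s) (nf ρ (f (e i) : K)) z) *
      (fl L a (nf ρ (f (e i) : K)) z * fl L b (nf ρ (g (e i) : K)) z -
        fl L a (nf ρ (g (e i) : K)) z * fl L b (nf ρ (f (e i) : K)) z)) hclosed hZ
      (fun w hw => ?_) (fun w hw hwZ => ?_) hz
    · refine tendsto_finsetSum _ fun i _ => ?_
      have hc : ∀ c, ContinuousAt (fl L c (nf ρ (1 - (f (e i) : K)))) w := fun c => by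
        rw [← hUv]
        exact fl_cont (hh0 i w hw) c
      refine ((((hc p).mul (fl_cont (hf0 i w hw) r)).sub
        ((hc r).mul (fl_cont (hf0 i w hw) p))).mul (tendsto_finsetProd _ fun s _ => ?_)).mul
        (((fl_cont (hf0 i w hw) a).mul (fl_cont (hg0 i w hw) b)).sub
          ((fl_cont (hg0 i w hw) a).mul (fl_cont (hf0 i w hw) b)))
      exact fl_cont (hf0 i w hw) (c s)
    · obtain ⟨G⟩ := hGP w hwZ
      have h3 := cocycle_numR (q - 1) f g h1 (flH G m p) (flH G m r) (flH G m a) (flH G m b)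
        (fun s => flH G m (c s))
      rw [← hsum _ fun i hi => ?_] at h3
      · rw [← h3]
        refine Finset.sum_congr rfl fun i _ => ?_
        rw [unitOf_one_sub (hne i), flH_apply G hm, flH_apply G hm, flH_apply G hm,
          flH_apply G hm, flH_apply G hm, flH_apply G hm, flH_apply G hm, flH_apply G hm,
          Units.val_mk0]
        simp only [flH_apply G hm]
        ring
      · have h4 : Additive.ofMul (f i) = 0 := by rw [hi, ofMul_one]
        simp only [h4, map_zero, mul_zero, zero_mul, sub_zero]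
  have hcusp : ∀ s, Tendsto (fun z => ∑ i, (dv (nf ρ (g (e i) : K)) s : ℝ) *
      P.L (q + 2) (nf ρ (f (e i) : K) z)) (𝓝[≠] s) (𝓝 0) := by
    intro s
    simp only [nf_dv]
    by_cases hall : ∀ i, dv (ρ.ev (g (e i) : K)) s = 0
    · simp only [hall, Int.cast_zero, zero_mul, Finset.sum_const_zero]
      exact tendsto_const_nhds
    · push Not at hall
      obtain ⟨i₀, hi₀⟩ := hall
      have hQa : Algebra.IsAlgebraic ℚ (AlgebraicClosure ℚ) := AlgebraicClosure.isAlgebraic ℚ
      have hQc : Countable (AlgebraicClosure ℚ) := by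
        have h := Algebra.IsAlgebraic.cardinalMk_le_max ℚ (AlgebraicClosure ℚ)
        rw [Cardinal.mkRat, max_self] at h
        exact Cardinal.mk_le_aleph0_iff.1 h
      obtain ⟨σ⟩ : Nonempty (AlgebraicClosure ℚ →+* ℂ) :=
        ⟨(IsAlgClosed.lift : AlgebraicClosure ℚ →ₐ[ℚ] ℂ).toRingHom⟩
      choose t ht using fun i => hρ.alg (f i) (g (e i₀)) s hi₀ σ
      have h3 := h2 σ s t ht
      have h4 := relII P q σ t (fun i => dv (ρ.ev (g i : K)) s) h3
      have hlim : ∀ i, Tendsto (fun z => P.L (q + 2) (nf ρ (f i : K) z)) (𝓝[≠] s)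
          (𝓝 (vL P (q + 2) ((t i).map σ))) := by
        intro i
        have hev : (nf ρ (f i : K)) =ᶠ[𝓝[≠] s] ρ.ev (f i : K) :=
          nhdsNE_of_codiscrete (nf_ev ρ _) s
        have h5 := ht i
        cases hti : t i with
        | none =>
          rw [hti] at h5
          have h6 : Tendsto (fun w => ‖ρ.ev (f i : K) w‖) (𝓝[≠] s) atTop := h5
          have h7 : Tendsto (ρ.ev (f i : K)) (𝓝[≠] s) (cocompact ℂ) := by
            rw [← Metric.cobounded_eq_cocompact, ← comap_norm_atTop, tendsto_comap_iff]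
            exact h6
          have h8 := (P.lim (q + 2) (by omega)).comp h7
          refine h8.congr' ?_
          filter_upwards [hev] with w hw
          rw [Function.comp_apply, hw]
        | some c =>
          rw [hti] at h5
          have h6 : Tendsto (ρ.ev (f i : K)) (𝓝[≠] s) (𝓝 (σ c)) := h5
          have h8 := ((P.cont (q + 2) (by omega)).tendsto (σ c)).comp h6
          refine h8.congr' ?_
          filter_upwards [hev] with w hw
          rw [Function.comp_apply, hw]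
      have h5 : ∑ i, (dv (ρ.ev (g (e i) : K)) s : ℝ) * vL P (q + 2) ((t (e i)).map σ) = 0 := by
        rw [← h4]
        refine hsum (fun i => (dv (ρ.ev (g i : K)) s : ℝ) * vL P (q + 2) ((t i).map σ))
          fun i hi => ?_
        have h6 := hlim i
        have h7 : Tendsto (fun z => P.L (q + 2) (nf ρ (f i : K) z)) (𝓝[≠] s)
            (𝓝 (P.L (q + 2) 1)) := by
          refine tendsto_const_nhds.congr' ?_
          have hev : (nf ρ (f i : K)) =ᶠ[𝓝[≠] s] ρ.ev (f i : K) :=
            nhdsNE_of_codiscrete (nf_ev ρ _) s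
          have hone : ρ.ev (1 : K) =ᶠ[𝓝[≠] s] 1 := nhdsNE_of_codiscrete ρ.map_one s
          rw [hi, Units.val_one] at hev ⊢
          filter_upwards [hev, hone] with w a1 a2
          rw [a1, a2, Pi.one_apply]
        rw [tendsto_nhds_unique h6 h7, P.r (q + 2) (by
          obtain ⟨r, rfl⟩ := hq
          exact ⟨r + 1, by ring⟩) 1 Complex.one_im, mul_zero]
      rw [← h5]
      exact tendsto_finsetSum _ fun i _ => (hlim (e i)).const_mul _
  exact ⟨{
    f := fun i => nf ρ (f (e i) : K)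
    h := fun i => nf ρ (1 - (f (e i) : K))
    g := fun i => nf ρ (g (e i) : K)
    C := CC ρ U
    fE := fun i => nf_ell ρ _
    hE := fun i => by
      rw [← hUv]
      exact nf_ell ρ _
    gE := fun i => nf_ell ρ _
    closed := hclosed
    cnt := CC_cnt ρ U
    isol := CC_isol ρ U
    per := CC_per ρ U
    cj := CC_cj ρ U hρ.real
    fa := fun i z hz => (nf_an ρ (hf0 i z hz)).1
    f0 := fun i z hz => (nf_an ρ (hf0 i z hz)).2
    ha := fun i z hz => by
      rw [← hUv]
      exact (nf_an ρ (hh0 i z hz)).1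
    h0 := fun i z hz => by
      rw [← hUv]
      exact (nf_an ρ (hh0 i z hz)).2
    ga := fun i z hz => (nf_an ρ (hg0 i z hz)).1
    g0 := fun i z hz => (nf_an ρ (hg0 i z hz)).2
    add := fun i z hz => by
      have hf1 := (nf_an ρ (hf0 i z hz)).1.continuousAt
      have hh1 := (nf_an ρ (hh0 i z hz)).1.continuousAt
      rw [hUv] at hh1
      have a1 : Tendsto (fun w => nf ρ (f (e i) : K) w + nf ρ (1 - (f (e i) : K)) w) (𝓝[≠] z)
          (𝓝 (nf ρ (f (e i) : K) z + nf ρ (1 - (f (e i) : K)) z)) :=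
        (hf1.add hh1).tendsto.mono_left nhdsWithin_le_nhds
      have a2 : Tendsto (fun w => nf ρ (f (e i) : K) w + nf ρ (1 - (f (e i) : K)) w) (𝓝[≠] z)
          (𝓝 1) := by
        refine tendsto_const_nhds.congr' ?_
        filter_upwards [nhdsNE_of_codiscrete (nf_ev ρ (f (e i) : K)) z,
          nhdsNE_of_codiscrete (nf_ev ρ (1 - (f (e i) : K))) z,
          nhdsNE_of_codiscrete (ρ.one_sub (f (e i) : K)) z] with w b1 b2 b3
        rw [b1, b2, b3]
        ring
      exact tendsto_nhds_unique a1 a2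
    fc := fun i z hz => (nf_real ρ hρ.real (hf0 i z hz)).2
    hc := fun i z hz => by
      rw [← hUv]
      exact (nf_real ρ hρ.real (hh0 i z hz)).2
    gc := fun i z hz => (nf_real ρ hρ.real (hg0 i z hz)).2
    rel := hrel
    el := hel
    cusp := hcusp }, fun i => rfl, fun i => rfl, fun i => rfl⟩

end Pool.Agent.F194.Y

end
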