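import Pool.Agent.Work.MP_f194bb_nt.Y.Comp

/-!
# MP_f194bb_nt, odd n: the form is closed
-/

set_option autoImplicit false

open scoped ComplexConjugate PeriodPair
open MeasureTheory Filter Topology

noncomputable section

namespace Pool.Agent.F194.Y

variable {L : PeriodPair} {P : PLs} {q : ℕ} {ι : Type} [Fintype ι] (S : Sys L P q ι)

private theorem clo_term_cd (i : ι) {z : ℂ} (hz : z ∉ S.C) {F : ℂ → ℝ}
    (hF : ContDiffAt ℝ 1 F z) :
    ContDiffAt ℝ 1 (fun z => ∑ j ∈ Finset.Icc 2 q, ee j * (la (S.g i) z * la (S.f i) z ^ (j - 1) *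
      P.L (q + 2 - j) (S.f i z) * F z)) z := by
  have ha : ContDiffAt ℝ 1 (la (S.f i)) z :=
    (la_cd (S.fa i z hz) (S.f0 i z hz)).of_le (by norm_num)
  have hb : ContDiffAt ℝ 1 (la (S.g i)) z :=
    (la_cd (S.ga i z hz) (S.g0 i z hz)).of_le (by norm_num)
  refine ContDiffAt.sum fun j hj => ?_
  rw [Finset.mem_Icc] at hj
  exact contDiffAt_const.mul (((hb.mul (ha.pow (j - 1))).mul
    (L_cd S (k := q + 2 - j) (by omega) i hz)).mul hF)

theorem Rx_cd {z : ℂ} (hz : z ∉ S.C) : ContDiffAt ℝ 1 (Rx S) z := by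
  unfold Rx
  refine ContDiffAt.sum fun i _ => ?_
  have ha : ContDiffAt ℝ 1 (la (S.f i)) z :=
    (la_cd (S.fa i z hz) (S.f0 i z hz)).of_le (by norm_num)
  have hb : ContDiffAt ℝ 1 (la (S.g i)) z :=
    (la_cd (S.ga i z hz) (S.g0 i z hz)).of_le (by norm_num)
  have hw : ContDiffAt ℝ 1 (la (S.h i)) z :=
    (la_cd (S.ha i z hz) (S.h0 i z hz)).of_le (by norm_num)
  have h1 := ((L_cd S (k := q + 2) (by omega) i hz).mul
    (ly_cd (S.ga i z hz) (S.g0 i z hz))).neg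
  have h2 := clo_term_cd S i hz (ly_cd (S.fa i z hz) (S.f0 i z hz))
  have h3 : ContDiffAt ℝ 1 (fun z => rr q * (la (S.g i) z * la (S.f i) z ^ q *
      (la (S.f i) z * lx (S.h i) z - la (S.h i) z * lx (S.f i) z))) z :=
    contDiffAt_const.mul ((hb.mul (ha.pow q)).mul
      ((ha.mul (lx_cd (S.ha i z hz) (S.h0 i z hz))).sub
        (hw.mul (lx_cd (S.fa i z hz) (S.f0 i z hz)))))
  exact (h1.sub h2).add h3

theorem Ry_cd {z : ℂ} (hz : z ∉ S.C) : ContDiffAt ℝ 1 (Ry S) z := by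
  unfold Ry
  refine ContDiffAt.sum fun i _ => ?_
  have ha : ContDiffAt ℝ 1 (la (S.f i)) z :=
    (la_cd (S.fa i z hz) (S.f0 i z hz)).of_le (by norm_num)
  have hb : ContDiffAt ℝ 1 (la (S.g i)) z :=
    (la_cd (S.ga i z hz) (S.g0 i z hz)).of_le (by norm_num)
  have hw : ContDiffAt ℝ 1 (la (S.h i)) z :=
    (la_cd (S.ha i z hz) (S.h0 i z hz)).of_le (by norm_num)
  have h1 := (L_cd S (k := q + 2) (by omega) i hz).mul
    (lx_cd (S.ga i z hz) (S.g0 i z hz))
  have h2 := clo_term_cd S i hz (lx_cd (S.fa i z hz) (S.f0 i z hz))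
  have h3 : ContDiffAt ℝ 1 (fun z => rr q * (la (S.g i) z * la (S.f i) z ^ q *
      (la (S.f i) z * ly (S.h i) z - la (S.h i) z * ly (S.f i) z))) z :=
    contDiffAt_const.mul ((hb.mul (ha.pow q)).mul
      ((ha.mul (ly_cd (S.ha i z hz) (S.h0 i z hz))).sub
        (hw.mul (ly_cd (S.fa i z hz) (S.f0 i z hz)))))
  exact (h1.add h2).add h3

/-! ### periodicity -/

private theorem clo_la {u : ℂ → ℂ} (hu : Ell L u) (l : L.lattice) (z : ℂ) :
    la u (z + l) = la u z := by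
  rw [la, la, hu.per l z]

private theorem clo_ld {u : ℂ → ℂ} (hu : Ell L u) (l : L.lattice) (z : ℂ) :
    ld u (z + l) = ld u z := by
  have h : ∀ w, u (w + l) = u w := hu.per l
  unfold ld
  rw [h z]
  congr 1
  have h2 := deriv_comp_add_const u (l : ℂ) z
  rw [← h2]
  congr 1
  funext w
  exact h w

private theorem clo_lx {u : ℂ → ℂ} (hu : Ell L u) (l : L.lattice) (z : ℂ) :
    lx u (z + l) = lx u z := by
  rw [lx, lx, clo_ld hu]

private theorem clo_ly {u : ℂ → ℂ} (hu : Ell L u) (l : L.lattice) (z : ℂ) :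
    ly u (z + l) = ly u z := by
  rw [ly, ly, clo_ld hu]

theorem Rx_per (l : L.lattice) (z : ℂ) : Rx S (z + l) = Rx S z := by
  have hf : ∀ i, S.f i (z + l) = S.f i z := fun i => (S.fE i).per l z
  simp only [Rx, hf, clo_la (S.fE _), clo_la (S.gE _), clo_la (S.hE _), clo_lx (S.fE _),
    clo_lx (S.hE _), clo_ly (S.fE _), clo_ly (S.gE _)]

theorem Ry_per (l : L.lattice) (z : ℂ) : Ry S (z + l) = Ry S z := by
  have hf : ∀ i, S.f i (z + l) = S.f i z := fun i => (S.fE i).per l z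
  simp only [Ry, hf, clo_la (S.fE _), clo_la (S.gE _), clo_la (S.hE _), clo_lx (S.fE _),
    clo_lx (S.gE _), clo_ly (S.fE _), clo_ly (S.hE _)]

/-! ### the sums with Bernoulli numbers -/

private theorem clo_ee0 : ee 0 = 1 := by simp [ee]

private theorem clo_ee1 : ee 1 = 0 := ee_odd (by decide)

private theorem clo_ee_rec {J : ℕ} (hJ : 2 ≤ J) :
    (J : ℝ) * ee J = bt J + ∑ i ∈ Finset.Icc 2 (J - 2), bt i * ee (J - i) := by
  rw [ee_rec]
  obtain ⟨t, rfl⟩ : ∃ t, J = t + 2 := ⟨J - 2, by omega⟩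
  rw [Finset.sum_Icc_succ_top (by omega), Nat.sub_self, clo_ee0, mul_one, add_comm,
    Nat.add_sub_cancel]
  congr 1
  rcases Nat.eq_zero_or_pos t with rfl | ht
  · simp
  · rw [Finset.sum_Icc_succ_top (by omega)]
    rw [show t + 2 - (t + 1) = 1 by omega, clo_ee1, mul_zero, add_zero]

private theorem clo_dsum (q : ℕ) (u : ℕ → ℝ) :
    ∑ j ∈ Finset.Icc 2 q, (bt j - j * ee j) * u j +
      ∑ j ∈ Finset.Icc 2 q, ee j * ∑ i ∈ Finset.Icc 2 (q - j), bt i * u (j + i) = 0 := by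
  have h1 : ∑ j ∈ Finset.Icc 2 q, ee j * ∑ i ∈ Finset.Icc 2 (q - j), bt i * u (j + i) =
      ∑ j ∈ Finset.Icc 2 q, ∑ J ∈ Finset.Icc (j + 2) q, ee j * bt (J - j) * u J := by
    refine Finset.sum_congr rfl fun j hj => ?_
    rw [Finset.mem_Icc] at hj
    rw [Finset.mul_sum]
    refine Finset.sum_nbij' (fun i => j + i) (fun J => J - j) ?_ ?_ ?_ ?_ ?_
    · intro i hi
      simp only [Finset.mem_Icc] at hi ⊢
      omega
    · intro J hJ
      simp only [Finset.mem_Icc] at hJ ⊢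
      omega
    · intro i hi
      omega
    · intro J hJ
      simp only [Finset.mem_Icc] at hJ
      omega
    · intro i hi
      rw [Nat.add_sub_cancel_left]
      ring
  have h2 : ∑ j ∈ Finset.Icc 2 q, ∑ J ∈ Finset.Icc (j + 2) q, ee j * bt (J - j) * u J =
      ∑ J ∈ Finset.Icc 2 q, ∑ j ∈ Finset.Icc 2 (J - 2), ee j * bt (J - j) * u J := by
    refine Finset.sum_comm' fun j J => ?_
    simp only [Finset.mem_Icc]
    omega
  rw [h1, h2, ← Finset.sum_add_distrib]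
  refine Finset.sum_eq_zero fun J hJ => ?_
  rw [Finset.mem_Icc] at hJ
  have h3 : ∑ j ∈ Finset.Icc 2 (J - 2), ee j * bt (J - j) * u J =
      (∑ i ∈ Finset.Icc 2 (J - 2), bt i * ee (J - i)) * u J := by
    rw [Finset.sum_mul]
    refine Finset.sum_nbij' (fun j => J - j) (fun i => J - i) ?_ ?_ ?_ ?_ ?_
    · intro i hi
      simp only [Finset.mem_Icc] at hi ⊢
      omega
    · intro i hi
      simp only [Finset.mem_Icc] at hi ⊢
      omega
    · intro i hi
      simp only [Finset.mem_Icc] at hi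
      omega
    · intro i hi
      simp only [Finset.mem_Icc] at hi
      omega
    · intro i hi
      simp only [Finset.mem_Icc] at hi
      rw [show J - (J - i) = i by omega]
      ring
  rw [h3, clo_ee_rec hJ.1]
  ring

/-! ### the derivatives -/

private def SS (P : PLs) (m : ℕ) (f : ℂ → ℂ) (z : ℂ) : ℝ :=
  ∑ j ∈ Finset.Icc 2 (m - 2), bt j * la f z ^ (j - 1) * P.L (m - j) (f z)

private theorem rl_one (u : ℂ → ℂ) (z : ℂ) : rl (ld u z) 1 = lx u z := by
  simp [lx]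

private theorem rl_I (u : ℂ → ℂ) (z : ℂ) : rl (ld u z) Complex.I = ly u z := by
  simp [ly]

private theorem il_one (u : ℂ → ℂ) (z : ℂ) : il (ld u z) 1 = -ly u z := by
  simp [ly]

private theorem il_I (u : ℂ → ℂ) (z : ℂ) : il (ld u z) Complex.I = lx u z := by
  simp [lx]

private theorem clo_L (i : ι) {z : ℂ} (hz : z ∉ S.C) {m : ℕ} (hm : 2 ≤ m) :
    ∃ D : ℂ →L[ℝ] ℝ, HasFDerivAt (fun z => P.L m (S.f i z)) D z ∧
      (Even m → D 1 * lx (S.f i) z + D Complex.I * ly (S.f i) z =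
        (if m = 2 then la (S.f i) z * (lx (S.h i) z * ly (S.f i) z -
          ly (S.h i) z * lx (S.f i) z) else 0) -
        (lx (S.f i) z ^ 2 + ly (S.f i) z ^ 2) * SS P m (S.f i) z) := by
  rcases Nat.lt_or_ge m 3 with h3 | h3
  · obtain rfl : m = 2 := by omega
    refine ⟨_, L2_fd S i hz, fun _ => ?_⟩
    rw [if_pos rfl]
    simp only [sub_apply, smul_apply, smul_eq_mul, il_one, il_I, SS]
    rw [show Finset.Icc 2 (2 - 2) = ∅ from rfl, Finset.sum_empty]
    ring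
  · refine ⟨_, L_fd S h3 i hz, fun he => ?_⟩
    have h4 : ¬ Even (m - 1) := by
      intro h5
      obtain ⟨s, hs⟩ := he
      obtain ⟨t, ht⟩ := h5
      omega
    rw [if_neg (by omega)]
    simp only [sub_apply, smul_apply, smul_eq_mul, il_one, il_I, rl_one, rl_I, SS, bt_odd h4,
      he.neg_one_pow]
    ring

private theorem clo_top (i : ι) {z : ℂ} (hz : z ∉ S.C) (hq : Even q) (hq2 : 2 ≤ q) :
    ∃ D₁ D₂ : ℂ →L[ℝ] ℝ,
      HasFDerivAt (fun z => P.L (q + 2) (S.f i z) * ly (S.g i) z) D₁ z ∧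
      HasFDerivAt (fun z => P.L (q + 2) (S.f i z) * lx (S.g i) z) D₂ z ∧
      D₁ Complex.I + D₂ 1 =
        P.L (q + 1) (S.f i z) * (lx (S.f i) z * ly (S.g i) z - lx (S.g i) z * ly (S.f i) z) -
        SS P (q + 2) (S.f i) z * (lx (S.f i) z * lx (S.g i) z + ly (S.f i) z * ly (S.g i) z) := by
  have h1 := L_fd S (k := q + 2) (by omega) i hz
  obtain ⟨h2, h3⟩ := lxy_fd (S.ga i z hz) (S.g0 i z hz)
  have he : Even (q + 2) := hq.add (by decide)
  have h4 : ¬ Even (q + 1) := by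
    intro h5
    obtain ⟨s, hs⟩ := he
    obtain ⟨t, ht⟩ := h5
    omega
  rw [show q + 2 - 1 = q + 1 by omega] at h1
  refine ⟨_, _, h1.mul h3, h1.mul h2, ?_⟩
  simp only [add_apply, sub_apply, neg_apply, smul_apply, smul_eq_mul, il_one, il_I, rl_one, rl_I,
    SS, bt_odd h4, he.neg_one_pow, rl_apply (deriv _ _), il_apply (deriv _ _),
    mul_one, Complex.mul_re, Complex.mul_im, Complex.I_re,
    Complex.I_im, mul_zero, add_zero, zero_add, zero_sub]
  ring

private theorem clo_mid (i : ι) {z : ℂ} (hz : z ∉ S.C) {m : ℕ} (hm : 2 ≤ m) (j : ℕ) :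
    ∃ D₁ D₂ : ℂ →L[ℝ] ℝ,
      HasFDerivAt (fun z => la (S.g i) z * la (S.f i) z ^ (j - 1) *
        P.L m (S.f i z) * ly (S.f i) z) D₁ z ∧
      HasFDerivAt (fun z => la (S.g i) z * la (S.f i) z ^ (j - 1) *
        P.L m (S.f i z) * lx (S.f i) z) D₂ z ∧
      (Even m → D₁ Complex.I + D₂ 1 =
        P.L m (S.f i z) * la (S.f i) z ^ (j - 1) *
          (lx (S.f i) z * lx (S.g i) z + ly (S.f i) z * ly (S.g i) z) +
        ((j - 1 : ℕ) : ℝ) * (la (S.g i) z * (lx (S.f i) z ^ 2 + ly (S.f i) z ^ 2)) *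
          (la (S.f i) z ^ (j - 1 - 1) * P.L m (S.f i z)) +
        la (S.g i) z * la (S.f i) z ^ (j - 1) *
        ((if m = 2 then la (S.f i) z * (lx (S.h i) z * ly (S.f i) z -
          ly (S.h i) z * lx (S.f i) z) else 0) -
        (lx (S.f i) z ^ 2 + ly (S.f i) z ^ 2) * SS P m (S.f i) z)) := by
  obtain ⟨D, hD, hD'⟩ := clo_L S i hz hm
  have ha := la_fd (S.fa i z hz) (S.f0 i z hz)
  have hb := la_fd (S.ga i z hz) (S.g0 i z hz)
  obtain ⟨h2, h3⟩ := lxy_fd (S.fa i z hz) (S.f0 i z hz)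
  refine ⟨_, _, ((hb.mul (ha.pow (j - 1))).mul hD).mul h3,
    ((hb.mul (ha.pow (j - 1))).mul hD).mul h2, fun he => ?_⟩
  rw [← hD' he]
  simp only [add_apply, sub_apply, neg_apply, smul_apply, smul_eq_mul, rl_one, rl_I,
    rl_apply (deriv _ _), il_apply (deriv _ _), mul_one, Complex.mul_re, Complex.mul_im,
    Complex.I_re, Complex.I_im, mul_zero, add_zero, zero_add, zero_sub, Pi.mul_apply, nsmul_eq_mul]
  ring

private theorem clo_low (i : ι) {z : ℂ} (hz : z ∉ S.C) (hq2 : 2 ≤ q) :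
    ∃ D₁ D₂ : ℂ →L[ℝ] ℝ,
      HasFDerivAt (fun z => la (S.g i) z * la (S.f i) z ^ q *
        (la (S.f i) z * lx (S.h i) z - la (S.h i) z * lx (S.f i) z)) D₁ z ∧
      HasFDerivAt (fun z => la (S.g i) z * la (S.f i) z ^ q *
        (la (S.f i) z * ly (S.h i) z - la (S.h i) z * ly (S.f i) z)) D₂ z ∧
      D₁ Complex.I - D₂ 1 =
        (lx (S.h i) z * la (S.f i) z - la (S.h i) z * lx (S.f i) z) * la (S.f i) z ^ (q - 1) *
          (la (S.f i) z * ly (S.g i) z - la (S.g i) z * ly (S.f i) z) -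
        (ly (S.h i) z * la (S.f i) z - la (S.h i) z * ly (S.f i) z) * la (S.f i) z ^ (q - 1) *
          (la (S.f i) z * lx (S.g i) z - la (S.g i) z * lx (S.f i) z) +
        ((q : ℝ) + 3) * (la (S.g i) z * la (S.f i) z ^ (q - 1) * (la (S.f i) z *
          (lx (S.h i) z * ly (S.f i) z - ly (S.h i) z * lx (S.f i) z))) := by
  have ha := la_fd (S.fa i z hz) (S.f0 i z hz)
  have hb := la_fd (S.ga i z hz) (S.g0 i z hz)
  have hw := la_fd (S.ha i z hz) (S.h0 i z hz)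
  obtain ⟨h2, h3⟩ := lxy_fd (S.fa i z hz) (S.f0 i z hz)
  obtain ⟨h4, h5⟩ := lxy_fd (S.ha i z hz) (S.h0 i z hz)
  refine ⟨_, _, (hb.mul (ha.pow q)).mul ((ha.mul h4).sub (hw.mul h2)),
    (hb.mul (ha.pow q)).mul ((ha.mul h5).sub (hw.mul h3)), ?_⟩
  obtain ⟨t, rfl⟩ : ∃ t, q = t + 1 := ⟨q - 1, by omega⟩
  simp only [add_apply, sub_apply, neg_apply, smul_apply, smul_eq_mul, rl_one, rl_I,
    rl_apply (deriv _ _), il_apply (deriv _ _), mul_one, Complex.mul_re, Complex.mul_im,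
    Complex.I_re, Complex.I_im, mul_zero, add_zero, zero_add, zero_sub, Pi.mul_apply,
    Pi.sub_apply, nsmul_eq_mul, Nat.add_sub_cancel, pow_succ]
  push_cast
  ring

/-! ### the relations -/

private def c0 : Fin 4 → ℝ := ![1, 0, 0, 0]
private def c1 : Fin 4 → ℝ := ![0, 1, 0, 0]
private def c2 : Fin 4 → ℝ := ![0, 0, 1, 0]

private theorem fl0 (u : ℂ → ℂ) (z : ℂ) : fl L c0 u z = la u z := by simp [fl, c0]
private theorem fl1 (u : ℂ → ℂ) (z : ℂ) : fl L c1 u z = lx u z := by simp [fl, c1]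
private theorem fl2 (u : ℂ → ℂ) (z : ℂ) : fl L c2 u z = ly u z := by simp [fl, c2]

private theorem rel_top {z : ℂ} (hz : z ∉ S.C) (hq2 : 2 ≤ q) :
    ∑ i, P.L (q + 1) (S.f i z) *
      (lx (S.f i) z * ly (S.g i) z - lx (S.g i) z * ly (S.f i) z) = 0 := by
  have h := S.rel (q + 1) 0 (by omega) (by omega) Fin.elim0 c1 c2 z hz
  simpa only [Finset.univ_eq_empty, Finset.prod_empty, mul_one, fl1, fl2] using h

private theorem rel_x {z : ℂ} (hz : z ∉ S.C) {j : ℕ} (h2 : 2 ≤ j) (hj : j ≤ q) :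
    ∑ i, P.L (q + 2 - j) (S.f i z) * la (S.f i) z ^ (j - 1) *
      (lx (S.f i) z * lx (S.g i) z + ly (S.f i) z * ly (S.g i) z) =
    ∑ i, (la (S.g i) z * (lx (S.f i) z ^ 2 + ly (S.f i) z ^ 2)) *
      (la (S.f i) z ^ (j - 2) * P.L (q + 2 - j) (S.f i z)) := by
  obtain ⟨t, rfl⟩ : ∃ t, j = t + 2 := ⟨j - 2, by omega⟩
  have h1 := S.rel (q + 2 - (t + 2)) (t + 1) (by omega) (by omega) (Fin.cons c1 fun _ => c0)
    c0 c1 z hz
  have h3 := S.rel (q + 2 - (t + 2)) (t + 1) (by omega) (by omega) (Fin.cons c2 fun _ => c0)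
    c0 c2 z hz
  simp only [Fin.prod_univ_succ, Fin.cons_zero, Fin.cons_succ, fl0, fl1, fl2, Finset.prod_const,
    Finset.card_univ, Fintype.card_fin] at h1 h3
  rw [← sub_eq_zero, ← Finset.sum_sub_distrib, ← add_zero (0 : ℝ)]
  nth_rewrite 2 [← h1]
  rw [← h3, ← Finset.sum_add_distrib]
  refine Finset.sum_congr rfl fun i _ => ?_
  rw [show t + 2 - 1 = t + 1 by omega, show t + 2 - 2 = t by omega]
  ring

private theorem rel_lx {z : ℂ} (hz : z ∉ S.C) (hq2 : 2 ≤ q) :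
    ∑ i, (lx (S.h i) z * la (S.f i) z - la (S.h i) z * lx (S.f i) z) * la (S.f i) z ^ (q - 1) *
      (la (S.f i) z * ly (S.g i) z - la (S.g i) z * ly (S.f i) z) = 0 := by
  have h := S.el (q - 1) (by omega) c1 c0 (fun _ => c0) c0 c2 z hz
  simpa only [fl0, fl1, fl2, Finset.prod_const, Finset.card_univ, Fintype.card_fin] using h

private theorem rel_ly {z : ℂ} (hz : z ∉ S.C) (hq2 : 2 ≤ q) :
    ∑ i, (ly (S.h i) z * la (S.f i) z - la (S.h i) z * ly (S.f i) z) * la (S.f i) z ^ (q - 1) *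
      (la (S.f i) z * lx (S.g i) z - la (S.g i) z * lx (S.f i) z) = 0 := by
  have h := S.el (q - 1) (by omega) c2 c0 (fun _ => c0) c0 c1 z hz
  simpa only [fl0, fl1, fl2, Finset.prod_const, Finset.card_univ, Fintype.card_fin] using h

theorem closed (hq : Even q) (hq2 : 2 ≤ q) {z : ℂ} (hz : z ∉ S.C) :
    fderiv ℝ (Rx S) z Complex.I = fderiv ℝ (Ry S) z 1 := by
  choose A₁ A₂ hA₁ hA₂ hA using fun i => clo_top S i hz hq hq2
  choose C₁ C₂ hC₁ hC₂ hC using fun i => clo_low S i hz hq2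
  have hmid : ∀ (i : ι) (j : ℕ), ∃ D₁ D₂ : ℂ →L[ℝ] ℝ, j ∈ Finset.Icc 2 q →
      HasFDerivAt (fun z => la (S.g i) z * la (S.f i) z ^ (j - 1) *
        P.L (q + 2 - j) (S.f i z) * ly (S.f i) z) D₁ z ∧
      HasFDerivAt (fun z => la (S.g i) z * la (S.f i) z ^ (j - 1) *
        P.L (q + 2 - j) (S.f i z) * lx (S.f i) z) D₂ z ∧
      (Even (q + 2 - j) → D₁ Complex.I + D₂ 1 =
        P.L (q + 2 - j) (S.f i z) * la (S.f i) z ^ (j - 1) *
          (lx (S.f i) z * lx (S.g i) z + ly (S.f i) z * ly (S.g i) z) +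
        ((j - 1 : ℕ) : ℝ) * (la (S.g i) z * (lx (S.f i) z ^ 2 + ly (S.f i) z ^ 2)) *
          (la (S.f i) z ^ (j - 1 - 1) * P.L (q + 2 - j) (S.f i z)) +
        la (S.g i) z * la (S.f i) z ^ (j - 1) *
        ((if q + 2 - j = 2 then la (S.f i) z * (lx (S.h i) z * ly (S.f i) z -
          ly (S.h i) z * lx (S.f i) z) else 0) -
        (lx (S.f i) z ^ 2 + ly (S.f i) z ^ 2) * SS P (q + 2 - j) (S.f i) z)) := by
    intro i j
    by_cases hj : j ∈ Finset.Icc 2 q
    · have hj' := Finset.mem_Icc.1 hj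
      obtain ⟨D₁, D₂, h⟩ := clo_mid S i hz (m := q + 2 - j) (by omega) j
      exact ⟨D₁, D₂, fun _ => h⟩
    · exact ⟨0, 0, fun h => absurd h hj⟩
  choose B₁ B₂ hB using hmid
  have h1 : HasFDerivAt (Rx S) (∑ i, (-(A₁ i) - ∑ j ∈ Finset.Icc 2 q, ee j • B₁ i j +
      rr q • C₁ i)) z :=
    HasFDerivAt.fun_sum fun i _ => ((hA₁ i).neg.sub (HasFDerivAt.fun_sum fun j hj =>
      (hB i j hj).1.const_mul (ee j))).add ((hC₁ i).const_mul (rr q))
  have h2 : HasFDerivAt (Ry S) (∑ i, (A₂ i + ∑ j ∈ Finset.Icc 2 q, ee j • B₂ i j +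
      rr q • C₂ i)) z :=
    HasFDerivAt.fun_sum fun i _ => ((hA₂ i).add (HasFDerivAt.fun_sum fun j hj =>
      (hB i j hj).2.1.const_mul (ee j))).add ((hC₂ i).const_mul (rr q))
  rw [h1.fderiv, h2.fderiv, sum_apply, sum_apply,
    ← sub_eq_zero, ← Finset.sum_sub_distrib]
  have key : ∀ i, (-(A₁ i) - ∑ j ∈ Finset.Icc 2 q, ee j • B₁ i j + rr q • C₁ i) Complex.I -
      (A₂ i + ∑ j ∈ Finset.Icc 2 q, ee j • B₂ i j + rr q • C₂ i) 1 =
      (-(P.L (q + 1) (S.f i z) *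
          (lx (S.f i) z * ly (S.g i) z - lx (S.g i) z * ly (S.f i) z)) +
        ∑ j ∈ Finset.Icc 2 q, (bt j - ee j) * (P.L (q + 2 - j) (S.f i z) *
          la (S.f i) z ^ (j - 1) *
          (lx (S.f i) z * lx (S.g i) z + ly (S.f i) z * ly (S.g i) z)) +
        (la (S.g i) z * (lx (S.f i) z ^ 2 + ly (S.f i) z ^ 2)) *
          (∑ j ∈ Finset.Icc 2 q, ee j * ∑ t ∈ Finset.Icc 2 (q - j),
              bt t * (la (S.f i) z ^ (j + t - 2) * P.L (q + 2 - (j + t)) (S.f i z)) -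
            ∑ j ∈ Finset.Icc 2 q, (ee j * ((j : ℝ) - 1)) *
              (la (S.f i) z ^ (j - 2) * P.L (q + 2 - j) (S.f i z))) +
        rr q * ((lx (S.h i) z * la (S.f i) z - la (S.h i) z * lx (S.f i) z) *
          la (S.f i) z ^ (q - 1) *
          (la (S.f i) z * ly (S.g i) z - la (S.g i) z * ly (S.f i) z)) -
        rr q * ((ly (S.h i) z * la (S.f i) z - la (S.h i) z * ly (S.f i) z) *
          la (S.f i) z ^ (q - 1) *
          (la (S.f i) z * lx (S.g i) z - la (S.g i) z * lx (S.f i) z))) := by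
    intro i
    have e1 : (-(A₁ i) - ∑ j ∈ Finset.Icc 2 q, ee j • B₁ i j + rr q • C₁ i) Complex.I -
        (A₂ i + ∑ j ∈ Finset.Icc 2 q, ee j • B₂ i j + rr q • C₂ i) 1 =
        -(A₁ i Complex.I + A₂ i 1) -
          ∑ j ∈ Finset.Icc 2 q, ee j * (B₁ i j Complex.I + B₂ i j 1) +
          rr q * (C₁ i Complex.I - C₂ i 1) := by
      simp only [add_apply, sub_apply, neg_apply, smul_apply, smul_eq_mul, sum_apply, mul_add,
        Finset.sum_add_distrib]
      ring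
    have e2 : ∑ j ∈ Finset.Icc 2 q, ee j * (B₁ i j Complex.I + B₂ i j 1) =
        ∑ j ∈ Finset.Icc 2 q, ee j * (P.L (q + 2 - j) (S.f i z) *
          la (S.f i) z ^ (j - 1) *
          (lx (S.f i) z * lx (S.g i) z + ly (S.f i) z * ly (S.g i) z)) +
        (la (S.g i) z * (lx (S.f i) z ^ 2 + ly (S.f i) z ^ 2)) *
          (∑ j ∈ Finset.Icc 2 q, (ee j * ((j : ℝ) - 1)) *
              (la (S.f i) z ^ (j - 2) * P.L (q + 2 - j) (S.f i z)) -
            ∑ j ∈ Finset.Icc 2 q, ee j * ∑ t ∈ Finset.Icc 2 (q - j),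
              bt t * (la (S.f i) z ^ (j + t - 2) * P.L (q + 2 - (j + t)) (S.f i z))) +
        ∑ j ∈ Finset.Icc 2 q, ee j * (la (S.g i) z * la (S.f i) z ^ (j - 1) *
          (if q + 2 - j = 2 then la (S.f i) z * (lx (S.h i) z * ly (S.f i) z -
            ly (S.h i) z * lx (S.f i) z) else 0)) := by
      rw [← Finset.sum_sub_distrib, Finset.mul_sum, ← Finset.sum_add_distrib,
        ← Finset.sum_add_distrib]
      refine Finset.sum_congr rfl fun j hj => ?_
      have hj' := Finset.mem_Icc.1 hj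
      by_cases he : Even j
      · have he' : Even (q + 2 - j) := by
          obtain ⟨s, hs⟩ := he
          obtain ⟨t, ht⟩ := hq
          exact ⟨t + 1 - s, by omega⟩
        rw [(hB i j hj).2.2 he']
        have hc : ((j - 1 : ℕ) : ℝ) = (j : ℝ) - 1 := by
          rw [Nat.cast_sub (by omega), Nat.cast_one]
        have hs : la (S.f i) z ^ (j - 1) * SS P (q + 2 - j) (S.f i) z =
            ∑ t ∈ Finset.Icc 2 (q - j),
              bt t * (la (S.f i) z ^ (j + t - 2) * P.L (q + 2 - (j + t)) (S.f i z)) := by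
          rw [SS, Finset.mul_sum, show q + 2 - j - 2 = q - j by omega]
          refine Finset.sum_congr rfl fun t ht => ?_
          have ht' := Finset.mem_Icc.1 ht
          rw [show j + t - 2 = (j - 1) + (t - 1) by omega, pow_add,
            show q + 2 - (j + t) = q + 2 - j - t by omega]
          ring
        rw [← hs, hc, show j - 1 - 1 = j - 2 by omega]
        ring
      · rw [ee_odd he]
        ring
    have e3 : ∑ j ∈ Finset.Icc 2 q, ee j * (la (S.g i) z * la (S.f i) z ^ (j - 1) *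
          (if q + 2 - j = 2 then la (S.f i) z * (lx (S.h i) z * ly (S.f i) z -
            ly (S.h i) z * lx (S.f i) z) else 0)) =
        ee q * (la (S.g i) z * la (S.f i) z ^ (q - 1) *
          (la (S.f i) z * (lx (S.h i) z * ly (S.f i) z - ly (S.h i) z * lx (S.f i) z))) := by
      rw [Finset.sum_eq_single_of_mem q (Finset.mem_Icc.2 ⟨hq2, le_rfl⟩)]
      · rw [if_pos (by omega)]
      · intro j hj hne
        have hj' := Finset.mem_Icc.1 hj
        rw [if_neg (by omega), mul_zero, mul_zero]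
    have e4 : SS P (q + 2) (S.f i) z *
        (lx (S.f i) z * lx (S.g i) z + ly (S.f i) z * ly (S.g i) z) =
        ∑ j ∈ Finset.Icc 2 q, bt j * (P.L (q + 2 - j) (S.f i z) *
          la (S.f i) z ^ (j - 1) *
          (lx (S.f i) z * lx (S.g i) z + ly (S.f i) z * ly (S.g i) z)) := by
      rw [SS, Finset.sum_mul, show q + 2 - 2 = q by omega]
      exact Finset.sum_congr rfl fun j _ => by ring
    rw [e1, e2, e3, hA, hC, e4]
    have e5 := rr_eq hq
    simp only [sub_mul, Finset.sum_sub_distrib]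
    linear_combination (la (S.g i) z * la (S.f i) z ^ (q - 1) *
      (la (S.f i) z * (lx (S.h i) z * ly (S.f i) z - ly (S.h i) z * lx (S.f i) z))) * e5
  rw [Finset.sum_congr rfl fun i _ => key i]
  simp only [Finset.sum_add_distrib, Finset.sum_sub_distrib, Finset.sum_neg_distrib]
  rw [rel_top S hz hq2, ← Finset.mul_sum, ← Finset.mul_sum, rel_lx S hz hq2, rel_ly S hz hq2,
    Finset.sum_comm]
  have k1 : ∑ j ∈ Finset.Icc 2 q, ∑ i, (bt j - ee j) * (P.L (q + 2 - j) (S.f i z) *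
          la (S.f i) z ^ (j - 1) *
          (lx (S.f i) z * lx (S.g i) z + ly (S.f i) z * ly (S.g i) z)) =
      ∑ j ∈ Finset.Icc 2 q, ∑ i, (bt j - ee j) *
        ((la (S.g i) z * (lx (S.f i) z ^ 2 + ly (S.f i) z ^ 2)) *
          (la (S.f i) z ^ (j - 2) * P.L (q + 2 - j) (S.f i z))) := by
    refine Finset.sum_congr rfl fun j hj => ?_
    have hj' := Finset.mem_Icc.1 hj
    rw [← Finset.mul_sum, ← Finset.mul_sum, rel_x S hz hj'.1 hj'.2]
  rw [k1, Finset.sum_comm]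
  rw [mul_zero, neg_zero, zero_add, add_zero, sub_zero, ← Finset.sum_add_distrib]
  refine Finset.sum_eq_zero fun i _ => ?_
  have k2 := clo_dsum q (fun J => la (S.f i) z ^ (J - 2) * P.L (q + 2 - J) (S.f i z))
  have k3 : ∑ j ∈ Finset.Icc 2 q, (bt j - ee j) *
        ((la (S.g i) z * (lx (S.f i) z ^ 2 + ly (S.f i) z ^ 2)) *
          (la (S.f i) z ^ (j - 2) * P.L (q + 2 - j) (S.f i z))) =
      (la (S.g i) z * (lx (S.f i) z ^ 2 + ly (S.f i) z ^ 2)) *
      (∑ j ∈ Finset.Icc 2 q, (bt j - j * ee j) *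
          (la (S.f i) z ^ (j - 2) * P.L (q + 2 - j) (S.f i z)) +
       ∑ j ∈ Finset.Icc 2 q, (ee j * ((j : ℝ) - 1)) *
          (la (S.f i) z ^ (j - 2) * P.L (q + 2 - j) (S.f i z))) := by
    rw [← Finset.sum_add_distrib, Finset.mul_sum]
    exact Finset.sum_congr rfl fun j _ => by ring
  rw [k3]
  linear_combination (la (S.g i) z * (lx (S.f i) z ^ 2 + ly (S.f i) z ^ 2)) * k2

end Pool.Agent.F194.Y

end
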