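import Pool.Agent.Work.MP_f194bb_nt.Y.NumA

/-!
# MP_f194bb_nt, odd n: derivatives
-/

set_option autoImplicit false

open scoped ComplexConjugate PeriodPair
open MeasureTheory Filter Topology

noncomputable section

namespace Pool.Agent.F194.Y

private theorem log_norm_fd {f : ℂ → ℂ} {f' z : ℂ} (hf : HasDerivAt f f' z) (h0 : f z ≠ 0) :
    HasFDerivAt (fun z => Real.log ‖f z‖) (rl (f' / f z)) z := by
  have h1 : HasDerivAt (fun w => Complex.log (f w / f z)) (f' / f z) z := by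
    have h2 := (hf.div_const (f z)).clog (by rw [div_self h0]; exact Complex.one_mem_slitPlane)
    rwa [div_self h0, div_one] at h2
  have h3 : HasFDerivAt (fun w => Real.log ‖f z‖ + (Complex.log (f w / f z)).re)
      (rl (f' / f z)) z := by
    have h4 := ((Complex.reCLM.hasFDerivAt (x := Complex.log (f z / f z))).comp z
      h1.complexToReal_fderiv).const_add (Real.log ‖f z‖)
    refine h4.congr_fderiv ?_
    ext h
    simp
  refine h3.congr_of_eventuallyEq ?_
  have hc : ContinuousAt f z := hf.continuousAt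
  filter_upwards [hc.eventually_ne h0] with w hw
  rw [Complex.log_re, norm_div, Real.log_div (norm_ne_zero_iff.2 hw) (norm_ne_zero_iff.2 h0)]
  ring

theorem la_fd {u : ℂ → ℂ} {z : ℂ} (h : AnalyticAt ℂ u z) (h0 : u z ≠ 0) :
    HasFDerivAt (la u) (rl (ld u z)) z :=
  log_norm_fd h.differentiableAt.hasDerivAt h0

theorem ld_an {u : ℂ → ℂ} {z : ℂ} (h : AnalyticAt ℂ u z) (h0 : u z ≠ 0) :
    AnalyticAt ℂ (ld u) z :=
  h.deriv.div h h0

theorem la_cd {u : ℂ → ℂ} {z : ℂ} (h : AnalyticAt ℂ u z) (h0 : u z ≠ 0) :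
    ContDiffAt ℝ 2 (la u) z :=
  ((h.contDiffAt.restrict_scalars ℝ).norm ℝ h0).log (norm_ne_zero_iff.2 h0)

/-- derivatives of `lx`, `ly`: `u'/u` is holomorphic -/
theorem lxy_fd {u : ℂ → ℂ} {z : ℂ} (h : AnalyticAt ℂ u z) (h0 : u z ≠ 0) :
    HasFDerivAt (lx u) (rl (deriv (ld u) z)) z ∧
    HasFDerivAt (ly u) (-il (deriv (ld u) z)) z := by
  have h1 := ((ld_an h h0).differentiableAt.hasDerivAt.hasFDerivAt.restrictScalars ℝ)
  constructor
  · have h2 := Complex.reCLM.hasFDerivAt.comp z h1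
    refine h2.congr_fderiv ?_
    ext v
    simp only [ContinuousLinearMap.comp_apply, ContinuousLinearMap.coe_restrictScalars',
      ContinuousLinearMap.toSpanSingleton_apply, smul_eq_mul, rl_apply, Complex.reCLM_apply]
    rw [mul_comm]
  · have h2 := (Complex.imCLM.hasFDerivAt.comp z h1).neg
    refine h2.congr_fderiv ?_
    ext v
    simp only [neg_apply, ContinuousLinearMap.comp_apply,
      ContinuousLinearMap.coe_restrictScalars',
      ContinuousLinearMap.toSpanSingleton_apply, smul_eq_mul, il_apply, Complex.imCLM_apply]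
    rw [mul_comm]

theorem lx_cd {u : ℂ → ℂ} {z : ℂ} (h : AnalyticAt ℂ u z) (h0 : u z ≠ 0) :
    ContDiffAt ℝ 1 (lx u) z :=
  Complex.reCLM.contDiff.contDiffAt.comp z ((ld_an h h0).contDiffAt.restrict_scalars ℝ)

theorem ly_cd {u : ℂ → ℂ} {z : ℂ} (h : AnalyticAt ℂ u z) (h0 : u z ≠ 0) :
    ContDiffAt ℝ 1 (ly u) z :=
  (Complex.imCLM.contDiff.contDiffAt.comp z ((ld_an h h0).contDiffAt.restrict_scalars ℝ)).neg

private theorem il_comp (c d : ℂ) :
    (il c).comp (ContinuousLinearMap.mul ℝ ℂ d) = il (c * d) := by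
  ext h
  simp [mul_assoc]

private theorem rl_comp (c d : ℂ) :
    (rl c).comp (ContinuousLinearMap.mul ℝ ℂ d) = rl (c * d) := by
  ext h
  simp [mul_assoc]

private theorem rl_cont : Continuous rl :=
  (ContinuousLinearMap.compL ℝ ℂ ℂ ℝ Complex.reCLM).continuous.comp
    (ContinuousLinearMap.mul ℝ ℂ).continuous

private theorem il_cont : Continuous il :=
  (ContinuousLinearMap.compL ℝ ℂ ℂ ℝ Complex.imCLM).continuous.comp
    (ContinuousLinearMap.mul ℝ ℂ).continuous

variable {L : PeriodPair} {P : PLs} {q : ℕ} {ι : Type} [Fintype ι] (S : Sys L P q ι)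

private theorem ev_not {z : ℂ} (hz : z ∉ S.C) : ∀ᶠ w in 𝓝 z, w ∉ S.C :=
  S.closed.isOpen_compl.mem_nhds hz

theorem h_eq (i : ι) {z : ℂ} (hz : z ∉ S.C) : S.h i z = 1 - S.f i z := by
  have := S.add i z hz
  linear_combination this

theorem f_ne_one (i : ι) {z : ℂ} (hz : z ∉ S.C) : S.f i z ≠ 1 := by
  intro h
  exact S.h0 i z hz (by rw [h_eq S i hz, h, sub_self])

theorem ld_rel (i : ι) {z : ℂ} (hz : z ∉ S.C) :
    S.f i z * ld (S.f i) z = (S.f i z - 1) * ld (S.h i) z := by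
  have h1 := (S.fa i z hz).differentiableAt.hasDerivAt.add
    (S.ha i z hz).differentiableAt.hasDerivAt
  have h2 : HasDerivAt (S.f i + S.h i) 0 z := by
    refine (hasDerivAt_const z (1 : ℂ)).congr_of_eventuallyEq ?_
    filter_upwards [ev_not S hz] with w hw using S.add i w hw
  have h3 := h1.unique h2
  have h4 : S.f i z - 1 = -S.h i z := by rw [h_eq S i hz]; ring
  have h5 := S.f0 i z hz
  have h6 := S.h0 i z hz
  rw [h4, ld, ld, mul_div_cancel₀ _ h5, neg_mul, mul_div_cancel₀ _ h6]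
  linear_combination h3

private theorem f_fd (i : ι) {z : ℂ} (hz : z ∉ S.C) :
    HasFDerivAt (S.f i) (ContinuousLinearMap.mul ℝ ℂ (S.f i z * ld (S.f i) z)) z := by
  have h := (S.fa i z hz).differentiableAt.hasDerivAt.complexToReal_fderiv
  convert h using 1
  ext h
  rw [ld, mul_div_cancel₀ _ (S.f0 i z hz)]
  simp

private theorem e1 (i : ι) {z : ℂ} (hz : z ∉ S.C) :
    (S.f i z)⁻¹ * (S.f i z * ld (S.f i) z) = ld (S.f i) z := by
  rw [inv_mul_cancel_left₀ (S.f0 i z hz)]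

private theorem e2 (i : ι) {z : ℂ} (hz : z ∉ S.C) :
    (S.f i z - 1)⁻¹ * (S.f i z * ld (S.f i) z) = ld (S.h i) z := by
  rw [ld_rel S i hz, inv_mul_cancel_left₀ (sub_ne_zero.2 (f_ne_one S i hz))]

theorem L2_fd (i : ι) {z : ℂ} (hz : z ∉ S.C) : HasFDerivAt (fun z => P.L 2 (S.f i z))
    (la (S.f i) z • il (ld (S.h i) z) - la (S.h i) z • il (ld (S.f i) z)) z := by
  have h := (P.d2 _ (S.f0 i z hz) (f_ne_one S i hz)).comp z (f_fd S i hz)
  rwa [ContinuousLinearMap.sub_comp, ContinuousLinearMap.smul_comp, ContinuousLinearMap.smul_comp,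
    il_comp, il_comp, e1 S i hz, e2 S i hz, ← h_eq S i hz] at h

theorem L_fd {k : ℕ} (hk : 3 ≤ k) (i : ι) {z : ℂ} (hz : z ∉ S.C) :
    HasFDerivAt (fun z => P.L k (S.f i z))
      (((-1) ^ k * P.L (k - 1) (S.f i z)) • il (ld (S.f i) z) -
        (∑ j ∈ Finset.Icc 2 (k - 2), bt j * la (S.f i) z ^ (j - 1) * P.L (k - j) (S.f i z)) •
          rl (ld (S.f i) z) -
        (bt (k - 1) * la (S.f i) z ^ (k - 2)) •
          (la (S.f i) z • rl (ld (S.h i) z) - la (S.h i) z • rl (ld (S.f i) z))) z := by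
  have h := (P.d k hk _ (S.f0 i z hz) (f_ne_one S i hz)).comp z (f_fd S i hz)
  rwa [ContinuousLinearMap.sub_comp, ContinuousLinearMap.sub_comp, ContinuousLinearMap.smul_comp,
    ContinuousLinearMap.smul_comp, ContinuousLinearMap.smul_comp, ContinuousLinearMap.sub_comp,
    ContinuousLinearMap.smul_comp, ContinuousLinearMap.smul_comp,
    il_comp, rl_comp, rl_comp, e1 S i hz, e2 S i hz, ← h_eq S i hz] at h

private theorem cd_of {F : ℂ → ℝ} {F' : ℂ → ℂ →L[ℝ] ℝ}
    (h1 : ∀ z, z ∉ S.C → HasFDerivAt F (F' z) z) (h2 : ∀ z, z ∉ S.C → ContinuousAt F' z)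
    {z : ℂ} (hz : z ∉ S.C) : ContDiffAt ℝ 1 F z := by
  refine contDiffAt_one_iff.2 ⟨F', (S.C)ᶜ, ev_not S hz, ?_, h1⟩
  exact fun w hw => (h2 w hw).continuousWithinAt

private theorem rc {u : ℂ → ℂ} {z : ℂ} (h : AnalyticAt ℂ u z) (h0 : u z ≠ 0) :
    ContinuousAt (fun z => rl (ld u z)) z :=
  rl_cont.continuousAt.comp (ld_an h h0).continuousAt

private theorem ic {u : ℂ → ℂ} {z : ℂ} (h : AnalyticAt ℂ u z) (h0 : u z ≠ 0) :
    ContinuousAt (fun z => il (ld u z)) z :=
  il_cont.continuousAt.comp (ld_an h h0).continuousAt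

theorem L_cd {k : ℕ} (hk : 2 ≤ k) (i : ι) {z : ℂ} (hz : z ∉ S.C) :
    ContDiffAt ℝ 1 (fun z => P.L k (S.f i z)) z := by
  have hLc : ∀ m, 2 ≤ m → ∀ z, z ∉ S.C → ContinuousAt (fun z => P.L m (S.f i z)) z :=
    fun m hm z hz => (P.cont m hm).continuousAt.comp (S.fa i z hz).continuousAt
  have ha : ∀ z, z ∉ S.C → ContinuousAt (la (S.f i)) z :=
    fun z hz => (la_fd (S.fa i z hz) (S.f0 i z hz)).continuousAt
  have hw : ∀ z, z ∉ S.C → ContinuousAt (la (S.h i)) z :=
    fun z hz => (la_fd (S.ha i z hz) (S.h0 i z hz)).continuousAt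
  rcases Nat.lt_or_ge k 3 with h3 | h3
  · obtain rfl : k = 2 := by omega
    exact cd_of S (fun _ h => L2_fd S i h) (fun z h =>
      ((ha z h).smul (ic (S.ha i z h) (S.h0 i z h))).sub
        ((hw z h).smul (ic (S.fa i z h) (S.f0 i z h)))) hz
  · refine cd_of S (F' := fun z => (((-1) ^ k * P.L (k - 1) (S.f i z)) • il (ld (S.f i) z) -
        (∑ j ∈ Finset.Icc 2 (k - 2), bt j * la (S.f i) z ^ (j - 1) * P.L (k - j) (S.f i z)) •
          rl (ld (S.f i) z) -
        (bt (k - 1) * la (S.f i) z ^ (k - 2)) •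
          (la (S.f i) z • rl (ld (S.h i) z) - la (S.h i) z • rl (ld (S.f i) z))))
      (fun z h => L_fd S h3 i h) (fun z h => ?_) hz
    have r1 := rc (S.fa i z h) (S.f0 i z h)
    have r2 := rc (S.ha i z h) (S.h0 i z h)
    have i1 := ic (S.fa i z h) (S.f0 i z h)
    have c1 : ContinuousAt (fun z => (-1) ^ k * P.L (k - 1) (S.f i z)) z :=
      continuousAt_const.mul (hLc (k - 1) (by omega) z h)
    have c2 : ContinuousAt (fun z => ∑ j ∈ Finset.Icc 2 (k - 2),
        bt j * la (S.f i) z ^ (j - 1) * P.L (k - j) (S.f i z)) z := by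
      refine tendsto_finsetSum _ fun j hj => ?_
      rw [Finset.mem_Icc] at hj
      exact (continuousAt_const.mul ((ha z h).pow (j - 1))).mul (hLc (k - j) (by omega) z h)
    have c3 : ContinuousAt (fun z => bt (k - 1) * la (S.f i) z ^ (k - 2)) z :=
      continuousAt_const.mul ((ha z h).pow (k - 2))
    have c4 : ContinuousAt (fun z => la (S.f i) z • rl (ld (S.h i) z) -
        la (S.h i) z • rl (ld (S.f i) z)) z := ((ha z h).smul r2).sub ((hw z h).smul r1)
    have d1 := c1.smul i1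
    have d2 := c2.smul r1
    have d3 := c3.smul c4
    exact (d1.sub d2).sub d3

end Pool.Agent.F194.Y

end
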