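import Pool.Agent.Work.MP_f194bb_nt.Y.Comp

/-!
# MP_f194bb_nt, odd n: estimates at the cusps
-/

set_option autoImplicit false

open scoped ComplexConjugate PeriodPair
open MeasureTheory Filter Topology

noncomputable section

namespace Pool.Agent.F194.Y

variable {L : PeriodPair} {P : PLs} {q : ℕ} {ι : Type} [Fintype ι] (S : Sys L P q ι)

/-! ### orders of growth -/

private theorem near (s : ℂ) : ∀ᶠ z in 𝓝[≠] s, 0 < ‖z - s‖ ∧ ‖z - s‖ ≤ 1 := by
  have h1 : ∀ᶠ z in 𝓝[≠] s, z ≠ s := eventually_mem_nhdsWithin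
  have h2 : ∀ᶠ z in 𝓝[≠] s, z ∈ Metric.ball s 1 :=
    nhdsWithin_le_nhds (Metric.ball_mem_nhds s one_pos)
  filter_upwards [h1, h2] with z a b
  refine ⟨norm_pos_iff.2 (sub_ne_zero.2 a), ?_⟩
  have := Metric.mem_ball.1 b
  rw [dist_eq_norm] at this
  exact this.le

/-- `F` is `O(|z - s| ^ p)` near `s` -/
private def Oq (s : ℂ) (F : ℂ → ℝ) (p : ℝ) : Prop :=
  ∃ C : ℝ, 0 ≤ C ∧ ∀ᶠ z in 𝓝[≠] s, |F z| ≤ C * ‖z - s‖ ^ p

private theorem Oq.mono {s : ℂ} {F : ℂ → ℝ} {p p' : ℝ} (h : Oq s F p') (hpq : p ≤ p') :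
    Oq s F p := by
  obtain ⟨C, hC, h⟩ := h
  refine ⟨C, hC, ?_⟩
  filter_upwards [h, near s] with z h1 h2
  exact h1.trans (mul_le_mul_of_nonneg_left (Real.rpow_le_rpow_of_exponent_ge h2.1 h2.2 hpq) hC)

private theorem Oq.mul {s : ℂ} {F G : ℂ → ℝ} {p p' : ℝ} (h : Oq s F p) (h' : Oq s G p') :
    Oq s (fun z => F z * G z) (p + p') := by
  obtain ⟨C, hC, h⟩ := h
  obtain ⟨C', hC', h'⟩ := h'
  refine ⟨C * C', mul_nonneg hC hC', ?_⟩
  filter_upwards [h, h', near s] with z h1 h2 h3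
  rw [abs_mul, Real.rpow_add h3.1]
  calc |F z| * |G z| ≤ (C * ‖z - s‖ ^ p) * (C' * ‖z - s‖ ^ p') :=
        mul_le_mul h1 h2 (abs_nonneg _) ((abs_nonneg _).trans h1)
    _ = _ := by ring

private theorem Oq.add {s : ℂ} {F G : ℂ → ℝ} {p : ℝ} (h : Oq s F p) (h' : Oq s G p) :
    Oq s (fun z => F z + G z) p := by
  obtain ⟨C, hC, h⟩ := h
  obtain ⟨C', hC', h'⟩ := h'
  refine ⟨C + C', add_nonneg hC hC', ?_⟩
  filter_upwards [h, h'] with z h1 h2
  rw [add_mul]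
  exact (abs_add_le _ _).trans (add_le_add h1 h2)

private theorem Oq.neg {s : ℂ} {F : ℂ → ℝ} {p : ℝ} (h : Oq s F p) :
    Oq s (fun z => -F z) p := by
  obtain ⟨C, hC, h⟩ := h
  refine ⟨C, hC, ?_⟩
  filter_upwards [h] with z h1
  rwa [abs_neg]

private theorem Oq.const_mul {s : ℂ} {F : ℂ → ℝ} {p : ℝ} (h : Oq s F p) (c : ℝ) :
    Oq s (fun z => c * F z) p := by
  obtain ⟨C, hC, h⟩ := h
  refine ⟨|c| * C, by positivity, ?_⟩
  filter_upwards [h] with z h1
  rw [abs_mul, mul_assoc]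
  exact mul_le_mul_of_nonneg_left h1 (abs_nonneg _)

private theorem Oq.sum {κ : Type} {s : ℂ} (t : Finset κ) {F : κ → ℂ → ℝ} {p : ℝ}
    (h : ∀ i ∈ t, Oq s (F i) p) : Oq s (fun z => ∑ i ∈ t, F i z) p := by
  classical
  induction t using Finset.induction_on with
  | empty => exact ⟨0, le_rfl, Eventually.of_forall fun z => by simp⟩
  | insert a t ha ih =>
    have : (fun z => ∑ i ∈ insert a t, F i z) = fun z => F a z + ∑ i ∈ t, F i z := by
      funext z
      rw [Finset.sum_insert ha]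
    rw [this]
    exact (h a (Finset.mem_insert_self _ _)).add
      (ih fun i hi => h i (Finset.mem_insert_of_mem hi))

private theorem Oq.congr {s : ℂ} {F G : ℂ → ℝ} {p : ℝ} (h : Oq s F p)
    (h' : ∀ᶠ z in 𝓝[≠] s, G z = F z) : Oq s G p := by
  obtain ⟨C, hC, h⟩ := h
  refine ⟨C, hC, ?_⟩
  filter_upwards [h, h'] with z h1 h2
  rwa [h2]

private theorem Oq.of_bdd {s : ℂ} {F : ℂ → ℝ} {C : ℝ} (h : ∀ᶠ z in 𝓝[≠] s, |F z| ≤ C) :
    Oq s F 0 := by
  refine ⟨|C|, abs_nonneg _, ?_⟩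
  filter_upwards [h] with z hz
  rw [Real.rpow_zero, mul_one]
  exact hz.trans (le_abs_self C)

private theorem Oq.pow {s : ℂ} {F : ℂ → ℝ} {p : ℝ} (h : Oq s F p) (n : ℕ) :
    Oq s (fun z => F z ^ n) (n * p) := by
  induction n with
  | zero =>
    refine (Oq.of_bdd (F := fun z => F z ^ 0) (C := 1) (Eventually.of_forall fun z => ?_)).mono ?_
    · simp
    · simp
  | succ n ih =>
    have e : ((n + 1 : ℕ) : ℝ) * p = n * p + p := by push_cast; ring
    rw [e]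
    exact (ih.mul h).congr (Eventually.of_forall fun z => pow_succ _ _)

/-- logarithms are small powers -/
private theorem logpow {r ε : ℝ} (h0 : 0 < r) (h1 : r ≤ 1) (hε : 0 < ε) :
    |Real.log r| ≤ ε⁻¹ * r ^ (-ε) := by
  have h := Real.abs_log_mul_self_rpow_lt r ε h0 h1 hε
  have h2 := Real.rpow_pos_of_pos h0 ε
  rw [abs_mul, abs_of_pos h2, one_div] at h
  rw [Real.rpow_neg h0.le, ← div_eq_mul_inv, le_div_iff₀ h2]
  exact h.le

theorem cusp_log (u : ℂ → ℂ) (hu : Pool.Agent.F194.Ell L u) (s : ℂ) {ε : ℝ} (hε : 0 < ε) :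
    ∃ A : ℝ, ∀ᶠ z in 𝓝[≠] s, |la u z| ≤ A * ‖z - s‖ ^ (-ε) ∧ ‖ld u z‖ ≤ A * ‖z - s‖⁻¹ := by
  obtain ⟨ρ, hρ, -, C, hC, h⟩ := local_form (hu.mero s) (hu.nz s)
  refine ⟨max C (ε⁻¹ * C), ?_⟩
  have h1 : ∀ᶠ z in 𝓝[≠] s, z ≠ s := eventually_mem_nhdsWithin
  have h2 : ∀ᶠ z in 𝓝[≠] s, z ∈ Metric.ball s ρ :=
    nhdsWithin_le_nhds (Metric.ball_mem_nhds s hρ)
  filter_upwards [h1, h2, near s] with z a b c
  obtain ⟨d, e⟩ := h z b a
  constructor
  · refine d.trans ?_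
    calc C * |Real.log ‖z - s‖| ≤ C * (ε⁻¹ * ‖z - s‖ ^ (-ε)) :=
          mul_le_mul_of_nonneg_left (logpow c.1 c.2 hε) hC
      _ = ε⁻¹ * C * ‖z - s‖ ^ (-ε) := by ring
      _ ≤ _ := mul_le_mul_of_nonneg_right (le_max_right _ _) (Real.rpow_nonneg (norm_nonneg _) _)
  · exact e.trans (mul_le_mul_of_nonneg_right (le_max_left _ _) (inv_nonneg.2 c.1.le))

private theorem la_O {u : ℂ → ℂ} (hu : Pool.Agent.F194.Ell L u) (s : ℂ) {ε : ℝ} (hε : 0 < ε) :
    Oq s (la u) (-ε) := by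
  obtain ⟨A, h⟩ := cusp_log u hu s hε
  refine ⟨|A|, abs_nonneg _, ?_⟩
  filter_upwards [h] with z h1
  exact h1.1.trans (mul_le_mul_of_nonneg_right (le_abs_self A)
    (Real.rpow_nonneg (norm_nonneg _) _))

private theorem ld_O {u : ℂ → ℂ} (hu : Pool.Agent.F194.Ell L u) (s : ℂ) :
    Oq s (fun z => ‖ld u z‖) (-1) := by
  obtain ⟨A, h⟩ := cusp_log u hu s one_pos
  refine ⟨|A|, abs_nonneg _, ?_⟩
  filter_upwards [h] with z h1
  rw [abs_norm, Real.rpow_neg_one]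
  exact h1.2.trans (mul_le_mul_of_nonneg_right (le_abs_self A) (inv_nonneg.2 (norm_nonneg _)))

private theorem Oq.of_le {s : ℂ} {F G : ℂ → ℝ} {p : ℝ} (h : Oq s G p)
    (h' : ∀ z, |F z| ≤ |G z|) : Oq s F p := by
  obtain ⟨C, hC, h⟩ := h
  refine ⟨C, hC, ?_⟩
  filter_upwards [h] with z hz
  exact (h' z).trans hz

private theorem ly_le (u : ℂ → ℂ) (z : ℂ) : |ly u z| ≤ |‖ld u z‖| := by
  rw [abs_norm, ly, abs_neg]
  exact Complex.abs_im_le_norm _

private theorem lx_le (u : ℂ → ℂ) (z : ℂ) : |lx u z| ≤ |‖ld u z‖| := by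
  rw [abs_norm, lx]
  exact Complex.abs_re_le_norm _

/-! ### the logarithmic derivative -/

private theorem ld_form {u : ℂ → ℂ} {s : ℂ} (hu : MeromorphicAt u s)
    (h0 : meromorphicOrderAt u s ≠ ⊤) : ∃ C : ℝ, ∀ᶠ z in 𝓝[≠] s,
    ‖ld u z - (dv u s : ℂ) * (z - s)⁻¹‖ ≤ C := by
  obtain ⟨g, hg, hg0, hfg⟩ := (meromorphicOrderAt_ne_top_iff hu).1 h0
  have e1 : ∀ᶠ z in 𝓝 s, AnalyticAt ℂ g z := hg.eventually_analyticAt
  have e2 : ∀ᶠ z in 𝓝 s, g z ≠ 0 := hg.continuousAt.eventually_ne hg0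
  have e4 : ∀ᶠ z in 𝓝 s, ‖deriv g z / g z‖ < ‖deriv g s / g s‖ + 1 := by
    have hc : ContinuousAt (fun z => ‖deriv g z / g z‖) s :=
      (hg.deriv.continuousAt.div hg.continuousAt hg0).norm
    exact hc.eventually (gt_mem_nhds (lt_add_one _))
  have e5 : ∀ᶠ z in 𝓝 s, z ≠ s → u z = (z - s) ^ dv u s • g z := by
    have := hfg
    rw [Filter.EventuallyEq, eventually_nhdsWithin_iff] at this
    exact this
  refine ⟨‖deriv g s / g s‖ + 1, ?_⟩
  have e6 : ∀ᶠ z in 𝓝[≠] s, ∀ᶠ w in 𝓝 z, w ≠ s → u w = (w - s) ^ dv u s • g w :=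
    nhdsWithin_le_nhds (eventually_eventually_nhds.2 e5)
  have e7 : ∀ᶠ z in 𝓝[≠] s, z ≠ s := eventually_mem_nhdsWithin
  filter_upwards [e6, e7, nhdsWithin_le_nhds e1, nhdsWithin_le_nhds e2, nhdsWithin_le_nhds e4]
    with z a6 hzx a1 a2 a4
  have hzx0 : z - s ≠ 0 := sub_ne_zero.2 hzx
  have hev : u =ᶠ[𝓝 z] fun w => (w - s) ^ dv u s * g w := by
    filter_upwards [a6, eventually_ne_nhds hzx] with w hw hw'
    rw [hw hw', smul_eq_mul]
  have hd : HasDerivAt (fun w => (w - s) ^ dv u s * g w)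
      ((dv u s : ℂ) * (z - s) ^ (dv u s - 1) * 1 * g z + (z - s) ^ dv u s * deriv g z) z := by
    have h1 : HasDerivAt (fun w : ℂ => w - s) 1 z := (hasDerivAt_id z).sub_const s
    have h2' : HasDerivAt (fun w : ℂ => w ^ dv u s) ((dv u s : ℂ) * (z - s) ^ (dv u s - 1))
        (z - s) := hasDerivAt_zpow _ (z - s) (Or.inl hzx0)
    have h2 : HasDerivAt (fun w : ℂ => (w - s) ^ dv u s)
        ((dv u s : ℂ) * (z - s) ^ (dv u s - 1) * 1) z :=
      HasDerivAt.comp (h := fun w : ℂ => w - s) z h2' h1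
    exact h2.mul a1.differentiableAt.hasDerivAt
  have h2 : ld u z = (dv u s : ℂ) * (z - s)⁻¹ + deriv g z / g z := by
    rw [ld, hev.deriv_eq, hd.deriv, hev.eq_of_nhds, zpow_sub_one₀ hzx0]
    have h3 : (z - s) ^ dv u s ≠ 0 := zpow_ne_zero _ hzx0
    field_simp
  rw [h2, add_sub_cancel_left]
  exact a4.le

private theorem ld_bdd {u : ℂ → ℂ} {s : ℂ} (hu : MeromorphicAt u s)
    (h0 : meromorphicOrderAt u s = 0) : Oq s (fun z => ‖ld u z‖) 0 := by
  obtain ⟨C, h⟩ := ld_form hu (by rw [h0]; exact WithTop.zero_ne_top)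
  refine Oq.of_bdd (C := C) ?_
  filter_upwards [h] with z hz
  have : dv u s = 0 := by rw [dv, h0]; rfl
  rw [this] at hz
  simpa using hz

private theorem small {F : ℂ → ℂ} {s : ℂ} (hF : MeromorphicAt F s)
    (h : Tendsto F (𝓝[≠] s) (𝓝 0)) : Oq s (fun z => ‖F z‖) 1 := by
  by_cases ht : meromorphicOrderAt F s = ⊤
  · refine ⟨0, le_rfl, ?_⟩
    filter_upwards [meromorphicOrderAt_eq_top_iff.1 ht] with z hz
    rw [hz, norm_zero, zero_mul, abs_zero]
  · obtain ⟨g, hg, hg0, hfg⟩ := (meromorphicOrderAt_ne_top_iff hF).1 ht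
    have hpos := (tendsto_zero_iff_meromorphicOrderAt_pos hF).1 h
    have hn : 0 < (meromorphicOrderAt F s).untop₀ := by
      lift meromorphicOrderAt F s to ℤ using ht with n hn
      simpa using hpos
    obtain ⟨m, hm⟩ : ∃ m : ℕ, (meromorphicOrderAt F s).untop₀ = ((m + 1 : ℕ) : ℤ) :=
      ⟨((meromorphicOrderAt F s).untop₀ - 1).toNat, by omega⟩
    have hb : ∀ᶠ z in 𝓝[≠] s, ‖g z‖ < ‖g s‖ + 1 :=
      nhdsWithin_le_nhds (hg.continuousAt.norm.eventually (gt_mem_nhds (lt_add_one _)))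
    refine ⟨‖g s‖ + 1, by positivity, ?_⟩
    filter_upwards [hfg, hb, near s] with z h1 h2 h3
    rw [h1, norm_smul, norm_zpow, hm, zpow_natCast, pow_succ, mul_comm (‖g s‖ + 1), abs_mul,
      Real.rpow_one, abs_norm]
    have h4 : ‖z - s‖ ^ m ≤ 1 := pow_le_one₀ (norm_nonneg _) h3.2
    have h5 : |‖z - s‖ ^ m * ‖z - s‖| ≤ ‖z - s‖ := by
      rw [abs_of_nonneg (by positivity)]
      exact mul_le_of_le_one_left (norm_nonneg _) h4
    exact mul_le_mul h5 h2.le (norm_nonneg _) (norm_nonneg _)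

/-- the three cases -/
private theorem tri {f : ℂ → ℂ} {s : ℂ} (hf : MeromorphicAt f s)
    (h0 : meromorphicOrderAt f s ≠ ⊤) :
    (Tendsto f (𝓝[≠] s) (𝓝 0) ∧ Oq s (fun z => ‖f z‖) 1) ∨
    (Tendsto (fun z => (f z)⁻¹) (𝓝[≠] s) (𝓝 0) ∧ Oq s (fun z => ‖(f z)⁻¹‖) 1) ∨
    (∃ c, c ≠ 0 ∧ Tendsto f (𝓝[≠] s) (𝓝 c) ∧ Oq s (fun z => ‖f z - c‖) 1 ∧
      meromorphicOrderAt f s = 0) := by
  rcases lt_trichotomy (meromorphicOrderAt f s) 0 with h | h | h
  · right; left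
    have h1 := (tendsto_cobounded_iff_meromorphicOrderAt_neg hf).2 h
    have h2 : Tendsto (fun z => (f z)⁻¹) (𝓝[≠] s) (𝓝 0) :=
      (tendsto_inv₀_cobounded).comp h1
    exact ⟨h2, small hf.inv h2⟩
  · right; right
    obtain ⟨c, hc, h1⟩ := (tendsto_ne_zero_iff_meromorphicOrderAt_eq_zero hf).2 h
    refine ⟨c, hc, h1, ?_, h⟩
    refine small (hf.sub (MeromorphicAt.const c s)) ?_
    have := h1.sub_const c
    rwa [sub_self] at this
  · left
    have h1 := (tendsto_zero_iff_meromorphicOrderAt_pos hf).2 h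
    exact ⟨h1, small hf h1⟩

/-! ### polylogarithms -/

private theorem sq_le_half {x M r : ℝ} (hM : 0 ≤ M) (h : x ^ 2 ≤ M * r) :
    |x| ≤ Real.sqrt M * r ^ (1 / 2 : ℝ) := by
  have h1 := Real.abs_le_sqrt h
  rwa [Real.sqrt_mul hM, Real.sqrt_eq_rpow r] at h1

private theorem PC_nonneg (k : ℕ) : 0 ≤ P.C k := (abs_nonneg _).trans (P.b k 0)

private theorem half_of {s : ℂ} {F G : ℂ → ℝ} (k : ℕ) (hG : Oq s G 1)
    (h : ∀ᶠ z in 𝓝[≠] s, F z ^ 2 ≤ P.C k * G z) : Oq s F (1 / 2) := by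
  obtain ⟨C, hC, h'⟩ := hG
  have hPC := PC_nonneg (P := P) k
  refine ⟨Real.sqrt (P.C k * C), Real.sqrt_nonneg _, ?_⟩
  filter_upwards [h, h'] with z h1 h2
  refine sq_le_half (mul_nonneg hPC hC) (h1.trans ?_)
  rw [mul_assoc]
  refine mul_le_mul_of_nonneg_left ?_ hPC
  rw [Real.rpow_one] at h2
  exact (le_abs_self _).trans h2

private theorem L_zero {f : ℂ → ℂ} {s : ℂ} (k : ℕ) (h : Oq s (fun z => ‖f z‖) 1) :
    Oq s (fun z => P.L k (f z)) (1 / 2) :=
  half_of (P := P) k h (Eventually.of_forall fun z => P.bz k (f z))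

private theorem L_inf {f : ℂ → ℂ} {s : ℂ} (k : ℕ) (h : Oq s (fun z => ‖(f z)⁻¹‖) 1)
    (h0 : ∀ᶠ z in 𝓝[≠] s, f z ≠ 0) : Oq s (fun z => P.L k (f z)) (1 / 2) := by
  refine half_of (P := P) k h ?_
  filter_upwards [h0] with z hz
  have h1 := P.bi k (f z)
  have h2 : 0 < ‖f z‖ := norm_pos_iff.2 hz
  rw [norm_inv, ← div_eq_mul_inv, le_div_iff₀ h2]
  exact h1

private theorem L_one {f : ℂ → ℂ} {s : ℂ} {k : ℕ} (hk : Even k)
    (h : Oq s (fun z => ‖f z - 1‖) 1) : Oq s (fun z => P.L k (f z)) (1 / 2) := by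
  refine half_of (P := P) k h (Eventually.of_forall fun z => ?_)
  have := P.bo k hk (f z)
  rwa [norm_sub_rev] at this

private theorem L_diff {f : ℂ → ℂ} {s c : ℂ} {k : ℕ} (hk : 2 ≤ k) (hc0 : c ≠ 0) (hc1 : c ≠ 1)
    (ht : Tendsto f (𝓝[≠] s) (𝓝 c)) (h : Oq s (fun z => ‖f z - c‖) 1) :
    Oq s (fun z => P.L k (f z) - P.L k c) (1 / 2) := by
  have hd : ∃ D : ℂ →L[ℝ] ℝ, HasFDerivAt (P.L k) D c := by
    rcases Nat.lt_or_ge k 3 with h3 | h3
    · have : k = 2 := by omega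
      subst this
      exact ⟨_, P.d2 c hc0 hc1⟩
    · exact ⟨_, P.d k h3 c hc0 hc1⟩
  obtain ⟨D, hD⟩ := hd
  obtain ⟨K, hK, hb⟩ := (hD.isBigO_sub.comp_tendsto ht).exists_nonneg
  have h2 : Oq s (fun z => P.L k (f z) - P.L k c) 1 := by
    obtain ⟨C, hC, h'⟩ := h
    refine ⟨K * C, mul_nonneg hK hC, ?_⟩
    filter_upwards [hb.bound, h'] with z h1 h2
    simp only [Function.comp_apply, Real.norm_eq_abs] at h1
    rw [abs_norm] at h2
    rw [mul_assoc]
    exact h1.trans (mul_le_mul_of_nonneg_left h2 hK)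
  exact h2.mono (by norm_num)

/-- Hoelder continuity at a cusp -/
private theorem L_hol {f : ℂ → ℂ} {s : ℂ} {k : ℕ} (hk : Even k) (hk2 : 2 ≤ k)
    (hf : MeromorphicAt f s) (h0 : meromorphicOrderAt f s ≠ ⊤) :
    ∃ c : ℝ, Oq s (fun z => P.L k (f z) - c) (1 / 2) := by
  rcases tri hf h0 with h | h | ⟨c, hc, h1, h2, -⟩
  · refine ⟨0, (L_zero k h.2).congr (Eventually.of_forall fun z => sub_zero _)⟩
  · refine ⟨0, (L_inf k h.2 ((meromorphicOrderAt_ne_top_iff_eventually_ne_zero hf).1 h0)).congr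
      (Eventually.of_forall fun z => sub_zero _)⟩
  · by_cases hc1 : c = 1
    · subst hc1
      exact ⟨0, (L_one hk h2).congr (Eventually.of_forall fun z => sub_zero _)⟩
    · exact ⟨_, L_diff hk2 hc hc1 h1 h2⟩

private theorem L_bdd {f : ℂ → ℂ} {s : ℂ} (k : ℕ) : Oq s (fun z => P.L k (f z)) 0 :=
  Oq.of_bdd (C := P.C k) (Eventually.of_forall fun _ => P.b k _)

private theorem L_ly {f : ℂ → ℂ} (hf : Pool.Agent.F194.Ell L f) (s : ℂ) (k : ℕ) :
    Oq s (fun z => P.L k (f z) * ly f z) (-(1 / 2)) := by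
  have hly := (ld_O hf s).of_le (ly_le f)
  rcases tri (hf.mero s) (hf.nz s) with h | h | ⟨c, hc, h1, h2, h3⟩
  · exact ((L_zero (P := P) k h.2).mul hly).mono (by norm_num)
  · exact ((L_inf (P := P) k h.2 ((meromorphicOrderAt_ne_top_iff_eventually_ne_zero
      (hf.mero s)).1 (hf.nz s))).mul hly).mono (by norm_num)
  · exact ((L_bdd (P := P) k).mul ((ld_bdd (hf.mero s) h3).of_le (ly_le f))).mono (by norm_num)

/-! ### the differential `a dw - w da` -/

private theorem log1 {w : ℂ} (h : ‖w‖ ≤ 1 / 2) : |Real.log ‖1 - w‖| ≤ 2 * ‖w‖ := by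
  have h1 : 1 - ‖w‖ ≤ ‖1 - w‖ := by
    have := norm_sub_norm_le (1 : ℂ) w
    rwa [norm_one] at this
  have h2 : ‖1 - w‖ ≤ 1 + ‖w‖ := by
    have := norm_sub_le (1 : ℂ) w
    rwa [norm_one] at this
  have h0 : 0 < ‖1 - w‖ := by linarith
  have h3 := Real.log_le_sub_one_of_pos h0
  have h4 := Real.log_le_sub_one_of_pos (inv_pos.2 h0)
  rw [Real.log_inv] at h4
  have h5 : ‖1 - w‖⁻¹ ≤ 1 + 2 * ‖w‖ := by
    rw [inv_le_iff_one_le_mul₀ h0]
    nlinarith [norm_nonneg w]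
  rw [abs_le]
  constructor
  · linarith
  · linarith [norm_nonneg w]

private theorem log_small {w : ℂ → ℂ} {s : ℂ} {F : ℂ → ℝ} (ht : Tendsto w (𝓝[≠] s) (𝓝 0))
    (h : Oq s (fun z => ‖w z‖) 1) (hF : ∀ᶠ z in 𝓝[≠] s, F z = Real.log ‖1 - w z‖) :
    Oq s F 1 := by
  obtain ⟨C, hC, h'⟩ := h
  have hh : ∀ᶠ z in 𝓝[≠] s, ‖w z‖ ≤ 1 / 2 := by
    have := ht.norm
    rw [norm_zero] at this
    exact (this.eventually (gt_mem_nhds (by norm_num : (0 : ℝ) < 1 / 2))).mono fun z hz => hz.le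
  refine ⟨2 * C, by positivity, ?_⟩
  filter_upwards [h', hh, hF] with z h1 h2 h3
  rw [abs_norm] at h1
  rw [h3]
  refine (log1 h2).trans ?_
  linarith

private theorem eta0 {u v : ℂ → ℂ} {s : ℂ} (hu : Pool.Agent.F194.Ell L u)
    (hv : Pool.Agent.F194.Ell L v) (hut : Tendsto u (𝓝[≠] s) (𝓝 0))
    (huo : Oq s (fun z => ‖u z‖) 1) (huv : ∀ᶠ z in 𝓝[≠] s, u z + v z = 1) {ε : ℝ} (hε : 0 < ε) :
    Oq s (fun z => la u z * lx v z - la v z * lx u z) (-ε) := by
  have hv1 : Tendsto v (𝓝[≠] s) (𝓝 1) := by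
    have h1 := hut.const_sub 1
    rw [sub_zero] at h1
    refine h1.congr' ?_
    filter_upwards [huv] with z hz
    linear_combination -hz
  have hord : meromorphicOrderAt v s = 0 :=
    (tendsto_ne_zero_iff_meromorphicOrderAt_eq_zero (hv.mero s)).1 ⟨1, one_ne_zero, hv1⟩
  have h1 := (la_O hu s hε).mul ((ld_bdd (hv.mero s) hord).of_le (lx_le v))
  have h2 : Oq s (la v) 1 := by
    refine log_small hut huo ?_
    filter_upwards [huv] with z hz
    rw [la]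
    congr 2
    linear_combination hz
  have h3 := h2.mul ((ld_O hu s).of_le (lx_le u))
  exact ((h1.mono (by linarith)).add (h3.mono (by linarith)).neg).congr
    (Eventually.of_forall fun z => sub_eq_add_neg _ _)

private theorem evC (s : ℂ) : ∀ᶠ z in 𝓝[≠] s, z ∉ S.C := S.isol s

private theorem eta (i : ι) (s : ℂ) {ε : ℝ} (hε : 0 < ε) :
    Oq s (fun z => la (S.f i) z * lx (S.h i) z - la (S.h i) z * lx (S.f i) z) (-ε) := by
  have hfh : ∀ᶠ z in 𝓝[≠] s, S.f i z + S.h i z = 1 := (evC S s).mono fun z hz => S.add i z hz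
  have hhf : ∀ᶠ z in 𝓝[≠] s, S.h i z + S.f i z = 1 := hfh.mono fun z hz => by
    rw [add_comm]; exact hz
  have hfm := (S.fE i).mero s
  have hhm := (S.hE i).mero s
  have hneg : ∀ {F : ℂ → ℝ} {G : ℂ → ℝ}, (∀ z, G z = -F z) → Oq s F (-ε) → Oq s G (-ε) :=
    fun h hF => hF.neg.congr (Eventually.of_forall h)
  rcases tri hfm ((S.fE i).nz s) with h | h | ⟨c, hc, h1, h2, h3⟩
  · exact eta0 (S.fE i) (S.hE i) h.1 h.2 hfh hε
  · -- `f → ∞`
    have hf0 : ∀ᶠ z in 𝓝[≠] s, S.f i z ≠ 0 := (evC S s).mono fun z hz => S.f0 i z hz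
    have hh0 : ∀ᶠ z in 𝓝[≠] s, S.h i z ≠ 0 := (evC S s).mono fun z hz => S.h0 i z hz
    -- the orders agree
    have ho : dv (S.h i) s = dv (S.f i) s := by
      have h4 : Tendsto (fun z => S.h i z * (S.f i z)⁻¹) (𝓝[≠] s) (𝓝 (-1)) := by
        have h5 := h.1.sub_const 1
        rw [zero_sub] at h5
        refine h5.congr' ?_
        filter_upwards [hfh, hf0] with z hz hz0
        have : S.h i z = 1 - S.f i z := by linear_combination hz
        rw [this, sub_mul, one_mul, mul_inv_cancel₀ hz0]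
      have h5 : meromorphicOrderAt (S.h i * (S.f i)⁻¹) s = 0 :=
        (tendsto_ne_zero_iff_meromorphicOrderAt_eq_zero (hhm.mul hfm.inv)).1
          ⟨-1, by norm_num, h4⟩
      rw [meromorphicOrderAt_mul hhm hfm.inv, meromorphicOrderAt_inv] at h5
      have h6 := (S.fE i).nz s
      have h7 := (S.hE i).nz s
      unfold dv
      lift meromorphicOrderAt (S.f i) s to ℤ using h6 with n hn
      lift meromorphicOrderAt (S.h i) s to ℤ using h7 with m hm
      simp only [WithTop.untop₀_coe]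
      have h8 : ((m + -n : ℤ) : WithTop ℤ) = ((0 : ℤ) : WithTop ℤ) := h5
      have h9 := WithTop.coe_injective h8
      omega
    obtain ⟨C1, e1⟩ := ld_form hfm ((S.fE i).nz s)
    obtain ⟨C2, e2⟩ := ld_form hhm ((S.hE i).nz s)
    have hd : Oq s (fun z => lx (S.h i) z - lx (S.f i) z) 0 := by
      refine Oq.of_bdd (C := C1 + C2) ?_
      filter_upwards [e1, e2] with z z1 z2
      rw [ho] at z2
      rw [lx, lx, ← Complex.sub_re]
      refine (Complex.abs_re_le_norm _).trans ?_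
      have : ld (S.h i) z - ld (S.f i) z = (ld (S.h i) z - (dv (S.f i) s : ℂ) * (z - s)⁻¹) -
          (ld (S.f i) z - (dv (S.f i) s : ℂ) * (z - s)⁻¹) := by ring
      rw [this]
      refine (norm_sub_le _ _).trans ?_
      linarith
    have hl : Oq s (fun z => la (S.h i) z - la (S.f i) z) 1 := by
      refine log_small h.1 h.2 ?_
      filter_upwards [hfh, hf0, hh0] with z hz hz0 hz1
      have e : 1 - (S.f i z)⁻¹ = -(S.h i z / S.f i z) := by
        have : S.h i z = 1 - S.f i z := by linear_combination hz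
        rw [this]
        field_simp
        ring
      rw [e, norm_neg, norm_div, Real.log_div (norm_ne_zero_iff.2 hz1) (norm_ne_zero_iff.2 hz0),
        la, la]
    have t1 := (la_O (S.fE i) s hε).mul hd
    have t2 := hl.mul ((ld_O (S.fE i) s).of_le (lx_le (S.f i)))
    exact ((t1.mono (by linarith)).add (t2.mono (by linarith)).neg).congr
      (Eventually.of_forall fun z => by ring)
  · by_cases hc1 : c = 1
    · subst hc1
      have hh : Tendsto (S.h i) (𝓝[≠] s) (𝓝 0) := by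
        have h4 := h1.const_sub 1
        rw [sub_self] at h4
        refine h4.congr' ?_
        filter_upwards [hfh] with z hz
        linear_combination -hz
      exact hneg (fun z => by ring) (eta0 (S.hE i) (S.fE i) hh (small hhm hh) hhf hε)
    · have hh : Tendsto (S.h i) (𝓝[≠] s) (𝓝 (1 - c)) := by
        refine (h1.const_sub 1).congr' ?_
        filter_upwards [hfh] with z hz
        linear_combination -hz
      have hord : meromorphicOrderAt (S.h i) s = 0 :=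
        (tendsto_ne_zero_iff_meromorphicOrderAt_eq_zero hhm).1
          ⟨1 - c, sub_ne_zero.2 (Ne.symm hc1), hh⟩
      have t1 := (la_O (S.fE i) s hε).mul ((ld_bdd hhm hord).of_le (lx_le (S.h i)))
      have t2 := (la_O (S.hE i) s hε).mul ((ld_bdd hfm h3).of_le (lx_le (S.f i)))
      exact ((t1.mono (by linarith)).add (t2.mono (by linarith)).neg).congr
        (Eventually.of_forall fun z => by ring)

/-! ### the term with `L_{n-1}` -/

private theorem Oq.tend {s : ℂ} {F : ℂ → ℝ} (h : Oq s F (1 / 2)) :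
    Tendsto F (𝓝[≠] s) (𝓝 0) := by
  obtain ⟨C, hC, h⟩ := h
  have h1 : Tendsto (fun z : ℂ => C * ‖z - s‖ ^ (1 / 2 : ℝ)) (𝓝[≠] s) (𝓝 0) := by
    have h2 : Continuous (fun z : ℂ => C * ‖z - s‖ ^ (1 / 2 : ℝ)) :=
      continuous_const.mul ((continuous_id.sub continuous_const).norm.rpow_const
        fun _ => Or.inr (by norm_num))
    have h3 := h2.tendsto s
    rw [sub_self, norm_zero, Real.zero_rpow (by norm_num), mul_zero] at h3
    exact h3.mono_left nhdsWithin_le_nhds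
  rw [tendsto_zero_iff_norm_tendsto_zero]
  refine squeeze_zero' (Eventually.of_forall fun z => norm_nonneg _) ?_ h1
  filter_upwards [h] with z hz
  rwa [Real.norm_eq_abs]

private theorem first (hq : Even q) (s : ℂ) :
    Oq s (fun z => ∑ i, P.L (q + 2) (S.f i z) * ly (S.g i) z) (-(3 / 4)) := by
  have hk : Even (q + 2) := hq.add even_two
  choose c hc using fun i => L_hol (P := P) hk (by omega) ((S.fE i).mero s) ((S.fE i).nz s)
  choose C hC using fun i => ld_form ((S.gE i).mero s) ((S.gE i).nz s)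
  -- the sum with multiplicities
  have hF : Oq s (fun z => ∑ i, (dv (S.g i) s : ℝ) * P.L (q + 2) (S.f i z)) (1 / 2) := by
    have h1 : Oq s (fun z => ∑ i, (dv (S.g i) s : ℝ) * (P.L (q + 2) (S.f i z) - c i)) (1 / 2) :=
      Oq.sum _ fun i _ => (hc i).const_mul _
    have h2 := (S.cusp s).sub h1.tend
    have h3 : (fun z => ∑ i, (dv (S.g i) s : ℝ) * P.L (q + 2) (S.f i z) -
        ∑ i, (dv (S.g i) s : ℝ) * (P.L (q + 2) (S.f i z) - c i)) =
        fun _ : ℂ => ∑ i, (dv (S.g i) s : ℝ) * c i := by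
      funext z
      rw [← Finset.sum_sub_distrib]
      exact Finset.sum_congr rfl fun i _ => by ring
    rw [h3, sub_zero] at h2
    have h4 : ∑ i, (dv (S.g i) s : ℝ) * c i = 0 :=
      tendsto_nhds_unique tendsto_const_nhds h2
    refine h1.congr (Eventually.of_forall fun z => ?_)
    have : ∑ i, (dv (S.g i) s : ℝ) * (P.L (q + 2) (S.f i z) - c i) =
        ∑ i, (dv (S.g i) s : ℝ) * P.L (q + 2) (S.f i z) - ∑ i, (dv (S.g i) s : ℝ) * c i := by
      rw [← Finset.sum_sub_distrib]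
      exact Finset.sum_congr rfl fun i _ => by ring
    rw [this, h4, sub_zero]
  have hinv : Oq s (fun z => ((z - s)⁻¹).im) (-1) := by
    refine ⟨1, zero_le_one, Eventually.of_forall fun z => ?_⟩
    rw [one_mul, Real.rpow_neg_one, ← norm_inv]
    exact Complex.abs_im_le_norm _
  have hE : ∀ i, Oq s (fun z => (ld (S.g i) z - (dv (S.g i) s : ℂ) * (z - s)⁻¹).im) 0 := by
    intro i
    refine Oq.of_bdd (C := C i) ?_
    filter_upwards [hC i] with z hz
    exact (Complex.abs_im_le_norm _).trans hz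
  have hR : Oq s (fun z => ∑ i, P.L (q + 2) (S.f i z) *
      (ld (S.g i) z - (dv (S.g i) s : ℂ) * (z - s)⁻¹).im) (-(3 / 4)) :=
    Oq.sum _ fun i _ => ((L_bdd (P := P) (q + 2)).mul (hE i)).mono (by norm_num)
  refine (((hinv.mul hF).mono (by norm_num)).neg.add hR.neg).congr
    (Eventually.of_forall fun z => ?_)
  rw [Finset.mul_sum, ← Finset.sum_neg_distrib, ← Finset.sum_neg_distrib,
    ← Finset.sum_add_distrib]
  refine Finset.sum_congr rfl fun i _ => ?_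
  rw [ly, Complex.sub_im]
  have : ((dv (S.g i) s : ℂ) * (z - s)⁻¹).im = (dv (S.g i) s : ℝ) * ((z - s)⁻¹).im := by
    rw [Complex.mul_im]
    simp
  rw [this]
  ring

/-- `|Rx| ≤ A |z - s|^(-3/4)`: `a ∂w - w ∂a` is `O(log)`, `L_k(f)` for even `k` is `O(|f|^(1/2))` etc.;
for `L_{n-1}(f) ∂b` by `Sys.cusp` and Hoelder continuity of `L_{n-1}` at the value of `f` -/
theorem cusp_Rx (hq : Even q) (hq2 : 2 ≤ q) (s : ℂ) : ∃ A : ℝ, ∀ᶠ z in 𝓝[≠] s,
    |Rx S z| ≤ A * ‖z - s‖ ^ (-(3 / 4 : ℝ)) := by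
  set ε : ℝ := 1 / (4 * (q + 2)) with hεd
  have hε : 0 < ε := by positivity
  have hεq : (q + 2 : ℝ) * ε = 1 / 4 := by
    rw [hεd]
    field_simp
  have hqε : 0 ≤ (q : ℝ) * ε := by positivity
  have h1 := first S hq s
  have h2 : Oq s (fun z => ∑ i, ∑ j ∈ Finset.Icc 2 q, ee j * (la (S.g i) z *
      la (S.f i) z ^ (j - 1) * P.L (q + 2 - j) (S.f i z) * ly (S.f i) z)) (-(3 / 4)) := by
    refine Oq.sum _ fun i _ => Oq.sum _ fun j hj => Oq.const_mul ?_ _
    obtain ⟨j2, jq⟩ := Finset.mem_Icc.1 hj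
    have t := ((la_O (S.gE i) s hε).mul ((la_O (S.fE i) s hε).pow (j - 1))).mul
      (L_ly (P := P) (S.fE i) s (q + 2 - j))
    refine (t.mono ?_).congr (Eventually.of_forall fun z => by ring)
    have h3 : ((j - 1 : ℕ) : ℝ) ≤ q := by exact_mod_cast (by omega : j - 1 ≤ q)
    nlinarith [mul_le_mul_of_nonneg_right h3 hε.le]
  have h3 : Oq s (fun z => ∑ i, rr q * (la (S.g i) z * la (S.f i) z ^ q *
      (la (S.f i) z * lx (S.h i) z - la (S.h i) z * lx (S.f i) z))) (-(3 / 4)) := by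
    refine Oq.sum _ fun i _ => Oq.const_mul ?_ _
    have t := ((la_O (S.gE i) s hε).mul ((la_O (S.fE i) s hε).pow q)).mul (eta S i s hε)
    refine t.mono ?_
    linarith
  obtain ⟨A, -, h⟩ := (h1.neg.add h2.neg).add h3
  refine ⟨A, ?_⟩
  filter_upwards [h] with z hz
  refine le_trans (le_of_eq ?_) hz
  congr 1
  rw [Rx, ← Finset.sum_neg_distrib, ← Finset.sum_neg_distrib, ← Finset.sum_add_distrib,
    ← Finset.sum_add_distrib]
  exact Finset.sum_congr rfl fun i _ => by ring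

theorem cusp_I0 (s : ℂ) : ∃ A : ℝ, ∀ᶠ z in 𝓝[≠] s, |I0 S z| ≤ A * ‖z - s‖ ^ (-(3 / 4 : ℝ)) := by
  set ε : ℝ := 1 / (4 * (q + 2)) with hεd
  have hε : 0 < ε := by positivity
  have hεq : (q + 2 : ℝ) * ε = 1 / 4 := by
    rw [hεd]
    field_simp
  have h3 : Oq s (I0 S) (-(3 / 4)) := by
    have e : I0 S = fun z => ∑ i, la (S.g i) z * la (S.f i) z ^ q *
      (la (S.f i) z * lx (S.h i) z - la (S.h i) z * lx (S.f i) z) := rfl
    rw [e]
    refine Oq.sum _ fun i _ => ?_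
    have t := ((la_O (S.gE i) s hε).mul ((la_O (S.fE i) s hε).pow q)).mul (eta S i s hε)
    refine t.mono ?_
    linarith
  obtain ⟨A, -, h⟩ := h3
  exact ⟨A, h⟩

end Pool.Agent.F194.Y

end
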