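import Pool.Agent.Work.MP_f194bb_nt.Y.PolyB

/-!
# MP_f194bb_nt, odd n: single valued polylogarithms of all weights
-/

set_option autoImplicit false

open scoped ComplexConjugate PeriodPair
open MeasureTheory Filter Topology

noncomputable section

namespace Pool.Agent.F194.Y

private theorem plc_open : IsOpen (({0, 1} : Set ℂ)ᶜ) :=
  (Set.toFinite ({0, 1} : Set ℂ)).isClosed.isOpen_compl

private theorem plc_conn : IsPreconnected (({0, 1} : Set ℂ)ᶜ) :=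
  (Set.Countable.isConnected_compl_of_one_lt_rank
    (by rw [Complex.rank_real_complex]; norm_num) (Set.toFinite ({0, 1} : Set ℂ)).countable).isPreconnected

private theorem plc_mem {z : ℂ} (h0 : z ≠ 0) (h1 : z ≠ 1) : z ∈ (({0, 1} : Set ℂ)ᶜ) := by
  simp [h0, h1]

private theorem plc_ne {z : ℂ} (h : z ∈ (({0, 1} : Set ℂ)ᶜ)) : z ≠ 0 ∧ z ≠ 1 := by
  simpa using h

private theorem plc_comp2 (H : PLD) {u : ℂ → ℂ} {u' z : ℂ} (hu : HasDerivAt u u' z)
    (h0 : u z ≠ 0) (h1 : u z ≠ 1) : HasFDerivAt (fun z => H.L 2 (u z))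
      (Real.log ‖u z‖ • il ((u z - 1)⁻¹ * u') - Real.log ‖1 - u z‖ • il ((u z)⁻¹ * u')) z := by
  have h := (H.d2 (u z) h0 h1).comp z (hu.hasFDerivAt.restrictScalars ℝ)
  refine h.congr_fderiv ?_
  ext w
  simp only [ContinuousLinearMap.comp_apply, sub_apply,
    smul_apply, il_apply, ContinuousLinearMap.coe_restrictScalars',
    smul_eq_mul, ContinuousLinearMap.toSpanSingleton_apply]
  ring_nf

private theorem plc_const {F : ℂ → ℝ} (hF : ∀ z, z ≠ 0 → z ≠ 1 → HasFDerivAt F (0 : ℂ →L[ℝ] ℝ) z) {z z' : ℂ}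
    (h0 : z ≠ 0) (h1 : z ≠ 1) (h0' : z' ≠ 0) (h1' : z' ≠ 1) : F z = F z' := by
  refine plc_open.is_const_of_fderiv_eq_zero (𝕜 := ℝ) plc_conn ?_ ?_ (plc_mem h0 h1)
    (plc_mem h0' h1')
  · intro w hw
    exact (hF w (plc_ne hw).1 (plc_ne hw).2).differentiableAt.differentiableWithinAt
  · intro w hw
    exact (hF w (plc_ne hw).1 (plc_ne hw).2).fderiv

private theorem plc_refl2 (H : PLD) (z : ℂ) (h0 : z ≠ 0) (h1 : z ≠ 1) :
    H.L 2 (1 - z) = -H.L 2 z := by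
  have key : ∀ w : ℂ, w ≠ 0 → w ≠ 1 →
      HasFDerivAt (fun w => H.L 2 w + H.L 2 (1 - w)) (0 : ℂ →L[ℝ] ℝ) w := by
    intro w hw0 hw1
    have hu : HasDerivAt (fun w : ℂ => 1 - w) (-1) w := by
      simpa using (hasDerivAt_id w).const_sub 1
    have h10 : (1 : ℂ) - w ≠ 0 := sub_ne_zero.2 (Ne.symm hw1)
    have h11 : (1 : ℂ) - w ≠ 1 := by
      intro h
      exact hw0 (by linear_combination -h)
    refine ((H.d2 w hw0 hw1).add (plc_comp2 H hu h10 h11)).congr_fderiv ?_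
    have e1 : (1 - w - 1 : ℂ)⁻¹ * -1 = w⁻¹ := by
      rw [show (1 - w - 1 : ℂ) = -w by ring, inv_neg]; ring
    have e2 : (1 - w : ℂ)⁻¹ * -1 = (w - 1)⁻¹ := by
      rw [show (1 - w : ℂ) = -(w - 1) by ring, inv_neg]; ring
    have e3 : (1 - (1 - w) : ℂ) = w := by ring
    rw [e1, e2, e3]
    ext v
    simp only [add_apply, sub_apply,
      smul_apply, il_apply, smul_eq_mul, zero_apply]
    ring
  have h2 : (1 / 2 : ℂ) ≠ 0 := by norm_num
  have h3 : (1 / 2 : ℂ) ≠ 1 := by norm_num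
  have h := plc_const key h0 h1 h2 h3
  have e : (1 - 1 / 2 : ℂ) = 1 / 2 := by norm_num
  have hr : H.L 2 (1 / 2 : ℂ) = 0 := H.r 2 (by decide) _ (by simp)
  simp only [e, hr] at h
  linarith

/-- `x (1 + |log x|)^k ≤ C √x` on `(0, 1]` -/
private theorem plc_sqrt (k : ℕ) {x : ℝ} (h0 : 0 < x) (h1 : x ≤ 1) :
    x * (1 + |Real.log x|) ^ k ≤ (2 * (k : ℝ) + 3) ^ k * √x := by
  have hk : (0 : ℝ) < 2 * (k : ℝ) + 2 := by positivity
  set t : ℝ := 1 / (2 * (k : ℝ) + 2) with ht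
  have ht0 : 0 < t := by positivity
  have h := Real.abs_log_mul_self_rpow_lt x t h0 h1 ht0
  have hp : 0 < x ^ t := Real.rpow_pos_of_pos h0 t
  have hp1 : x ^ t ≤ 1 := Real.rpow_le_one h0.le h1 ht0.le
  have h2 : (1 + |Real.log x|) * x ^ t ≤ 2 * (k : ℝ) + 3 := by
    rw [abs_mul, abs_of_pos hp, ht, one_div_one_div, ← ht] at h
    nlinarith
  have h3 : ((1 + |Real.log x|) * x ^ t) ^ k ≤ (2 * (k : ℝ) + 3) ^ k :=
    pow_le_pow_left₀ (by positivity) h2 k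
  have h4 : √x ≤ (x ^ t) ^ k := by
    rw [← Real.rpow_natCast, ← Real.rpow_mul h0.le, Real.sqrt_eq_rpow]
    refine Real.rpow_le_rpow_of_exponent_ge h0 h1 ?_
    rw [ht, div_mul_eq_mul_div, one_mul, div_le_div_iff₀ hk (by norm_num)]
    linarith
  have h5 : 0 ≤ √x := Real.sqrt_nonneg x
  have h6 : x = √x * √x := (Real.mul_self_sqrt h0.le).symm
  have h7 : √x * (1 + |Real.log x|) ^ k ≤ (2 * (k : ℝ) + 3) ^ k := by
    refine le_trans ?_ h3
    rw [mul_pow, mul_comm]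
    exact mul_le_mul_of_nonneg_left h4 (by positivity)
  calc x * (1 + |Real.log x|) ^ k = √x * (√x * (1 + |Real.log x|) ^ k) := by
        rw [← mul_assoc, ← h6]
    _ ≤ √x * (2 * (k : ℝ) + 3) ^ k := mul_le_mul_of_nonneg_left h7 h5
    _ = (2 * (k : ℝ) + 3) ^ k * √x := by ring

/-- the constant at `0` -/
private def plcA (H : PLD) (k : ℕ) : ℝ := |H.C k| * (2 * (k : ℝ) + 3) ^ k

private theorem plcA_nonneg (H : PLD) (k : ℕ) : 0 ≤ plcA H k := by unfold plcA; positivity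

private theorem plc_z (H : PLD) (k : ℕ) {z : ℂ} (h0 : z ≠ 0) (h : ‖z‖ ≤ 1 / 2) :
    |H.L k z| ≤ plcA H k * √‖z‖ := by
  have hp : 0 < ‖z‖ := norm_pos_iff.2 h0
  have h1 := plc_sqrt k hp (by linarith)
  calc |H.L k z| ≤ H.C k * ‖z‖ * (1 + |Real.log ‖z‖|) ^ k := H.s k z h0 h
    _ = H.C k * (‖z‖ * (1 + |Real.log ‖z‖|) ^ k) := by ring
    _ ≤ |H.C k| * (‖z‖ * (1 + |Real.log ‖z‖|) ^ k) :=
      mul_le_mul_of_nonneg_right (le_abs_self _) (by positivity)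
    _ ≤ |H.C k| * ((2 * (k : ℝ) + 3) ^ k * √‖z‖) := mul_le_mul_of_nonneg_left h1 (abs_nonneg _)
    _ = plcA H k * √‖z‖ := by unfold plcA; ring

private theorem plc_inv {F : ℂ → ℝ} {A : ℝ} (hF : ∀ z : ℂ, z ≠ 0 → ‖z‖ ≤ 1 / 2 → |F z| ≤ A * √‖z‖)
    (hi : ∀ z : ℂ, z ≠ 0 → |F z⁻¹| = |F z|) {z : ℂ} (h : 2 ≤ ‖z‖) :
    |F z| ≤ A * √(‖z‖⁻¹) := by
  have h0 : z ≠ 0 := by
    intro h0
    rw [h0, norm_zero] at h
    linarith
  have h1 : ‖z⁻¹‖ ≤ 1 / 2 := by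
    rw [norm_inv]
    have := inv_anti₀ (by norm_num : (0 : ℝ) < 2) h
    linarith
  have h2 := hF z⁻¹ (inv_ne_zero h0) h1
  rwa [hi z h0, norm_inv] at h2

private theorem plc_i (H : PLD) (k : ℕ) {z : ℂ} (h : 2 ≤ ‖z‖) :
    |H.L k z| ≤ plcA H k * √(‖z‖⁻¹) := by
  rcases lt_or_ge k 2 with hk | hk
  · rw [H.low k hk z, abs_zero]
    exact mul_nonneg (plcA_nonneg H k) (Real.sqrt_nonneg _)
  · refine plc_inv (fun z h0 h => plc_z H k h0 h) (fun z hz => ?_) h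
    rw [H.n k hk z hz, abs_mul, abs_pow, abs_neg, abs_one, one_pow, one_mul]

private theorem plc_log_le {x : ℝ} (h0 : 2 / 3 ≤ x) (h1 : x ≤ 4 / 3) : |Real.log x| ≤ 1 := by
  have hp : 0 < x := by linarith
  rw [abs_le]
  constructor
  · have h := Real.one_sub_inv_le_log_of_pos hp
    have h2 : x⁻¹ ≤ (2 / 3)⁻¹ := inv_anti₀ (by norm_num) h0
    have h3 : ((2 : ℝ) / 3)⁻¹ = 3 / 2 := by norm_num
    linarith
  · have h := Real.log_le_sub_one_of_pos hp
    linarith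

private theorem plc_near {z : ℂ} (h : ‖1 - z‖ ≤ 1 / 3) :
    z ≠ 0 ∧ 2 / 3 ≤ ‖z‖ ∧ ‖z‖ ≤ 4 / 3 ∧ ‖z⁻¹‖ ≤ 3 / 2 := by
  have h1 : 2 / 3 ≤ ‖z‖ := by
    have h2 := norm_add_le (1 - z) z
    rw [sub_add_cancel, norm_one] at h2
    linarith
  have h2 : ‖z‖ ≤ 4 / 3 := by
    have h3 := norm_sub_le (1 : ℂ) (1 - z)
    rw [sub_sub_cancel, norm_one] at h3
    linarith
  have h0 : z ≠ 0 := by
    intro h0
    rw [h0, norm_zero] at h1
    linarith
  refine ⟨h0, h1, h2, ?_⟩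
  rw [norm_inv]
  have h3 : ‖z‖⁻¹ ≤ (2 / 3)⁻¹ := inv_anti₀ (by norm_num) h1
  have h4 : ((2 : ℝ) / 3)⁻¹ = 3 / 2 := by norm_num
  linarith

/-- `|log |z|| ≤ (3/2) |1 - z|` near `1` -/
private theorem plc_logn {z : ℂ} (h : ‖1 - z‖ ≤ 1 / 3) :
    |Real.log ‖z‖| ≤ 3 / 2 * ‖1 - z‖ := by
  obtain ⟨h0, h1, h2, h3⟩ := plc_near h
  have hp : 0 < ‖z‖ := norm_pos_iff.2 h0
  have a1 : ‖z‖ - 1 ≤ ‖1 - z‖ := by
    have h3 := norm_sub_le (1 : ℂ) (1 - z)
    rw [sub_sub_cancel, norm_one] at h3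
    linarith
  have a2 : 1 - ‖z‖ ≤ ‖1 - z‖ := by
    have h2 := norm_add_le (1 - z) z
    rw [sub_add_cancel, norm_one] at h2
    linarith
  have a3 := norm_nonneg (1 - z)
  rw [norm_inv] at h3
  rw [abs_le]
  constructor
  · have h := Real.one_sub_inv_le_log_of_pos hp
    have h4 : ‖z‖⁻¹ - 1 = (1 - ‖z‖) * ‖z‖⁻¹ := by
      field_simp
    have h5 : (1 - ‖z‖) * ‖z‖⁻¹ ≤ ‖1 - z‖ * (3 / 2) :=
      mul_le_mul a2 h3 (by positivity) a3
    linarith
  · have h := Real.log_le_sub_one_of_pos hp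
    linarith

private theorem plc_il (c : ℂ) : ‖il c‖ ≤ ‖c‖ := by
  refine ContinuousLinearMap.opNorm_le_bound _ (norm_nonneg _) fun v => ?_
  rw [il_apply, Real.norm_eq_abs]
  exact (Complex.abs_im_le_norm _).trans (norm_mul _ _).le

private theorem plc_rl (c : ℂ) : ‖rl c‖ ≤ ‖c‖ := by
  refine ContinuousLinearMap.opNorm_le_bound _ (norm_nonneg _) fun v => ?_
  rw [rl_apply, Real.norm_eq_abs]
  exact (Complex.abs_re_le_norm _).trans (norm_mul _ _).le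

/-- the elementary form is bounded near `1` after multiplication with `log |z|` -/
private theorem plc_elem {z : ℂ} (h1 : z ≠ 1) (h : ‖1 - z‖ ≤ 1 / 3) {m : ℕ} (hm : 1 ≤ m) (b : ℝ) :
    ‖(b * Real.log ‖z‖ ^ m) •
      (Real.log ‖z‖ • rl (z - 1)⁻¹ - Real.log ‖1 - z‖ • rl z⁻¹)‖ ≤ |b| * 4 := by
  obtain ⟨h0, ha, hb, hc⟩ := plc_near h
  have hl := plc_log_le ha hb
  have hn := plc_logn h
  have hp : 0 < ‖1 - z‖ := norm_pos_iff.2 (sub_ne_zero.2 (Ne.symm h1))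
  have hpow : |Real.log ‖z‖ ^ m| ≤ |Real.log ‖z‖| := by
    rw [abs_pow]
    calc |Real.log ‖z‖| ^ m ≤ |Real.log ‖z‖| ^ 1 :=
          pow_le_pow_of_le_one (abs_nonneg _) hl hm
      _ = |Real.log ‖z‖| := pow_one _
  have hlog : |Real.log ‖1 - z‖ * ‖1 - z‖| < 1 :=
    Real.abs_log_mul_self_lt _ hp (by linarith)
  rw [abs_mul, abs_of_pos hp] at hlog
  have e1 : ‖Real.log ‖z‖ • rl (z - 1)⁻¹‖ ≤ 3 / 2 := by
    rw [norm_smul, Real.norm_eq_abs]
    have h2 : ‖rl (z - 1)⁻¹‖ ≤ ‖1 - z‖⁻¹ := by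
      refine (plc_rl _).trans ?_
      rw [norm_inv, norm_sub_rev]
    calc |Real.log ‖z‖| * ‖rl (z - 1)⁻¹‖ ≤ 3 / 2 * ‖1 - z‖ * ‖1 - z‖⁻¹ :=
          mul_le_mul hn h2 (norm_nonneg _) (by positivity)
      _ = 3 / 2 := by field_simp
  have e2 : |Real.log ‖z‖| * ‖Real.log ‖1 - z‖ • rl z⁻¹‖ ≤ 9 / 4 := by
    rw [norm_smul, Real.norm_eq_abs]
    have h3 : ‖rl z⁻¹‖ ≤ 3 / 2 := (plc_rl _).trans hc
    calc |Real.log ‖z‖| * (|Real.log ‖1 - z‖| * ‖rl z⁻¹‖)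
        = (|Real.log ‖z‖| * |Real.log ‖1 - z‖|) * ‖rl z⁻¹‖ := by ring
      _ ≤ (3 / 2 * ‖1 - z‖ * |Real.log ‖1 - z‖|) * ‖rl z⁻¹‖ :=
          mul_le_mul_of_nonneg_right (mul_le_mul_of_nonneg_right hn (abs_nonneg _)) (norm_nonneg _)
      _ ≤ (3 / 2) * (3 / 2) := by
          refine mul_le_mul ?_ h3 (norm_nonneg _) (by norm_num)
          nlinarith
      _ = 9 / 4 := by norm_num
  rw [norm_smul, Real.norm_eq_abs, abs_mul, mul_assoc]
  refine mul_le_mul_of_nonneg_left ?_ (abs_nonneg _)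
  calc |Real.log ‖z‖ ^ m| * ‖Real.log ‖z‖ • rl (z - 1)⁻¹ - Real.log ‖1 - z‖ • rl z⁻¹‖
      ≤ |Real.log ‖z‖| * (‖Real.log ‖z‖ • rl (z - 1)⁻¹‖ + ‖Real.log ‖1 - z‖ • rl z⁻¹‖) :=
        mul_le_mul hpow (norm_sub_le _ _) (norm_nonneg _) (abs_nonneg _)
    _ = |Real.log ‖z‖| * ‖Real.log ‖z‖ • rl (z - 1)⁻¹‖ +
        |Real.log ‖z‖| * ‖Real.log ‖1 - z‖ • rl z⁻¹‖ := by ring
    _ ≤ 1 * (3 / 2) + 9 / 4 := by
        refine add_le_add (mul_le_mul hl e1 (norm_nonneg _) (by norm_num)) e2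
    _ ≤ 4 := by norm_num

/-- Lipschitz on the punctured disc: the segment avoids `1` -/
private theorem plc_seg {F : ℂ → ℝ} {F' : ℂ → ℂ →L[ℝ] ℝ} {K : ℝ}
    (hF : ∀ z : ℂ, z ≠ 1 → ‖1 - z‖ < 1 / 3 → HasFDerivAt F (F' z) z)
    (hK : ∀ z : ℂ, z ≠ 1 → ‖1 - z‖ < 1 / 3 → ‖F' z‖ ≤ K)
    {z w : ℂ} (hz : ‖1 - z‖ < 1 / 3) (hw : ‖1 - w‖ < 1 / 3) (h1 : (1 : ℂ) ∉ segment ℝ w z) :
    |F z - F w| ≤ K * ‖z - w‖ := by
  have hmem : ∀ u ∈ segment ℝ w z, u ≠ 1 ∧ ‖1 - u‖ < 1 / 3 := by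
    intro u hu
    refine ⟨fun h => h1 (h ▸ hu), ?_⟩
    have h2 : segment ℝ w z ⊆ Metric.ball (1 : ℂ) (1 / 3) := by
      refine (convex_ball (1 : ℂ) (1 / 3)).segment_subset ?_ ?_
      · rwa [Metric.mem_ball, dist_comm, dist_eq_norm]
      · rwa [Metric.mem_ball, dist_comm, dist_eq_norm]
    have h3 := h2 hu
    rwa [Metric.mem_ball, dist_comm, dist_eq_norm] at h3
  have := (convex_segment (𝕜 := ℝ) w z).norm_image_sub_le_of_norm_hasFDerivWithin_le (𝕜 := ℝ) (f := F)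
    (f' := F') (C := K)
    (fun u hu => (hF u (hmem u hu).1 (hmem u hu).2).hasFDerivWithinAt)
    (fun u hu => hK u (hmem u hu).1 (hmem u hu).2)
    (left_mem_segment ℝ w z) (right_mem_segment ℝ w z)
  rwa [Real.norm_eq_abs] at this

/-- Lipschitz on the punctured disc -/
private theorem plc_lip {F : ℂ → ℝ} {F' : ℂ → ℂ →L[ℝ] ℝ} {K : ℝ}
    (hF : ∀ z : ℂ, z ≠ 1 → ‖1 - z‖ < 1 / 3 → HasFDerivAt F (F' z) z)
    (hK : ∀ z : ℂ, z ≠ 1 → ‖1 - z‖ < 1 / 3 → ‖F' z‖ ≤ K)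
    {z w : ℂ} (hz1 : z ≠ 1) (hz : ‖1 - z‖ < 1 / 3) (hw1 : w ≠ 1) (hw : ‖1 - w‖ < 1 / 3) :
    |F z - F w| ≤ K * ‖z - w‖ := by
  by_cases h1 : (1 : ℂ) ∉ segment ℝ w z
  · exact plc_seg hF hK hz hw h1
  rw [not_not] at h1
  have hc : ContinuousAt F z := (hF z hz1 hz).continuousAt
  have ht : Tendsto (fun ε : ℝ => z + ε * (Complex.I * (z - 1))) (𝓝[≠] 0) (𝓝 z) := by
    have : Tendsto (fun ε : ℝ => z + (ε : ℂ) * (Complex.I * (z - 1))) (𝓝 0)
        (𝓝 (z + ((0 : ℝ) : ℂ) * (Complex.I * (z - 1)))) :=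
      (continuous_const.add (Complex.continuous_ofReal.mul continuous_const)).tendsto 0
    simp only [Complex.ofReal_zero, zero_mul, add_zero] at this
    exact this.mono_left nhdsWithin_le_nhds
  have hf : Tendsto (fun ε : ℝ => |F (z + ε * (Complex.I * (z - 1))) - F w|) (𝓝[≠] 0)
      (𝓝 |F z - F w|) := ((hc.tendsto.comp ht).sub_const _).abs
  have hg : Tendsto (fun ε : ℝ => K * ‖(z + ε * (Complex.I * (z - 1))) - w‖) (𝓝[≠] 0)
      (𝓝 (K * ‖z - w‖)) := ((ht.sub_const _).norm).const_mul K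
  have hev : ∀ᶠ ε : ℝ in 𝓝[≠] 0, ‖1 - (z + ε * (Complex.I * (z - 1)))‖ < 1 / 3 := by
    have h1 : Tendsto (fun ε : ℝ => ‖1 - (z + ε * (Complex.I * (z - 1)))‖) (𝓝[≠] 0)
        (𝓝 ‖1 - z‖) := (ht.const_sub 1).norm
    exact h1.eventually_lt_const hz
  refine le_of_tendsto_of_tendsto hf hg ?_
  filter_upwards [hev, self_mem_nhdsWithin] with ε h2 h3
  refine plc_seg hF hK h2 hw ?_
  intro h4
  obtain ⟨a, b, ha, hb, hab, h5⟩ := h1
  obtain ⟨a', b', ha', hb', hab', h6⟩ := h4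
  have ea : (a : ℂ) + b = 1 := by exact_mod_cast hab
  have ea' : (a' : ℂ) + b' = 1 := by exact_mod_cast hab'
  rw [Complex.real_smul, Complex.real_smul] at h5 h6
  have h7 : (a : ℂ) * (w - 1) + b * (z - 1) = 0 := by linear_combination h5 - ea
  have h8 : (a' : ℂ) * (w - 1) + b' * ((1 + ε * Complex.I) * (z - 1)) = 0 := by
    linear_combination h6 - ea'
  have hz2 : z - 1 ≠ 0 := sub_ne_zero.2 hz1
  have hw2 : w - 1 ≠ 0 := sub_ne_zero.2 hw1
  have h9 : ((a : ℂ) * b' * (1 + ε * Complex.I) - a' * b) * (z - 1) = 0 := by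
    linear_combination (a : ℂ) * h8 - (a' : ℂ) * h7
  have h10 : (a : ℂ) * b' * (1 + ε * Complex.I) - a' * b = 0 :=
    (mul_eq_zero.1 h9).resolve_right hz2
  have h11 : a * b' * ε = 0 := by
    have := congrArg Complex.im h10
    simpa using this
  have hε : ε ≠ 0 := h3
  have ha0 : a ≠ 0 := by
    rintro rfl
    have hb1 : b = 1 := by linarith
    rw [hb1] at h7
    simp at h7
    exact hz2 h7
  have hb0 : b' ≠ 0 := by
    rintro rfl
    have ha1 : a' = 1 := by linarith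
    rw [ha1] at h8
    simp at h8
    exact hw2 h8
  exact (mul_ne_zero (mul_ne_zero ha0 hb0) hε) h11

/-- the limit at `1` -/
private theorem plc_ext {F : ℂ → ℝ} {F' : ℂ → ℂ →L[ℝ] ℝ} {K : ℝ}
    (hF : ∀ z : ℂ, z ≠ 1 → ‖1 - z‖ < 1 / 3 → HasFDerivAt F (F' z) z)
    (hK : ∀ z : ℂ, z ≠ 1 → ‖1 - z‖ < 1 / 3 → ‖F' z‖ ≤ K) :
    ∃ c : ℝ, ∀ z : ℂ, z ≠ 1 → ‖1 - z‖ < 1 / 3 → |F z - c| ≤ K.toNNReal * ‖1 - z‖ := by
  have hL : LipschitzOnWith K.toNNReal F {z : ℂ | z ≠ 1 ∧ ‖1 - z‖ < 1 / 3} := by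
    refine LipschitzOnWith.of_dist_le_mul fun z hz w hw => ?_
    rw [Real.dist_eq, dist_eq_norm]
    refine (plc_lip hF hK hz.1 hz.2 hw.1 hw.2).trans ?_
    exact mul_le_mul_of_nonneg_right (Real.le_coe_toNNReal K) (norm_nonneg _)
  obtain ⟨g, hg, hgF⟩ := hL.extend_real
  refine ⟨g 1, fun z h1 h => ?_⟩
  have h2 := hg.dist_le_mul z 1
  rw [Real.dist_eq, dist_eq_norm, ← hgF (show z ∈ {z : ℂ | z ≠ 1 ∧ ‖1 - z‖ < 1 / 3} from ⟨h1, h⟩),
    norm_sub_rev] at h2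
  exact h2

/-- behaviour near `1` -/
private def plcN (H : PLD) (k : ℕ) : Prop :=
  ∃ c A : ℝ, 0 ≤ A ∧ (Even k → c = 0) ∧
    ∀ z : ℂ, z ≠ 1 → ‖1 - z‖ < 1 / 3 → |H.L k z - c| ≤ A * √‖1 - z‖

private theorem plcN_bdd {H : PLD} {k : ℕ} (h : plcN H k) :
    ∃ B : ℝ, 0 ≤ B ∧ ∀ z : ℂ, z ≠ 1 → ‖1 - z‖ < 1 / 3 → |H.L k z| ≤ B := by
  obtain ⟨c, A, hA, -, h2⟩ := h
  refine ⟨|c| + A, by positivity, fun z h1 h => ?_⟩
  have h3 := h2 z h1 h
  have h4 : √‖1 - z‖ ≤ 1 := by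
    rw [show (1 : ℝ) = √1 by simp]
    exact Real.sqrt_le_sqrt (by linarith)
  have h5 : A * √‖1 - z‖ ≤ A * 1 := mul_le_mul_of_nonneg_left h4 hA
  have h6 : |H.L k z| ≤ |H.L k z - c| + |c| := by
    have := abs_add_le (H.L k z - c) c
    rwa [sub_add_cancel] at this
  linarith

private theorem plcN_two (H : PLD) : plcN H 2 := by
  refine ⟨0, plcA H 2, plcA_nonneg H 2, fun _ => rfl, fun z h1 h => ?_⟩
  have h0 : z ≠ 0 := (plc_near h.le).1
  have := plc_z H 2 (z := 1 - z) (sub_ne_zero.2 (Ne.symm h1)) (by linarith)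
  rw [plc_refl2 H z h0 h1, abs_neg] at this
  rwa [sub_zero]

private theorem plcN_low (H : PLD) {k : ℕ} (hk : k < 2) : plcN H k := by
  refine ⟨0, 0, le_rfl, fun _ => rfl, fun z _ _ => ?_⟩
  rw [H.low k hk z]
  simp

private theorem plc_hsq {x : ℝ} (h0 : 0 ≤ x) (h1 : x ≤ 1) : x ≤ √x := by
  have h2 : √x ≤ 1 := by
    rw [show (1 : ℝ) = √1 by simp]
    exact Real.sqrt_le_sqrt h1
  have h3 := Real.mul_self_sqrt h0
  nlinarith [Real.sqrt_nonneg x]

private theorem plcN_all (H : PLD) (k : ℕ) : plcN H k := by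
  induction k using Nat.strong_induction_on with
  | _ k ih =>
    rcases lt_or_ge k 2 with hk | hk
    · exact plcN_low H hk
    rcases hk.eq_or_lt with rfl | hk3
    · exact plcN_two H
    have hk3 : 3 ≤ k := hk3
    have hB : ∀ j : ℕ, ∃ B : ℝ, 0 ≤ B ∧ (j < k → ∀ z : ℂ, z ≠ 1 → ‖1 - z‖ < 1 / 3 → |H.L j z| ≤ B) := by
      intro j
      by_cases hj : j < k
      · obtain ⟨B, hB, h⟩ := plcN_bdd (ih j hj)
        exact ⟨B, hB, fun _ => h⟩
      · exact ⟨0, le_rfl, fun h => absurd h hj⟩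
    choose B hB0 hB using hB
    obtain ⟨c, hc⟩ := plc_ext (F := H.L k)
      (F' := fun z => ((-1) ^ k * H.L (k - 1) z) • il z⁻¹ -
        (∑ i ∈ Finset.Icc 2 (k - 2), bt i * Real.log ‖z‖ ^ (i - 1) * H.L (k - i) z) • rl z⁻¹ -
        (bt (k - 1) * Real.log ‖z‖ ^ (k - 2)) •
          (Real.log ‖z‖ • rl (z - 1)⁻¹ - Real.log ‖1 - z‖ • rl z⁻¹))
      (K := B (k - 1) * (3 / 2) + (∑ i ∈ Finset.Icc 2 (k - 2), |bt i| * B (k - i)) * (3 / 2) +
        |bt (k - 1)| * 4)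
      (fun z h1 h => H.d k hk3 z (plc_near h.le).1 h1) (fun z h1 h => by
        obtain ⟨h0, ha, hb, hc⟩ := plc_near h.le
        have hl := plc_log_le ha hb
        refine (norm_sub_le _ _).trans (add_le_add ((norm_sub_le _ _).trans (add_le_add ?_ ?_)) ?_)
        · rw [norm_smul, Real.norm_eq_abs, abs_mul, abs_pow, abs_neg, abs_one, one_pow, one_mul]
          exact mul_le_mul (hB (k - 1) (by omega) z h1 h) ((plc_il _).trans hc) (norm_nonneg _)
            (hB0 _)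
        · rw [norm_smul, Real.norm_eq_abs]
          refine mul_le_mul ?_ ((plc_rl _).trans hc) (norm_nonneg _)
            (Finset.sum_nonneg fun i _ => mul_nonneg (abs_nonneg _) (hB0 _))
          refine (Finset.abs_sum_le_sum_abs _ _).trans (Finset.sum_le_sum fun i hi => ?_)
          have hi2 := Finset.mem_Icc.1 hi
          rw [abs_mul, abs_mul, abs_pow]
          refine mul_le_mul ?_ (hB (k - i) (by omega) z h1 h) (abs_nonneg _) (abs_nonneg _)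
          calc |bt i| * |Real.log ‖z‖| ^ (i - 1) ≤ |bt i| * 1 :=
                mul_le_mul_of_nonneg_left (pow_le_one₀ (abs_nonneg _) hl) (abs_nonneg _)
            _ = |bt i| := mul_one _
        · exact plc_elem h1 h.le (by omega) _)
    refine ⟨c, _, NNReal.coe_nonneg _, fun he => ?_, fun z h1 h => (hc z h1 h).trans
      (mul_le_mul_of_nonneg_left (plc_hsq (norm_nonneg _) (by linarith)) (NNReal.coe_nonneg _))⟩
    -- even weight: zero on the real axis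
    have hlim : Tendsto (fun ε : ℝ => ((Real.toNNReal (B (k - 1) * (3 / 2) +
        (∑ i ∈ Finset.Icc 2 (k - 2), |bt i| * B (k - i)) * (3 / 2) +
        |bt (k - 1)| * 4) : NNReal) : ℝ) * |ε|) (𝓝[>] 0) (𝓝 0) := by
      have : Tendsto (fun ε : ℝ => ((Real.toNNReal (B (k - 1) * (3 / 2) +
        (∑ i ∈ Finset.Icc 2 (k - 2), |bt i| * B (k - i)) * (3 / 2) +
        |bt (k - 1)| * 4) : NNReal) : ℝ) * |ε|) (𝓝 0) (𝓝 (_ * |(0 : ℝ)|)) :=
        (continuous_const.mul continuous_abs).tendsto 0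
      rw [abs_zero, mul_zero] at this
      exact this.mono_left nhdsWithin_le_nhds
    have hle : |c| ≤ 0 := by
      refine ge_of_tendsto hlim ?_
      have h13 : ∀ᶠ ε : ℝ in 𝓝[>] 0, ε < 1 / 3 :=
        (tendsto_id.mono_left nhdsWithin_le_nhds).eventually_lt_const (by norm_num)
      filter_upwards [h13, self_mem_nhdsWithin] with ε h2 h3
      have h3 : 0 < ε := h3
      have h4 : (1 : ℂ) - (1 + (ε : ℂ)) = ((-ε : ℝ) : ℂ) := by push_cast; ring
      have h5 := hc (1 + (ε : ℂ)) (by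
        intro h
        have h6 : (ε : ℂ) = 0 := by linear_combination h
        exact h3.ne' (by exact_mod_cast h6)) (by
        rw [h4, Complex.norm_real, Real.norm_eq_abs, abs_neg, abs_of_pos h3]
        exact h2)
      rw [H.r k he (1 + (ε : ℂ)) (by simp), h4, Complex.norm_real, Real.norm_eq_abs, abs_neg,
        zero_sub, abs_neg] at h5
      exact h5
    exact abs_eq_zero.1 (le_antisymm hle (abs_nonneg c))

private theorem plc_bdd {F : ℂ → ℝ} (hF : ∀ z, z ≠ 0 → z ≠ 1 → ContinuousAt F z) {A : ℝ}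
    (h0 : ∀ z : ℂ, z ≠ 0 → ‖z‖ ≤ 1 / 2 → |F z| ≤ A) (hi : ∀ z : ℂ, 2 ≤ ‖z‖ → |F z| ≤ A)
    (h1 : ∀ z : ℂ, z ≠ 1 → ‖1 - z‖ < 1 / 3 → |F z| ≤ A) : ∃ M : ℝ, 0 ≤ M ∧ ∀ z, |F z| ≤ M := by
  set K : Set ℂ := {z | ‖z‖ ≤ 2 ∧ 1 / 2 ≤ ‖z‖ ∧ 1 / 3 ≤ ‖1 - z‖} with hK
  have hKc : IsCompact K := by
    refine (isCompact_closedBall (0 : ℂ) 2).of_isClosed_subset ?_ ?_
    · exact (isClosed_le continuous_norm continuous_const).inter
        ((isClosed_le continuous_const continuous_norm).inter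
          (isClosed_le continuous_const (continuous_const.sub continuous_id).norm))
    · intro z hz
      simpa using hz.1
  have hKF : ContinuousOn F K := by
    intro z hz
    refine (hF z ?_ ?_).continuousWithinAt
    · intro h
      have := hz.2.1
      rw [h, norm_zero] at this
      linarith
    · intro h
      have := hz.2.2
      rw [h, sub_self, norm_zero] at this
      linarith
  obtain ⟨M, hM⟩ := hKc.exists_bound_of_continuousOn hKF
  refine ⟨|F 0| + |F 1| + |A| + |M|, by positivity, fun z => ?_⟩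
  have a0 := abs_nonneg (F 0)
  have a1 := abs_nonneg (F 1)
  have a2 := abs_nonneg A
  have a3 := abs_nonneg M
  have a4 := le_abs_self A
  have a5 := le_abs_self M
  rcases eq_or_ne z 0 with rfl | hz0
  · linarith
  rcases eq_or_ne z 1 with rfl | hz1
  · linarith
  by_cases c0 : ‖z‖ ≤ 1 / 2
  · linarith [h0 z hz0 c0]
  by_cases ci : 2 ≤ ‖z‖
  · linarith [hi z ci]
  by_cases c1 : ‖1 - z‖ < 1 / 3
  · linarith [h1 z hz1 c1]
  have := hM z ⟨(not_le.1 ci).le, (not_le.1 c0).le, not_lt.1 c1⟩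
  rw [Real.norm_eq_abs] at this
  linarith

private theorem plc_sq {F φ : ℂ → ℝ} {M A r : ℝ} (hr : 0 < r) (hφ : ∀ z, 0 ≤ φ z)
    (hM : ∀ z, |F z| ≤ M) (h : ∀ z, φ z < r → |F z| ≤ A * √(φ z)) (z : ℂ) :
    F z ^ 2 ≤ (A ^ 2 + M ^ 2 / r) * φ z := by
  have hp := hφ z
  by_cases hc : φ z < r
  · have h1 := pow_le_pow_left₀ (abs_nonneg _) (h z hc) 2
    rw [sq_abs, mul_pow, Real.sq_sqrt hp] at h1
    have : 0 ≤ M ^ 2 / r * φ z := by positivity
    linarith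
  · have h1 := pow_le_pow_left₀ (abs_nonneg _) (hM z) 2
    rw [sq_abs] at h1
    have h2 : M ^ 2 ≤ M ^ 2 / r * φ z := by
      calc M ^ 2 = M ^ 2 / r * r := by field_simp
        _ ≤ M ^ 2 / r * φ z := mul_le_mul_of_nonneg_left (not_lt.1 hc) (by positivity)
    have : 0 ≤ A ^ 2 * φ z := by positivity
    linarith

private theorem plc_sqi {F : ℂ → ℝ} {M A : ℝ} (hM : ∀ z, |F z| ≤ M)
    (h : ∀ z : ℂ, 2 ≤ ‖z‖ → |F z| ≤ A * √(‖z‖⁻¹)) (z : ℂ) :
    F z ^ 2 * ‖z‖ ≤ A ^ 2 + 2 * M ^ 2 := by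
  by_cases hc : 2 ≤ ‖z‖
  · have h1 := pow_le_pow_left₀ (abs_nonneg _) (h z hc) 2
    have hp : 0 < ‖z‖ := by linarith
    rw [sq_abs, mul_pow, Real.sq_sqrt (by positivity)] at h1
    have h2 := mul_le_mul_of_nonneg_right h1 hp.le
    rw [mul_assoc, inv_mul_cancel₀ hp.ne', mul_one] at h2
    nlinarith [sq_nonneg M]
  · have h1 := pow_le_pow_left₀ (abs_nonneg _) (hM z) 2
    rw [sq_abs] at h1
    have h2 := mul_le_mul h1 (not_le.1 hc).le (norm_nonneg _) (sq_nonneg M)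
    nlinarith [sq_nonneg A]

private theorem plc_tend {F : ℂ → ℝ} {A : ℝ} {l : Filter ℂ} {φ : ℂ → ℝ}
    (hφ : Tendsto φ l (𝓝 0)) {c : ℝ} (h : ∀ᶠ z in l, |F z - c| ≤ A * √(φ z)) :
    Tendsto F l (𝓝 c) := by
  rw [tendsto_iff_norm_sub_tendsto_zero]
  have h1 : Tendsto (fun z => A * √(φ z)) l (𝓝 0) := by
    have := (Real.continuous_sqrt.tendsto 0).comp hφ
    have h2 := this.const_mul A
    simpa using h2
  exact squeeze_zero' (Eventually.of_forall fun _ => norm_nonneg _) h h1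

private theorem plc_ca (H : PLD) {k : ℕ} (hk : 2 ≤ k) {z : ℂ} (h0 : z ≠ 0) (h1 : z ≠ 1) :
    ContinuousAt (H.L k) z := by
  rcases hk.eq_or_lt with rfl | hk3
  · exact (H.d2 z h0 h1).continuousAt
  · exact (H.d k hk3 z h0 h1).continuousAt

/-- all the estimates of one weight -/
private theorem plc_one (H : PLD) (k : ℕ) (c A : ℝ) (hA : 0 ≤ A) (hlow : k < 2 → c = 0)
    (he : Even k → c = 0)
    (hc : ∀ z : ℂ, z ≠ 1 → ‖1 - z‖ < 1 / 3 → |H.L k z - c| ≤ A * √‖1 - z‖) :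
    ∃ C : ℝ,
      (∀ z : ℂ, |if z = 1 then c else H.L k z| ≤ C) ∧
      (∀ z : ℂ, (if z = 1 then c else H.L k z) ^ 2 ≤ C * ‖z‖) ∧
      (∀ z : ℂ, (if z = 1 then c else H.L k z) ^ 2 * ‖z‖ ≤ C) ∧
      (Even k → ∀ z : ℂ, (if z = 1 then c else H.L k z) ^ 2 ≤ C * ‖1 - z‖) := by
  rcases lt_or_ge k 2 with hk | hk
  · have h : ∀ z : ℂ, (if z = 1 then c else H.L k z) = 0 := by
      intro z
      split_ifs
      · exact hlow hk
      · exact H.low k hk z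
    refine ⟨0, fun z => ?_, fun z => ?_, fun z => ?_, fun _ z => ?_⟩ <;> rw [h z] <;> simp
  have hA0 := plcA_nonneg H k
  have hs1 : ∀ x : ℝ, x ≤ 1 → √x ≤ 1 := fun x hx => by
    rw [show (1 : ℝ) = √1 by simp]
    exact Real.sqrt_le_sqrt hx
  have hAx : ∀ x : ℝ, x ≤ 1 → plcA H k * √x ≤ plcA H k := fun x hx => by
    have := mul_le_mul_of_nonneg_left (hs1 x hx) hA0
    linarith
  obtain ⟨M, hM0, hM⟩ := plc_bdd (F := H.L k) (A := plcA H k + (|c| + A))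
    (fun z h0 h1 => plc_ca H hk h0 h1)
    (fun z h0 h => ((plc_z H k h0 h).trans (hAx _ (by linarith))).trans
      (by linarith [abs_nonneg c]))
    (fun z h => ((plc_i H k h).trans (hAx _ (inv_le_one_of_one_le₀ (by linarith)))).trans
      (by linarith [abs_nonneg c]))
    (fun z h1 h => by
      have h3 := hc z h1 h
      have h4 := hs1 ‖1 - z‖ (by linarith)
      have h5 : A * √‖1 - z‖ ≤ A * 1 := mul_le_mul_of_nonneg_left h4 hA
      have h6 : |H.L k z| ≤ |H.L k z - c| + |c| := by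
        have := abs_add_le (H.L k z - c) c
        rwa [sub_add_cancel] at this
      linarith)
  have hF : ∀ z : ℂ, |if z = 1 then c else H.L k z| ≤ M + |c| := by
    intro z
    split_ifs
    · linarith
    · linarith [hM z, abs_nonneg c]
  have q := plc_sq (F := fun z : ℂ => if z = 1 then c else H.L k z) (φ := fun z => ‖z‖)
    (A := plcA H k) (r := 1 / 2) (by norm_num) (fun z => norm_nonneg z) hF (fun z h => by
      have h1 : z ≠ 1 := by
        rintro rfl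
        rw [norm_one] at h
        linarith
      simp only [if_neg h1]
      rcases eq_or_ne z 0 with rfl | h0
      · simp [H.zero k]
      · exact plc_z H k h0 h.le)
  have s := plc_sqi (F := fun z : ℂ => if z = 1 then c else H.L k z) hF (A := plcA H k)
    (fun z h => by
      have h1 : z ≠ 1 := by
        rintro rfl
        rw [norm_one] at h
        linarith
      simp only [if_neg h1]
      exact plc_i H k h)
  have p : Even k → ∀ z : ℂ, (if z = 1 then c else H.L k z) ^ 2 ≤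
      (A ^ 2 + (M + |c|) ^ 2 / (1 / 3)) * ‖1 - z‖ := fun hev =>
    plc_sq (F := fun z : ℂ => if z = 1 then c else H.L k z) (φ := fun z => ‖1 - z‖)
      (A := A) (r := 1 / 3) (by norm_num) (fun z => norm_nonneg _) hF (fun z h => by
        split_ifs with h1
        · rw [he hev, abs_zero]
          positivity
        · have := hc z h1 h
          rwa [he hev, sub_zero] at this)
  have k1 : 0 ≤ plcA H k ^ 2 + (M + |c|) ^ 2 / (1 / 2) := by positivity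
  have k2 : 0 ≤ A ^ 2 + (M + |c|) ^ 2 / (1 / 3) := by positivity
  have k3 : 0 ≤ plcA H k ^ 2 + 2 * (M + |c|) ^ 2 := by positivity
  have k4 : 0 ≤ M + |c| := by positivity
  have hmul : ∀ {x y t : ℝ}, 0 ≤ t → x ≤ y → x * t ≤ y * t := fun ht h =>
    mul_le_mul_of_nonneg_right h ht
  refine ⟨(M + |c|) + (plcA H k ^ 2 + (M + |c|) ^ 2 / (1 / 2)) +
    (A ^ 2 + (M + |c|) ^ 2 / (1 / 3)) + (plcA H k ^ 2 + 2 * (M + |c|) ^ 2),
    fun z => (hF z).trans (by linarith),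
    fun z => (q z).trans (hmul (norm_nonneg _) (by linarith)),
    fun z => (s z).trans (by linarith),
    fun hev z => (p hev z).trans (hmul (norm_nonneg _) (by linarith))⟩

/-- `L_k = Re (k odd) or Im (k even) of ∑_{j<k} fb j log^j|z| Li_{k-j}(z)` on `ℂ \ [1, ∞)`, and
`L_k(z) = (-1)^(k-1) L_k(1/z)`. -/
theorem exists_PLs : Nonempty PLs := by
  obtain ⟨H⟩ := exists_PLD
  have hex : ∀ k, ∃ c A : ℝ, 0 ≤ A ∧ (k < 2 → c = 0) ∧ (Even k → c = 0) ∧
      ∀ z : ℂ, z ≠ 1 → ‖1 - z‖ < 1 / 3 → |H.L k z - c| ≤ A * √‖1 - z‖ := by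
    intro k
    rcases lt_or_ge k 2 with hk | hk
    · refine ⟨0, 0, le_rfl, fun _ => rfl, fun _ => rfl, fun z _ _ => ?_⟩
      rw [H.low k hk z]
      simp
    · obtain ⟨c, A, hA, h1, h2⟩ := plcN_all H k
      exact ⟨c, A, hA, fun h => absurd h (not_lt.2 hk), h1, h2⟩
  choose c A hA hlow he hc using hex
  have hone := fun k => plc_one H k (c k) (A k) (hA k) (hlow k) (he k) (hc k)
  choose C b bz bi bo using hone
  obtain ⟨L, hL⟩ : ∃ L : ℕ → ℂ → ℝ, ∀ k z, L k z = if z = 1 then c k else H.L k z :=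
    ⟨fun k z => if z = 1 then c k else H.L k z, fun _ _ => rfl⟩
  have hL1 : ∀ k z, z ≠ 1 → L k z = H.L k z := fun k z h => by rw [hL, if_neg h]
  have hLe : ∀ k z, z ≠ 1 → L k =ᶠ[𝓝 z] H.L k := fun k z h => by
    filter_upwards [isOpen_ne.mem_nhds h] with w hw
    exact hL1 k w hw
  refine ⟨{
    L := L, C := C
    d2 := fun z h0 h1 => (H.d2 z h0 h1).congr_of_eventuallyEq (hLe 2 z h1)
    d := fun k hk z h0 h1 => by
      have h := (H.d k hk z h0 h1).congr_of_eventuallyEq (hLe k z h1)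
      simp only [hL1 _ z h1]
      exact h
    r := fun k hk z hz => by
      rw [hL]
      split_ifs
      · exact he k hk
      · exact H.r k hk z hz
    cont := fun k hk => ?_
    zero := fun k => by
      rw [hL1 k 0 zero_ne_one]
      exact H.zero k
    lim := fun k hk => ?_
    b := fun k z => by rw [hL]; exact b k z
    bz := fun k z => by rw [hL]; exact bz k z
    bi := fun k z => by rw [hL]; exact bi k z
    bo := fun k hk z => by rw [hL]; exact bo k hk z }⟩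
  · rw [continuous_iff_continuousAt]
    intro z
    rcases eq_or_ne z 0 with rfl | h0
    · have h1 : Tendsto (fun z : ℂ => ‖z‖) (𝓝 0) (𝓝 0) := by
        have : Tendsto (fun z : ℂ => ‖z‖) (𝓝 0) (𝓝 ‖(0 : ℂ)‖) := continuous_norm.tendsto 0
        rwa [norm_zero] at this
      unfold ContinuousAt
      rw [hL1 k 0 zero_ne_one, H.zero k]
      refine plc_tend (A := plcA H k) (φ := fun z => ‖z‖) h1 ?_
      filter_upwards [h1.eventually_lt_const (by norm_num : (0 : ℝ) < 1 / 2)] with z hz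
      have hz1 : z ≠ 1 := by
        rintro rfl
        rw [norm_one] at hz
        linarith
      rw [sub_zero, hL1 k z hz1]
      rcases eq_or_ne z 0 with rfl | h0
      · simp [H.zero k]
      · exact plc_z H k h0 hz.le
    rcases eq_or_ne z 1 with rfl | h1
    · have h1 : Tendsto (fun z : ℂ => ‖1 - z‖) (𝓝 1) (𝓝 0) := by
        have : Tendsto (fun z : ℂ => ‖1 - z‖) (𝓝 1) (𝓝 ‖(1 : ℂ) - 1‖) :=
          (continuous_const.sub continuous_id).norm.tendsto 1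
        rwa [sub_self, norm_zero] at this
      unfold ContinuousAt
      rw [hL k 1, if_pos rfl]
      refine plc_tend (A := A k) (φ := fun z => ‖1 - z‖) h1 ?_
      filter_upwards [h1.eventually_lt_const (by norm_num : (0 : ℝ) < 1 / 3)] with z hz
      rcases eq_or_ne z 1 with rfl | hz1
      · rw [hL k 1, if_pos rfl]
        simp
      · rw [hL1 k z hz1]
        exact hc k z hz1 hz
    · exact (plc_ca H hk h0 h1).congr (hLe k z h1).symm
  · have h1 : Tendsto (fun z : ℂ => ‖z‖) (cocompact ℂ) atTop := tendsto_norm_cocompact_atTop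
    refine plc_tend (A := plcA H k) (φ := fun z => ‖z‖⁻¹) h1.inv_tendsto_atTop ?_
    filter_upwards [h1.eventually_ge_atTop 2] with z hz
    have hz1 : z ≠ 1 := by
      rintro rfl
      rw [norm_one] at hz
      linarith
    rw [sub_zero, hL1 k z hz1]
    exact plc_i H k hz

end Pool.Agent.F194.Y

end
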