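import Pool.Agent.Work.MP_f194bb_nt.Y.Base
import Pool.Agent.Work.MP_f194bb_nt.Divs

/-!
# MP_f194bb_nt, odd n: the field of an elliptic curve over the rational numbers
-/

set_option autoImplicit false

open scoped ComplexConjugate PeriodPair
open MeasureTheory Filter Topology

noncomputable section

namespace Pool.Agent.F194.Y

universe u

/-! ### the operations -/

section
variable {L : PeriodPair} {K : Type u} [Field K] (ρ : EllRep L K)

private theorem qe_zero : ρ.ev 0 =ᶠ[codiscrete ℂ] 0 := by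
  have h1 := ρ.map_add 0 0
  rw [add_zero] at h1
  filter_upwards [h1] with z hz
  rw [Pi.add_apply] at hz
  rw [Pi.zero_apply]
  linear_combination -hz

private theorem qe_neg (a : K) : ρ.ev (-a) =ᶠ[codiscrete ℂ] fun z => -ρ.ev a z := by
  have h1 := ρ.map_add (-a) a
  rw [neg_add_cancel] at h1
  filter_upwards [h1, qe_zero ρ] with z hz hz1
  rw [Pi.add_apply, hz1, Pi.zero_apply] at hz
  linear_combination -hz

private theorem qe_inv (a : K) : ρ.ev a⁻¹ =ᶠ[codiscrete ℂ] fun z => (ρ.ev a z)⁻¹ := by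
  by_cases ha : a = 0
  · subst ha
    filter_upwards [qe_zero ρ] with z h
    rw [inv_zero, h, Pi.zero_apply, inv_zero]
  · have h1 := ρ.map_mul a a⁻¹
    rw [mul_inv_cancel₀ ha] at h1
    filter_upwards [h1, ρ.map_one] with z hz hz1
    rw [hz1, Pi.one_apply] at hz
    exact eq_inv_of_mul_eq_one_right hz.symm

private theorem qe_nat (n : ℕ) : ρ.ev (n : K) =ᶠ[codiscrete ℂ] fun _ => (n : ℂ) := by
  induction n with
  | zero =>
    filter_upwards [qe_zero ρ] with z h
    rw [Nat.cast_zero, Nat.cast_zero, h, Pi.zero_apply]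
  | succ n ih =>
    filter_upwards [ih, ρ.map_add (n : K) 1, ρ.map_one] with z h1 h2 h3
    rw [Nat.cast_add, Nat.cast_one, h2, Pi.add_apply, h1, h3, Pi.one_apply, Nat.cast_add,
      Nat.cast_one]

private theorem qe_int (n : ℤ) : ρ.ev (n : K) =ᶠ[codiscrete ℂ] fun _ => (n : ℂ) := by
  cases n with
  | ofNat n =>
    simp only [Int.ofNat_eq_natCast, Int.cast_natCast]
    exact qe_nat ρ n
  | negSucc n =>
    filter_upwards [qe_neg ρ ((n + 1 : ℕ) : K), qe_nat ρ (n + 1)] with z h1 h2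
    rw [Int.cast_negSucc, Int.cast_negSucc, h1, h2]

private theorem qe_ne {a : K} {c : ℂ} (h : ρ.ev a =ᶠ[codiscrete ℂ] fun _ => c) (hc : c ≠ 0) :
    a ≠ 0 := by
  rintro rfl
  have h1 := order_congr ((qe_zero ρ).symm.trans h) 0
  have h2 : meromorphicOrderAt (0 : ℂ → ℂ) 0 = ⊤ := by
    rw [meromorphicOrderAt_eq_top_iff]
    exact Filter.Eventually.of_forall fun _ => rfl
  rw [h2, meromorphicOrderAt_const] at h1
  simp [hc] at h1

include ρ in
/-- the field has characteristic zero -/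
private theorem qe_char : CharZero K := by
  refine ⟨fun m n h => ?_⟩
  by_contra hne
  have h1 : ((m : ℤ) - (n : ℤ) : ℤ) ≠ 0 := by omega
  have h2 : (((m : ℤ) - (n : ℤ) : ℤ) : K) ≠ 0 := by
    refine qe_ne ρ (qe_int ρ _) ?_
    exact_mod_cast h1
  apply h2
  push_cast
  rw [h, sub_self]

private theorem qe_rat [CharZero K] (q : ℚ) : ρ.ev (q : K) =ᶠ[codiscrete ℂ] fun _ => (q : ℂ) := by
  have h1 := ρ.map_mul (q.num : K) (q.den : K)⁻¹
  filter_upwards [h1, qe_int ρ q.num, qe_inv ρ (q.den : K), qe_nat ρ q.den] with z a1 a2 a3 a4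
  rw [Rat.cast_def, div_eq_mul_inv, a1, Pi.mul_apply, a2, a3, a4]
  rw [Rat.cast_def (q : ℚ) (K := ℂ), div_eq_mul_inv]

/-! ### the real structure -/

private theorem qe_codisc {P : ℂ → Prop} (h : ∀ᶠ z in codiscrete ℂ, P z) :
    ∀ᶠ z in codiscrete ℂ, P (conj z) := by
  rw [Filter.Eventually, mem_codiscrete] at h ⊢
  intro x
  have h1 := h (conj x)
  rw [Filter.disjoint_principal_right, compl_compl] at h1 ⊢
  have h2 : Tendsto (fun z : ℂ => conj z) (𝓝[≠] x) (𝓝[≠] (conj x)) := by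
    refine tendsto_nhdsWithin_iff.2 ⟨?_, ?_⟩
    · exact (Complex.continuous_conj.tendsto x).mono_left nhdsWithin_le_nhds
    · filter_upwards [self_mem_nhdsWithin] with z hz
      intro hz1
      exact hz ((starRingEnd ℂ).injective hz1)
  exact h2 h1

private theorem qe_real {S : Set K} (hK : Subfield.closure S = ⊤)
    (hS : ∀ s ∈ S, (fun z => conj (ρ.ev s (conj z))) =ᶠ[codiscrete ℂ] ρ.ev s) (f : K) :
    (fun z => conj (ρ.ev f (conj z))) =ᶠ[codiscrete ℂ] ρ.ev f := by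
  have hf : f ∈ Subfield.closure S := by rw [hK]; trivial
  induction hf using Subfield.closure_induction with
  | mem x hx => exact hS x hx
  | one =>
    filter_upwards [ρ.map_one, qe_codisc ρ.map_one] with z h1 h2
    rw [h1, h2, Pi.one_apply, Pi.one_apply, map_one]
  | add x y _ _ hx hy =>
    filter_upwards [ρ.map_add x y, qe_codisc (ρ.map_add x y), hx, hy] with z h1 h2 h3 h4
    rw [h1, h2, Pi.add_apply, Pi.add_apply, map_add, h3, h4]
  | neg x _ hx =>
    filter_upwards [qe_neg ρ x, qe_codisc (qe_neg ρ x), hx] with z h1 h2 h3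
    rw [h1, h2, map_neg, h3]
  | inv x _ hx =>
    filter_upwards [qe_inv ρ x, qe_codisc (qe_inv ρ x), hx] with z h1 h2 h3
    rw [h1, h2, map_inv₀, h3]
  | mul x y _ _ hx hy =>
    filter_upwards [ρ.map_mul x y, qe_codisc (ρ.map_mul x y), hx, hy] with z h1 h2 h3 h4
    rw [h1, h2, Pi.mul_apply, Pi.mul_apply, map_mul, h3, h4]

/-! ### limits -/

private theorem qe_T_rat [CharZero K] (q : ℚ) (z : ℂ) :
    Tendsto (ρ.ev (q : K)) (𝓝[≠] z) (𝓝 (q : ℂ)) :=
  tendsto_const_nhds.congr' (nhdsNE_of_codiscrete (qe_rat ρ q) z).symm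

private theorem qe_T_add {a b : K} {z c d : ℂ} (ha : Tendsto (ρ.ev a) (𝓝[≠] z) (𝓝 c))
    (hb : Tendsto (ρ.ev b) (𝓝[≠] z) (𝓝 d)) : Tendsto (ρ.ev (a + b)) (𝓝[≠] z) (𝓝 (c + d)) :=
  (ha.add hb).congr' (nhdsNE_of_codiscrete (ρ.map_add a b) z).symm

private theorem qe_T_mul {a b : K} {z c d : ℂ} (ha : Tendsto (ρ.ev a) (𝓝[≠] z) (𝓝 c))
    (hb : Tendsto (ρ.ev b) (𝓝[≠] z) (𝓝 d)) : Tendsto (ρ.ev (a * b)) (𝓝[≠] z) (𝓝 (c * d)) :=
  (ha.mul hb).congr' (nhdsNE_of_codiscrete (ρ.map_mul a b) z).symm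

private theorem qe_T_one (z : ℂ) : Tendsto (ρ.ev 1) (𝓝[≠] z) (𝓝 1) :=
  tendsto_const_nhds.congr' (nhdsNE_of_codiscrete ρ.map_one z).symm

private theorem qe_T_zero (z : ℂ) : Tendsto (ρ.ev 0) (𝓝[≠] z) (𝓝 0) :=
  tendsto_const_nhds.congr' (nhdsNE_of_codiscrete (qe_zero ρ) z).symm

private theorem qe_T_pow {a : K} {z c : ℂ} (ha : Tendsto (ρ.ev a) (𝓝[≠] z) (𝓝 c)) (n : ℕ) :
    Tendsto (ρ.ev (a ^ n)) (𝓝[≠] z) (𝓝 (c ^ n)) := by
  induction n with
  | zero => rw [pow_zero, pow_zero]; exact qe_T_one ρ z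
  | succ n ih => rw [pow_succ, pow_succ]; exact qe_T_mul ρ ih ha

/-- polynomials over a ring with compatible maps -/
private theorem qe_T_poly {R : Type*} [CommRing R] (φ : R →+* K) (ψ : R →+* ℂ) {z : ℂ}
    (h : ∀ r, Tendsto (ρ.ev (φ r)) (𝓝[≠] z) (𝓝 (ψ r))) {a : K} {c : ℂ}
    (ha : Tendsto (ρ.ev a) (𝓝[≠] z) (𝓝 c)) (p : Polynomial R) :
    Tendsto (ρ.ev (p.eval₂ φ a)) (𝓝[≠] z) (𝓝 (p.eval₂ ψ c)) := by
  induction p using Polynomial.induction_on' with
  | add p q hp hq =>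
    rw [Polynomial.eval₂_add, Polynomial.eval₂_add]
    exact qe_T_add ρ hp hq
  | monomial n r =>
    rw [Polynomial.eval₂_monomial, Polynomial.eval₂_monomial]
    exact qe_T_mul ρ (h r) (qe_T_pow ρ ha n)

end

/-! ### the functions of Weierstrass -/

private theorem qe_lat {L : PeriodPair} (hL : RL L) (z : ℂ) : conj z ∈ L.lattice ↔ z ∈ L.lattice := by
  refine ⟨fun h => ?_, hL.cj z⟩
  have := hL.cj _ h
  rwa [Complex.conj_conj] at this

private def qe_latConj {L : PeriodPair} (hL : RL L) : L.lattice ≃ L.lattice where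
  toFun l := ⟨conj (l : ℂ), (qe_lat hL _).2 l.2⟩
  invFun l := ⟨conj (l : ℂ), (qe_lat hL _).2 l.2⟩
  left_inv l := by simp
  right_inv l := by simp

private theorem qe_P_conj {L : PeriodPair} (hL : RL L) (z : ℂ) : ℘[L] (conj z) = conj (℘[L] z) := by
  have h1 := (L.hasSum_weierstrassP z).map (starRingEnd ℂ) Complex.continuous_conj
  have h2 := L.hasSum_weierstrassP (conj z)
  have h3 := ((qe_latConj hL).hasSum_iff).2 h2
  refine h3.unique ?_
  have e : (fun l : L.lattice => (1 / (conj z - l) ^ 2 - 1 / (l : ℂ) ^ 2)) ∘ (qe_latConj hL) =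
      (starRingEnd ℂ) ∘ fun l : L.lattice => (1 / (z - l) ^ 2 - 1 / (l : ℂ) ^ 2) := by
    funext l
    simp [qe_latConj]
  rw [e]
  exact h1

private theorem qe_P'_conj {L : PeriodPair} (hL : RL L) (z : ℂ) :
    ℘'[L] (conj z) = conj (℘'[L] z) := by
  have h1 := (L.hasSum_derivWeierstrassP z).map (starRingEnd ℂ) Complex.continuous_conj
  have h2 := L.hasSum_derivWeierstrassP (conj z)
  have h3 := ((qe_latConj hL).hasSum_iff).2 h2
  refine h3.unique ?_
  have e : (fun l : L.lattice => -2 / (conj z - l) ^ 3) ∘ (qe_latConj hL) =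
      (starRingEnd ℂ) ∘ fun l : L.lattice => -2 / (z - l) ^ 3 := by
    funext l
    simp [qe_latConj, map_ofNat]
  rw [e]
  exact h1

/-- off the lattice -/
private theorem qe_notLat (L : PeriodPair) : ∀ᶠ z in codiscrete ℂ, z ∉ L.lattice := by
  rw [Filter.Eventually, mem_codiscrete]
  intro x
  rw [Filter.disjoint_principal_right, compl_compl]
  filter_upwards [mem_nhdsWithin_of_mem_nhds (L.compl_lattice_sdiff_singleton_mem_nhds x),
    self_mem_nhdsWithin] with z a b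
  intro h
  exact a ⟨h, b⟩

/-- the equation of the curve holds in `K` -/
private theorem qe_curve {L : PeriodPair} {K : Type u} [Field K] [CharZero K] (ρ : EllRep L K)
    {a b : ℚ} (ha : L.g₂ = a) (hb : L.g₃ = b) {x y : K}
    (hx : ρ.ev x =ᶠ[codiscrete ℂ] ℘[L]) (hy : ρ.ev y =ᶠ[codiscrete ℂ] ℘'[L]) :
    y ^ 2 = 4 * x ^ 3 - a * x - b := by
  by_contra hne
  have h0 : y ^ 2 - (4 * x ^ 3 - a * x - b) ≠ 0 := sub_ne_zero.2 hne
  apply ρ.nz h0 0
  have h1 : ρ.ev (y ^ 2 - (4 * x ^ 3 - a * x - b)) =ᶠ[codiscrete ℂ] 0 := by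
    have e : y ^ 2 - (4 * x ^ 3 - a * x - b) =
        y * y + (((-4 : ℚ) : K) * (x * (x * x)) + ((a : K) * x + (b : K))) := by
      push_cast
      ring
    rw [e]
    filter_upwards [hx, hy, ρ.map_add (y * y) (((-4 : ℚ) : K) * (x * (x * x)) + ((a : K) * x + (b : K))),
      ρ.map_mul y y, ρ.map_add (((-4 : ℚ) : K) * (x * (x * x))) ((a : K) * x + (b : K)),
      ρ.map_mul ((-4 : ℚ) : K) (x * (x * x)), ρ.map_mul x (x * x), ρ.map_mul x x,
      ρ.map_add ((a : K) * x) (b : K), ρ.map_mul (a : K) x, qe_rat ρ a, qe_rat ρ b, qe_rat ρ (-4),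
      qe_notLat L] with z a1 a2 a3 a4 a5 a6 a7 a8 a9 a10 a11 a12 a13 a14
    have h := L.derivWeierstrassP_sq z a14
    rw [ha, hb] at h
    simp only [Pi.add_apply, Pi.mul_apply] at a3 a4 a5 a6 a7 a8 a9 a10
    rw [a3, a4, a5, a6, a7, a8, a9, a10, a11, a12, a13, a1, a2, Pi.zero_apply]
    push_cast
    linear_combination h
  rw [order_congr h1, meromorphicOrderAt_eq_top_iff]
  exact Filter.Eventually.of_forall fun _ => rfl

/-! ### algebra -/

/-- an algebraic complex number comes from `ℚ̄` -/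
private theorem qe_lift (σ : AlgebraicClosure ℚ →+* ℂ) {c : ℂ} {Q : Polynomial ℚ} (hQ : Q ≠ 0)
    (hc : Q.eval₂ (algebraMap ℚ ℂ) c = 0) : ∃ a, σ a = c := by
  have hs : (Q.map (algebraMap ℚ (AlgebraicClosure ℚ))).Splits :=
    IsAlgClosed.splits _
  have e : Q.map (algebraMap ℚ ℂ) = (Q.map (algebraMap ℚ (AlgebraicClosure ℚ))).map σ := by
    rw [Polynomial.map_map]
    congr 1
    exact Subsingleton.elim _ _
  have h1 : (Q.map (algebraMap ℚ ℂ)).IsRoot c := by
    rw [Polynomial.IsRoot, Polynomial.eval_map]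
    exact hc
  have h2 : c ∈ (Q.map (algebraMap ℚ ℂ)).roots := by
    rw [Polynomial.mem_roots (Polynomial.map_ne_zero hQ)]
    exact h1
  rw [e, hs.roots_map σ, Multiset.mem_map] at h2
  obtain ⟨a, -, ha⟩ := h2
  exact ⟨a, ha⟩

/-- `K` has transcendence degree one -/
private theorem qe_dep {K : Type u} [Field K] [CharZero K] {x y : K}
    (hK : Subfield.closure ({x, y} : Set K) = ⊤) {a b : ℚ}
    (hxy : y ^ 2 = 4 * x ^ 3 - a * x - b) {g : K} (hg : Transcendental ℚ g) (f : K) :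
    ∃ p : Polynomial (Polynomial ℚ), p ≠ 0 ∧
      p.eval₂ (Polynomial.aeval g : Polynomial ℚ →ₐ[ℚ] K).toRingHom f = 0 := by
  -- `K` is algebraic over `ℚ(x)`
  have h1 : Algebra.IsAlgebraic (IntermediateField.adjoin ℚ ({x} : Set K)) K := by
    have hx1 : x ∈ IntermediateField.adjoin ℚ ({x} : Set K) :=
      IntermediateField.mem_adjoin_simple_self ℚ x
    have hle : Subfield.closure ({x, y} : Set K) ≤
        (algebraicClosure (IntermediateField.adjoin ℚ ({x} : Set K)) K).toSubfield := by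
      rw [Subfield.closure_le]
      rintro w (rfl | rfl)
      · show w ∈ algebraicClosure (IntermediateField.adjoin ℚ ({w} : Set K)) K
        rw [mem_algebraicClosure_iff]
        exact isAlgebraic_algebraMap (⟨w, hx1⟩ : IntermediateField.adjoin ℚ ({w} : Set K))
      · show w ∈ algebraicClosure (IntermediateField.adjoin ℚ ({x} : Set K)) K
        rw [mem_algebraicClosure_iff]
        refine IsAlgebraic.of_pow two_pos ?_
        have hm : w ^ 2 ∈ IntermediateField.adjoin ℚ ({x} : Set K) := by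
          rw [hxy]
          have ha : ((a : ℚ) : K) ∈ IntermediateField.adjoin ℚ ({x} : Set K) :=
            (IntermediateField.adjoin ℚ ({x} : Set K)).algebraMap_mem a
          have hb : ((b : ℚ) : K) ∈ IntermediateField.adjoin ℚ ({x} : Set K) :=
            (IntermediateField.adjoin ℚ ({x} : Set K)).algebraMap_mem b
          have h4 : (4 : K) ∈ IntermediateField.adjoin ℚ ({x} : Set K) :=
            ofNat_mem _ 4
          exact sub_mem (sub_mem (mul_mem h4 (pow_mem hx1 3)) (mul_mem ha hx1)) hb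
        exact isAlgebraic_algebraMap (⟨w ^ 2, hm⟩ : IntermediateField.adjoin ℚ ({x} : Set K))
    refine ⟨fun w => ?_⟩
    have hw : w ∈ (algebraicClosure (IntermediateField.adjoin ℚ ({x} : Set K)) K).toSubfield := by
      apply hle
      rw [hK]
      trivial
    exact mem_algebraicClosure_iff.1 hw
  have h2 : Algebra.IsAlgebraic (Algebra.adjoin ℚ ({x} : Set K)) K := by
    open IntermediateField.algebraAdjoinAdjoin in
    exact (IsFractionRing.comap_isAlgebraic_iff (A := Algebra.adjoin ℚ ({x} : Set K))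
      (K := IntermediateField.adjoin ℚ ({x} : Set K)) (C := K)).2 h1
  have h3 : Algebra.trdeg ℚ K ≤ 1 := by
    have h4 := Algebra.IsAlgebraic.trdeg_le_cardinalMk ℚ ({x} : Set K)
    rwa [Cardinal.mk_singleton] at h4
  have h4 : AlgebraicIndependent ℚ (fun _ : PUnit.{u + 1} => g) :=
    algebraicIndependent_unique_type_iff.2 hg
  have h5 : IsTranscendenceBasis ℚ (fun _ : PUnit.{u + 1} => g) :=
    h4.isTranscendenceBasis_of_trdeg_le_of_finite (by rw [Cardinal.mk_punit]; exact h3)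
  have h6 := h5.isAlgebraic
  rw [Set.range_const, Algebra.adjoin_singleton_eq_range_aeval] at h6
  obtain ⟨q, hq0, hq⟩ := h6.isAlgebraic f
  obtain ⟨p, hp⟩ := Polynomial.map_surjective
    (Polynomial.aeval g : Polynomial ℚ →ₐ[ℚ] K).rangeRestrict.toRingHom
    (AlgHom.rangeRestrict_surjective _) q
  refine ⟨p, ?_, ?_⟩
  · rintro rfl
    apply hq0
    rw [← hp, Polynomial.map_zero]
  · rw [← hp, Polynomial.aeval_def, Polynomial.eval₂_map] at hq
    exact hq

/-- the value of `f` at a zero of `g` is algebraic -/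
private theorem qe_alg0 {L : PeriodPair} {K : Type u} [Field K] [CharZero K] (ρ : EllRep L K)
    {x y : K} (hK : Subfield.closure ({x, y} : Set K) = ⊤) {a b : ℚ}
    (hxy : y ^ 2 = 4 * x ^ 3 - a * x - b) {g : K} (hg : g ≠ 0) {z : ℂ}
    (h0 : Tendsto (ρ.ev g) (𝓝[≠] z) (𝓝 0)) (f : K) {c : ℂ}
    (hc : Tendsto (ρ.ev f) (𝓝[≠] z) (𝓝 c)) :
    ∃ Q : Polynomial ℚ, Q ≠ 0 ∧ Q.eval₂ (algebraMap ℚ ℂ) c = 0 := by
  have hT : ∀ r : Polynomial ℚ, Tendsto
      (ρ.ev ((Polynomial.aeval g : Polynomial ℚ →ₐ[ℚ] K).toRingHom r)) (𝓝[≠] z)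
      (𝓝 ((Polynomial.aeval (0 : ℂ) : Polynomial ℚ →ₐ[ℚ] ℂ).toRingHom r)) := by
    intro r
    have h := qe_T_poly ρ (algebraMap ℚ K) (algebraMap ℚ ℂ) (fun q => qe_T_rat ρ q z) h0 r
    exact h
  -- `g` is transcendental
  have hg1 : Transcendental ℚ g := by
    intro ha
    have h1 := hT (minpoly ℚ g)
    have h2 : (Polynomial.aeval g : Polynomial ℚ →ₐ[ℚ] K).toRingHom (minpoly ℚ g) = 0 :=
      minpoly.aeval ℚ g
    rw [h2] at h1
    have h3 := tendsto_nhds_unique h1 (qe_T_zero ρ z)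
    have h4 : (Polynomial.aeval (0 : ℂ) : Polynomial ℚ →ₐ[ℚ] ℂ) (minpoly ℚ g) = 0 := h3
    rw [← Polynomial.coeff_zero_eq_aeval_zero'] at h4
    have h5 : (minpoly ℚ g).coeff 0 = 0 := by
      apply (algebraMap ℚ ℂ).injective
      rw [h4, map_zero]
    exact minpoly.coeff_zero_ne_zero ha.isIntegral hg h5
  obtain ⟨p, hp0, hp⟩ := qe_dep hK hxy hg1 f
  have hinj : Function.Injective (Polynomial.aeval g : Polynomial ℚ →ₐ[ℚ] K).toRingHom :=
    transcendental_iff_injective.1 hg1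
  have hpp : p.primPart.eval₂ (Polynomial.aeval g : Polynomial ℚ →ₐ[ℚ] K).toRingHom f = 0 := by
    rw [p.eq_C_content_mul_primPart, Polynomial.eval₂_mul, Polynomial.eval₂_C] at hp
    rcases mul_eq_zero.1 hp with h | h
    · exfalso
      apply hp0
      rw [← Polynomial.content_eq_zero_iff]
      exact hinj (h.trans (map_zero _).symm)
    · exact h
  have hlim := qe_T_poly ρ _ _ hT hc p.primPart
  rw [hpp] at hlim
  have h6 := tendsto_nhds_unique hlim (qe_T_zero ρ z)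
  refine ⟨p.primPart.map (Polynomial.evalRingHom (0 : ℚ)), ?_, ?_⟩
  · intro h7
    have h8 : Polynomial.C (Polynomial.X : Polynomial ℚ) ∣ p.primPart := by
      rw [Polynomial.C_dvd_iff_dvd_coeff]
      intro i
      rw [Polynomial.X_dvd_iff, Polynomial.coeff_zero_eq_eval_zero]
      have h9 := congrArg (fun q => Polynomial.coeff q i) h7
      simpa [Polynomial.coeff_map] using h9
    exact Polynomial.not_isUnit_X (p.isPrimitive_primPart _ h8)
  · rw [Polynomial.eval₂_map]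
    have e : (algebraMap ℚ ℂ).comp (Polynomial.evalRingHom (0 : ℚ)) =
        (Polynomial.aeval (0 : ℂ) : Polynomial ℚ →ₐ[ℚ] ℂ).toRingHom := by
      apply Polynomial.ringHom_ext
      · intro a
        simp
      · simp
    rw [e]
    exact h6

/-- `K = ℚ(x, y)`, `y² = 4x³ - g₂ x - g₃` with rational `g₂, g₃` -/
theorem repQ {L : PeriodPair} (hL : RL L) (h2 : ∃ a : ℚ, L.g₂ = a) (h3 : ∃ a : ℚ, L.g₃ = a)
    {K : Type u} [Field K] (ρ : EllRep L K) (x y : K) (hK : Subfield.closure ({x, y} : Set K) = ⊤)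
    (hx : ρ.ev x =ᶠ[codiscrete ℂ] ℘[L]) (hy : ρ.ev y =ᶠ[codiscrete ℂ] ℘'[L]) : RepQ ρ := by
  have hch : CharZero K := qe_char ρ
  obtain ⟨a, ha⟩ := h2
  obtain ⟨b, hb⟩ := h3
  have hxy : y ^ 2 = 4 * x ^ 3 - a * x - b := qe_curve ρ ha hb hx hy
  have hinf : ∀ (f : K) (z : ℂ), ¬ 0 ≤ meromorphicOrderAt (ρ.ev f) z →
      Tendsto (fun w => ‖ρ.ev f w‖) (𝓝[≠] z) atTop := by
    intro f z h
    rw [tendsto_norm_atTop_iff_cobounded]
    exact tendsto_cobounded_of_meromorphicOrderAt_neg (not_le.1 h)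
  refine ⟨?_, ?_, ?_⟩
  · have h1 := Subfield.cardinalMk_closure_le_max ({x, y} : Set K)
    rw [hK] at h1
    have h4 : Cardinal.mk ({x, y} : Set K) ≤ Cardinal.aleph0 :=
      Cardinal.mk_le_aleph0_iff.2 (Set.to_countable _)
    have h5 : Cardinal.mk (⊤ : Subfield K) ≤ Cardinal.aleph0 := h1.trans (max_le h4 le_rfl)
    have h6 : Countable (⊤ : Subfield K) := Cardinal.mk_le_aleph0_iff.1 h5
    exact (Subfield.topEquiv (K := K)).toEquiv.countable_iff.1 h6
  · refine qe_real ρ hK ?_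
    rintro s (rfl | rfl)
    · filter_upwards [hx, qe_codisc hx] with z h1 h4
      rw [h1, h4, qe_P_conj hL, Complex.conj_conj]
    · filter_upwards [hy, qe_codisc hy] with z h1 h4
      rw [h1, h4, qe_P'_conj hL, Complex.conj_conj]
  · intro f g z hg σ
    by_cases hf : 0 ≤ meromorphicOrderAt (ρ.ev (f : K)) z
    · obtain ⟨c, hc⟩ := tendsto_nhds_of_meromorphicOrderAt_nonneg (ρ.mero _ z) hf
      have h7 : ∃ g' : K, g' ≠ 0 ∧ Tendsto (ρ.ev g') (𝓝[≠] z) (𝓝 0) := by
        have h8 : meromorphicOrderAt (ρ.ev (g : K)) z ≠ 0 := by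
          intro h
          apply hg
          rw [dv, h]
          rfl
        rcases lt_or_gt_of_ne h8 with h9 | h9
        · refine ⟨(g : K)⁻¹, inv_ne_zero g.ne_zero, ?_⟩
          refine Tendsto.congr' (nhdsNE_of_codiscrete (qe_inv ρ (g : K)) z).symm ?_
          exact tendsto_inv₀_cobounded.comp (tendsto_cobounded_of_meromorphicOrderAt_neg h9)
        · exact ⟨g, g.ne_zero, tendsto_zero_of_meromorphicOrderAt_pos h9⟩
      obtain ⟨g', hg', h0⟩ := h7
      obtain ⟨Q, hQ, hQc⟩ := qe_alg0 ρ hK hxy hg' h0 (f : K) hc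
      obtain ⟨t, ht⟩ := qe_lift σ hQ hQc
      refine ⟨some t, ?_⟩
      rw [← ht] at hc
      exact hc
    · exact ⟨none, hinf _ z hf⟩

end Pool.Agent.F194.Y

end
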