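import Pool.Agent.Work.MP_f194bb_nt.Y.Val
import Pool.Agent.Work.MP_f194bb_nt.Y.Build
import Pool.Agent.Work.MP_f194bb_nt.Y.QE
import Pool.Agent.Work.MP_f194bb_nt.Y.Poly
import Pool.Agent.Work.MP_f194bb_nt.KsumLin
import Pool.Agent.Work.MP_f194bb_nt.Divs

/-!
# MP_f194bb_nt, odd n: main theorem
-/

set_option autoImplicit false

open scoped ComplexConjugate PeriodPair
open MeasureTheory Filter Topology

noncomputable section

namespace Pool.Agent.F194.Y

universe u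

/-- the elementary integrand in terms of the functions of `K`, on the line `Im z = y` -/
def EI {L : PeriodPair} {K : Type u} [Field K] (ρ : EllRep L K) (q : ℕ) {ι : Type} [Fintype ι]
    (f g : ι → Kˣ) (y t : ℝ) : ℝ :=
  ∑ i, Real.log ‖ρ.ev (g i : K) (t + y * Complex.I)‖ *
    Real.log ‖ρ.ev (f i : K) (t + y * Complex.I)‖ ^ q *
    (Real.log ‖ρ.ev (f i : K) (t + y * Complex.I)‖ *
      deriv (fun τ : ℝ => Real.log ‖ρ.ev (1 - (f i : K)) (τ + y * Complex.I)‖) t -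
    Real.log ‖ρ.ev (1 - (f i : K)) (t + y * Complex.I)‖ *
      deriv (fun τ : ℝ => Real.log ‖ρ.ev (f i : K) (τ + y * Complex.I)‖) t)

/-- a property valid on a codiscrete set holds for almost all `t`, near `t + y i` -/
private theorem ae_line {p : ℂ → Prop} (h : ∀ᶠ z in codiscrete ℂ, p z) (y : ℝ) :
    ∀ᵐ t : ℝ, ∀ᶠ w in 𝓝 (t + y * Complex.I : ℂ), p w := by
  have h1 : ∀ z, ∀ᶠ w in 𝓝[≠] z, p w := fun z => by
    have h2 : {z | p z} ∈ codiscrete ℂ := h
    rw [mem_codiscrete] at h2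
    have h3 := h2 z
    rw [Filter.disjoint_principal_right, compl_compl] at h3
    exact h3
  have h2 : {z | ¬ p z}.Countable := by
    apply (HereditarilyLindelofSpace.isLindelof _).countable_of_isDiscrete
    rw [isDiscrete_iff_nhdsNE]
    intro x _
    refine _root_.disjoint_iff.1 ?_
    rw [Filter.disjoint_principal_right]
    filter_upwards [h1 x] with w hw
    exact not_not.2 hw
  have h3 : ((fun t : ℝ => (t + y * Complex.I : ℂ)) ⁻¹' {z | ¬ p z}).Countable :=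
    h2.preimage fun a b hab => by
      have := congrArg Complex.re hab
      simpa using this
  have h4 : ∀ᵐ t : ℝ, t ∉ (fun t : ℝ => (t + y * Complex.I : ℂ)) ⁻¹' {z | ¬ p z} :=
    (ae_iff.2 (by simpa using h3.measure_zero volume))
  filter_upwards [h4] with t ht
  have h5 : p (t + y * Complex.I) := not_not.1 ht
  have h6 := h1 (t + y * Complex.I)
  rw [eventually_nhdsWithin_iff] at h6
  filter_upwards [h6] with w hw
  by_cases hwz : w = t + y * Complex.I
  · rw [hwz]; exact h5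
  · exact hw hwz

private theorem line_tendsto (y t : ℝ) :
    Tendsto (fun τ : ℝ => (τ + y * Complex.I : ℂ)) (𝓝 t) (𝓝 (t + y * Complex.I)) := by
  have : Continuous fun τ : ℝ => (τ + y * Complex.I : ℂ) := by fun_prop
  exact this.tendsto t

/-- derivative along the line -/
private theorem la_line {u v : ℂ → ℂ} {y t : ℝ} (h : AnalyticAt ℂ u (t + y * Complex.I))
    (h0 : u (t + y * Complex.I) ≠ 0) (he : ∀ᶠ w in 𝓝 (t + y * Complex.I : ℂ), u w = v w) :
    Real.log ‖v (t + y * Complex.I)‖ = la u (t + y * Complex.I) ∧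
    deriv (fun τ : ℝ => Real.log ‖v (τ + y * Complex.I)‖) t = lx u (t + y * Complex.I) := by
  refine ⟨by rw [la, he.self_of_nhds], ?_⟩
  have h1 : HasDerivAt (fun τ : ℝ => (τ + y * Complex.I : ℂ)) 1 t := by
    have := (Complex.ofRealCLM.hasDerivAt (x := t)).add_const (y * Complex.I : ℂ)
    simpa using this
  have h2 := (la_fd h h0).comp_hasDerivAt t h1
  have h3 : HasDerivAt (fun τ : ℝ => Real.log ‖v (τ + y * Complex.I)‖)
      (lx u (t + y * Complex.I)) t := by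
    have h4 : rl (ld u (t + y * Complex.I)) 1 = lx u (t + y * Complex.I) := by
      rw [rl_apply, mul_one]; rfl
    rw [h4] at h2
    refine h2.congr_of_eventuallyEq ?_
    filter_upwards [(line_tendsto y t).eventually he] with τ hτ
    simp only [Function.comp, la, hτ]
  exact h3.deriv

/-- **`K_n` for odd `n` as an integral over the real points.** -/
theorem main {L : PeriodPair} (hL : RL L) (h2 : ∃ a : ℚ, L.g₂ = a) (h3 : ∃ a : ℚ, L.g₃ = a)
    {K : Type u} [Field K] (ρ : EllRep L K) (x y : K) (hK : Subfield.closure ({x, y} : Set K) = ⊤)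
    (hx : ρ.ev x =ᶠ[codiscrete ℂ] ℘[L]) (hy : ρ.ev y =ᶠ[codiscrete ℂ] ℘'[L])
    {q : ℕ} (hq : Even q) (hq2 : 2 ≤ q) {ι : Type} [Fintype ι] (f g : ι → Kˣ)
    (hI : CocycleI (q - 1) f g) (hII : CocycleII q ρ f g)
    (c : ℝ) (hc : (2 * c * Complex.I : ℂ) ∈ L.lattice) :
    ∑ i, Ksum L q (pr L (dv (ρ.ev (g i : K)))) (pr L (dv (ρ.ev (f i : K))))
      (pr L (dv (ρ.ev (1 - (f i : K))))) =
      -(((areaA L) ^ (q + 2) * (L.ω₁.re : ℂ))⁻¹ *
        ((∫ t in (0 : ℝ)..L.ω₁.re, EI ρ q f g c t : ℝ) : ℂ)) := by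
  classical
  obtain ⟨P⟩ := exists_PLs
  have hρ := repQ hL h2 h3 ρ x y hK hx hy
  obtain ⟨S, hf, hh, hg⟩ := exists_sys hL ρ hρ P hq hq2 f g hI hII {i : ι // f i ≠ 1}
    Subtype.val Subtype.val_injective (by rw [Subtype.range_coe_subtype])
  have hval := ksum_val S hL hq hq2 hc
  -- the left-hand side
  have hl : ∑ i, Ksum L q (pr L (dv (ρ.ev (g i : K)))) (pr L (dv (ρ.ev (f i : K))))
      (pr L (dv (ρ.ev (1 - (f i : K))))) =
      ∑ i, Ksum L q (pr L (dv (S.g i))) (pr L (dv (S.f i))) (pr L (dv (S.h i))) := by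
    have h1 : ∀ i : {i : ι // f i ≠ 1}, Ksum L q (pr L (dv (S.g i))) (pr L (dv (S.f i)))
        (pr L (dv (S.h i))) = Ksum L q (pr L (dv (ρ.ev (g i : K)))) (pr L (dv (ρ.ev (f i : K))))
      (pr L (dv (ρ.ev (1 - (f i : K))))) := by
      intro i
      rw [hf, hg, hh, nf_dv, nf_dv, nf_dv]
    rw [Finset.sum_congr rfl fun i _ => h1 i]
    have h0 : ∀ i : ι, ¬ f i ≠ 1 → Ksum L q (pr L (dv (ρ.ev (g i : K))))
        (pr L (dv (ρ.ev (f i : K)))) (pr L (dv (ρ.ev (1 - (f i : K))))) = 0 := by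
      intro i hi
      have h2 : f i = 1 := not_not.1 hi
      have h3 : pr L (dv (ρ.ev (f i : K))) = fun _ => 0 := by
        rw [h2, Units.val_one, ρ.dv_one]
        funext γ
        unfold pr
        simp
      rw [h3, ksum_zero_two]
    have h4 : ∑ i ∈ Finset.univ.filter fun i => f i ≠ 1,
        Ksum L q (pr L (dv (ρ.ev (g i : K)))) (pr L (dv (ρ.ev (f i : K))))
        (pr L (dv (ρ.ev (1 - (f i : K))))) = ∑ i : {i : ι // f i ≠ 1},
        Ksum L q (pr L (dv (ρ.ev (g i : K)))) (pr L (dv (ρ.ev (f i : K))))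
        (pr L (dv (ρ.ev (1 - (f i : K))))) := Finset.sum_subtype _ (by simp) _
    rw [← h4]
    exact (Finset.sum_filter_of_ne (p := fun i => f i ≠ 1)
      fun i _ hi h => hi (h0 i (not_not.2 h))).symm
  rw [hl, hval]
  congr 3
  refine intervalIntegral.integral_congr_ae ?_
  -- the right-hand side
  have e1 : ∀ i, ∀ᵐ t : ℝ, ∀ᶠ w in 𝓝 (t + c * Complex.I : ℂ), nf ρ (f i : K) w = ρ.ev (f i : K) w :=
    fun i => ae_line (nf_ev ρ _) c
  have e2 : ∀ i, ∀ᵐ t : ℝ, ∀ᶠ w in 𝓝 (t + c * Complex.I : ℂ),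
      nf ρ (1 - (f i : K)) w = ρ.ev (1 - (f i : K)) w := fun i => ae_line (nf_ev ρ _) c
  have e3 : ∀ i, ∀ᵐ t : ℝ, ∀ᶠ w in 𝓝 (t + c * Complex.I : ℂ), nf ρ (g i : K) w = ρ.ev (g i : K) w :=
    fun i => ae_line (nf_ev ρ _) c
  have e4 : ∀ᵐ t : ℝ, ∀ᶠ w in 𝓝 (t + c * Complex.I : ℂ), ρ.ev 1 w = 1 :=
    ae_line (p := fun w => ρ.ev 1 w = 1) ρ.map_one c
  have e5 : ∀ᵐ t : ℝ, ∀ᶠ w in 𝓝 (t + c * Complex.I : ℂ), w ∉ S.C := by
    refine ae_line ?_ c
    rw [Filter.Eventually, mem_codiscrete]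
    intro z
    rw [Filter.disjoint_principal_right, compl_compl]
    exact S.isol z
  filter_upwards [ae_all_iff.2 e1, ae_all_iff.2 e2, ae_all_iff.2 e3, e4, e5] with t t1 t2 t3 t4 t5 _
  have hC := t5.self_of_nhds
  unfold I0 EI
  have h0 : ∀ i : ι, ¬ f i ≠ 1 → Real.log ‖ρ.ev (g i : K) (t + c * Complex.I)‖ *
      Real.log ‖ρ.ev (f i : K) (t + c * Complex.I)‖ ^ q *
      (Real.log ‖ρ.ev (f i : K) (t + c * Complex.I)‖ *
        deriv (fun τ : ℝ => Real.log ‖ρ.ev (1 - (f i : K)) (τ + c * Complex.I)‖) t -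
      Real.log ‖ρ.ev (1 - (f i : K)) (t + c * Complex.I)‖ *
        deriv (fun τ : ℝ => Real.log ‖ρ.ev (f i : K) (τ + c * Complex.I)‖) t) = 0 := by
    intro i hi
    have h2 : f i = 1 := not_not.1 hi
    rw [h2, Units.val_one, t4.self_of_nhds, norm_one, Real.log_one, zero_pow (by omega), mul_zero,
      zero_mul]
  have h4 : ∑ i ∈ Finset.univ.filter fun i => f i ≠ 1,
      Real.log ‖ρ.ev (g i : K) (t + c * Complex.I)‖ *
      Real.log ‖ρ.ev (f i : K) (t + c * Complex.I)‖ ^ q *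
      (Real.log ‖ρ.ev (f i : K) (t + c * Complex.I)‖ *
        deriv (fun τ : ℝ => Real.log ‖ρ.ev (1 - (f i : K)) (τ + c * Complex.I)‖) t -
      Real.log ‖ρ.ev (1 - (f i : K)) (t + c * Complex.I)‖ *
        deriv (fun τ : ℝ => Real.log ‖ρ.ev (f i : K) (τ + c * Complex.I)‖) t) =
      ∑ i : {i : ι // f i ≠ 1}, Real.log ‖ρ.ev (g i : K) (t + c * Complex.I)‖ *
      Real.log ‖ρ.ev (f i : K) (t + c * Complex.I)‖ ^ q *
      (Real.log ‖ρ.ev (f i : K) (t + c * Complex.I)‖ *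
        deriv (fun τ : ℝ => Real.log ‖ρ.ev (1 - (f i : K)) (τ + c * Complex.I)‖) t -
      Real.log ‖ρ.ev (1 - (f i : K)) (t + c * Complex.I)‖ *
        deriv (fun τ : ℝ => Real.log ‖ρ.ev (f i : K) (τ + c * Complex.I)‖) t) :=
    Finset.sum_subtype _ (by simp) _
  rw [← Finset.sum_filter_of_ne (s := Finset.univ) (p := fun i => f i ≠ 1)
    fun i _ hi h => hi (h0 i (not_not.2 h)), h4]
  refine Finset.sum_congr rfl fun i _ => ?_
  obtain ⟨a1, a2⟩ := la_line (v := ρ.ev (f i : K)) (S.fa i _ hC) (S.f0 i _ hC)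
    (by rw [hf]; exact t1 i)
  obtain ⟨b1, b2⟩ := la_line (v := ρ.ev (1 - (f i : K))) (S.ha i _ hC) (S.h0 i _ hC)
    (by rw [hh]; exact t2 i)
  obtain ⟨c1, c2⟩ := la_line (v := ρ.ev (g i : K)) (S.ga i _ hC) (S.g0 i _ hC)
    (by rw [hg]; exact t3 i)
  rw [a1, a2, b1, b2, c1]

end Pool.Agent.F194.Y

end
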