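import Pool.Agent.Work.MP_f194bb_nt.Y.NumA

/-!
# MP_f194bb_nt, odd n: the constants of the means
-/

set_option autoImplicit false

open scoped ComplexConjugate PeriodPair
open MeasureTheory Filter Topology

noncomputable section

namespace Pool.Agent.F194.Y

/-- the generating series of `T`, without constant term -/
private def TS (T : ℕ → ℝ) : PowerSeries ℝ := PowerSeries.mk fun k => if k = 0 then 0 else T k

/-- `c T - x T' + x T - (x coth x - 1) T` -/
private def US (c : ℝ) (T : ℕ → ℝ) : PowerSeries ℝ :=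
  PowerSeries.C c * TS T - PowerSeries.X * PowerSeries.derivative ℝ (TS T) +
    PowerSeries.X * TS T - BT * TS T

private theorem coeff_TS (T : ℕ → ℝ) (k : ℕ) :
    PowerSeries.coeff k (TS T) = if k = 0 then 0 else T k := by
  rw [TS, PowerSeries.coeff_mk]

private theorem US_zero (c : ℝ) (T : ℕ → ℝ) : PowerSeries.coeff 0 (US c T) = 0 := by
  unfold US
  rw [map_sub, map_add, map_sub, PowerSeries.coeff_C_mul, X_deriv, PowerSeries.coeff_zero_X_mul,
    coeff_TS, if_pos rfl]
  have : PowerSeries.coeff 0 (BT * TS T) = 0 := by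
    unfold TS
    rw [coeff_BT_mul]
    simp
  rw [this]
  norm_num

private theorem US_one (c : ℝ) (T : ℕ → ℝ) : PowerSeries.coeff 1 (US c T) = (c - 1) * T 1 := by
  unfold US
  rw [map_sub, map_add, map_sub, PowerSeries.coeff_C_mul, X_deriv]
  have h1 : PowerSeries.coeff 1 (PowerSeries.X * TS T) = 0 := by
    rw [show (1 : ℕ) = 0 + 1 from rfl, PowerSeries.coeff_succ_X_mul, coeff_TS, if_pos rfl]
  have h2 : PowerSeries.coeff 1 (BT * TS T) = 0 := by
    unfold TS
    rw [coeff_BT_mul]
    simp
  rw [h1, h2, coeff_TS, if_neg one_ne_zero]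
  push_cast
  ring

private theorem US_coeff (c : ℝ) (T : ℕ → ℝ) (k : ℕ) (hk : 2 ≤ k) :
    PowerSeries.coeff k (US c T) =
      (c - k) * T k + T (k - 1) - ∑ i ∈ Finset.Icc 2 (k - 1), bt i * T (k - i) := by
  unfold US
  rw [map_sub, map_add, map_sub, PowerSeries.coeff_C_mul, X_deriv]
  obtain ⟨m, rfl⟩ : ∃ m, k = m + 1 := ⟨k - 1, by omega⟩
  have h2 : PowerSeries.coeff (m + 1) (BT * TS T) =
      ∑ i ∈ Finset.Icc 2 (m + 1 - 1), bt i * T (m + 1 - i) := by
    unfold TS
    rw [coeff_BT_mul, Nat.add_sub_cancel, Finset.sum_Icc_succ_top (by omega), Nat.sub_self,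
      if_pos rfl, mul_zero, add_zero]
    refine Finset.sum_congr rfl fun i hi => ?_
    rw [Finset.mem_Icc] at hi
    rw [if_neg (by omega)]
  rw [h2, PowerSeries.coeff_succ_X_mul, coeff_TS, coeff_TS, if_neg (by omega), if_neg (by omega),
    Nat.add_sub_cancel]
  ring

/-- the residue argument -/
private theorem residue (n : ℕ) (T : ℕ → ℝ) (v w : PowerSeries ℝ)
    (hv : PowerSeries.X * PowerSeries.derivative ℝ v + PowerSeries.X * v - BT * v =
      PowerSeries.X * w) :
    PowerSeries.coeff n (v * US n T) = PowerSeries.coeff n (PowerSeries.X * (w * TS T)) := by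
  have h1 : v * US n T = PowerSeries.C (n : ℝ) * (v * TS T) -
      PowerSeries.X * PowerSeries.derivative ℝ (v * TS T) + PowerSeries.X * (w * TS T) := by
    rw [Derivation.leibniz]
    simp only [smul_eq_mul]
    unfold US
    linear_combination TS T * hv
  rw [h1, map_add, map_sub, PowerSeries.coeff_C_mul, X_deriv]
  ring

/-- only the coefficient of `x` of the equations contributes -/
private theorem coeff_v (N : ℕ) (hN : 1 ≤ N) (v U : PowerSeries ℝ) (a : ℝ)
    (h0 : PowerSeries.coeff 0 U = 0) (h1 : PowerSeries.coeff 1 U = a)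
    (h2 : ∀ k, 2 ≤ k → k ≤ N → PowerSeries.coeff (N - k) v * PowerSeries.coeff k U = 0) :
    PowerSeries.coeff N (v * U) = PowerSeries.coeff (N - 1) v * a := by
  rw [mul_comm v U, PowerSeries.coeff_mul, Finset.Nat.sum_antidiagonal_eq_sum_range_succ_mk,
    Finset.sum_eq_single 1]
  · rw [h1, mul_comm]
  · intro k hk h
    rw [Finset.mem_range] at hk
    rcases Nat.eq_zero_or_pos k with rfl | h3
    · rw [h0, zero_mul]
    · rw [mul_comm]
      exact h2 k (by omega) (by omega)
  · intro h
    rw [Finset.mem_range] at h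
    omega

/-- `(1 - exp(-2x)) / (2x)` -/
private def G2 : PowerSeries ℝ := PowerSeries.mk fun m => (-2) ^ m / ((m + 1).factorial : ℝ)

private theorem G2_eq : nx * EE = G2 := by
  have e2 : (2 : PowerSeries ℝ) = PowerSeries.C (2 : ℝ) := (map_ofNat _ 2).symm
  have h := EE_X
  have h3 := ex_nx
  have h4 : nx * nx = PowerSeries.mk fun m => (-2 : ℝ) ^ m / (m.factorial : ℝ) := by
    have h5 := PowerSeries.exp_pow_eq_rescale_exp (A := ℝ) 2
    have h6 := congrArg (PowerSeries.rescale (-1 : ℝ)) h5
    have h7 : PowerSeries.rescale (-1 : ℝ) (PowerSeries.exp ℝ) = nx := by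
      ext m
      rw [PowerSeries.coeff_rescale, coeff_ex, nx, PowerSeries.coeff_mk]
      ring
    rw [map_pow, h7, pow_two] at h6
    rw [h6]
    ext m
    rw [PowerSeries.coeff_rescale, PowerSeries.coeff_rescale, coeff_ex, PowerSeries.coeff_mk,
      show (-2 : ℝ) = -1 * 2 by norm_num, mul_pow]
    push_cast
    ring
  have h8 : 2 * (PowerSeries.X * (nx * EE)) = 2 * (PowerSeries.X * G2) := by
    have h9 : 2 * (PowerSeries.X * G2) = 1 - nx * nx := by
      rw [h4, e2]
      ext m
      rw [PowerSeries.coeff_C_mul, map_sub, PowerSeries.coeff_mk]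
      cases m with
      | zero => simp
      | succ m =>
        rw [PowerSeries.coeff_succ_X_mul, G2, PowerSeries.coeff_mk, PowerSeries.coeff_one,
          if_neg (by omega), pow_succ]
        ring
    rw [h9]
    linear_combination nx * h + h3
  have h10 : (2 : PowerSeries ℝ) ≠ 0 := by
    intro h0
    have := congrArg (PowerSeries.coeff 0) h0
    rw [e2] at this
    simp at this
  exact mul_left_cancel₀ PowerSeries.X_ne_zero (mul_left_cancel₀ h10 h8)

private theorem nx_EE_ode : PowerSeries.X * PowerSeries.derivative ℝ (nx * EE) +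
    PowerSeries.X * (nx * EE) - BT * (nx * EE) = PowerSeries.X * 0 := by
  rw [Derivation.leibniz, nx_deriv]
  simp only [smul_eq_mul]
  linear_combination nx * EE_ode

private theorem v_ode : PowerSeries.X * PowerSeries.derivative ℝ ((1 - nx) * EE) +
    PowerSeries.X * ((1 - nx) * EE) - BT * ((1 - nx) * EE) = PowerSeries.X * EE := by
  rw [Derivation.leibniz, map_sub, nx_deriv, Derivation.map_one_eq_zero]
  simp only [smul_eq_mul]
  linear_combination (1 - nx) * EE_ode

/-- With `T(x) = ∑ T_k x^k` the hypothesis says `(n + 1 + x - x coth x) T - x T' = (n-1) T_1 x` up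
to order `n - 1`; multiply by `h = x^(-n-1) (1 - exp(-x)) sinh x / x` and take the residue. -/
theorem rec_sum {n : ℕ} (hn : Odd n) (h3 : 3 ≤ n) (T : ℕ → ℝ)
    (h : ∀ k, 2 ≤ k → k ≤ n - 1 →
      ((n : ℝ) - k) * T k + T (k - 1) - ∑ i ∈ Finset.Icc 2 (k - 1), bt i * T (k - i) = 0) :
    ∑ j ∈ Finset.range (n - 2), ee j * T (n - 1 - j) =
      ((n : ℝ) - 1) / (n.factorial : ℝ) * (1 - 2 ^ (n - 1)) * T 1 := by
  obtain ⟨m, rfl⟩ : ∃ m, n = m + 3 := ⟨n - 3, by omega⟩
  have hm : Even m := by
    rcases hn with ⟨a, ha⟩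
    exact ⟨a - 1, by omega⟩
  have h4 := residue (m + 3) T ((1 - nx) * EE) EE v_ode
  rw [coeff_v (m + 3) (by omega) _ _ _ (US_zero _ _) (US_one _ _) ?_,
    PowerSeries.coeff_succ_X_mul] at h4
  · have h5 : PowerSeries.coeff (m + 3 - 1) ((1 - nx) * EE) =
        1 / ((m + 3).factorial : ℝ) * (1 - 2 ^ (m + 2)) := by
      rw [sub_mul, one_mul, G2_eq, map_sub, EE, G2, PowerSeries.coeff_mk, PowerSeries.coeff_mk]
      unfold ee
      have h6 : Even (m + 3 - 1) := by
        obtain ⟨a, ha⟩ := hm
        exact ⟨a + 1, by omega⟩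
      rw [if_pos h6, h6.neg_pow]
      simp only [show m + 3 - 1 = m + 2 from rfl, show m + 2 + 1 = m + 3 from rfl]
      ring
    have h7 : PowerSeries.coeff (m + 2) (EE * TS T) =
        ∑ j ∈ Finset.range (m + 3 - 2), ee j * T (m + 3 - 1 - j) := by
      rw [PowerSeries.coeff_mul, Finset.Nat.sum_antidiagonal_eq_sum_range_succ_mk,
        Finset.sum_range_succ, Finset.sum_range_succ]
      have h8 : ee (m + 1) = 0 := ee_odd (by
        rw [Nat.not_even_iff_odd]
        exact hm.add_one)
      simp only [EE, PowerSeries.coeff_mk, coeff_TS, h8, Nat.sub_self]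
      rw [if_pos trivial, mul_zero, zero_mul, add_zero, add_zero]
      refine Finset.sum_congr (by congr 1) fun j hj => ?_
      rw [Finset.mem_range] at hj
      rw [if_neg (by omega)]
      rfl
    rw [h5, h7] at h4
    rw [← h4]
    simp only [show m + 3 - 1 = m + 2 from rfl]
    push_cast
    ring
  · intro k hk hkN
    rcases Nat.lt_or_ge k (m + 3) with h8 | h8
    · rw [US_coeff _ _ _ hk, h k hk (by omega), mul_zero]
    · have h9 : m + 3 - k = 0 := by omega
      rw [h9]
      have h10 : PowerSeries.coeff 0 ((1 - nx) * EE) = 0 := by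
        rw [sub_mul, one_mul, G2_eq, map_sub, EE, G2, PowerSeries.coeff_mk, PowerSeries.coeff_mk]
        unfold ee
        simp
      rw [h10, zero_mul]

/-- The equation for `k = N` has no term `T N`; the solution of the differential equation has a
logarithmic term unless `T 1 = 0`. -/
theorem rec_zero {N : ℕ} (hN : 2 ≤ N) (T : ℕ → ℝ)
    (h : ∀ k, 2 ≤ k → k ≤ N →
      ((N : ℝ) - k) * T k + T (k - 1) - ∑ i ∈ Finset.Icc 2 (k - 1), bt i * T (k - i) = 0) :
    T 1 = 0 := by
  have h4 := residue N T (nx * EE) 0 nx_EE_ode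
  rw [coeff_v N (by omega) _ _ _ (US_zero _ _) (US_one _ _) ?_, zero_mul, mul_zero, map_zero,
    G2_eq, G2, PowerSeries.coeff_mk] at h4
  · have h5 : (-2 : ℝ) ^ (N - 1) / ((N - 1 + 1).factorial : ℝ) ≠ 0 := by
      have : ((N - 1 + 1).factorial : ℝ) ≠ 0 := by exact_mod_cast (N - 1 + 1).factorial_ne_zero
      positivity
    have h6 : (N : ℝ) - 1 ≠ 0 := by
      have : (2 : ℝ) ≤ N := by exact_mod_cast hN
      linarith
    rcases mul_eq_zero.1 h4 with h7 | h7
    · exact absurd h7 h5
    · rcases mul_eq_zero.1 h7 with h8 | h8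
      · exact absurd h8 h6
      · exact h8
  · intro k hk hkN
    rw [US_coeff _ _ _ hk, h k hk hkN, mul_zero]

end Pool.Agent.F194.Y

end
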