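import Pool.Agent.Work.MP_f194bb_nt.Y.Int
import Pool.Agent.Work.MP_f194bb_nt.Y.NumB

/-!
# MP_f194bb_nt, odd n: the recursion for the means
-/

set_option autoImplicit false

open scoped ComplexConjugate PeriodPair
open MeasureTheory Filter Topology

noncomputable section

namespace Pool.Agent.F194.Y

variable {L : PeriodPair} {P : PLs} {q : ℕ} {ι : Type} [Fintype ι] (S : Sys L P q ι)

/-! ### bounds -/

private theorem Rec_rl (c : ℂ) : ‖rl c‖ ≤ ‖c‖ :=
  ContinuousLinearMap.opNorm_le_bound _ (norm_nonneg _) fun h => by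
    rw [rl_apply, Real.norm_eq_abs, ← norm_mul]
    exact Complex.abs_re_le_norm _

private theorem Rec_il (c : ℂ) : ‖il c‖ ≤ ‖c‖ :=
  ContinuousLinearMap.opNorm_le_bound _ (norm_nonneg _) fun h => by
    rw [il_apply, Real.norm_eq_abs, ← norm_mul]
    exact Complex.abs_im_le_norm _

private theorem Rec_lx (u : ℂ → ℂ) (z : ℂ) : |lx u z| ≤ ‖ld u z‖ := Complex.abs_re_le_norm _

private theorem Rec_ly (u : ℂ → ℂ) (z : ℂ) : |ly u z| ≤ ‖ld u z‖ := by
  rw [ly, abs_neg]
  exact Complex.abs_im_le_norm _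

private theorem Rec_C (P : PLs) (k : ℕ) : 0 ≤ P.C k := (abs_nonneg _).trans (P.b k 0)

private theorem Rec_reI (c : ℂ) : (c * Complex.I).re = -c.im := by simp

private theorem Rec_imI (c : ℂ) : (c * Complex.I).im = c.re := by simp

private theorem Rec_la_per {u : ℂ → ℂ} (hu : Pool.Agent.F194.Ell L u) (l : L.lattice) (z : ℂ) :
    la u (z + l) = la u z := by
  rw [la, la, hu.per l z]

/-- the derivatives of `L_k(f_i)` are bounded by `K M^N D` -/
private theorem Rec_Lb (k : ℕ) (h2 : 2 ≤ k) : ∃ (K : ℝ) (N : ℕ), 0 ≤ K ∧ ∀ i z, z ∉ S.C →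
    ‖fderiv ℝ (fun z => P.L k (S.f i z)) z‖ ≤ K * (MM S z ^ N * DD S z) := by
  rcases h2.lt_or_eq with h3 | h3
  · have h3 : 3 ≤ k := h3
    refine ⟨P.C (k - 1) + (∑ j ∈ Finset.Icc 2 (k - 2), |bt j| * P.C (k - j)) + |bt (k - 1)| * 2,
      k, ?_, ?_⟩
    · have h1 := Rec_C P (k - 1)
      have h2 : 0 ≤ ∑ j ∈ Finset.Icc 2 (k - 2), |bt j| * P.C (k - j) :=
        Finset.sum_nonneg fun j _ => mul_nonneg (abs_nonneg _) (Rec_C P _)
      positivity
    · intro i z hz
      rw [(L_fd S h3 i hz).fderiv]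
      have hM := one_le_MM S z
      have hD := one_le_DD S z
      have hM0 : 0 ≤ MM S z := by linarith
      have hD0 : 0 ≤ DD S z := by linarith
      have ha := (la_le_MM S i z).1
      have hw := (la_le_MM S i z).2.1
      have hdf := (ld_le_DD S i z).1
      have hdh := (ld_le_DD S i z).2.1
      have e1 : ‖((-1) ^ k * P.L (k - 1) (S.f i z)) • il (ld (S.f i) z)‖ ≤
          P.C (k - 1) * (MM S z ^ k * DD S z) := by
        rw [norm_smul, norm_mul, norm_pow, norm_neg, norm_one, one_pow, one_mul,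
          Real.norm_eq_abs]
        have h5 : |P.L (k - 1) (S.f i z)| ≤ P.C (k - 1) := P.b _ _
        have h6 : ‖il (ld (S.f i) z)‖ ≤ DD S z := (Rec_il _).trans hdf
        have h7 : DD S z ≤ MM S z ^ k * DD S z :=
          le_mul_of_one_le_left hD0 (one_le_pow₀ hM)
        exact mul_le_mul h5 (h6.trans h7) (norm_nonneg _) (Rec_C P _)
      have e2 : ‖(∑ j ∈ Finset.Icc 2 (k - 2), bt j * la (S.f i) z ^ (j - 1) *
          P.L (k - j) (S.f i z)) • rl (ld (S.f i) z)‖ ≤
          (∑ j ∈ Finset.Icc 2 (k - 2), |bt j| * P.C (k - j)) * (MM S z ^ k * DD S z) := by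
        rw [norm_smul, Real.norm_eq_abs]
        have h5 : |∑ j ∈ Finset.Icc 2 (k - 2), bt j * la (S.f i) z ^ (j - 1) *
            P.L (k - j) (S.f i z)| ≤
            (∑ j ∈ Finset.Icc 2 (k - 2), |bt j| * P.C (k - j)) * MM S z ^ k := by
          rw [Finset.sum_mul]
          refine (Finset.abs_sum_le_sum_abs _ _).trans (Finset.sum_le_sum fun j hj => ?_)
          rw [Finset.mem_Icc] at hj
          rw [abs_mul, abs_mul, abs_pow]
          have h6 : |la (S.f i) z| ^ (j - 1) ≤ MM S z ^ k :=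
            (pow_le_pow_left₀ (abs_nonneg _) ha _).trans
              (pow_le_pow_right₀ hM (by omega))
          have h7 : |P.L (k - j) (S.f i z)| ≤ P.C (k - j) := P.b _ _
          calc |bt j| * |la (S.f i) z| ^ (j - 1) * |P.L (k - j) (S.f i z)| ≤
              |bt j| * MM S z ^ k * P.C (k - j) := by gcongr
            _ = |bt j| * P.C (k - j) * MM S z ^ k := by ring
        have h6 : ‖rl (ld (S.f i) z)‖ ≤ DD S z := (Rec_rl _).trans hdf
        have h8 : 0 ≤ ∑ j ∈ Finset.Icc 2 (k - 2), |bt j| * P.C (k - j) :=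
          Finset.sum_nonneg fun j _ => mul_nonneg (abs_nonneg _) (Rec_C P _)
        refine (mul_le_mul h5 h6 (norm_nonneg _) (by positivity)).trans (le_of_eq ?_)
        ring
      have e3 : ‖(bt (k - 1) * la (S.f i) z ^ (k - 2)) •
          (la (S.f i) z • rl (ld (S.h i) z) - la (S.h i) z • rl (ld (S.f i) z))‖ ≤
          |bt (k - 1)| * 2 * (MM S z ^ k * DD S z) := by
        rw [norm_smul, norm_mul, norm_pow, Real.norm_eq_abs, Real.norm_eq_abs]
        have h5 : ‖la (S.f i) z • rl (ld (S.h i) z) - la (S.h i) z • rl (ld (S.f i) z)‖ ≤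
            2 * (MM S z * DD S z) := by
          refine (norm_sub_le _ _).trans ?_
          rw [norm_smul, norm_smul, Real.norm_eq_abs, Real.norm_eq_abs]
          have h6 : ‖rl (ld (S.h i) z)‖ ≤ DD S z := (Rec_rl _).trans hdh
          have h7 : ‖rl (ld (S.f i) z)‖ ≤ DD S z := (Rec_rl _).trans hdf
          have h8 := mul_le_mul ha h6 (norm_nonneg _) hM0
          have h9 := mul_le_mul hw h7 (norm_nonneg _) hM0
          linarith
        have h6 : |la (S.f i) z| ^ (k - 2) ≤ MM S z ^ (k - 2) :=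
          pow_le_pow_left₀ (abs_nonneg _) ha _
        have h7 : MM S z ^ (k - 2) * MM S z ≤ MM S z ^ k := by
          rw [← pow_succ]
          exact pow_le_pow_right₀ hM (by omega)
        calc |bt (k - 1)| * |la (S.f i) z| ^ (k - 2) *
            ‖la (S.f i) z • rl (ld (S.h i) z) - la (S.h i) z • rl (ld (S.f i) z)‖ ≤
            |bt (k - 1)| * MM S z ^ (k - 2) * (2 * (MM S z * DD S z)) := by gcongr
          _ = |bt (k - 1)| * 2 * ((MM S z ^ (k - 2) * MM S z) * DD S z) := by ring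
          _ ≤ |bt (k - 1)| * 2 * (MM S z ^ k * DD S z) := by gcongr
      refine (norm_sub_le _ _).trans ((add_le_add (norm_sub_le _ _) e3).trans ?_)
      have e4 := add_le_add e1 e2
      calc _ ≤ P.C (k - 1) * (MM S z ^ k * DD S z) +
            (∑ j ∈ Finset.Icc 2 (k - 2), |bt j| * P.C (k - j)) * (MM S z ^ k * DD S z) +
            |bt (k - 1)| * 2 * (MM S z ^ k * DD S z) := by linarith
        _ = _ := by ring
  · refine ⟨2, 1, by norm_num, fun i z hz => ?_⟩
    rw [← h3, (L2_fd S i hz).fderiv]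
    have hM := one_le_MM S z
    have hM0 : 0 ≤ MM S z := by linarith
    have ha := (la_le_MM S i z).1
    have hw := (la_le_MM S i z).2.1
    have h6 : ‖il (ld (S.h i) z)‖ ≤ DD S z := (Rec_il _).trans (ld_le_DD S i z).2.1
    have h7 : ‖il (ld (S.f i) z)‖ ≤ DD S z := (Rec_il _).trans (ld_le_DD S i z).1
    refine (norm_sub_le _ _).trans ?_
    rw [norm_smul, norm_smul, Real.norm_eq_abs, Real.norm_eq_abs]
    have h8 := mul_le_mul ha h6 (norm_nonneg _) hM0
    have h9 := mul_le_mul hw h7 (norm_nonneg _) hM0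
    rw [pow_one]
    linarith

private theorem Rec_bound (m N : ℕ) {X D K c b a l : ℝ} (hX : 1 ≤ X) (hD : 1 ≤ D) (hK : 0 ≤ K)
    (hc : 0 ≤ c)
    (hb : |b| ≤ X) (ha : |a| ≤ X) (hl : |l| ≤ c) {Λ' u v : ℂ →L[ℝ] ℝ}
    (hΛ : ‖Λ'‖ ≤ K * (X ^ N * D)) (hu : ‖u‖ ≤ D) (hv : ‖v‖ ≤ D) :
    ‖(b * a ^ m) • Λ' + l • (b • ((m • a ^ (m - 1)) • u) + a ^ m • v)‖ ≤
      (K + c * (m + 1)) * (X ^ (m + N + 1) * D) := by
  have hX0 : 0 ≤ X := by linarith
  have hD0 : 0 ≤ D := by linarith
  have ha1 : |a| ^ m ≤ X ^ m := pow_le_pow_left₀ (abs_nonneg _) ha m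
  have ha2 : |a| ^ (m - 1) ≤ X ^ m :=
    (pow_le_pow_left₀ (abs_nonneg _) ha (m - 1)).trans (pow_le_pow_right₀ hX (Nat.sub_le _ _))
  have e1 : ‖(b * a ^ m) • Λ'‖ ≤ K * (X ^ (m + N + 1) * D) := by
    rw [norm_smul, norm_mul, norm_pow, Real.norm_eq_abs, Real.norm_eq_abs]
    calc |b| * |a| ^ m * ‖Λ'‖ ≤ X * X ^ m * (K * (X ^ N * D)) := by gcongr
      _ = K * (X ^ (m + N + 1) * D) := by ring
  have f1 : X ^ (m + 1) * D ≤ X ^ (m + N + 1) * D :=
    mul_le_mul_of_nonneg_right (pow_le_pow_right₀ hX (by omega)) hD0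
  have f2 : X ^ m * D ≤ X ^ (m + N + 1) * D :=
    mul_le_mul_of_nonneg_right (pow_le_pow_right₀ hX (by omega)) hD0
  have e2 : ‖b • ((m • a ^ (m - 1)) • u)‖ ≤ m * (X ^ (m + N + 1) * D) := by
    rw [norm_smul, norm_smul, nsmul_eq_mul, norm_mul, norm_pow, Real.norm_eq_abs,
      Real.norm_eq_abs, Real.norm_eq_abs, Nat.abs_cast]
    calc |b| * (m * |a| ^ (m - 1) * ‖u‖) ≤ X * (m * X ^ m * D) := by gcongr
      _ = m * (X ^ (m + 1) * D) := by ring
      _ ≤ m * (X ^ (m + N + 1) * D) := by gcongr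
  have e3 : ‖a ^ m • v‖ ≤ X ^ (m + N + 1) * D := by
    rw [norm_smul, norm_pow, Real.norm_eq_abs]
    calc |a| ^ m * ‖v‖ ≤ X ^ m * D := by gcongr
      _ ≤ _ := f2
  have e4 : ‖l • (b • ((m • a ^ (m - 1)) • u) + a ^ m • v)‖ ≤
      c * (m * (X ^ (m + N + 1) * D) + X ^ (m + N + 1) * D) := by
    rw [norm_smul, Real.norm_eq_abs]
    exact mul_le_mul hl ((norm_add_le _ _).trans (add_le_add e2 e3)) (norm_nonneg _) hc
  refine (norm_add_le _ _).trans ((add_le_add e1 e4).trans (le_of_eq ?_))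
  ring

/-! ### means of derivatives -/

private theorem Rec_fd (m k : ℕ) (h2 : 2 ≤ k) {z : ℂ} (hz : z ∉ S.C) :
    HasFDerivAt (fun z => ∑ i, la (S.g i) z * la (S.f i) z ^ m * P.L k (S.f i z))
      (∑ i, ((la (S.g i) z * la (S.f i) z ^ m) • fderiv ℝ (fun z => P.L k (S.f i z)) z +
        P.L k (S.f i z) • (la (S.g i) z • ((m • la (S.f i) z ^ (m - 1)) •
        rl (ld (S.f i) z)) + la (S.f i) z ^ m • rl (ld (S.g i) z)))) z := by
  refine HasFDerivAt.fun_sum fun i _ => ?_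
  have h1 : HasFDerivAt (fun z => la (S.g i) z) (rl (ld (S.g i) z)) z :=
    la_fd (S.ga i z hz) (S.g0 i z hz)
  have h3 : HasFDerivAt (fun z => la (S.f i) z) (rl (ld (S.f i) z)) z :=
    la_fd (S.fa i z hz) (S.f0 i z hz)
  exact (h1.mul (h3.pow m)).mul
    ((L_cd S h2 i hz).differentiableAt one_ne_zero).hasFDerivAt

private theorem Rec_mean (m k : ℕ) (h2 : 2 ≤ k) (w : ℂ) :
    ∫ x in box, ∑ i, (la (S.g i) (E L x) * la (S.f i) (E L x) ^ m *
      fderiv ℝ (fun z => P.L k (S.f i z)) (E L x) w +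
      P.L k (S.f i (E L x)) * (la (S.g i) (E L x) * (m * la (S.f i) (E L x) ^ (m - 1) *
        (ld (S.f i) (E L x) * w).re) +
        la (S.f i) (E L x) ^ m * (ld (S.g i) (E L x) * w).re)) = 0 := by
  obtain ⟨K, N, hK, hKN⟩ := Rec_Lb S k h2
  have h := mean_dir S (F := fun z => ∑ i, la (S.g i) z * la (S.f i) z ^ m * P.L k (S.f i z))
    (A := Fintype.card ι * (K + P.C k * (m + 1))) (n := m + N + 1) ?_ ?_ ?_ w
  · rw [← h]
    refine integral_congr_ae ?_
    filter_upwards [ae_not_C S] with x hx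
    rw [(Rec_fd S m k h2 hx).fderiv]
    simp only [sum_apply, add_apply, smul_apply, smul_eq_mul, nsmul_eq_mul, rl_apply]
  · intro l z
    refine Finset.sum_congr rfl fun i _ => ?_
    rw [Rec_la_per (S.gE i), Rec_la_per (S.fE i), (S.fE i).per l z]
  · intro z hz
    refine ContDiffAt.sum fun i _ => ?_
    have h1 : ContDiffAt ℝ 1 (fun z => la (S.g i) z) z :=
      (la_cd (S.ga i z hz) (S.g0 i z hz)).of_le one_le_two
    have h3 : ContDiffAt ℝ 1 (fun z => la (S.f i) z) z :=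
      (la_cd (S.fa i z hz) (S.f0 i z hz)).of_le one_le_two
    exact (h1.mul (h3.pow m)).mul (L_cd S h2 i hz)
  · intro z hz
    rw [(Rec_fd S m k h2 hz).fderiv]
    refine (norm_sum_le _ _).trans ?_
    have h1 := Finset.sum_le_card_nsmul (Finset.univ : Finset ι) (fun i =>
      ‖(la (S.g i) z * la (S.f i) z ^ m) • fderiv ℝ (fun z => P.L k (S.f i z)) z +
        P.L k (S.f i z) • (la (S.g i) z • ((m • la (S.f i) z ^ (m - 1)) •
        rl (ld (S.f i) z)) + la (S.f i) z ^ m • rl (ld (S.g i) z))‖)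
      ((K + P.C k * (m + 1)) * (MM S z ^ (m + N + 1) * DD S z)) (fun i _ =>
        Rec_bound m N (one_le_MM S z) (one_le_DD S z) hK (Rec_C P k) (la_le_MM S i z).2.2
          (la_le_MM S i z).1 (P.b _ _) (hKN i z hz) ((Rec_rl _).trans (ld_le_DD S i z).1)
          ((Rec_rl _).trans (ld_le_DD S i z).2.2))
    refine h1.trans (le_of_eq ?_)
    rw [Finset.card_univ, nsmul_eq_mul]
    ring

/-! ### continuity and integrability -/

private theorem Rec_int {G : ι → ℂ → ℝ} {K : ℝ} (n : ℕ)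
    (hc : ∀ i, ∀ z, z ∉ S.C → ContinuousAt (G i) z)
    (hb : ∀ i, ∀ z, z ∉ S.C → |G i z| ≤ K * (MM S z ^ n * DD S z)) :
    IntegrableOn (fun x => ∑ i, G i (E L x)) box := by
  refine int_of_le S (F := fun z => ∑ i, G i z) (A := Fintype.card ι * K) (n := n) ?_ ?_
  · intro z hz
    have h : ContinuousAt (fun z => ∑ i, G i z) z := tendsto_finsetSum _ fun i _ => hc i z hz
    exact h.continuousWithinAt
  · intro z hz
    refine (Finset.abs_sum_le_sum_abs _ _).trans ((Finset.sum_le_card_nsmul _ _ _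
      fun i _ => hb i z hz).trans (le_of_eq ?_))
    rw [Finset.card_univ, nsmul_eq_mul]
    ring

private theorem Rec_lac {u : ℂ → ℂ} {z : ℂ} (h : AnalyticAt ℂ u z) (h0 : u z ≠ 0) :
    ContinuousAt (la u) z := (la_fd h h0).continuousAt

private theorem Rec_lxc {u : ℂ → ℂ} {z : ℂ} (h : AnalyticAt ℂ u z) (h0 : u z ≠ 0) :
    ContinuousAt (lx u) z := (lxy_fd h h0).1.continuousAt

private theorem Rec_lyc {u : ℂ → ℂ} {z : ℂ} (h : AnalyticAt ℂ u z) (h0 : u z ≠ 0) :
    ContinuousAt (ly u) z := (lxy_fd h h0).2.continuousAt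

private theorem Rec_Lc {k : ℕ} (h2 : 2 ≤ k) (i : ι) {z : ℂ} (hz : z ∉ S.C) :
    ContinuousAt (fun z => P.L k (S.f i z)) z := (L_cd S h2 i hz).continuousAt

theorem int_I0 : IntegrableOn (fun x => I0 S (E L x)) box := by
  refine Rec_int S (G := fun i z => la (S.g i) z * la (S.f i) z ^ q *
    (la (S.f i) z * lx (S.h i) z - la (S.h i) z * lx (S.f i) z)) (K := 2) (q + 2)
    (fun i z hz => ?_) (fun i z hz => ?_)
  · exact ((Rec_lac (S.ga i z hz) (S.g0 i z hz)).mul
      ((Rec_lac (S.fa i z hz) (S.f0 i z hz)).pow q)).mul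
      (((Rec_lac (S.fa i z hz) (S.f0 i z hz)).mul (Rec_lxc (S.ha i z hz) (S.h0 i z hz))).sub
        ((Rec_lac (S.ha i z hz) (S.h0 i z hz)).mul (Rec_lxc (S.fa i z hz) (S.f0 i z hz))))
  · have hM := one_le_MM S z
    have hD := one_le_DD S z
    have hM0 : 0 ≤ MM S z := by linarith
    have hD0 : 0 ≤ DD S z := by linarith
    obtain ⟨ha, hw, hb⟩ := la_le_MM S i z
    have hdf := (Rec_lx (S.f i) z).trans (ld_le_DD S i z).1
    have hdh := (Rec_lx (S.h i) z).trans (ld_le_DD S i z).2.1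
    rw [abs_mul, abs_mul, abs_pow]
    have h7 : |la (S.f i) z * lx (S.h i) z - la (S.h i) z * lx (S.f i) z| ≤
        MM S z * DD S z + MM S z * DD S z := by
      refine (abs_sub _ _).trans ?_
      rw [abs_mul, abs_mul]
      gcongr
    calc |la (S.g i) z| * |la (S.f i) z| ^ q *
        |la (S.f i) z * lx (S.h i) z - la (S.h i) z * lx (S.f i) z| ≤
        MM S z * MM S z ^ q * (MM S z * DD S z + MM S z * DD S z) := by gcongr
      _ = 2 * (MM S z ^ (q + 2) * DD S z) := by ring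

private theorem Rec_intB (k m : ℕ) (h2 : 2 ≤ k) {D : (ℂ → ℂ) → ℂ → ℝ} (hD : D = lx ∨ D = ly) :
    IntegrableOn (fun x => ∑ i, la (S.g i) (E L x) * la (S.f i) (E L x) ^ m *
      P.L k (S.f i (E L x)) * D (S.f i) (E L x)) box := by
  have hDc : ∀ i z, z ∉ S.C → ContinuousAt (D (S.f i)) z := fun i z hz => by
    rcases hD with rfl | rfl
    · exact Rec_lxc (S.fa i z hz) (S.f0 i z hz)
    · exact Rec_lyc (S.fa i z hz) (S.f0 i z hz)
  have hDb : ∀ i z, |D (S.f i) z| ≤ DD S z := fun i z => by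
    rcases hD with rfl | rfl
    · exact (Rec_lx (S.f i) z).trans (ld_le_DD S i z).1
    · exact (Rec_ly (S.f i) z).trans (ld_le_DD S i z).1
  refine Rec_int S (G := fun i z => la (S.g i) z * la (S.f i) z ^ m *
      P.L k (S.f i z) * D (S.f i) z) (K := P.C k) (m + 1)
    (fun i z hz => ?_) (fun i z hz => ?_)
  · exact (((Rec_lac (S.ga i z hz) (S.g0 i z hz)).mul
      ((Rec_lac (S.fa i z hz) (S.f0 i z hz)).pow m)).mul (Rec_Lc S h2 i hz)).mul (hDc i z hz)
  · have hM := one_le_MM S z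
    have hD := one_le_DD S z
    have hM0 : 0 ≤ MM S z := by linarith
    have hD0 : 0 ≤ DD S z := by linarith
    obtain ⟨ha, hw, hb⟩ := la_le_MM S i z
    have h4 : |P.L k (S.f i z)| ≤ P.C k := P.b _ _
    have h5 := hDb i z
    have h6 := Rec_C P k
    rw [abs_mul, abs_mul, abs_mul, abs_pow]
    calc |la (S.g i) z| * |la (S.f i) z| ^ m * |P.L k (S.f i z)| * |D (S.f i) z| ≤
        MM S z * MM S z ^ m * P.C k * DD S z := by gcongr
      _ = P.C k * (MM S z ^ (m + 1) * DD S z) := by ring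

private theorem Rec_intT (k : ℕ) (h2 : 2 ≤ k) :
    IntegrableOn (fun x => ∑ i, P.L k (S.f i (E L x)) * ly (S.g i) (E L x)) box := by
  refine Rec_int S (G := fun i z => P.L k (S.f i z) * ly (S.g i) z) (K := P.C k) 0
    (fun i z hz => ?_) (fun i z hz => ?_)
  · exact (Rec_Lc S h2 i hz).mul (Rec_lyc (S.ga i z hz) (S.g0 i z hz))
  · have h4 : |P.L k (S.f i z)| ≤ P.C k := P.b _ _
    have h5 := (Rec_ly (S.g i) z).trans (ld_le_DD S i z).2.2
    have h6 := Rec_C P k
    rw [abs_mul, pow_zero, one_mul]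
    exact mul_le_mul h4 h5 (abs_nonneg _) h6

/-- the integrands of `TT` -/
private def XX (k : ℕ) (z : ℂ) : ℝ :=
  if k = 1 then I0 S z
  else if k = q + 2 then ∑ i, P.L k (S.f i z) * ly (S.g i) z
  else if Even k then ∑ i, la (S.g i) z * la (S.f i) z ^ (q + 1 - k) *
    P.L k (S.f i z) * ly (S.f i) z
  else ∑ i, la (S.g i) z * la (S.f i) z ^ (q + 1 - k) *
    P.L k (S.f i z) * lx (S.f i) z

private theorem TT_eq (k : ℕ) : TT S k = ∫ x in box, XX S k (E L x) := by
  unfold TT XX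
  split_ifs <;> rfl

private theorem int_XX (k : ℕ) (hk : 1 ≤ k) : IntegrableOn (fun x => XX S k (E L x)) box := by
  unfold XX
  split_ifs with h1 h2 h3
  · exact int_I0 S
  · exact Rec_intT S k (by omega)
  · exact Rec_intB S k _ (by omega) (Or.inr rfl)
  · exact Rec_intB S k _ (by omega) (Or.inl rfl)

/-! ### the pointwise identities -/

private theorem fl_la (u : ℂ → ℂ) (z : ℂ) : fl L ![1, 0, 0, 0] u z = la u z := by
  simp [fl]

private theorem fl_lx (u : ℂ → ℂ) (z : ℂ) : fl L ![0, 1, 0, 0] u z = lx u z := by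
  simp [fl]

private theorem fl_ly (u : ℂ → ℂ) (z : ℂ) : fl L ![0, 0, 1, 0] u z = ly u z := by
  simp [fl]

private theorem rel_y (k : ℕ) (h2 : 2 ≤ k) (hk : k ≤ q + 1) {z : ℂ} (hz : z ∉ S.C) :
    ∑ i, P.L k (S.f i z) * la (S.f i) z ^ (q + 1 - k) *
      (la (S.f i) z * ly (S.g i) z - la (S.g i) z * ly (S.f i) z) = 0 := by
  have h := S.rel k (q + 1 - k) h2 (by omega) (fun _ => ![1, 0, 0, 0]) ![1, 0, 0, 0]
    ![0, 0, 1, 0] z hz
  simpa only [fl_la, fl_ly, Finset.prod_const, Finset.card_univ, Fintype.card_fin] using h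

private theorem rel_x (k : ℕ) (h2 : 2 ≤ k) (hk : k ≤ q + 1) {z : ℂ} (hz : z ∉ S.C) :
    ∑ i, P.L k (S.f i z) * la (S.f i) z ^ (q + 1 - k) *
      (la (S.f i) z * lx (S.g i) z - la (S.g i) z * lx (S.f i) z) = 0 := by
  have h := S.rel k (q + 1 - k) h2 (by omega) (fun _ => ![1, 0, 0, 0]) ![1, 0, 0, 0]
    ![0, 1, 0, 0] z hz
  simpa only [fl_la, fl_lx, Finset.prod_const, Finset.card_univ, Fintype.card_fin] using h

/-- `∑ L_k(f) ∂(b a^(n-1-k))` for even `k` -/
private theorem first_y (hq : Even q) (k : ℕ) (h2 : 2 ≤ k) (hk : k ≤ q + 2) (he : Even k)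
    {z : ℂ} (hz : z ∉ S.C) :
    ∑ i, P.L k (S.f i z) * (la (S.g i) z * (((q + 2 - k : ℕ) : ℝ) *
      la (S.f i) z ^ (q + 2 - k - 1) * ly (S.f i) z) +
        la (S.f i) z ^ (q + 2 - k) * ly (S.g i) z) = ((q : ℝ) + 3 - k) * XX S k z := by
  rcases hk.lt_or_eq with h | h
  · have h1 := rel_y S k h2 (by omega) hz
    have e1 : q + 2 - k = (q + 1 - k) + 1 := by omega
    have e2 : ((q + 1 - k : ℕ) : ℝ) = (q : ℝ) + 1 - k := by
      rw [Nat.cast_sub (by omega)]
      push_cast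
      ring
    rw [XX, if_neg (by omega), if_neg (by omega), if_pos he, e1, Nat.add_sub_cancel,
      Finset.mul_sum, ← sub_eq_zero, ← Finset.sum_sub_distrib]
    refine Eq.trans (Finset.sum_congr rfl fun i _ => ?_) h1
    push_cast
    rw [e2, pow_succ]
    ring
  · subst h
    rw [XX, if_neg (by omega), if_pos rfl, Finset.mul_sum]
    refine Finset.sum_congr rfl fun i _ => ?_
    rw [Nat.sub_self]
    push_cast
    ring

/-- `∑ L_k(f) ∂(b a^(n-1-k))` for odd `k` -/
private theorem first_x (hq : Even q) (k : ℕ) (h2 : 2 ≤ k) (hk : k ≤ q + 2) (he : ¬ Even k)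
    {z : ℂ} (hz : z ∉ S.C) :
    ∑ i, P.L k (S.f i z) * (la (S.g i) z * (((q + 2 - k : ℕ) : ℝ) *
      la (S.f i) z ^ (q + 2 - k - 1) * lx (S.f i) z) +
        la (S.f i) z ^ (q + 2 - k) * lx (S.g i) z) = ((q : ℝ) + 3 - k) * XX S k z := by
  have hk' : k ≠ q + 2 := by
    rintro rfl
    exact he (hq.add even_two)
  have h1 := rel_x S k h2 (by omega) hz
  have e1 : q + 2 - k = (q + 1 - k) + 1 := by omega
  have e2 : ((q + 1 - k : ℕ) : ℝ) = (q : ℝ) + 1 - k := by
    rw [Nat.cast_sub (by omega)]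
    push_cast
    ring
  rw [XX, if_neg (by omega), if_neg hk', if_neg he, e1, Nat.add_sub_cancel,
    Finset.mul_sum, ← sub_eq_zero, ← Finset.sum_sub_distrib]
  refine Eq.trans (Finset.sum_congr rfl fun i _ => ?_) h1
  push_cast
  rw [e2, pow_succ]
  ring

/-- `∑ b a^(n-1-k) ∂_y L_k(f)` for even `k` -/
private theorem second_y (hq : Even q) (k : ℕ) (h2 : 2 ≤ k) (hk : k ≤ q + 2) (he : Even k)
    {z : ℂ} (hz : z ∉ S.C) :
    ∑ i, la (S.g i) z * la (S.f i) z ^ (q + 2 - k) *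
      fderiv ℝ (fun z => P.L k (S.f i z)) z Complex.I =
      XX S (k - 1) z - ∑ j ∈ Finset.Icc 2 (k - 1), bt j * XX S (k - j) z := by
  rcases h2.lt_or_eq with h3 | h3
  · obtain ⟨r, rfl⟩ : ∃ r, k = r + 3 := ⟨k - 3, by omega⟩
    have hro : ¬ Even (r + 2) := fun h => by
      rw [Nat.even_iff] at h he
      omega
    have e1 : r + 3 - 1 = r + 2 := by omega
    have e2 : r + 3 - 2 = r + 1 := by omega
    rw [e1, Finset.sum_Icc_succ_top (by omega : 2 ≤ r + 1 + 1)]
    have e3 : bt (r + 1 + 1) = 0 := bt_odd hro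
    rw [e3, zero_mul, add_zero]
    have hX : XX S (r + 2) z = ∑ i, la (S.g i) z * la (S.f i) z ^ (q + 2 - (r + 3)) *
        P.L (r + 2) (S.f i z) * lx (S.f i) z := by
      rw [XX, if_neg (by omega), if_neg (by omega), if_neg hro]
      have : q + 1 - (r + 2) = q + 2 - (r + 3) := by omega
      rw [this]
    have hS : ∑ j ∈ Finset.Icc 2 (r + 1), bt j * XX S (r + 3 - j) z =
        ∑ i, ∑ j ∈ Finset.Icc 2 (r + 1), la (S.g i) z * la (S.f i) z ^ (q + 2 - (r + 3)) *
          (bt j * la (S.f i) z ^ (j - 1) * P.L (r + 3 - j) (S.f i z)) * ly (S.f i) z := by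
      rw [Finset.sum_comm]
      refine Finset.sum_congr rfl fun j hj => ?_
      rw [Finset.mem_Icc] at hj
      by_cases hj2 : Even j
      · have hj3 : Even (r + 3 - j) := by
          rw [Nat.even_iff] at hj2 he ⊢
          omega
        rw [XX, if_neg (by rw [Nat.even_iff] at hj3; omega), if_neg (by omega), if_pos hj3,
          Finset.mul_sum]
        refine Finset.sum_congr rfl fun i _ => ?_
        have e4 : q + 1 - (r + 3 - j) = (q + 2 - (r + 3)) + (j - 1) := by omega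
        rw [e4, pow_add]
        ring
      · rw [bt_odd hj2]
        simp
    rw [hX, hS, ← Finset.sum_sub_distrib]
    refine Finset.sum_congr rfl fun i _ => ?_
    rw [(L_fd S h3 i hz).fderiv, e1, e2]
    have e5 : bt (r + 2) = 0 := bt_odd hro
    simp only [sub_apply, smul_apply, smul_eq_mul, il_apply, rl_apply, Rec_reI, Rec_imI, e5,
      zero_mul, sub_zero, he.neg_one_pow]
    rw [← Finset.sum_mul, ← Finset.mul_sum, lx, ly]
    ring
  · subst h3
    have e1 : Finset.Icc 2 (2 - 1) = (∅ : Finset ℕ) := by decide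
    rw [e1, Finset.sum_empty, sub_zero, XX, if_pos rfl, I0]
    refine Finset.sum_congr rfl fun i _ => ?_
    rw [(L2_fd S i hz).fderiv]
    simp only [sub_apply, smul_apply, smul_eq_mul, il_apply, Rec_imI, Nat.add_sub_cancel, lx]

/-- `∑ b a^(n-1-k) ∂_x L_k(f)` for odd `k` -/
private theorem second_x (hq : Even q) (k : ℕ) (h2 : 2 ≤ k) (hk : k ≤ q + 2) (he : ¬ Even k)
    {z : ℂ} (hz : z ∉ S.C) :
    ∑ i, la (S.g i) z * la (S.f i) z ^ (q + 2 - k) *
      fderiv ℝ (fun z => P.L k (S.f i z)) z 1 =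
      XX S (k - 1) z - ∑ j ∈ Finset.Icc 2 (k - 1), bt j * XX S (k - j) z := by
  have h3 : 3 ≤ k := by
    rcases h2.lt_or_eq with h | h
    · exact h
    · exact absurd (h ▸ even_two) he
  obtain ⟨r, rfl⟩ : ∃ r, k = r + 3 := ⟨k - 3, by omega⟩
  have hrq : r + 3 ≠ q + 2 := fun h => he (h ▸ hq.add even_two)
  have hro : Even (r + 2) := by
    rw [Nat.even_iff] at he ⊢
    omega
  have e1 : r + 3 - 1 = r + 2 := by omega
  have e2 : r + 3 - 2 = r + 1 := by omega
  rw [e1, Finset.sum_Icc_succ_top (by omega : 2 ≤ r + 1 + 1)]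
  have hX : XX S (r + 2) z = ∑ i, la (S.g i) z * la (S.f i) z ^ (q + 2 - (r + 3)) *
      P.L (r + 2) (S.f i z) * ly (S.f i) z := by
    rw [XX, if_neg (by omega), if_neg (by omega), if_pos hro]
    have : q + 1 - (r + 2) = q + 2 - (r + 3) := by omega
    rw [this]
  have hS : ∑ j ∈ Finset.Icc 2 (r + 1), bt j * XX S (r + 3 - j) z =
      ∑ i, ∑ j ∈ Finset.Icc 2 (r + 1), la (S.g i) z * la (S.f i) z ^ (q + 2 - (r + 3)) *
        (bt j * la (S.f i) z ^ (j - 1) * P.L (r + 3 - j) (S.f i z)) * lx (S.f i) z := by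
    rw [Finset.sum_comm]
    refine Finset.sum_congr rfl fun j hj => ?_
    rw [Finset.mem_Icc] at hj
    by_cases hj2 : Even j
    · have hj3 : ¬ Even (r + 3 - j) := by
        rw [Nat.even_iff] at hj2 he ⊢
        omega
      have hj4 : r + 3 - j ≠ 1 := by
        rw [Nat.even_iff] at hj2 he
        omega
      rw [XX, if_neg hj4, if_neg (by omega), if_neg hj3, Finset.mul_sum]
      refine Finset.sum_congr rfl fun i _ => ?_
      have e4 : q + 1 - (r + 3 - j) = (q + 2 - (r + 3)) + (j - 1) := by omega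
      rw [e4, pow_add]
      ring
    · rw [bt_odd hj2]
      simp
  have hI : bt (r + 1 + 1) * XX S (r + 3 - (r + 1 + 1)) z = ∑ i, la (S.g i) z *
      la (S.f i) z ^ (q + 2 - (r + 3)) * (bt (r + 2) * la (S.f i) z ^ (r + 1) *
        (la (S.f i) z * lx (S.h i) z - la (S.h i) z * lx (S.f i) z)) := by
    have e6 : r + 3 - (r + 1 + 1) = 1 := by omega
    rw [e6, XX, if_pos rfl, I0, Finset.mul_sum]
    refine Finset.sum_congr rfl fun i _ => ?_
    have e7 : q = (q + 2 - (r + 3)) + (r + 1) := by omega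
    have e8 : la (S.f i) z ^ q = la (S.f i) z ^ (q + 2 - (r + 3)) * la (S.f i) z ^ (r + 1) := by
      rw [← pow_add, ← e7]
    rw [e8]
    ring
  rw [hX, hS, hI, ← Finset.sum_add_distrib, ← Finset.sum_sub_distrib]
  refine Finset.sum_congr rfl fun i _ => ?_
  rw [(L_fd S h3 i hz).fderiv, e1, e2]
  have hodd : (-1 : ℝ) ^ (r + 3) = -1 := (Nat.not_even_iff_odd.1 he).neg_one_pow
  simp only [sub_apply, smul_apply, smul_eq_mul, il_apply, rl_apply, mul_one, hodd]
  rw [← Finset.sum_mul, ← Finset.mul_sum, lx, ly, lx]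
  ring

/-! ### the recursion -/

private theorem comb_int (c : ℝ) (k : ℕ) (h2 : 2 ≤ k) :
    ∫ x in box, (c * XX S k (E L x) + XX S (k - 1) (E L x) -
      ∑ j ∈ Finset.Icc 2 (k - 1), bt j * XX S (k - j) (E L x)) =
      c * TT S k + TT S (k - 1) - ∑ j ∈ Finset.Icc 2 (k - 1), bt j * TT S (k - j) := by
  have h1 : IntegrableOn (fun x => c * XX S k (E L x)) box := (int_XX S k (by omega)).const_mul c
  have h3 : IntegrableOn (fun x => XX S (k - 1) (E L x)) box := int_XX S (k - 1) (by omega)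
  have h4 : ∀ j ∈ Finset.Icc 2 (k - 1),
      IntegrableOn (fun x => bt j * XX S (k - j) (E L x)) box := fun j hj => by
    rw [Finset.mem_Icc] at hj
    exact (int_XX S (k - j) (by omega)).const_mul _
  have h5 : IntegrableOn (fun x => ∑ j ∈ Finset.Icc 2 (k - 1), bt j * XX S (k - j) (E L x)) box :=
    integrable_finsetSum _ h4
  have h6 : IntegrableOn (fun x => c * XX S k (E L x) + XX S (k - 1) (E L x)) box := h1.add h3
  rw [integral_sub h6 h5, integral_add h1 h3, integral_const_mul, integral_finsetSum _ h4,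
    TT_eq, TT_eq]
  congr 1
  refine Finset.sum_congr rfl fun j _ => ?_
  rw [integral_const_mul, TT_eq]

/-- `0 = ∫ ∂(∑ b a^(n-1-k) L_k(f))` with `∂ = ∂_y` for `k` even and `∂_x` for `k` odd, and the symmetry
`∑ L_k(f) a^(n-2-k) (a ∂b - b ∂a) = 0` (`Sys.rel`) for `k ≤ n - 2` -/
theorem TT_rec (hq : Even q) (hq2 : 2 ≤ q) (k : ℕ) (h2 : 2 ≤ k) (hk : k ≤ q + 2) :
    ((q : ℝ) + 3 - k) * TT S k + TT S (k - 1) -
      ∑ i ∈ Finset.Icc 2 (k - 1), bt i * TT S (k - i) = 0 := by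
  rw [← comb_int S _ k h2]
  by_cases he : Even k
  · rw [← Rec_mean S (q + 2 - k) k h2 Complex.I]
    refine integral_congr_ae ?_
    filter_upwards [ae_not_C S] with x hx
    rw [Finset.sum_add_distrib, second_y S hq k h2 hk he hx, add_sub_assoc,
      ← first_y S hq k h2 hk he hx, add_comm]
    congr 1
    refine Finset.sum_congr rfl fun i _ => ?_
    rw [Rec_reI, Rec_reI, ly, ly]
  · rw [← Rec_mean S (q + 2 - k) k h2 1]
    refine integral_congr_ae ?_
    filter_upwards [ae_not_C S] with x hx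
    rw [Finset.sum_add_distrib, second_x S hq k h2 hk he hx, add_sub_assoc,
      ← first_x S hq k h2 hk he hx, add_comm]
    congr 1
    refine Finset.sum_congr rfl fun i _ => ?_
    rw [mul_one, mul_one, lx, lx]

private theorem Rx_split (z : ℂ) : Rx S z = rr q * I0 S z -
    (∑ i, P.L (q + 2) (S.f i z) * ly (S.g i) z) -
    ∑ j ∈ Finset.Icc 2 q, ee j * ∑ i, la (S.g i) z * la (S.f i) z ^ (j - 1) *
      P.L (q + 2 - j) (S.f i z) * ly (S.f i) z := by
  have h : ∑ j ∈ Finset.Icc 2 q, ee j * ∑ i, la (S.g i) z * la (S.f i) z ^ (j - 1) *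
      P.L (q + 2 - j) (S.f i z) * ly (S.f i) z = ∑ i, ∑ j ∈ Finset.Icc 2 q, ee j *
      (la (S.g i) z * la (S.f i) z ^ (j - 1) * P.L (q + 2 - j) (S.f i z) * ly (S.f i) z) := by
    rw [Finset.sum_comm]
    exact Finset.sum_congr rfl fun j _ => Finset.mul_sum _ _ _
  rw [h, Rx, I0, Finset.mul_sum, ← Finset.sum_sub_distrib, ← Finset.sum_sub_distrib]
  refine Finset.sum_congr rfl fun i _ => ?_
  ring

private theorem int_Rj (j : ℕ) (hj : j ∈ Finset.Icc 2 q) : IntegrableOn (fun x => ee j *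
    ∑ i, la (S.g i) (E L x) * la (S.f i) (E L x) ^ (j - 1) *
      P.L (q + 2 - j) (S.f i (E L x)) * ly (S.f i) (E L x)) box := by
  rw [Finset.mem_Icc] at hj
  exact (Rec_intB S (q + 2 - j) (j - 1) (by omega) (Or.inr rfl)).const_mul _

theorem int_Rx : IntegrableOn (fun x => Rx S (E L x)) box := by
  have h : (fun x => Rx S (E L x)) = fun x => rr q * I0 S (E L x) -
      (∑ i, P.L (q + 2) (S.f i (E L x)) * ly (S.g i) (E L x)) -
      ∑ j ∈ Finset.Icc 2 q, ee j * ∑ i, la (S.g i) (E L x) * la (S.f i) (E L x) ^ (j - 1) *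
        P.L (q + 2 - j) (S.f i (E L x)) * ly (S.f i) (E L x) := funext fun x => Rx_split S _
  rw [h]
  exact (((int_I0 S).const_mul _).sub (Rec_intT S (q + 2) (by omega))).sub
    (integrable_finsetSum _ (int_Rj S))

/-- by `rec_sum` -/
theorem mean_Rx (hq : Even q) (hq2 : 2 ≤ q) :
    ∫ x in box, Rx S (E L x) = rr q * 2 ^ (q + 2) * ∫ x in box, I0 S (E L x) := by
  have h : (fun x => Rx S (E L x)) = fun x => rr q * I0 S (E L x) -
      (∑ i, P.L (q + 2) (S.f i (E L x)) * ly (S.g i) (E L x)) -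
      ∑ j ∈ Finset.Icc 2 q, ee j * ∑ i, la (S.g i) (E L x) * la (S.f i) (E L x) ^ (j - 1) *
        P.L (q + 2 - j) (S.f i (E L x)) * ly (S.f i) (E L x) := funext fun x => Rx_split S _
  have h1 : IntegrableOn (fun x => rr q * I0 S (E L x)) box := (int_I0 S).const_mul _
  have h2 : IntegrableOn (fun x => ∑ i, P.L (q + 2) (S.f i (E L x)) * ly (S.g i) (E L x)) box :=
    Rec_intT S (q + 2) (by omega)
  have h3 : IntegrableOn (fun x => ∑ j ∈ Finset.Icc 2 q, ee j * ∑ i, la (S.g i) (E L x) *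
      la (S.f i) (E L x) ^ (j - 1) * P.L (q + 2 - j) (S.f i (E L x)) * ly (S.f i) (E L x)) box :=
    integrable_finsetSum _ (int_Rj S)
  have h4 : IntegrableOn (fun x => rr q * I0 S (E L x) -
      ∑ i, P.L (q + 2) (S.f i (E L x)) * ly (S.g i) (E L x)) box := h1.sub h2
  rw [h, integral_sub h4 h3, integral_sub h1 h2, integral_const_mul,
    integral_finsetSum _ (int_Rj S)]
  have hT1 : ∫ x in box, I0 S (E L x) = TT S 1 := by rw [TT, if_pos rfl]
  have hT2 : ∫ x in box, ∑ i, P.L (q + 2) (S.f i (E L x)) * ly (S.g i) (E L x) =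
      TT S (q + 2) := by rw [TT, if_neg (by omega), if_pos rfl]
  have hTj : ∀ j ∈ Finset.Icc 2 q, ∫ x in box, ee j * ∑ i, la (S.g i) (E L x) *
      la (S.f i) (E L x) ^ (j - 1) * P.L (q + 2 - j) (S.f i (E L x)) * ly (S.f i) (E L x) =
      ee j * TT S (q + 2 - j) := fun j hj => by
    rw [Finset.mem_Icc] at hj
    rw [integral_const_mul]
    by_cases he : Even j
    · have he2 : Even (q + 2 - j) := by
        rw [Nat.even_iff] at he hq ⊢
        omega
      have e : q + 1 - (q + 2 - j) = j - 1 := by omega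
      rw [TT, if_neg (by omega), if_neg (by omega), if_pos he2, e]
    · rw [ee_odd he, zero_mul, zero_mul]
  rw [Finset.sum_congr rfl hTj, hT1, hT2]
  have hn : Odd (q + 3) := by
    rw [Nat.odd_iff]
    rw [Nat.even_iff] at hq
    omega
  have hs := rec_sum hn (by omega) (TT S) (fun k h2 hk => by
    have := TT_rec S hq hq2 k h2 (by omega)
    push_cast
    exact this)
  have e1 : q + 3 - 2 = q + 1 := by omega
  have e3 : q + 3 - 1 = q + 2 := by omega
  simp only [e1, e3] at hs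
  have e4 : Finset.Ico 2 (q + 1) = Finset.Icc 2 q := by
    ext j
    simp only [Finset.mem_Ico, Finset.mem_Icc]
    omega
  rw [Finset.range_eq_Ico, Finset.sum_eq_sum_Ico_succ_bot (by omega : 0 < q + 1),
    Finset.sum_eq_sum_Ico_succ_bot (by omega : 0 + 1 < q + 1)] at hs
  have e5 : ee (0 + 1) = 0 := ee_odd (by decide)
  have e6 : ee 0 = 1 := by simp [ee]
  have e7 : (0 + 1 + 1 : ℕ) = 2 := rfl
  rw [e5, e6, e7, e4, Nat.sub_zero, one_mul, zero_mul, zero_add] at hs
  have e8 : rr q = ((q : ℝ) + 2) / ((q + 3).factorial : ℝ) := rfl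
  push_cast at hs
  have e9 : ((q : ℝ) + 3 - 1) = (q : ℝ) + 2 := by ring
  rw [e9, ← e8] at hs
  linear_combination -hs

end Pool.Agent.F194.Y

end
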