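import Pool.Agent.Work.MP_f194bb_nt.Y.Base
import Pool.Agent.Work.MP_f194bb_nt.Divs

/-!
# MP_f194bb_nt, odd n: evaluation at generic points
-/

set_option autoImplicit false

open scoped ComplexConjugate PeriodPair
open MeasureTheory Filter Topology

noncomputable section

namespace Pool.Agent.F194.Y

universe u

variable {L : PeriodPair} {K : Type u} [Field K] (ρ : EllRep L K)

/-- the function of `u ∈ K`, in normal form -/
def nf (u : K) : ℂ → ℂ := toMeromorphicNFOn (ρ.ev u) Set.univ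

private theorem nf_mo (u : K) : MeromorphicOn (ρ.ev u) Set.univ := fun z _ => ρ.mero u z

private theorem nf_ne (u : K) (z : ℂ) : nf ρ u =ᶠ[𝓝[≠] z] ρ.ev u :=
  (nf_mo ρ u).toMeromorphicNFOn_eq_self_on_nhdsNE (Set.mem_univ z)

private theorem nf_nf (u : K) (z : ℂ) : MeromorphicNFAt (nf ρ u) z :=
  meromorphicNFOn_toMeromorphicNFOn (ρ.ev u) Set.univ (Set.mem_univ z)

private theorem nf_order (u : K) (z : ℂ) :
    meromorphicOrderAt (nf ρ u) z = meromorphicOrderAt (ρ.ev u) z :=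
  meromorphicOrderAt_toMeromorphicNFOn (nf_mo ρ u) (Set.mem_univ z)

/-- a function in normal form equal to `ρ.ev u` near `z` is equal to `nf ρ u` -/
private theorem nf_eq {u : K} {z : ℂ} {g : ℂ → ℂ} (hg : MeromorphicNFAt g z)
    (h : g =ᶠ[𝓝[≠] z] ρ.ev u) : nf ρ u =ᶠ[𝓝 z] g :=
  ((nf_nf ρ u z).eventuallyEq_nhdsNE_iff_eventuallyEq_nhds hg).1 ((nf_ne ρ u z).trans h.symm)

theorem nf_ev (u : K) : nf ρ u =ᶠ[codiscrete ℂ] ρ.ev u :=
  (toMeromorphicNFOn_eqOn_codiscrete (nf_mo ρ u)).symm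

theorem nf_dv (u : K) : dv (nf ρ u) = dv (ρ.ev u) := dv_congr (nf_ev ρ u)

private theorem nf_mero (u : K) : Meromorphic (nf ρ u) := fun z => (nf_nf ρ u z).meromorphicAt

theorem nf_ell (u : Kˣ) : Pool.Agent.F194.Ell L (nf ρ (u : K)) := by
  refine ⟨nf_mero ρ u, fun z => ?_, fun l z => ?_⟩
  · rw [nf_order]
    exact ρ.nz u.ne_zero z
  · have h1 : MeromorphicNFAt (fun w => nf ρ (u : K) (w + l)) z :=
      meromorphicNFAt_fun_comp_add_const_iff_meromorphicNFAt.2 (nf_nf ρ u (z + l))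
    have h2 : (fun w => nf ρ (u : K) (w + l)) =ᶠ[𝓝[≠] z] ρ.ev (u : K) := by
      have h3 : Tendsto (fun w : ℂ => w + l) (𝓝[≠] z) (𝓝[≠] (z + l)) := by
        refine tendsto_nhdsWithin_iff.2 ⟨?_, ?_⟩
        · exact ((continuous_id.add continuous_const).tendsto z).mono_left nhdsWithin_le_nhds
        · filter_upwards [self_mem_nhdsWithin] with w hw h
          exact hw (add_right_cancel h)
      filter_upwards [h3.eventually (nf_ne ρ (u : K) (z + l))] with w hw
      rw [hw, ρ.per]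
    exact (nf_eq ρ h1 h2).eq_of_nhds.symm

private theorem nf_ord {u : Kˣ} {z : ℂ} (h : dv (ρ.ev (u : K)) z = 0) :
    meromorphicOrderAt (nf ρ (u : K)) z = 0 := by
  rw [nf_order]
  have h1 := ρ.nz u.ne_zero z
  rw [dv] at h
  rw [← WithTop.coe_untop₀_of_ne_top h1, h]
  rfl

/-- where the order is `0`, the normal form is analytic and not zero -/
theorem nf_an {u : Kˣ} {z : ℂ} (h : dv (ρ.ev (u : K)) z = 0) :
    AnalyticAt ℂ (nf ρ (u : K)) z ∧ nf ρ (u : K) z ≠ 0 := by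
  have h1 := nf_ord ρ h
  refine ⟨(nf_nf ρ (u : K) z).meromorphicOrderAt_nonneg_iff_analyticAt.1 h1.ge, ?_⟩
  exact (nf_nf ρ (u : K) z).meromorphicOrderAt_eq_zero_iff.1 h1

private theorem nf_conj {f : ℂ → ℂ} {z : ℂ} (hf : AnalyticAt ℂ f z) :
    AnalyticAt ℂ (fun w => conj (f (conj w))) (conj z) := by
  rw [Complex.analyticAt_iff_eventually_differentiableAt] at hf ⊢
  have h1 : Tendsto (fun w : ℂ => conj w) (𝓝 (conj z)) (𝓝 z) := by
    have := Complex.continuous_conj.tendsto (conj z)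
    rwa [Complex.conj_conj] at this
  filter_upwards [h1.eventually hf] with w hw
  have h2 := hw.conj_conj
  rwa [Complex.conj_conj] at h2

theorem nf_real (hr : ∀ f : K, (fun z => conj (ρ.ev f (conj z))) =ᶠ[codiscrete ℂ] ρ.ev f)
    {u : Kˣ} {z : ℂ} (h : dv (ρ.ev (u : K)) z = 0) :
    dv (ρ.ev (u : K)) (conj z) = 0 ∧ nf ρ (u : K) (conj z) = conj (nf ρ (u : K) z) := by
  obtain ⟨h1, h2⟩ := nf_an ρ h
  have h3 := nf_conj h1
  have h4 : (fun w => conj (nf ρ (u : K) (conj w))) =ᶠ[𝓝[≠] (conj z)] ρ.ev (u : K) := by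
    have h5 : Tendsto (fun w : ℂ => conj w) (𝓝[≠] (conj z)) (𝓝[≠] z) := by
      refine tendsto_nhdsWithin_iff.2 ⟨?_, ?_⟩
      · have := (Complex.continuous_conj.tendsto (conj z)).mono_left
          (nhdsWithin_le_nhds (s := {conj z}ᶜ))
        rwa [Complex.conj_conj] at this
      · filter_upwards [self_mem_nhdsWithin] with w hw h
        refine hw ?_
        rw [Set.mem_singleton_iff] at h ⊢
        rw [← h, Complex.conj_conj]
    filter_upwards [h5.eventually (nf_ne ρ (u : K) z), nhdsNE_of_codiscrete (hr u) (conj z)]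
      with w hw hw2
    rw [hw]
    exact hw2
  have h6 := nf_eq ρ h3.meromorphicNFAt h4
  have h7 : nf ρ (u : K) (conj z) = conj (nf ρ (u : K) z) := by
    rw [h6.eq_of_nhds, Complex.conj_conj]
  refine ⟨?_, h7⟩
  rw [← nf_dv, dv]
  have h8 : meromorphicOrderAt (nf ρ (u : K)) (conj z) = 0 := by
    refine (nf_nf ρ (u : K) (conj z)).meromorphicOrderAt_eq_zero_iff.2 ?_
    rw [h7]
    exact (map_ne_zero _).2 h2
  rw [h8]
  rfl

/-- a generic point: all functions of `K*` are analytic and non-zero there, and evaluation, `log |·|`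
and the logarithmic derivative are homomorphisms -/
structure GPt (z : ℂ) where
  p : K →+* ℂ
  hp : ∀ u : K, p u = nf ρ u z
  an : ∀ u : Kˣ, AnalyticAt ℂ (nf ρ (u : K)) z
  lg : Additive Kˣ →+ ℝ
  hlg : ∀ u : Kˣ, lg (Additive.ofMul u) = la (nf ρ (u : K)) z
  D : Additive Kˣ →+ ℂ
  hD : ∀ u : Kˣ, D (Additive.ofMul u) = ld (nf ρ (u : K)) z

private theorem nf_zero (z : ℂ) : nf ρ 0 =ᶠ[𝓝 z] fun _ => (0 : ℂ) := by
  refine nf_eq ρ analyticAt_const.meromorphicNFAt ?_
  have h1 := ρ.map_add 0 0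
  rw [add_zero] at h1
  filter_upwards [nhdsNE_of_codiscrete h1 z] with w hw
  rw [Pi.add_apply] at hw
  linear_combination hw

private theorem nf_one (z : ℂ) : nf ρ 1 =ᶠ[𝓝 z] fun _ => (1 : ℂ) := by
  refine nf_eq ρ analyticAt_const.meromorphicNFAt ?_
  filter_upwards [nhdsNE_of_codiscrete ρ.map_one z] with w hw
  rw [hw, Pi.one_apply]

private theorem nf_add {u v : K} {z : ℂ} (hu : AnalyticAt ℂ (nf ρ u) z)
    (hv : AnalyticAt ℂ (nf ρ v) z) :
    nf ρ (u + v) =ᶠ[𝓝 z] fun w => nf ρ u w + nf ρ v w := by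
  refine nf_eq ρ (hu.add hv).meromorphicNFAt ?_
  filter_upwards [nhdsNE_of_codiscrete (ρ.map_add u v) z, nf_ne ρ u z, nf_ne ρ v z] with w h1 h2 h3
  rw [h1, h2, h3, Pi.add_apply]

private theorem nf_mul {u v : K} {z : ℂ} (hu : AnalyticAt ℂ (nf ρ u) z)
    (hv : AnalyticAt ℂ (nf ρ v) z) :
    nf ρ (u * v) =ᶠ[𝓝 z] fun w => nf ρ u w * nf ρ v w := by
  refine nf_eq ρ (hu.mul hv).meromorphicNFAt ?_
  filter_upwards [nhdsNE_of_codiscrete (ρ.map_mul u v) z, nf_ne ρ u z, nf_ne ρ v z] with w h1 h2 h3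
  rw [h1, h2, h3, Pi.mul_apply]

private theorem nf_gp {z : ℂ} (ha : ∀ u : Kˣ, AnalyticAt ℂ (nf ρ (u : K)) z)
    (h0 : ∀ u : Kˣ, nf ρ (u : K) z ≠ 0) : Nonempty (GPt ρ z) := by
  have ha' : ∀ u : K, AnalyticAt ℂ (nf ρ u) z := by
    intro u
    by_cases hu : u = 0
    · subst hu
      exact (analyticAt_congr (nf_zero ρ z)).2 analyticAt_const
    · exact ha (Units.mk0 u hu)
  have hm : ∀ u v : K, nf ρ (u * v) z = nf ρ u z * nf ρ v z := fun u v =>
    (nf_mul ρ (ha' u) (ha' v)).eq_of_nhds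
  refine ⟨{
    p := { toFun := fun u => nf ρ u z
           map_one' := (nf_one ρ z).eq_of_nhds
           map_mul' := hm
           map_zero' := (nf_zero ρ z).eq_of_nhds
           map_add' := fun u v => (nf_add ρ (ha' u) (ha' v)).eq_of_nhds }
    hp := fun u => rfl
    an := ha
    lg := AddMonoidHom.mk' (fun u => la (nf ρ ((Additive.toMul u : Kˣ) : K)) z) ?_
    hlg := fun u => rfl
    D := AddMonoidHom.mk' (fun u => ld (nf ρ ((Additive.toMul u : Kˣ) : K)) z) ?_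
    hD := fun u => rfl }⟩
  · intro a b
    show Real.log ‖nf ρ (((Additive.toMul a * Additive.toMul b : Kˣ)) : K) z‖ =
      Real.log ‖nf ρ ((Additive.toMul a : Kˣ) : K) z‖ +
        Real.log ‖nf ρ ((Additive.toMul b : Kˣ) : K) z‖
    rw [Units.val_mul, hm, norm_mul,
      Real.log_mul (norm_ne_zero_iff.2 (h0 _)) (norm_ne_zero_iff.2 (h0 _))]
  · intro a b
    show deriv (nf ρ (((Additive.toMul a * Additive.toMul b : Kˣ)) : K)) z /
        nf ρ (((Additive.toMul a * Additive.toMul b : Kˣ)) : K) z =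
      deriv (nf ρ ((Additive.toMul a : Kˣ) : K)) z / nf ρ ((Additive.toMul a : Kˣ) : K) z +
        deriv (nf ρ ((Additive.toMul b : Kˣ) : K)) z / nf ρ ((Additive.toMul b : Kˣ) : K) z
    rw [Units.val_mul, (nf_mul ρ (ha _) (ha _)).deriv_eq, hm]
    have h1 := h0 (Additive.toMul a)
    have h2 := h0 (Additive.toMul b)
    have h3 : deriv (fun w => nf ρ ((Additive.toMul a : Kˣ) : K) w *
        nf ρ ((Additive.toMul b : Kˣ) : K) w) z =
        deriv (nf ρ ((Additive.toMul a : Kˣ) : K)) z * nf ρ ((Additive.toMul b : Kˣ) : K) z +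
          nf ρ ((Additive.toMul a : Kˣ) : K) z * deriv (nf ρ ((Additive.toMul b : Kˣ) : K)) z :=
      deriv_fun_mul (ha _).differentiableAt (ha _).differentiableAt
    rw [h3]
    field_simp

/-- the points outside a countable set are generic -/
theorem gpt (hc : Countable K) : ∃ Z : Set ℂ, Z.Countable ∧ ∀ z, z ∉ Z → Nonempty (GPt ρ z) := by
  have : Countable Kˣ := Function.Injective.countable (f := fun u : Kˣ => (u : K)) Units.val_injective
  refine ⟨⋃ u : Kˣ, ({z | AnalyticAt ℂ (nf ρ (u : K)) z}ᶜ ∪ {z | nf ρ (u : K) z = 0}), ?_, ?_⟩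
  · refine Set.countable_iUnion fun u => ?_
    exact (nf_mero ρ (u : K)).countable_compl_analyticAt.union
      (countable_zeros (nf_mero ρ (u : K)) (nf_ell ρ u).nz)
  · intro z hz
    refine nf_gp ρ (fun u => ?_) (fun u => ?_)
    · by_contra h
      exact hz (Set.mem_iUnion.2 ⟨u, Or.inl h⟩)
    · intro h
      exact hz (Set.mem_iUnion.2 ⟨u, Or.inr h⟩)

/-- the mean of `log |·|` is a homomorphism -/
theorem muHom : ∃ m : Additive Kˣ →+ ℝ, ∀ u : Kˣ, m (Additive.ofMul u) = mu L (nf ρ (u : K)) := by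
  have hi : ∀ u : Kˣ, IntegrableOn (fun x => la (nf ρ (u : K)) (E L x)) box := by
    intro u
    have h1 := int_box L fun r => lg_int (nf_ell ρ u).mero (nf_ell ρ u).nz r
    exact h1.re
  refine ⟨AddMonoidHom.mk' (fun u => mu L (nf ρ ((Additive.toMul u : Kˣ) : K))) ?_, fun u => rfl⟩
  intro a b
  show (∫ x in box, la (nf ρ (((Additive.toMul a * Additive.toMul b : Kˣ)) : K)) (E L x)) =
    (∫ x in box, la (nf ρ ((Additive.toMul a : Kˣ) : K)) (E L x)) +
      ∫ x in box, la (nf ρ ((Additive.toMul b : Kˣ) : K)) (E L x)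
  rw [← integral_add (hi _) (hi _)]
  refine integral_congr_ae ?_
  have hS : ∀ u : Kˣ, ({z | AnalyticAt ℂ (nf ρ (u : K)) z}ᶜ ∪
      {z | nf ρ (u : K) z = 0}).Countable := fun u =>
    (nf_mero ρ (u : K)).countable_compl_analyticAt.union
      (countable_zeros (nf_mero ρ (u : K)) (nf_ell ρ u).nz)
  filter_upwards [E_ae L (hS (Additive.toMul a)), E_ae L (hS (Additive.toMul b))] with x h1 h2
  have a1 : AnalyticAt ℂ (nf ρ ((Additive.toMul a : Kˣ) : K)) (E L x) := by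
    by_contra h
    exact h1 (Or.inl h)
  have a2 : AnalyticAt ℂ (nf ρ ((Additive.toMul b : Kˣ) : K)) (E L x) := by
    by_contra h
    exact h2 (Or.inl h)
  have b1 : nf ρ ((Additive.toMul a : Kˣ) : K) (E L x) ≠ 0 := fun h => h1 (Or.inr h)
  have b2 : nf ρ ((Additive.toMul b : Kˣ) : K) (E L x) ≠ 0 := fun h => h2 (Or.inr h)
  show Real.log ‖_‖ = Real.log ‖_‖ + Real.log ‖_‖
  rw [Units.val_mul, (nf_mul ρ a1 a2).eq_of_nhds, norm_mul,
    Real.log_mul (norm_ne_zero_iff.2 b1) (norm_ne_zero_iff.2 b2)]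

end Pool.Agent.F194.Y

end
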