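import Pool.Agent.Work.MP_f194bb_nt.Y.Mu
import Pool.Agent.Work.MP_f194bb_nt.X.Tr

/-!
# MP_f194bb_nt, odd n: the lattice sums
-/

set_option autoImplicit false

open scoped ComplexConjugate PeriodPair
open MeasureTheory Filter Topology

noncomputable section

namespace Pool.Agent.F194.Y

variable {L : PeriodPair} {P : PLs} {q : ℕ} {ι : Type} [Fintype ι] (S : Sys L P q ι)


theorem kap_eq (hL : RL L) : kap L = areaA L / 2 ∧ kap' L = -1 := by
  set t : ℝ := (conj L.ω₁ * L.ω₂).im with ht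
  have htneg : t < 0 := by
    have e : t = L.ω₁.re * L.ω₂.im := by
      rw [ht, Complex.mul_im, Complex.conj_re, Complex.conj_im, hL.re1]
      ring
    rw [e]
    exact mul_neg_of_pos_of_neg hL.pos1 hL.neg2
  have hv : vol L = -t := by
    rw [vol, abs_of_neg htneg]
  have hpi : (Real.pi : ℂ) ≠ 0 := by exact_mod_cast Real.pi_ne_zero
  have ht0 : (t : ℂ) ≠ 0 := by exact_mod_cast htneg.ne
  have hA : areaA L = (t : ℂ) / Real.pi := by
    rw [areaA_eq, ← ht]
    push_cast
    rfl
  constructor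
  · unfold kap
    rw [hv, hA]
    push_cast
    field_simp
    try norm_num
  · unfold kap'
    rw [hv, hA]
    push_cast
    field_simp

private theorem kk_qq (u : ℂ → ℂ) (z : ℂ) : qq u 0 z = ld u z := by
  rw [qq, ld, sub_zero]

private theorem kk_mean (u : ℂ → ℂ) : mean L (lg u) = ((mu L u : ℝ) : ℂ) := by
  rw [mean, mu, ← integral_complex_ofReal]
  rfl

private theorem kk_tl (u : ℂ → ℂ) (z : ℂ) : tl L u z = ((la u z - mu L u : ℝ) : ℂ) := by
  rw [tl, kk_mean, Complex.ofReal_sub]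
  rfl

/-- the complex integrand -/
private def kkT (i : ι) (z : ℂ) : ℂ := tl L (S.g i) z * tl L (S.f i) z ^ q *
    (tl L (S.f i) z * ld (S.h i) z - tl L (S.h i) z * ld (S.f i) z)

private theorem kkT_re (i : ι) (z : ℂ) : (kkT S i z).re = (la (S.g i) z - mu L (S.g i)) *
      (la (S.f i) z - mu L (S.f i)) ^ q *
      ((la (S.f i) z - mu L (S.f i)) * lx (S.h i) z -
        (la (S.h i) z - mu L (S.h i)) * lx (S.f i) z) := by
  unfold kkT
  rw [kk_tl, kk_tl, kk_tl, ← Complex.ofReal_pow, ← Complex.ofReal_mul, Complex.re_ofReal_mul,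
    Complex.sub_re, Complex.re_ofReal_mul, Complex.re_ofReal_mul]
  rfl

private theorem kk_la_meas {u : ℂ → ℂ} (hu : Pool.Agent.F194.Ell L u) : Measurable (la u) := by
  have h := hu.mero.measurable
  unfold la
  fun_prop

private theorem kk_ld_meas {u : ℂ → ℂ} (hu : Pool.Agent.F194.Ell L u) : Measurable (ld u) := by
  have h := hu.mero.measurable
  have h2 : Measurable (deriv u) := measurable_deriv _
  unfold ld
  fun_prop

private theorem kk_tl_meas {u : ℂ → ℂ} (hu : Pool.Agent.F194.Ell L u) : Measurable (tl L u) := by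
  have h : tl L u = fun z => ((la u z - mu L u : ℝ) : ℂ) := funext fun z => kk_tl u z
  rw [h]
  exact Complex.measurable_ofReal.comp ((kk_la_meas hu).sub_const _)

private theorem kk_tl_le {u : ℂ → ℂ} {z : ℂ} (h : |la u z| ≤ MM S z) :
    ‖tl L u z‖ ≤ (1 + |mu L u|) * MM S z := by
  rw [kk_tl, Complex.norm_real, Real.norm_eq_abs]
  have h1 := abs_sub (la u z) (mu L u)
  have h2 := one_le_MM S z
  have h3 := abs_nonneg (mu L u)
  nlinarith

private theorem kkT_meas (i : ι) : Measurable (kkT S i) := by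
  have h1 := kk_tl_meas (S.gE i)
  have h2 := kk_tl_meas (S.fE i)
  have h3 := kk_tl_meas (S.hE i)
  have h4 := kk_ld_meas (S.fE i)
  have h5 := kk_ld_meas (S.hE i)
  unfold kkT
  fun_prop

private theorem kkT_int (i : ι) : Integrable (fun x => kkT S i (E L x))
    (volume.restrict box) := by
  set K₁ := 1 + |mu L (S.g i)| with hK₁
  set K₂ := 1 + |mu L (S.f i)| with hK₂
  set K₃ := 1 + |mu L (S.h i)| with hK₃
  have p1 : 0 ≤ K₁ := by positivity
  have p2 : 0 ≤ K₂ := by positivity
  have p3 : 0 ≤ K₃ := by positivity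
  refine Integrable.mono' ((int_MD S (q + 2)).const_mul (K₁ * K₂ ^ q * (K₂ + K₃)))
    ((kkT_meas S i).comp (continuous_E L).measurable).aestronglyMeasurable
    (Eventually.of_forall fun x => ?_)
  set z := E L x
  have hM := one_le_MM S z
  have hD := one_le_DD S z
  have hb : ‖tl L (S.g i) z‖ ≤ K₁ * MM S z := kk_tl_le S (la_le_MM S i z).2.2
  have ha : ‖tl L (S.f i) z‖ ≤ K₂ * MM S z := kk_tl_le S (la_le_MM S i z).1
  have hw : ‖tl L (S.h i) z‖ ≤ K₃ * MM S z := kk_tl_le S (la_le_MM S i z).2.1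
  have h4 : ‖tl L (S.f i) z * ld (S.h i) z - tl L (S.h i) z * ld (S.f i) z‖ ≤
      (K₂ + K₃) * (MM S z * DD S z) := by
    refine (norm_sub_le _ _).trans ?_
    rw [norm_mul, norm_mul]
    have h5 := mul_le_mul ha (ld_le_DD S i z).2.1 (norm_nonneg _) (by positivity)
    have h6 := mul_le_mul hw (ld_le_DD S i z).1 (norm_nonneg _) (by positivity)
    nlinarith
  rw [kkT, norm_mul, norm_mul, norm_pow]
  calc ‖tl L (S.g i) z‖ * ‖tl L (S.f i) z‖ ^ q *
        ‖tl L (S.f i) z * ld (S.h i) z - tl L (S.h i) z * ld (S.f i) z‖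
      ≤ (K₁ * MM S z) * (K₂ * MM S z) ^ q * ((K₂ + K₃) * (MM S z * DD S z)) := by gcongr
    _ = K₁ * K₂ ^ q * (K₂ + K₃) * (MM S z ^ (q + 2) * DD S z) := by rw [mul_pow, pow_add]; ring

private theorem kk_la_per {u : ℂ → ℂ} (hu : Pool.Agent.F194.Ell L u) (l : L.lattice) (z : ℂ) :
    la u (z + l) = la u z := by
  rw [la, la, hu.per l z]

private theorem kk_ld_per {u : ℂ → ℂ} (hu : Pool.Agent.F194.Ell L u) (l : L.lattice) (z : ℂ) :
    ld u (z + l) = ld u z := by
  have h : ∀ w, u (w + l) = u w := hu.per l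
  unfold ld
  rw [h z]
  congr 1
  have h2 := deriv_comp_add_const u (l : ℂ) z
  rw [← h2]
  congr 1
  funext w
  exact h w

private theorem kkT_per (i : ι) : Per L (kkT S i) := by
  intro l z
  unfold kkT
  simp only [kk_tl, kk_la_per (S.fE i), kk_la_per (S.hE i), kk_la_per (S.gE i),
    kk_ld_per (S.fE i), kk_ld_per (S.hE i)]

private theorem kk_la_conj {u : ℂ → ℂ} {z : ℂ} (h : u (conj z) = conj (u z)) :
    la u (conj z) = la u z := by
  rw [la, la, h, Complex.norm_conj]

private theorem kk_ld_conj {C : Set ℂ} (hC : IsClosed C) (hc : ∀ z, conj z ∈ C ↔ z ∈ C)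
    {u : ℂ → ℂ} (h : ∀ z, z ∉ C → u (conj z) = conj (u z)) {z : ℂ} (hz : z ∉ C) :
    ld u (conj z) = conj (ld u z) := by
  have h1 : (conj ∘ u ∘ conj) =ᶠ[𝓝 (conj z)] u := by
    have h2 : ∀ᶠ w in 𝓝 (conj z), w ∉ C :=
      hC.isOpen_compl.mem_nhds fun h3 => hz ((hc z).1 h3)
    filter_upwards [h2] with w hw
    have h3 : conj w ∉ C := fun h4 => hw ((hc w).1 h4)
    have h4 := h _ h3
    rw [Complex.conj_conj] at h4
    exact h4.symm
  have h2 := congrFun (deriv_conj_conj (f := u)) (conj z)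
  rw [h1.deriv_eq] at h2
  simp only [Function.comp_apply, Complex.conj_conj] at h2
  unfold ld
  rw [h2, h z hz, map_div₀]

private theorem kkT_conj (i : ι) {z : ℂ} (hz : z ∉ S.C) : kkT S i (conj z) = conj (kkT S i z) := by
  unfold kkT
  simp only [kk_tl, kk_la_conj (S.fc i z hz), kk_la_conj (S.hc i z hz), kk_la_conj (S.gc i z hz),
    kk_ld_conj S.closed S.cj (S.fc i) hz, kk_ld_conj S.closed S.cj (S.hc i) hz, map_mul, map_sub,
    map_pow, Complex.conj_ofReal]

private theorem kkT_im (hL : RL L) (i : ι) : (mean L (kkT S i)).im = 0 := by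
  rw [← Complex.conj_eq_iff_im]
  have h1 : mean L (fun z => kkT S i (conj z)) = mean L (kkT S i) :=
    Pool.Agent.F194.X.mean_comp (L := L) (L' := L) Complex.conjCLE (fun l hl => hL.cj l hl)
      (kkT_per S i) (kkT_int S i).aestronglyMeasurable
  have h2 : mean L (fun z => kkT S i (conj z)) = conj (mean L (kkT S i)) := by
    unfold mean
    rw [← integral_conj]
    refine integral_congr_ae ?_
    filter_upwards [ae_not_C S] with x hx
    exact kkT_conj S i hx
  rw [← h2, h1]

private theorem kkT_mean_re (i : ι) : (mean L (kkT S i)).re =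
    ∫ x in box, (kkT S i (E L x)).re := by
  have h := integral_re (kkT_int S i)
  simp only [RCLike.re_eq_complex_re] at h
  exact h.symm

/-- `kmul`, `mean_tl`; the imaginary part vanishes by complex conjugation -/
theorem ksum_eq (hL : RL L) (hq2 : 2 ≤ q) :
    ∑ i, Ksum L q (pr L (dv (S.g i))) (pr L (dv (S.f i))) (pr L (dv (S.h i))) =
      (kap L ^ (q + 2) * kap' L)⁻¹ * ((∫ x in box, I0 S (E L x) : ℝ) : ℂ) := by
  have h1 : ∀ i, Ksum L q (pr L (dv (S.g i))) (pr L (dv (S.f i))) (pr L (dv (S.h i))) =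
      (kap L ^ (q + 2) * kap' L)⁻¹ * mean L (kkT S i) := fun i => by
    rw [kmul L q (S.gE i) (S.fE i) (S.hE i)]
    simp only [kk_qq]
    rfl
  simp only [h1]
  rw [← Finset.mul_sum]
  congr 1
  apply Complex.ext
  · rw [Complex.re_sum, Complex.ofReal_re, ← mean_tl S hq2, Finset.sum_congr rfl fun i _ =>
      kkT_mean_re S i, ← integral_finsetSum _ fun i _ => ?_]
    · simp only [kkT_re]
    · exact (kkT_int S i).re
  · rw [Complex.im_sum, Complex.ofReal_im]
    exact Finset.sum_eq_zero fun i _ => kkT_im S hL i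

end Pool.Agent.F194.Y

end
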