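import Pool.Agent.Work.MP_f194bb_nt.Y.Fub

/-!
# MP_f194bb_nt, odd n: the real lines
-/

set_option autoImplicit false

open scoped ComplexConjugate PeriodPair
open MeasureTheory Filter Topology

noncomputable section

namespace Pool.Agent.F194.Y

variable {L : PeriodPair} {P : PLs} {q : ℕ} {ι : Type} [Fintype ι] (S : Sys L P q ι)

private theorem line_real {y : ℝ} (hy : (2 * y * Complex.I : ℂ) ∈ L.lattice)
    {t : ℝ} (ht : (t + y * Complex.I : ℂ) ∉ S.C) (i : ι) :
    (S.f i (t + y * Complex.I)).im = 0 := by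
  rw [← Complex.conj_eq_iff_im, ← S.fc i _ ht]
  have h := (S.fE i).per ⟨_, hy⟩ (conj (t + y * Complex.I : ℂ))
  rw [← h]
  congr 1
  rw [map_add, map_mul, Complex.conj_ofReal, Complex.conj_ofReal, Complex.conj_I]
  ring

/-- on a real line the even polylogarithms and `∂_y log` vanish -/
theorem Rx_line (hq : Even q) {y : ℝ} (hy : (2 * y * Complex.I : ℂ) ∈ L.lattice)
    {t : ℝ} (ht : (t + y * Complex.I : ℂ) ∉ S.C) :
    Rx S (t + y * Complex.I) = rr q * I0 S (t + y * Complex.I) := by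
  unfold Rx I0
  rw [Finset.mul_sum]
  refine Finset.sum_congr rfl fun i _ => ?_
  have hr := line_real S hy ht i
  have h2 : Even (q + 2) := hq.add even_two
  rw [P.r _ h2 _ hr]
  have h3 : (∑ j ∈ Finset.Icc 2 q, ee j * (la (S.g i) (t + y * Complex.I) *
      la (S.f i) (t + y * Complex.I) ^ (j - 1) *
      P.L (q + 2 - j) (S.f i (t + y * Complex.I)) * ly (S.f i) (t + y * Complex.I))) = 0 := by
    refine Finset.sum_eq_zero fun j _ => ?_
    by_cases hj : Even j
    · rw [P.r _ (h2.tsub hj) _ hr]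
      ring
    · rw [ee, if_neg hj, zero_mul]
  rw [h3]
  ring

private theorem rr_ne (q : ℕ) : rr q ≠ 0 := by
  unfold rr
  have : ((q + 3).factorial : ℝ) ≠ 0 := Nat.cast_ne_zero.2 (Nat.factorial_ne_zero _)
  exact div_ne_zero (by positivity) this

theorem mean_I0 (hL : RL L) (hq : Even q) (hq2 : 2 ≤ q) {y : ℝ}
    (hy : (2 * y * Complex.I : ℂ) ∈ L.lattice) :
    ∫ x in box, I0 S (E L x) = (2 ^ (q + 2))⁻¹ * ((L.ω₁.re)⁻¹ *
      ∫ t in (0 : ℝ)..L.ω₁.re, I0 S (t + y * Complex.I)) := by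
  have h1 := mean_Rx S hq hq2
  rw [fub S hL hq hq2 y] at h1
  have h2 : ri S y = rr q * ∫ t in (0 : ℝ)..L.ω₁.re, I0 S (t + y * Complex.I) := by
    unfold ri
    rw [← intervalIntegral.integral_const_mul]
    refine intervalIntegral.integral_congr_ae ?_
    have hc : {t : ℝ | (t + y * Complex.I : ℂ) ∈ S.C}.Countable :=
      S.cnt.preimage fun a b h => by
        have := congrArg Complex.re h
        simpa using this
    filter_upwards [hc.ae_notMem volume] with t ht _
    exact Rx_line S hq hy ht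
  rw [h2] at h1
  have h3 := rr_ne q
  have h4 : (2 : ℝ) ^ (q + 2) ≠ 0 := by positivity
  have h5 : rr q * ((L.ω₁.re)⁻¹ * ∫ t in (0 : ℝ)..L.ω₁.re, I0 S (t + y * Complex.I)) =
      rr q * (2 ^ (q + 2) * ∫ x in box, I0 S (E L x)) := by
    rw [← mul_assoc (rr q) (2 ^ (q + 2)), ← h1]
    ring
  rw [mul_left_cancel₀ h3 h5, ← mul_assoc, inv_mul_cancel₀ h4, one_mul]

end Pool.Agent.F194.Y

end
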