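import Pool.Agent.Work.MP_f194bb_nt.Y.Int
import Pool.Agent.Work.MP_f194bb_nt.Y.NumB

/-!
# MP_f194bb_nt, odd n: subtracting the means of the logarithms
-/

set_option autoImplicit false

open scoped ComplexConjugate PeriodPair
open MeasureTheory Filter Topology

noncomputable section

namespace Pool.Agent.F194.Y

variable {L : PeriodPair} {P : PLs} {q : ℕ} {ι : Type} [Fintype ι] (S : Sys L P q ι)

/-! ### bounds -/

/-- bounded by a power of `MM` -/
private def Q0 (F : ℂ → ℝ) : Prop := ∃ (A : ℝ) (n : ℕ), 0 ≤ A ∧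
  ∀ z, z ∉ S.C → |F z| ≤ A * MM S z ^ n

/-- bounded by a power of `MM` times `DD` -/
private def Q1 {V : Type} [NormedAddCommGroup V] (F : ℂ → V) : Prop := ∃ (A : ℝ) (n : ℕ), 0 ≤ A ∧
  ∀ z, z ∉ S.C → ‖F z‖ ≤ A * (MM S z ^ n * DD S z)

private theorem q_le {A A' X : ℝ} {n n' : ℕ} (hA : 0 ≤ A) (h : A ≤ A') (hX : 1 ≤ X)
    (hn : n ≤ n') : A * X ^ n ≤ A' * X ^ n' :=
  mul_le_mul h (pow_le_pow_right₀ hX hn) (by positivity) (hA.trans h)

section
variable {S}

private theorem Q0.mul {F G : ℂ → ℝ} (hF : Q0 S F) (hG : Q0 S G) : Q0 S fun z => F z * G z := by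
  obtain ⟨A, n, hA, h1⟩ := hF
  obtain ⟨B, m, hB, h2⟩ := hG
  refine ⟨A * B, n + m, mul_nonneg hA hB, fun z hz => ?_⟩
  have hM := one_le_MM S z
  rw [abs_mul, pow_add, show A * B * (MM S z ^ n * MM S z ^ m) =
    (A * MM S z ^ n) * (B * MM S z ^ m) by ring]
  exact mul_le_mul (h1 z hz) (h2 z hz) (abs_nonneg _) (by positivity)

private theorem Q0.add {F G : ℂ → ℝ} (hF : Q0 S F) (hG : Q0 S G) : Q0 S fun z => F z + G z := by
  obtain ⟨A, n, hA, h1⟩ := hF
  obtain ⟨B, m, hB, h2⟩ := hG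
  refine ⟨A + B, n + m, add_nonneg hA hB, fun z hz => ?_⟩
  have hM := one_le_MM S z
  refine (abs_add_le _ _).trans ?_
  rw [add_mul]
  exact add_le_add ((h1 z hz).trans (q_le hA le_rfl hM (by omega)))
    ((h2 z hz).trans (q_le hB le_rfl hM (by omega)))

private theorem Q0.const (c : ℝ) : Q0 S fun _ => c :=
  ⟨|c|, 0, abs_nonneg c, fun z _ => by rw [pow_zero, mul_one]⟩

private theorem Q0.bdd {F : ℂ → ℝ} (c : ℝ) (h : ∀ z, |F z| ≤ c) : Q0 S F :=
  ⟨c, 0, (abs_nonneg _).trans (h 0), fun z _ => by rw [pow_zero, mul_one]; exact h z⟩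

private theorem Q0.pow {F : ℂ → ℝ} (hF : Q0 S F) (m : ℕ) : Q0 S fun z => F z ^ m := by
  induction m with
  | zero => simpa using! Q0.const (S := S) 1
  | succ m ih =>
    have := ih.mul hF
    simpa only [pow_succ] using this

private theorem Q0.sum {κ : Type} (s : Finset κ) {F : κ → ℂ → ℝ} (hF : ∀ i ∈ s, Q0 S (F i)) :
    Q0 S fun z => ∑ i ∈ s, F i z := by
  classical
  induction s using Finset.induction_on with
  | empty => simpa using! Q0.const (S := S) 0
  | insert a s ha ih =>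
    have := (hF a (Finset.mem_insert_self a s)).add (ih fun i hi =>
      hF i (Finset.mem_insert_of_mem hi))
    simpa only [Finset.sum_insert ha] using this

private theorem Q1.add {V : Type} [NormedAddCommGroup V] {F G : ℂ → V} (hF : Q1 S F)
    (hG : Q1 S G) : Q1 S fun z => F z + G z := by
  obtain ⟨A, n, hA, h1⟩ := hF
  obtain ⟨B, m, hB, h2⟩ := hG
  refine ⟨A + B, n + m, add_nonneg hA hB, fun z hz => ?_⟩
  have hM := one_le_MM S z
  have hD := one_le_DD S z
  refine (norm_add_le _ _).trans ?_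
  rw [add_mul]
  refine add_le_add ((h1 z hz).trans ?_) ((h2 z hz).trans ?_)
  · rw [← mul_assoc, ← mul_assoc]
    exact mul_le_mul_of_nonneg_right (q_le hA le_rfl hM (by omega)) (by linarith)
  · rw [← mul_assoc, ← mul_assoc]
    exact mul_le_mul_of_nonneg_right (q_le hB le_rfl hM (by omega)) (by linarith)

private theorem Q1.neg {V : Type} [NormedAddCommGroup V] {F : ℂ → V} (hF : Q1 S F) :
    Q1 S fun z => -F z := by
  obtain ⟨A, n, hA, h1⟩ := hF
  exact ⟨A, n, hA, fun z hz => by rw [norm_neg]; exact h1 z hz⟩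

private theorem Q1.sub {V : Type} [NormedAddCommGroup V] {F G : ℂ → V} (hF : Q1 S F)
    (hG : Q1 S G) : Q1 S fun z => F z - G z := by
  simpa only [sub_eq_add_neg] using hF.add hG.neg

private theorem Q1.zero {V : Type} [NormedAddCommGroup V] : Q1 S fun _ => (0 : V) :=
  ⟨0, 0, le_rfl, fun z _ => by rw [norm_zero, zero_mul]⟩

private theorem Q1.sum {V : Type} [NormedAddCommGroup V] {κ : Type} (s : Finset κ)
    {F : κ → ℂ → V} (hF : ∀ i ∈ s, Q1 S (F i)) : Q1 S fun z => ∑ i ∈ s, F i z := by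
  classical
  induction s using Finset.induction_on with
  | empty => simpa using! Q1.zero (S := S) (V := V)
  | insert a s ha ih =>
    have := (hF a (Finset.mem_insert_self a s)).add (ih fun i hi =>
      hF i (Finset.mem_insert_of_mem hi))
    simpa only [Finset.sum_insert ha] using this

private theorem Q1.smul {V : Type} [NormedAddCommGroup V] [NormedSpace ℝ V] {F : ℂ → ℝ}
    {G : ℂ → V} (hF : Q0 S F) (hG : Q1 S G) : Q1 S fun z => F z • G z := by
  obtain ⟨A, n, hA, h1⟩ := hF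
  obtain ⟨B, m, hB, h2⟩ := hG
  refine ⟨A * B, n + m, mul_nonneg hA hB, fun z hz => ?_⟩
  have hM := one_le_MM S z
  have hD := one_le_DD S z
  rw [norm_smul, Real.norm_eq_abs, pow_add, show A * B * (MM S z ^ n * MM S z ^ m * DD S z) =
    (A * MM S z ^ n) * (B * (MM S z ^ m * DD S z)) by ring]
  exact mul_le_mul (h1 z hz) (h2 z hz) (norm_nonneg _) (by positivity)

end

private theorem rl_le (c : ℂ) : ‖rl c‖ ≤ ‖c‖ :=
  ContinuousLinearMap.opNorm_le_bound _ (norm_nonneg _) fun h => by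
    rw [rl_apply, Real.norm_eq_abs, ← norm_mul]
    exact Complex.abs_re_le_norm _

private theorem il_le (c : ℂ) : ‖il c‖ ≤ ‖c‖ :=
  ContinuousLinearMap.opNorm_le_bound _ (norm_nonneg _) fun h => by
    rw [il_apply, Real.norm_eq_abs, ← norm_mul]
    exact Complex.abs_im_le_norm _

private theorem Q1.of {V : Type} [NormedAddCommGroup V] {F : ℂ → V}
    (h : ∀ z, ‖F z‖ ≤ DD S z) : Q1 S F :=
  ⟨1, 0, zero_le_one, fun z _ => by rw [pow_zero, one_mul, one_mul]; exact h z⟩

private theorem Q0.of {F : ℂ → ℝ} (h : ∀ z, |F z| ≤ MM S z) : Q0 S F :=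
  ⟨1, 1, zero_le_one, fun z _ => by rw [pow_one, one_mul]; exact h z⟩

/-! ### integrable functions -/

/-- continuous off `C` and bounded by a power of `MM` times `DD` -/
private structure I1 (F : ℂ → ℝ) : Prop where
  c : ∀ z, z ∉ S.C → ContinuousAt F z
  b : Q1 S F

/-- continuous off `C` and bounded by a power of `MM` -/
private structure C0 (F : ℂ → ℝ) : Prop where
  c : ∀ z, z ∉ S.C → ContinuousAt F z
  b : Q0 S F

section
variable {S}

private theorem I1.int {F : ℂ → ℝ} (h : I1 S F) : IntegrableOn (fun x => F (E L x)) box := by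
  obtain ⟨A, n, -, h1⟩ := h.b
  exact int_of_le S (A := A) (n := n) (fun z hz => (h.c z hz).continuousWithinAt) fun z hz => by
    rw [← Real.norm_eq_abs]
    exact h1 z hz

private theorem I1.add {F G : ℂ → ℝ} (hF : I1 S F) (hG : I1 S G) : I1 S fun z => F z + G z :=
  ⟨fun z hz => (hF.c z hz).add (hG.c z hz), hF.b.add hG.b⟩

private theorem I1.sub {F G : ℂ → ℝ} (hF : I1 S F) (hG : I1 S G) : I1 S fun z => F z - G z :=
  ⟨fun z hz => (hF.c z hz).sub (hG.c z hz), hF.b.sub hG.b⟩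

private theorem I1.neg {F : ℂ → ℝ} (hF : I1 S F) : I1 S fun z => -F z :=
  ⟨fun z hz => (hF.c z hz).neg, hF.b.neg⟩

private theorem I1.sum {κ : Type} (s : Finset κ) {F : κ → ℂ → ℝ} (hF : ∀ i ∈ s, I1 S (F i)) :
    I1 S fun z => ∑ i ∈ s, F i z :=
  ⟨fun z hz => tendsto_finsetSum _ fun i hi => (hF i hi).c z hz, Q1.sum s fun i hi => (hF i hi).b⟩

private theorem C0.mulI {F G : ℂ → ℝ} (hF : C0 S F) (hG : I1 S G) : I1 S fun z => F z * G z :=
  ⟨fun z hz => (hF.c z hz).mul (hG.c z hz), Q1.smul hF.b hG.b⟩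

private theorem C0.mul {F G : ℂ → ℝ} (hF : C0 S F) (hG : C0 S G) : C0 S fun z => F z * G z :=
  ⟨fun z hz => (hF.c z hz).mul (hG.c z hz), hF.b.mul hG.b⟩

private theorem C0.add {F G : ℂ → ℝ} (hF : C0 S F) (hG : C0 S G) : C0 S fun z => F z + G z :=
  ⟨fun z hz => (hF.c z hz).add (hG.c z hz), hF.b.add hG.b⟩

private theorem C0.const (c : ℝ) : C0 S fun _ => c := ⟨fun _ _ => continuousAt_const, Q0.const c⟩

private theorem C0.sub_const {F : ℂ → ℝ} (hF : C0 S F) (c : ℝ) : C0 S fun z => F z - c := by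
  simpa only [sub_eq_add_neg] using hF.add (C0.const (-c))

private theorem C0.pow {F : ℂ → ℝ} (hF : C0 S F) (m : ℕ) : C0 S fun z => F z ^ m :=
  ⟨fun z hz => (hF.c z hz).pow m, hF.b.pow m⟩

end

/-- the mean -/
private def m (L : PeriodPair) (F : ℂ → ℝ) : ℝ := ∫ x in box, F (E L x)

section
variable {S}

private theorem m_add {F G : ℂ → ℝ} (hF : I1 S F) (hG : I1 S G) :
    m L (fun z => F z + G z) = m L F + m L G := integral_add hF.int hG.int

private theorem m_sub {F G : ℂ → ℝ} (hF : I1 S F) (hG : I1 S G) :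
    m L (fun z => F z - G z) = m L F - m L G := integral_sub hF.int hG.int

private theorem m_sum {κ : Type} (s : Finset κ) {F : κ → ℂ → ℝ} (hF : ∀ i ∈ s, I1 S (F i)) :
    m L (fun z => ∑ i ∈ s, F i z) = ∑ i ∈ s, m L (F i) :=
  integral_finsetSum s fun i hi => (hF i hi).int

end

private theorem m_mul (c : ℝ) (F : ℂ → ℝ) : m L (fun z => c * F z) = c * m L F :=
  integral_const_mul c _

private theorem m_congr {F G : ℂ → ℝ} (h : ∀ z, z ∉ S.C → F z = G z) : m L F = m L G := by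
  refine integral_congr_ae ?_
  filter_upwards [ae_not_C S] with x hx
  exact h _ hx

/-! ### differentiable functions -/

private structure G1 (F : ℂ → ℝ) (F' : ℂ → ℂ →L[ℝ] ℝ) : Prop where
  per : ∀ l : L.lattice, ∀ z, F (z + l) = F z
  cd : ∀ z, z ∉ S.C → ContDiffAt ℝ 1 F z
  fd : ∀ z, z ∉ S.C → HasFDerivAt F (F' z) z
  b : Q0 S F
  b' : Q1 S F'

section
variable {S}

private theorem G1.mean {F : ℂ → ℝ} {F' : ℂ → ℂ →L[ℝ] ℝ} (h : G1 S F F') (w : ℂ) :
    m L (fun z => F' z w) = 0 := by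
  obtain ⟨A, n, -, h1⟩ := h.b'
  have h2 := mean_dir S (F := F) h.per h.cd (A := A) (n := n)
    (fun z hz => by rw [(h.fd z hz).fderiv]; exact h1 z hz) w
  rw [← h2]
  refine integral_congr_ae ?_
  filter_upwards [ae_not_C S] with x hx
  rw [(h.fd _ hx).fderiv]

private theorem G1.c0 {F : ℂ → ℝ} {F' : ℂ → ℂ →L[ℝ] ℝ} (h : G1 S F F') : C0 S F :=
  ⟨fun z hz => (h.fd z hz).continuousAt, h.b⟩

private theorem G1.mul {F G : ℂ → ℝ} {F' G' : ℂ → ℂ →L[ℝ] ℝ} (hF : G1 S F F')
    (hG : G1 S G G') : G1 S (fun z => F z * G z) (fun z => F z • G' z + G z • F' z) where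
  per l z := by rw [hF.per, hG.per]
  cd z hz := (hF.cd z hz).mul (hG.cd z hz)
  fd z hz := (hF.fd z hz).mul (hG.fd z hz)
  b := hF.b.mul hG.b
  b' := (Q1.smul hF.b hG.b').add (Q1.smul hG.b hF.b')

private theorem G1.add {F G : ℂ → ℝ} {F' G' : ℂ → ℂ →L[ℝ] ℝ} (hF : G1 S F F')
    (hG : G1 S G G') : G1 S (fun z => F z + G z) (fun z => F' z + G' z) where
  per l z := by rw [hF.per, hG.per]
  cd z hz := (hF.cd z hz).add (hG.cd z hz)
  fd z hz := (hF.fd z hz).add (hG.fd z hz)
  b := hF.b.add hG.b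
  b' := hF.b'.add hG.b'

private theorem G1.const_mul {F : ℂ → ℝ} {F' : ℂ → ℂ →L[ℝ] ℝ} (hF : G1 S F F') (c : ℝ) :
    G1 S (fun z => c * F z) (fun z => c • F' z) where
  per l z := by rw [hF.per]
  cd z hz := contDiffAt_const.mul (hF.cd z hz)
  fd z hz := (hF.fd z hz).const_mul c
  b := (Q0.const c).mul hF.b
  b' := Q1.smul (Q0.const c) hF.b'

private theorem G1.sum {κ : Type} (s : Finset κ) {F : κ → ℂ → ℝ} {F' : κ → ℂ → ℂ →L[ℝ] ℝ}
    (h : ∀ i ∈ s, G1 S (F i) (F' i)) :
    G1 S (fun z => ∑ i ∈ s, F i z) (fun z => ∑ i ∈ s, F' i z) where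
  per l z := Finset.sum_congr rfl fun i hi => (h i hi).per l z
  cd z hz := ContDiffAt.sum fun i hi => (h i hi).cd z hz
  fd z hz := HasFDerivAt.fun_sum fun i hi => (h i hi).fd z hz
  b := Q0.sum s fun i hi => (h i hi).b
  b' := Q1.sum s fun i hi => (h i hi).b'

private theorem G1.pow {F : ℂ → ℝ} {F' : ℂ → ℂ →L[ℝ] ℝ} (hF : G1 S F F') (k : ℕ) :
    G1 S (fun z => F z ^ k) (fun z => ((k : ℝ) * F z ^ (k - 1)) • F' z) where
  per l z := by rw [hF.per]
  cd z hz := (hF.cd z hz).pow k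
  fd z hz := by
    have := (hF.fd z hz).pow k
    simpa only [nsmul_eq_mul] using this
  b := hF.b.pow k
  b' := Q1.smul ((Q0.const (k : ℝ)).mul (hF.b.pow (k - 1))) hF.b'

end

/-! ### the functions of the system -/

private theorem la_per {u : ℂ → ℂ} (hu : Pool.Agent.F194.Ell L u) (l : L.lattice) (z : ℂ) :
    la u (z + l) = la u z := by
  rw [la, la, hu.per l z]

private theorem g_la {u : ℂ → ℂ} (hu : Pool.Agent.F194.Ell L u)
    (ha : ∀ z, z ∉ S.C → AnalyticAt ℂ u z) (h0 : ∀ z, z ∉ S.C → u z ≠ 0)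
    (hM : ∀ z, |la u z| ≤ MM S z) (hD : ∀ z, ‖ld u z‖ ≤ DD S z) :
    G1 S (la u) (fun z => rl (ld u z)) where
  per := la_per hu
  cd z hz := (la_cd (ha z hz) (h0 z hz)).of_le (by norm_num)
  fd z hz := la_fd (ha z hz) (h0 z hz)
  b := Q0.of S hM
  b' := Q1.of S fun z => (rl_le _).trans (hD z)

private theorem ga (i : ι) : G1 S (la (S.f i)) (fun z => rl (ld (S.f i) z)) :=
  g_la S (S.fE i) (S.fa i) (S.f0 i) (fun z => (la_le_MM S i z).1) fun z => (ld_le_DD S i z).1

private theorem gw (i : ι) : G1 S (la (S.h i)) (fun z => rl (ld (S.h i) z)) :=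
  g_la S (S.hE i) (S.ha i) (S.h0 i) (fun z => (la_le_MM S i z).2.1) fun z => (ld_le_DD S i z).2.1

private theorem gb (i : ι) : G1 S (la (S.g i)) (fun z => rl (ld (S.g i) z)) :=
  g_la S (S.gE i) (S.ga i) (S.g0 i) (fun z => (la_le_MM S i z).2.2) fun z => (ld_le_DD S i z).2.2

private theorem i_lx {u : ℂ → ℂ} (ha : ∀ z, z ∉ S.C → AnalyticAt ℂ u z)
    (h0 : ∀ z, z ∉ S.C → u z ≠ 0) (hD : ∀ z, ‖ld u z‖ ≤ DD S z) : I1 S (lx u) :=
  ⟨fun z hz => (lxy_fd (ha z hz) (h0 z hz)).1.continuousAt,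
    Q1.of S fun z => (Complex.abs_re_le_norm _).trans (hD z)⟩

private theorem i_ly {u : ℂ → ℂ} (ha : ∀ z, z ∉ S.C → AnalyticAt ℂ u z)
    (h0 : ∀ z, z ∉ S.C → u z ≠ 0) (hD : ∀ z, ‖ld u z‖ ≤ DD S z) : I1 S (ly u) :=
  ⟨fun z hz => (lxy_fd (ha z hz) (h0 z hz)).2.continuousAt,
    Q1.of S fun z => by
      rw [ly, norm_neg, Real.norm_eq_abs]
      exact (Complex.abs_im_le_norm _).trans (hD z)⟩

private theorem ix (i : ι) : I1 S (lx (S.f i)) :=
  i_lx S (S.fa i) (S.f0 i) fun z => (ld_le_DD S i z).1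

private theorem iy (i : ι) : I1 S (ly (S.f i)) :=
  i_ly S (S.fa i) (S.f0 i) fun z => (ld_le_DD S i z).1

private theorem iwx (i : ι) : I1 S (lx (S.h i)) :=
  i_lx S (S.ha i) (S.h0 i) fun z => (ld_le_DD S i z).2.1

private theorem ibx (i : ι) : I1 S (lx (S.g i)) :=
  i_lx S (S.ga i) (S.g0 i) fun z => (ld_le_DD S i z).2.2

private theorem rl_one (u : ℂ → ℂ) (z : ℂ) : rl (ld u z) 1 = lx u z := by
  rw [rl_apply, mul_one, lx]

private theorem rl_I (u : ℂ → ℂ) (z : ℂ) : rl (ld u z) Complex.I = ly u z := by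
  rw [rl_apply, Complex.mul_I_re, ly]

private theorem il_one (u : ℂ → ℂ) (z : ℂ) : il (ld u z) 1 = -ly u z := by
  rw [il_apply, mul_one, ly, neg_neg]

private theorem il_I (u : ℂ → ℂ) (z : ℂ) : il (ld u z) Complex.I = lx u z := by
  rw [il_apply, Complex.mul_I_im, lx]

private theorem cL {k : ℕ} (hk : 2 ≤ k) (i : ι) : C0 S fun z => P.L k (S.f i z) :=
  ⟨fun _ hz => (L_cd S hk i hz).continuousAt, Q0.bdd (P.C k) fun _ => P.b k _⟩

private theorem gL2 (i : ι) : G1 S (fun z => P.L 2 (S.f i z))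
    (fun z => la (S.f i) z • il (ld (S.h i) z) - la (S.h i) z • il (ld (S.f i) z)) where
  per l z := by rw [(S.fE i).per l z]
  cd z hz := L_cd S le_rfl i hz
  fd z hz := L2_fd S i hz
  b := (cL S le_rfl i).b
  b' := (Q1.smul (ga S i).b (Q1.of S fun z => (il_le _).trans (ld_le_DD S i z).2.1)).sub
    (Q1.smul (gw S i).b (Q1.of S fun z => (il_le _).trans (ld_le_DD S i z).1))

private theorem gL {k : ℕ} (hk : 3 ≤ k) (i : ι) : G1 S (fun z => P.L k (S.f i z))
    (fun z => ((-1) ^ k * P.L (k - 1) (S.f i z)) • il (ld (S.f i) z) -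
        (∑ j ∈ Finset.Icc 2 (k - 2), bt j * la (S.f i) z ^ (j - 1) * P.L (k - j) (S.f i z)) •
          rl (ld (S.f i) z) -
        (bt (k - 1) * la (S.f i) z ^ (k - 2)) •
          (la (S.f i) z • rl (ld (S.h i) z) - la (S.h i) z • rl (ld (S.f i) z))) where
  per l z := by rw [(S.fE i).per l z]
  cd z hz := L_cd S (by omega) i hz
  fd z hz := L_fd S hk i hz
  b := (cL S (by omega) i).b
  b' := by
    have h1 : Q1 S fun z => il (ld (S.f i) z) :=
      Q1.of S fun z => (il_le _).trans (ld_le_DD S i z).1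
    have h2 : Q1 S fun z => rl (ld (S.f i) z) :=
      Q1.of S fun z => (rl_le _).trans (ld_le_DD S i z).1
    have h3 : Q1 S fun z => rl (ld (S.h i) z) :=
      Q1.of S fun z => (rl_le _).trans (ld_le_DD S i z).2.1
    have hL : ∀ j, Q0 S fun z => P.L j (S.f i z) := fun j => Q0.bdd (P.C j) fun z => P.b j _
    refine ((Q1.smul ((Q0.const _).mul (hL _)) h1).sub (Q1.smul (Q0.sum _ fun j _ => ?_) h2)).sub
      (Q1.smul ((Q0.const _).mul ((ga S i).b.pow _))
        ((Q1.smul (ga S i).b h3).sub (Q1.smul (gw S i).b h2)))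
    exact ((Q0.const _).mul ((ga S i).b.pow _)).mul (hL _)

/-! ### a single function -/

/-- `a w_x - w a_x` -/
private def X (i : ι) (z : ℂ) : ℝ :=
  la (S.f i) z * lx (S.h i) z - la (S.h i) z * lx (S.f i) z

private theorem iX (i : ι) : I1 S (X S i) :=
  ((ga S i).c0.mulI (iwx S i)).sub ((gw S i).c0.mulI (ix S i))

private def T (i : ι) (N k : ℕ) : ℝ :=
  if k = 1 then m L fun z => la (S.f i) z ^ (N - 2) * X S i z
  else if Even k then m L fun z => la (S.f i) z ^ (N - 1 - k) * P.L k (S.f i z) * ly (S.f i) z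
  else m L fun z => la (S.f i) z ^ (N - 1 - k) * P.L k (S.f i z) * lx (S.f i) z

private theorem T_one (i : ι) (N : ℕ) :
    T S i N 1 = m L fun z => la (S.f i) z ^ (N - 2) * X S i z := by
  rw [T, if_pos rfl]

private theorem T_even (i : ι) (N : ℕ) {k : ℕ} (hk : Even k) : T S i N k =
    m L fun z => la (S.f i) z ^ (N - 1 - k) * P.L k (S.f i z) * ly (S.f i) z := by
  rw [T, if_neg (by rintro rfl; exact absurd hk (by decide)), if_pos hk]

private theorem T_odd (i : ι) (N : ℕ) {k : ℕ} (hk : ¬ Even k) (h1 : k ≠ 1) : T S i N k =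
    m L fun z => la (S.f i) z ^ (N - 1 - k) * P.L k (S.f i z) * lx (S.f i) z := by
  rw [T, if_neg h1, if_neg hk]

private theorem T_rec (i : ι) {N k : ℕ} (h2 : 2 ≤ k) (hk : k ≤ N) :
    ((N : ℝ) - k) * T S i N k + T S i N (k - 1) -
      ∑ j ∈ Finset.Icc 2 (k - 1), bt j * T S i N (k - j) = 0 := by
  have hp : ∀ z, ((N : ℝ) - k) * (la (S.f i) z ^ (N - 1 - k)) =
      ((N - k : ℕ) : ℝ) * la (S.f i) z ^ (N - k - 1) := fun z => by
    rw [Nat.cast_sub hk, show N - 1 - k = N - k - 1 by omega]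
  rcases Nat.lt_or_ge 2 k with h3 | h3
  · have h3' : 3 ≤ k := h3
    have hg := ((ga S i).pow (N - k)).mul (gL S h3' i)
    -- the integrands
    have hcx : ∀ j, 2 ≤ j → I1 S fun z => la (S.f i) z ^ (N - 1 - j) * P.L j (S.f i z) *
        lx (S.f i) z := fun j hj => (((ga S i).c0.pow _).mul (cL S hj i)).mulI (ix S i)
    have hcy : ∀ j, 2 ≤ j → I1 S fun z => la (S.f i) z ^ (N - 1 - j) * P.L j (S.f i z) *
        ly (S.f i) z := fun j hj => (((ga S i).c0.pow _).mul (cL S hj i)).mulI (iy S i)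
    have hs : ∀ F : ℕ → ℝ,
        ∑ j ∈ Finset.Icc 2 (k - 1), F j = (∑ j ∈ Finset.Icc 2 (k - 2), F j) + F (k - 1) := by
      intro F
      obtain ⟨r, rfl⟩ : ∃ r, k = r + 2 := ⟨k - 2, by omega⟩
      have h5 : r + 2 - 1 = r + 1 := by omega
      have h6 : r + 2 - 2 = r := by omega
      rw [h5, h6, Finset.sum_Icc_succ_top (by omega)]
    by_cases he : Even k
    · -- k even: direction I
      have h4 := hg.mean Complex.I
      have hodd : ¬ Even (k - 1) := by
        intro h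
        have h5 : k = (k - 1) + 1 := by omega
        rw [h5, Nat.even_add_one] at he
        exact he h
      have hb0 : bt (k - 1) = 0 := by rw [bt, if_neg hodd]
      have h5 : ∀ z, (la (S.f i) z ^ (N - k) • (((-1) ^ k * P.L (k - 1) (S.f i z)) •
            il (ld (S.f i) z) -
          (∑ j ∈ Finset.Icc 2 (k - 2), bt j * la (S.f i) z ^ (j - 1) * P.L (k - j) (S.f i z)) •
            rl (ld (S.f i) z) -
          (bt (k - 1) * la (S.f i) z ^ (k - 2)) •
            (la (S.f i) z • rl (ld (S.h i) z) - la (S.h i) z • rl (ld (S.f i) z))) +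
          P.L k (S.f i z) • (((N - k : ℕ) : ℝ) * la (S.f i) z ^ (N - k - 1)) •
            rl (ld (S.f i) z)) Complex.I =
          (((N : ℝ) - k) * (la (S.f i) z ^ (N - 1 - k) * P.L k (S.f i z) * ly (S.f i) z) +
            la (S.f i) z ^ (N - 1 - (k - 1)) * P.L (k - 1) (S.f i z) * lx (S.f i) z) -
          ∑ j ∈ Finset.Icc 2 (k - 2), bt j *
            (la (S.f i) z ^ (N - 1 - (k - j)) * P.L (k - j) (S.f i z) * ly (S.f i) z) := by
        intro z
        have e1 : ∑ j ∈ Finset.Icc 2 (k - 2), bt j *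
            (la (S.f i) z ^ (N - 1 - (k - j)) * P.L (k - j) (S.f i z) * ly (S.f i) z) =
            la (S.f i) z ^ (N - k) * ((∑ j ∈ Finset.Icc 2 (k - 2),
              bt j * la (S.f i) z ^ (j - 1) * P.L (k - j) (S.f i z)) * ly (S.f i) z) := by
          rw [Finset.sum_mul, Finset.mul_sum]
          refine Finset.sum_congr rfl fun j hj => ?_
          rw [Finset.mem_Icc] at hj
          rw [show N - 1 - (k - j) = (N - k) + (j - 1) by omega, pow_add]
          ring
        rw [e1, show N - 1 - (k - 1) = N - k by omega]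
        simp only [add_apply, sub_apply, smul_apply, smul_eq_mul, rl_I, il_I, he.neg_one_pow, hb0]
        linear_combination (-(P.L k (S.f i z) * ly (S.f i) z)) * hp z
      have h6 : m L (fun z =>
          (((N : ℝ) - k) * (la (S.f i) z ^ (N - 1 - k) * P.L k (S.f i z) * ly (S.f i) z) +
            la (S.f i) z ^ (N - 1 - (k - 1)) * P.L (k - 1) (S.f i z) * lx (S.f i) z) -
          ∑ j ∈ Finset.Icc 2 (k - 2), bt j *
            (la (S.f i) z ^ (N - 1 - (k - j)) * P.L (k - j) (S.f i z) * ly (S.f i) z)) = 0 := by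
        rw [← h4]
        exact congrArg (m L) (funext fun z => (h5 z).symm)
      have i1 := (C0.const (S := S) ((N : ℝ) - k)).mulI (hcy k h2)
      have i2 := hcx (k - 1) (by omega)
      have i3 : ∀ j ∈ Finset.Icc 2 (k - 2), I1 S fun z => bt j *
          (la (S.f i) z ^ (N - 1 - (k - j)) * P.L (k - j) (S.f i z) * ly (S.f i) z) :=
        fun j hj => by
          rw [Finset.mem_Icc] at hj
          exact (C0.const (S := S) (bt j)).mulI (hcy (k - j) (by omega))
      rw [m_sub (i1.add i2) (I1.sum _ i3), m_add i1 i2, m_mul, m_sum _ i3] at h6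
      rw [T_even S i N he, T_odd S i N hodd (by omega), hs, hb0, zero_mul,
        add_zero, ← h6]
      congr 1
      refine Finset.sum_congr rfl fun j hj => ?_
      rw [m_mul]
      by_cases hj2 : Even j
      · rw [Finset.mem_Icc] at hj
        rw [T_even S i N (k := k - j) ((Nat.even_sub (by omega)).2 (by simp [he, hj2]))]
      · rw [bt, if_neg hj2, zero_mul, zero_mul]
    · -- k odd: direction 1
      have h4 := hg.mean 1
      have he' : Even (k - 1) := by
        have h5 : k = (k - 1) + 1 := by omega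
        rw [h5, Nat.even_add_one, not_not] at he
        exact he
      have hneg : ((-1 : ℝ)) ^ k = -1 := (Nat.not_even_iff_odd.1 he).neg_one_pow
      have h5 : ∀ z, (la (S.f i) z ^ (N - k) • (((-1) ^ k * P.L (k - 1) (S.f i z)) •
            il (ld (S.f i) z) -
          (∑ j ∈ Finset.Icc 2 (k - 2), bt j * la (S.f i) z ^ (j - 1) * P.L (k - j) (S.f i z)) •
            rl (ld (S.f i) z) -
          (bt (k - 1) * la (S.f i) z ^ (k - 2)) •
            (la (S.f i) z • rl (ld (S.h i) z) - la (S.h i) z • rl (ld (S.f i) z))) +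
          P.L k (S.f i z) • (((N - k : ℕ) : ℝ) * la (S.f i) z ^ (N - k - 1)) •
            rl (ld (S.f i) z)) 1 =
          (((N : ℝ) - k) * (la (S.f i) z ^ (N - 1 - k) * P.L k (S.f i z) * lx (S.f i) z) +
            la (S.f i) z ^ (N - 1 - (k - 1)) * P.L (k - 1) (S.f i z) * ly (S.f i) z) -
          ((∑ j ∈ Finset.Icc 2 (k - 2), bt j *
            (la (S.f i) z ^ (N - 1 - (k - j)) * P.L (k - j) (S.f i z) * lx (S.f i) z)) +
            bt (k - 1) * (la (S.f i) z ^ (N - 2) * X S i z)) := by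
        intro z
        have e1 : ∑ j ∈ Finset.Icc 2 (k - 2), bt j *
            (la (S.f i) z ^ (N - 1 - (k - j)) * P.L (k - j) (S.f i z) * lx (S.f i) z) =
            la (S.f i) z ^ (N - k) * ((∑ j ∈ Finset.Icc 2 (k - 2),
              bt j * la (S.f i) z ^ (j - 1) * P.L (k - j) (S.f i z)) * lx (S.f i) z) := by
          rw [Finset.sum_mul, Finset.mul_sum]
          refine Finset.sum_congr rfl fun j hj => ?_
          rw [Finset.mem_Icc] at hj
          rw [show N - 1 - (k - j) = (N - k) + (j - 1) by omega, pow_add]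
          ring
        rw [e1, show N - 1 - (k - 1) = N - k by omega, show N - 2 = (N - k) + (k - 2) by omega,
          pow_add, X]
        simp only [add_apply, sub_apply, smul_apply, smul_eq_mul, rl_one, il_one, hneg]
        linear_combination (-(P.L k (S.f i z) * lx (S.f i) z)) * hp z
      have i1 := (C0.const (S := S) ((N : ℝ) - k)).mulI (hcx k h2)
      have i2 := hcy (k - 1) (by omega)
      have i3 : ∀ j ∈ Finset.Icc 2 (k - 2), I1 S fun z => bt j *
          (la (S.f i) z ^ (N - 1 - (k - j)) * P.L (k - j) (S.f i z) * lx (S.f i) z) :=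
        fun j hj => by
          rw [Finset.mem_Icc] at hj
          exact (C0.const (S := S) (bt j)).mulI (hcx (k - j) (by omega))
      have i4 := (C0.const (S := S) (bt (k - 1))).mulI (((ga S i).c0.pow (N - 2)).mulI (iX S i))
      have h6 : m L (fun z =>
          (((N : ℝ) - k) * (la (S.f i) z ^ (N - 1 - k) * P.L k (S.f i z) * lx (S.f i) z) +
            la (S.f i) z ^ (N - 1 - (k - 1)) * P.L (k - 1) (S.f i z) * ly (S.f i) z) -
          ((∑ j ∈ Finset.Icc 2 (k - 2), bt j *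
            (la (S.f i) z ^ (N - 1 - (k - j)) * P.L (k - j) (S.f i z) * lx (S.f i) z)) +
            bt (k - 1) * (la (S.f i) z ^ (N - 2) * X S i z))) = 0 := by
        rw [← h4]
        exact congrArg (m L) (funext fun z => (h5 z).symm)
      rw [m_sub (i1.add i2) ((I1.sum _ i3).add i4), m_add i1 i2, m_add (I1.sum _ i3) i4, m_mul,
        m_mul, m_sum _ i3] at h6
      rw [T_odd S i N he (by omega), T_even S i N he', hs,
        show k - (k - 1) = 1 by omega, T_one, ← h6]
      congr 2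
      refine Finset.sum_congr rfl fun j hj => ?_
      rw [m_mul]
      by_cases hj2 : Even j
      · rw [Finset.mem_Icc] at hj
        rw [T_odd S i N (k := k - j) (fun h => he (by
          rw [Nat.even_sub (by omega)] at h
          exact h.2 hj2)) (by omega)]
      · rw [bt, if_neg hj2, zero_mul, zero_mul]
  · -- k = 2
    have hk2 : k = 2 := by omega
    subst hk2
    have hg := ((ga S i).pow (N - 2)).mul (gL2 S i)
    have h4 := hg.mean Complex.I
    have h5 : ∀ z, (la (S.f i) z ^ (N - 2) • (la (S.f i) z • il (ld (S.h i) z) -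
          la (S.h i) z • il (ld (S.f i) z)) +
        P.L 2 (S.f i z) • (((N - 2 : ℕ) : ℝ) * la (S.f i) z ^ (N - 2 - 1)) •
          rl (ld (S.f i) z)) Complex.I =
        ((N : ℝ) - (2 : ℕ)) * (la (S.f i) z ^ (N - 1 - 2) * P.L 2 (S.f i z) * ly (S.f i) z) +
          la (S.f i) z ^ (N - 2) * X S i z := by
      intro z
      rw [X]
      simp only [add_apply, sub_apply, smul_apply, smul_eq_mul, rl_I, il_I]
      linear_combination (-(P.L 2 (S.f i z) * ly (S.f i) z)) * hp z
    have i1 := (C0.const (S := S) ((N : ℝ) - (2 : ℕ))).mulI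
      ((((ga S i).c0.pow (N - 1 - 2)).mul (cL S le_rfl i)).mulI (iy S i))
    have i2 := ((ga S i).c0.pow (N - 2)).mulI (iX S i)
    have h6 : m L (fun z =>
        ((N : ℝ) - (2 : ℕ)) * (la (S.f i) z ^ (N - 1 - 2) * P.L 2 (S.f i z) * ly (S.f i) z) +
          la (S.f i) z ^ (N - 2) * X S i z) = 0 := by
      rw [← h4]
      exact congrArg (m L) (funext fun z => (h5 z).symm)
    rw [m_add i1 i2, m_mul] at h6
    rw [T_even S i N even_two, show 2 - 1 = 1 from rfl, T_one, h6]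
    simp

/-- for a single function: `mean a^r (a w_x - w a_x) = 0` (`rec_zero` with `N = r + 2`) -/
theorem mu_one (i : ι) (r : ℕ) : ∫ x in box, la (S.f i) (E L x) ^ r *
    (la (S.f i) (E L x) * lx (S.h i) (E L x) - la (S.h i) (E L x) * lx (S.f i) (E L x)) = 0 := by
  have h := rec_zero (N := r + 2) (by omega) (T S i (r + 2)) fun k h2 hk => T_rec S i h2 hk
  rw [T_one] at h
  exact h

private theorem mu_ax (i : ι) (r : ℕ) : m L (fun z => la (S.f i) z ^ r * lx (S.f i) z) = 0 := by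
  have h1 := ((ga S i).pow (r + 1)).mean 1
  have h2 : ∀ z, ((((r + 1 : ℕ) : ℝ) * la (S.f i) z ^ (r + 1 - 1)) • rl (ld (S.f i) z)) 1 =
      ((r : ℝ) + 1) * (la (S.f i) z ^ r * lx (S.f i) z) := by
    intro z
    simp only [smul_apply, smul_eq_mul, rl_one, Nat.add_sub_cancel, Nat.cast_add, Nat.cast_one]
    ring
  simp only [h2] at h1
  rw [m_mul] at h1
  exact (mul_eq_zero.1 h1).resolve_left (by positivity)

private theorem mu_wx (i : ι) (r : ℕ) : m L (fun z => la (S.f i) z ^ r * lx (S.h i) z) = 0 := by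
  rcases r with _ | r
  · have h1 := (gw S i).mean 1
    simp only [rl_one] at h1
    simp only [pow_zero, one_mul]
    exact h1
  · have h1 := (((ga S i).pow (r + 1)).mul (gw S i)).mean 1
    have h2 : ∀ z, (la (S.f i) z ^ (r + 1) • rl (ld (S.h i) z) +
        la (S.h i) z • (((r + 1 : ℕ) : ℝ) * la (S.f i) z ^ (r + 1 - 1)) • rl (ld (S.f i) z)) 1 =
        ((r : ℝ) + 2) * (la (S.f i) z ^ (r + 1) * lx (S.h i) z) -
          ((r : ℝ) + 1) * (la (S.f i) z ^ r * X S i z) := by
      intro z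
      rw [X]
      simp only [add_apply, smul_apply, smul_eq_mul, rl_one, Nat.add_sub_cancel, Nat.cast_add,
        Nat.cast_one]
      ring
    simp only [h2] at h1
    have i1 := (C0.const (S := S) ((r : ℝ) + 2)).mulI
      (((ga S i).c0.pow (r + 1)).mulI (iwx S i))
    have i2 := (C0.const (S := S) ((r : ℝ) + 1)).mulI (((ga S i).c0.pow r).mulI (iX S i))
    rw [m_sub i1 i2, m_mul, m_mul] at h1
    have h3 : m L (fun z => la (S.f i) z ^ r * X S i z) = 0 := mu_one S i r
    rw [h3, mul_zero, sub_zero] at h1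
    exact (mul_eq_zero.1 h1).resolve_left (by positivity)

/-- `mean a^r a_x = mean a^r w_x = 0` -/
theorem mu_two (i : ι) (r : ℕ) : ∫ x in box, la (S.f i) (E L x) ^ r * lx (S.f i) (E L x) = 0 ∧
    ∫ x in box, la (S.f i) (E L x) ^ r * lx (S.h i) (E L x) = 0 :=
  ⟨mu_ax S i r, mu_wx S i r⟩

/-! ### the system -/

/-- `(a - mu) w_x - (w - mu) a_x` -/
private def Xt (i : ι) (z : ℂ) : ℝ :=
  (la (S.f i) z - mu L (S.f i)) * lx (S.h i) z - (la (S.h i) z - mu L (S.h i)) * lx (S.f i) z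

private theorem iXt (i : ι) : I1 S (Xt S i) :=
  (((ga S i).c0.sub_const _).mulI (iwx S i)).sub (((gw S i).c0.sub_const _).mulI (ix S i))

private theorem m_Xt (i : ι) (r : ℕ) : m L (fun z => la (S.f i) z ^ r * Xt S i z) = 0 := by
  have h1 : ∀ z, la (S.f i) z ^ r * Xt S i z = (la (S.f i) z ^ r * X S i z +
      mu L (S.h i) * (la (S.f i) z ^ r * lx (S.f i) z)) -
      mu L (S.f i) * (la (S.f i) z ^ r * lx (S.h i) z) := by
    intro z
    rw [Xt, X]
    ring
  simp only [h1]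
  have i1 := ((ga S i).c0.pow r).mulI (iX S i)
  have i2 := (C0.const (S := S) (mu L (S.h i))).mulI (((ga S i).c0.pow r).mulI (ix S i))
  have i3 := (C0.const (S := S) (mu L (S.f i))).mulI (((ga S i).c0.pow r).mulI (iwx S i))
  rw [m_sub (i1.add i2) i3, m_add i1 i2, m_mul, m_mul, mu_ax, mu_wx]
  have h3 : m L (fun z => la (S.f i) z ^ r * X S i z) = 0 := mu_one S i r
  rw [h3]
  ring

private theorem fl_la (u : ℂ → ℂ) (z : ℂ) : fl L ![1, 0, 0, 0] u z = la u z := by
  simp [fl]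

private theorem fl_lx (u : ℂ → ℂ) (z : ℂ) : fl L ![0, 1, 0, 0] u z = lx u z := by
  simp [fl]

private theorem fl_mu (u : ℂ → ℂ) (z : ℂ) : fl L ![0, 0, 0, 1] u z = mu L u := by
  simp [fl]

private theorem fl_lt (u : ℂ → ℂ) (z : ℂ) : fl L ![1, 0, 0, -1] u z = la u z - mu L u := by
  simp [fl, sub_eq_add_neg]

private theorem prod_two (j s : ℕ) (hs : s ≤ j) (x y : ℝ) :
    ∏ t : Fin j, (if (t : ℕ) < s then x else y) = x ^ s * y ^ (j - s) := by
  rw [Fin.prod_univ_eq_prod_range (fun t => if t < s then x else y) j]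
  obtain ⟨r, rfl⟩ : ∃ r, j = s + r := ⟨j - s, by omega⟩
  rw [Finset.prod_range_add, Nat.add_sub_cancel_left]
  congr 1
  · rw [Finset.prod_congr rfl fun t ht => if_pos (Finset.mem_range.1 ht), Finset.prod_const,
      Finset.card_range]
  · rw [Finset.prod_congr rfl fun t _ => if_neg (by omega), Finset.prod_const,
      Finset.card_range]

/-- `el` with powers of `la` and `mu` -/
private theorem el' {s : ℕ} (hs : s < q) (p r a b : Fin 4 → ℝ) {z : ℂ} (hz : z ∉ S.C) :
    ∑ i, (fl L p (S.h i) z * fl L r (S.f i) z - fl L r (S.h i) z * fl L p (S.f i) z) *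
      (la (S.f i) z ^ s * mu L (S.f i) ^ (q - 1 - s)) *
      (fl L a (S.f i) z * fl L b (S.g i) z - fl L a (S.g i) z * fl L b (S.f i) z) = 0 := by
  have h := S.el (q - 1) (by omega) p r
    (fun t => if (t : ℕ) < s then ![1, 0, 0, 0] else ![0, 0, 0, 1]) a b z hz
  rw [← h]
  refine Finset.sum_congr rfl fun i _ => ?_
  congr 2
  have h1 : ∀ t : Fin (q - 1),
      fl L (if (t : ℕ) < s then ![1, 0, 0, 0] else ![0, 0, 0, 1]) (S.f i) z =
      if (t : ℕ) < s then la (S.f i) z else mu L (S.f i) := by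
    intro t
    by_cases ht : (t : ℕ) < s
    · rw [if_pos ht, if_pos ht, fl_la]
    · rw [if_neg ht, if_neg ht, fl_mu]
  rw [Finset.prod_congr rfl fun t _ => h1 t, prod_two _ _ (by omega)]

private theorem N_s {s : ℕ} (hs : s < q) : m L (fun z => ∑ i, mu L (S.f i) ^ (q - s) *
    (la (S.g i) z * (la (S.f i) z ^ s * Xt S i z))) = 0 := by
  have h1 : m L (fun z => ∑ i, mu L (S.f i) ^ (q - s) *
      (la (S.g i) z * (la (S.f i) z ^ s * Xt S i z))) =
      m L (fun z => ∑ i, (mu L (S.f i) ^ (q - 1 - s) * mu L (S.g i)) *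
        (la (S.f i) z ^ (s + 1) * Xt S i z)) := by
    refine m_congr S fun z hz => ?_
    have h2 := el' S hs ![0, 1, 0, 0] ![1, 0, 0, -1] ![0, 0, 0, 1] ![1, 0, 0, 0] hz
    simp only [fl_la, fl_lx, fl_mu, fl_lt] at h2
    rw [← sub_eq_zero, ← Finset.sum_sub_distrib, ← h2]
    refine Finset.sum_congr rfl fun i _ => ?_
    rw [show q - s = (q - 1 - s) + 1 by omega, pow_succ, Xt]
    ring
  rw [h1, m_sum Finset.univ fun i _ => (C0.const (S := S) _).mulI
    (((ga S i).c0.pow (s + 1)).mulI (iXt S i))]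
  refine Finset.sum_eq_zero fun i _ => ?_
  rw [m_mul, m_Xt, mul_zero]

private theorem N_X (hq : 1 ≤ q) : m L (fun z => ∑ i, mu L (S.f i) *
    (la (S.g i) z * (la (S.f i) z ^ (q - 1) * X S i z))) = 0 := by
  have h1 : m L (fun z => ∑ i, mu L (S.f i) *
      (la (S.g i) z * (la (S.f i) z ^ (q - 1) * X S i z))) =
      m L (fun z => ∑ i, mu L (S.g i) * (la (S.f i) z ^ q * X S i z)) := by
    refine m_congr S fun z hz => ?_
    have h2 := el' S (s := q - 1) (by omega) ![0, 1, 0, 0] ![1, 0, 0, 0] ![0, 0, 0, 1]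
      ![1, 0, 0, 0] hz
    simp only [fl_la, fl_lx, fl_mu] at h2
    rw [← sub_eq_zero, ← Finset.sum_sub_distrib, ← h2]
    refine Finset.sum_congr rfl fun i _ => ?_
    have h3 : la (S.f i) z ^ q = la (S.f i) z ^ (q - 1) * la (S.f i) z := by
      rw [← pow_succ, Nat.sub_add_cancel hq]
    rw [Nat.sub_self, pow_zero, X, h3]
    ring
  rw [h1, m_sum Finset.univ fun i _ => (C0.const (S := S) _).mulI
    (((ga S i).c0.pow q).mulI (iX S i))]
  refine Finset.sum_eq_zero fun i _ => ?_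
  have h3 : m L (fun z => la (S.f i) z ^ q * X S i z) = 0 := mu_one S i q
  rw [m_mul, h3, mul_zero]

/-- `V = 0` -/
private theorem V_zero (hq : 1 ≤ q) : m L (fun z => ∑ i, la (S.g i) z * (la (S.f i) z ^ q *
    (mu L (S.h i) * lx (S.f i) z - mu L (S.f i) * lx (S.h i) z))) = 0 := by
  have hpw : ∀ i z, la (S.f i) z ^ q = la (S.f i) z ^ (q - 1) * la (S.f i) z := fun _ _ => by
    rw [← pow_succ, Nat.sub_add_cancel hq]
  -- `W = mu(h) a - mu(f) w`
  have gW : ∀ i, G1 S (fun z => mu L (S.h i) * la (S.f i) z + -mu L (S.f i) * la (S.h i) z)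
      (fun z => mu L (S.h i) • rl (ld (S.f i) z) + (-mu L (S.f i)) • rl (ld (S.h i) z)) :=
    fun i => ((ga S i).const_mul _).add ((gw S i).const_mul _)
  set V := m L (fun z => ∑ i, la (S.g i) z * (la (S.f i) z ^ q *
    (mu L (S.h i) * lx (S.f i) z - mu L (S.f i) * lx (S.h i) z))) with hV
  set V' := m L (fun z => ∑ i, la (S.g i) z * (la (S.f i) z ^ (q - 1) *
    ((mu L (S.h i) * la (S.f i) z + -mu L (S.f i) * la (S.h i) z) * lx (S.f i) z))) with hV'
  have iV' : ∀ i ∈ (Finset.univ : Finset ι), I1 S fun z => la (S.g i) z *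
      (la (S.f i) z ^ (q - 1) * ((mu L (S.h i) * la (S.f i) z + -mu L (S.f i) * la (S.h i) z) *
        lx (S.f i) z)) := fun i _ =>
    (gb S i).c0.mulI (((ga S i).c0.pow _).mulI ((gW i).c0.mulI (ix S i)))
  have iN : ∀ i ∈ (Finset.univ : Finset ι), I1 S fun z => mu L (S.f i) *
      (la (S.g i) z * (la (S.f i) z ^ (q - 1) * X S i z)) := fun i _ =>
    (C0.const (S := S) _).mulI ((gb S i).c0.mulI (((ga S i).c0.pow _).mulI (iX S i)))
  have iV : ∀ i ∈ (Finset.univ : Finset ι), I1 S fun z => la (S.g i) z * (la (S.f i) z ^ q *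
      (mu L (S.h i) * lx (S.f i) z - mu L (S.f i) * lx (S.h i) z)) := fun i _ =>
    (gb S i).c0.mulI (((ga S i).c0.pow _).mulI
      (((C0.const (S := S) _).mulI (ix S i)).sub ((C0.const (S := S) _).mulI (iwx S i))))
  have h1 : V = V' := by
    have h2 : V = m L (fun z => (∑ i, la (S.g i) z * (la (S.f i) z ^ (q - 1) *
        ((mu L (S.h i) * la (S.f i) z + -mu L (S.f i) * la (S.h i) z) * lx (S.f i) z))) -
        ∑ i, mu L (S.f i) * (la (S.g i) z * (la (S.f i) z ^ (q - 1) * X S i z))) := by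
      rw [hV]
      refine congrArg (m L) (funext fun z => ?_)
      rw [← Finset.sum_sub_distrib]
      refine Finset.sum_congr rfl fun i _ => ?_
      rw [hpw, X]
      ring
    rw [h2, m_sub (I1.sum _ iV') (I1.sum _ iN), N_X S hq, sub_zero]
  have h3 := (G1.sum (S := S) Finset.univ fun i (_ : i ∈ Finset.univ) =>
    ((gW i).mul ((ga S i).pow q)).mul (gb S i)).mean 1
  have i5 : ∀ i ∈ (Finset.univ : Finset ι), I1 S fun z =>
      (mu L (S.h i) * la (S.f i) z + -mu L (S.f i) * la (S.h i) z) *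
        (la (S.f i) z ^ q * lx (S.g i) z) := fun i _ =>
    (gW i).c0.mulI (((ga S i).c0.pow _).mulI (ibx S i))
  have h4 : V + q * V' + m L (fun z => ∑ i,
      (mu L (S.h i) * la (S.f i) z + -mu L (S.f i) * la (S.h i) z) *
        (la (S.f i) z ^ q * lx (S.g i) z)) = 0 := by
    rw [← h3, hV, hV', ← m_mul, ← m_add (I1.sum _ iV) ((C0.const (S := S) _).mulI (I1.sum _ iV')),
      ← m_add ((I1.sum _ iV).add ((C0.const (S := S) _).mulI (I1.sum _ iV'))) (I1.sum _ i5)]
    refine congrArg (m L) (funext fun z => ?_)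
    rw [Finset.mul_sum, ← Finset.sum_add_distrib, ← Finset.sum_add_distrib,
      sum_apply]
    refine Finset.sum_congr rfl fun i _ => ?_
    simp only [add_apply, smul_apply, smul_eq_mul, rl_one]
    ring
  have h5 : m L (fun z => ∑ i,
      (mu L (S.h i) * la (S.f i) z + -mu L (S.f i) * la (S.h i) z) *
        (la (S.f i) z ^ q * lx (S.g i) z)) = V' := by
    rw [hV']
    refine m_congr S fun z hz => ?_
    have h6 := el' S (s := q - 1) (by omega) ![0, 0, 0, 1] ![1, 0, 0, 0] ![1, 0, 0, 0]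
      ![0, 1, 0, 0] hz
    simp only [fl_la, fl_lx, fl_mu] at h6
    rw [← sub_eq_zero, ← Finset.sum_sub_distrib, ← h6]
    refine Finset.sum_congr rfl fun i _ => ?_
    rw [Nat.sub_self, pow_zero, hpw]
    ring
  rw [h5, ← h1] at h4
  have h7 : ((q : ℝ) + 2) * V = 0 := by linear_combination h4
  exact (mul_eq_zero.1 h7).resolve_left (by positivity)

theorem mean_tl (hq2 : 2 ≤ q) :
    ∫ x in box, ∑ i, (la (S.g i) (E L x) - mu L (S.g i)) *
      (la (S.f i) (E L x) - mu L (S.f i)) ^ q *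
      ((la (S.f i) (E L x) - mu L (S.f i)) * lx (S.h i) (E L x) -
        (la (S.h i) (E L x) - mu L (S.h i)) * lx (S.f i) (E L x)) =
      ∫ x in box, I0 S (E L x) := by
  show m L (fun z => ∑ i, (la (S.g i) z - mu L (S.g i)) * (la (S.f i) z - mu L (S.f i)) ^ q *
    Xt S i z) = m L (I0 S)
  -- the coefficients
  have hb : ∀ i z, (la (S.f i) z - mu L (S.f i)) ^ q = la (S.f i) z ^ q +
      ∑ s ∈ Finset.range q, ((q.choose s : ℝ) * (-1) ^ (q - s)) *
        (mu L (S.f i) ^ (q - s) * la (S.f i) z ^ s) := by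
    intro i z
    rw [sub_eq_add_neg, add_pow, Finset.sum_range_succ, Nat.sub_self, pow_zero, Nat.choose_self,
      Nat.cast_one, mul_one, mul_one, add_comm]
    congr 1
    refine Finset.sum_congr rfl fun s _ => ?_
    rw [neg_pow (mu L (S.f i))]
    ring
  have h1 : ∀ z, ∑ i, (la (S.g i) z - mu L (S.g i)) * (la (S.f i) z - mu L (S.f i)) ^ q *
      Xt S i z = (I0 S z + ∑ i, la (S.g i) z * (la (S.f i) z ^ q *
        (mu L (S.h i) * lx (S.f i) z - mu L (S.f i) * lx (S.h i) z))) +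
      (∑ s ∈ Finset.range q, ((q.choose s : ℝ) * (-1) ^ (q - s)) *
        ∑ i, mu L (S.f i) ^ (q - s) * (la (S.g i) z * (la (S.f i) z ^ s * Xt S i z))) -
      ∑ i, mu L (S.g i) * (la (S.f i) z ^ q * Xt S i z + ∑ s ∈ Finset.range q,
        ((q.choose s : ℝ) * (-1) ^ (q - s) * mu L (S.f i) ^ (q - s)) *
          (la (S.f i) z ^ s * Xt S i z)) := by
    intro z
    have e1 : ∑ s ∈ Finset.range q, ((q.choose s : ℝ) * (-1) ^ (q - s)) *
        ∑ i, mu L (S.f i) ^ (q - s) * (la (S.g i) z * (la (S.f i) z ^ s * Xt S i z)) =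
        ∑ i, ∑ s ∈ Finset.range q, ((q.choose s : ℝ) * (-1) ^ (q - s)) *
          (mu L (S.f i) ^ (q - s) * (la (S.g i) z * (la (S.f i) z ^ s * Xt S i z))) := by
      rw [Finset.sum_comm]
      refine Finset.sum_congr rfl fun s _ => ?_
      rw [Finset.mul_sum]
    rw [e1, I0, ← Finset.sum_add_distrib, ← Finset.sum_add_distrib, ← Finset.sum_sub_distrib]
    refine Finset.sum_congr rfl fun i _ => ?_
    have e2 : ∑ s ∈ Finset.range q, ((q.choose s : ℝ) * (-1) ^ (q - s)) *
        (mu L (S.f i) ^ (q - s) * (la (S.g i) z * (la (S.f i) z ^ s * Xt S i z))) =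
        la (S.g i) z * Xt S i z * ∑ s ∈ Finset.range q, ((q.choose s : ℝ) * (-1) ^ (q - s)) *
          (mu L (S.f i) ^ (q - s) * la (S.f i) z ^ s) := by
      rw [Finset.mul_sum]
      exact Finset.sum_congr rfl fun s _ => by ring
    have e3 : ∑ s ∈ Finset.range q, ((q.choose s : ℝ) * (-1) ^ (q - s) *
        mu L (S.f i) ^ (q - s)) * (la (S.f i) z ^ s * Xt S i z) =
        Xt S i z * ∑ s ∈ Finset.range q, ((q.choose s : ℝ) * (-1) ^ (q - s)) *
          (mu L (S.f i) ^ (q - s) * la (S.f i) z ^ s) := by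
      rw [Finset.mul_sum]
      exact Finset.sum_congr rfl fun s _ => by ring
    rw [e2, e3, hb, Xt]
    ring
  simp only [h1]
  have iI0 : I1 S (I0 S) := by
    have : I1 S fun z => ∑ i, la (S.g i) z * la (S.f i) z ^ q * X S i z :=
      I1.sum _ fun i _ => ((gb S i).c0.mul ((ga S i).c0.pow q)).mulI (iX S i)
    exact this
  have iV : I1 S fun z => ∑ i, la (S.g i) z * (la (S.f i) z ^ q *
      (mu L (S.h i) * lx (S.f i) z - mu L (S.f i) * lx (S.h i) z)) :=
    I1.sum _ fun i _ => (gb S i).c0.mulI (((ga S i).c0.pow _).mulI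
      (((C0.const (S := S) _).mulI (ix S i)).sub ((C0.const (S := S) _).mulI (iwx S i))))
  have iNs : ∀ s ∈ Finset.range q, I1 S fun z => ((q.choose s : ℝ) * (-1) ^ (q - s)) *
      ∑ i, mu L (S.f i) ^ (q - s) * (la (S.g i) z * (la (S.f i) z ^ s * Xt S i z)) :=
    fun s _ => (C0.const (S := S) _).mulI (I1.sum _ fun i _ => (C0.const (S := S) _).mulI
      ((gb S i).c0.mulI (((ga S i).c0.pow _).mulI (iXt S i))))
  have iMs : ∀ i, ∀ s ∈ Finset.range q, I1 S fun z => ((q.choose s : ℝ) * (-1) ^ (q - s) *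
      mu L (S.f i) ^ (q - s)) * (la (S.f i) z ^ s * Xt S i z) := fun i s _ =>
    (C0.const (S := S) _).mulI (((ga S i).c0.pow _).mulI (iXt S i))
  have iM : ∀ i ∈ (Finset.univ : Finset ι), I1 S fun z => mu L (S.g i) *
      (la (S.f i) z ^ q * Xt S i z + ∑ s ∈ Finset.range q,
        ((q.choose s : ℝ) * (-1) ^ (q - s) * mu L (S.f i) ^ (q - s)) *
          (la (S.f i) z ^ s * Xt S i z)) := fun i _ =>
    (C0.const (S := S) _).mulI ((((ga S i).c0.pow _).mulI (iXt S i)).add (I1.sum _ (iMs i)))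
  rw [m_sub ((iI0.add iV).add (I1.sum _ iNs)) (I1.sum _ iM), m_add (iI0.add iV) (I1.sum _ iNs),
    m_add iI0 iV, V_zero S (by omega), m_sum _ iNs, m_sum _ iM]
  have z1 : ∑ s ∈ Finset.range q, m L (fun z => ((q.choose s : ℝ) * (-1) ^ (q - s)) *
      ∑ i, mu L (S.f i) ^ (q - s) * (la (S.g i) z * (la (S.f i) z ^ s * Xt S i z))) = 0 :=
    Finset.sum_eq_zero fun s hs => by rw [m_mul, N_s S (Finset.mem_range.1 hs), mul_zero]
  have z2 : ∑ i, m L (fun z => mu L (S.g i) * (la (S.f i) z ^ q * Xt S i z +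
      ∑ s ∈ Finset.range q, ((q.choose s : ℝ) * (-1) ^ (q - s) * mu L (S.f i) ^ (q - s)) *
          (la (S.f i) z ^ s * Xt S i z))) = 0 := by
    refine Finset.sum_eq_zero fun i _ => ?_
    rw [m_mul, m_add (((ga S i).c0.pow _).mulI (iXt S i)) (I1.sum _ (iMs i)), m_Xt,
      m_sum _ (iMs i), Finset.sum_eq_zero fun s _ => by rw [m_mul, m_Xt, mul_zero]]
    ring
  rw [z1, z2]
  ring

end Pool.Agent.F194.Y

end
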