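import Pool.Agent.Work.MP_f194bb_nt.Y.Base

/-!
# MP_f194bb_nt, odd n: Bernoulli numbers
-/

set_option autoImplicit false

open scoped ComplexConjugate PeriodPair
open MeasureTheory Filter Topology

noncomputable section

namespace Pool.Agent.F194.Y

/-- `2^m B_m / m!` (also for odd `m`; `fb 1 = -1`) -/
def fb (m : ℕ) : ℝ := 2 ^ m * ((bernoulli m : ℚ) : ℝ) / (m.factorial : ℝ)

theorem bt_two : bt 2 = 1 / 3 := by
  unfold bt
  rw [if_pos (by decide), bernoulli_two]
  norm_num [Nat.factorial]

theorem bt_odd {i : ℕ} (h : ¬ Even i) : bt i = 0 := by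
  unfold bt
  rw [if_neg h]

theorem ee_odd {i : ℕ} (h : ¬ Even i) : ee i = 0 := by
  unfold ee
  rw [if_neg h]

theorem fb_even {i : ℕ} (h : Even i) : fb i = bt i := by
  unfold fb bt
  rw [if_pos h]

/-! ### generating series -/

/-- `x coth x - x` -/
def FB : PowerSeries ℝ := PowerSeries.mk fb

/-- `x coth x - 1` -/
def BT : PowerSeries ℝ := PowerSeries.mk fun i => if 2 ≤ i then bt i else 0

/-- `sinh x / x` -/
def EE : PowerSeries ℝ := PowerSeries.mk ee

/-- `exp (-x)` -/
def nx : PowerSeries ℝ := PowerSeries.mk fun m => (-1) ^ m / (m.factorial : ℝ)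

theorem coeff_ex (m : ℕ) : PowerSeries.coeff m (PowerSeries.exp ℝ) = 1 / (m.factorial : ℝ) := by
  rw [PowerSeries.coeff_exp]
  simp

theorem ex_nx : PowerSeries.exp ℝ * nx = 1 := by
  have h := PowerSeries.exp_mul_exp_neg_eq_one (A := ℝ)
  have h1 : PowerSeries.evalNegHom (PowerSeries.exp ℝ) = nx := by
    ext m
    rw [PowerSeries.evalNegHom, PowerSeries.coeff_rescale, coeff_ex, nx, PowerSeries.coeff_mk]
    ring
  rw [h1] at h
  exact h

theorem nx_deriv : PowerSeries.derivative ℝ nx = -nx := by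
  ext m
  rw [PowerSeries.coeff_derivative, map_neg, nx, PowerSeries.coeff_mk, PowerSeries.coeff_mk,
    Nat.factorial_succ]
  push_cast
  have h1 : (m.factorial : ℝ) ≠ 0 := by exact_mod_cast m.factorial_ne_zero
  have h2 : ((m : ℝ) + 1) ≠ 0 := by positivity
  rw [pow_succ]
  field_simp

theorem FB_mul : FB * (PowerSeries.exp ℝ * PowerSeries.exp ℝ - 1) = 2 * PowerSeries.X := by
  have h := congrArg (PowerSeries.rescale (2 : ℝ))
    (bernoulliPowerSeries_mul_exp_sub_one (A := ℝ))
  rw [map_mul, map_sub, map_one, PowerSeries.rescale_X] at h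
  have h1 : PowerSeries.rescale (2 : ℝ) (bernoulliPowerSeries ℝ) = FB := by
    ext m
    rw [PowerSeries.coeff_rescale, bernoulliPowerSeries, PowerSeries.coeff_mk, FB,
      PowerSeries.coeff_mk, fb]
    simp only [map_div₀, eq_ratCast, map_natCast]
    ring
  have h2 := PowerSeries.exp_pow_eq_rescale_exp (A := ℝ) 2
  have h3 : ((2 : ℕ) : ℝ) = 2 := by norm_num
  rw [h3] at h2
  rw [h1, ← h2, pow_two] at h
  rw [h]
  congr 1

theorem X_deriv (f : PowerSeries ℝ) (m : ℕ) :
    PowerSeries.coeff m (PowerSeries.X * PowerSeries.derivative ℝ f) =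
      (m : ℝ) * PowerSeries.coeff m f := by
  cases m with
  | zero => simp
  | succ m =>
    rw [PowerSeries.coeff_succ_X_mul, PowerSeries.coeff_derivative]
    push_cast
    ring

theorem BT_eq : BT = FB + PowerSeries.X - 1 := by
  ext m
  rw [map_sub, map_add, BT, FB, PowerSeries.coeff_mk, PowerSeries.coeff_mk]
  rcases Nat.lt_or_ge m 2 with h | h
  · rw [if_neg (by omega)]
    interval_cases m
    · rw [PowerSeries.coeff_zero_X, PowerSeries.coeff_zero_one]
      unfold fb
      rw [bernoulli_zero]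
      norm_num
    · rw [PowerSeries.coeff_one_X, PowerSeries.coeff_one, if_neg (by decide)]
      unfold fb
      rw [bernoulli_one]
      norm_num
  · rw [if_pos h, PowerSeries.coeff_X, if_neg (by omega), PowerSeries.coeff_one,
      if_neg (by omega)]
    by_cases he : Even m
    · rw [fb_even he]
      ring
    · rw [bt_odd he]
      unfold fb
      rw [bernoulli_eq_zero_of_odd (Nat.not_even_iff_odd.1 he) (by omega)]
      norm_num

theorem ex_sq_ne : PowerSeries.exp ℝ * PowerSeries.exp ℝ - 1 ≠ 0 := by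
  intro h
  have h1 := FB_mul
  rw [h, mul_zero] at h1
  have h2 := congrArg (PowerSeries.coeff 1) h1
  rw [map_zero] at h2
  have h3 : PowerSeries.coeff 1 (2 * PowerSeries.X : PowerSeries ℝ) = 2 := by
    have : (2 : PowerSeries ℝ) = PowerSeries.C (2 : ℝ) := (map_ofNat _ 2).symm
    rw [this, PowerSeries.coeff_C_mul, PowerSeries.coeff_one_X]
    norm_num
  rw [h3] at h2
  norm_num at h2

theorem FB_ode : PowerSeries.X * PowerSeries.derivative ℝ FB = -(PowerSeries.X * FB) - BT * FB := by
  have h := FB_mul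
  have h1 := congrArg (PowerSeries.derivative ℝ) h
  rw [Derivation.leibniz, map_sub, Derivation.leibniz, PowerSeries.derivative_exp,
    Derivation.map_one_eq_zero, Derivation.leibniz, PowerSeries.derivative_X] at h1
  have h2 : PowerSeries.derivative ℝ (2 : PowerSeries ℝ) = 0 := by
    have : (2 : PowerSeries ℝ) = PowerSeries.C (2 : ℝ) := (map_ofNat _ 2).symm
    rw [this, PowerSeries.derivative_C]
  rw [h2] at h1
  simp only [smul_eq_mul] at h1
  refine mul_right_cancel₀ ex_sq_ne ?_
  rw [BT_eq]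
  linear_combination PowerSeries.X * h1 + (FB - 1) * h

theorem EE_X : 2 * (PowerSeries.X * EE) = PowerSeries.exp ℝ - nx := by
  have e2 : (2 : PowerSeries ℝ) = PowerSeries.C (2 : ℝ) := (map_ofNat _ 2).symm
  ext m
  rw [e2, PowerSeries.coeff_C_mul, map_sub, coeff_ex, nx, PowerSeries.coeff_mk]
  cases m with
  | zero => simp
  | succ m =>
    rw [PowerSeries.coeff_succ_X_mul, EE, PowerSeries.coeff_mk]
    unfold ee
    by_cases he : Even m
    · rw [if_pos he, pow_succ, he.neg_one_pow]
      ring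
    · rw [if_neg he, pow_succ, (Nat.not_even_iff_odd.1 he).neg_one_pow]
      ring

theorem EE_ode : PowerSeries.X * PowerSeries.derivative ℝ EE = BT * EE := by
  have h := EE_X
  have h1 := congrArg (PowerSeries.derivative ℝ) h
  have e2 : PowerSeries.derivative ℝ (2 : PowerSeries ℝ) = 0 := by
    have : (2 : PowerSeries ℝ) = PowerSeries.C (2 : ℝ) := (map_ofNat _ 2).symm
    rw [this, PowerSeries.derivative_C]
  rw [Derivation.leibniz, Derivation.leibniz, map_sub, nx_deriv, PowerSeries.derivative_exp,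
    PowerSeries.derivative_X, e2] at h1
  simp only [smul_eq_mul] at h1
  have h2 := FB_mul
  have h3 := ex_nx
  have hX : (2 * PowerSeries.X : PowerSeries ℝ) ≠ 0 := by
    intro h
    have h4 := congrArg (PowerSeries.coeff 1) h
    rw [map_zero] at h4
    have h5 : PowerSeries.coeff 1 (2 * PowerSeries.X : PowerSeries ℝ) = 2 := by
      have : (2 : PowerSeries ℝ) = PowerSeries.C (2 : ℝ) := (map_ofNat _ 2).symm
      rw [this, PowerSeries.coeff_C_mul, PowerSeries.coeff_one_X]
      norm_num
    rw [h5] at h4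
    norm_num at h4
  refine mul_left_cancel₀ hX ?_
  -- `(FB + X) (ex - nx) = X (ex + nx)`
  have h6 : (FB + PowerSeries.X) * (PowerSeries.exp ℝ - nx) =
      PowerSeries.X * (PowerSeries.exp ℝ + nx) := by
    linear_combination nx * h2 - FB * PowerSeries.exp ℝ * h3
  rw [BT_eq]
  linear_combination PowerSeries.X * h1 - h6 - (FB + PowerSeries.X) * h

theorem coeff_BT_mul (f : ℕ → ℝ) (J : ℕ) :
    PowerSeries.coeff J (BT * PowerSeries.mk f) = ∑ i ∈ Finset.Icc 2 J, bt i * f (J - i) := by
  rw [PowerSeries.coeff_mul, Finset.Nat.sum_antidiagonal_eq_sum_range_succ_mk]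
  have h1 : Finset.Icc 2 J = (Finset.range J.succ).filter fun i => 2 ≤ i := by
    ext i
    rw [Finset.mem_Icc, Finset.mem_filter, Finset.mem_range]
    omega
  rw [h1, Finset.sum_filter]
  refine Finset.sum_congr rfl fun i _ => ?_
  simp only [BT, PowerSeries.coeff_mk]
  split_ifs
  · rfl
  · rw [zero_mul]

/-- `x e' = (x coth x - 1) e` for `e = sinh x / x` -/
theorem ee_rec (J : ℕ) : (J : ℝ) * ee J = ∑ i ∈ Finset.Icc 2 J, bt i * ee (J - i) := by
  have h := congrArg (PowerSeries.coeff J) EE_ode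
  rw [X_deriv] at h
  unfold EE at h
  rw [coeff_BT_mul, PowerSeries.coeff_mk] at h
  exact h

/-- for `B = x coth x - x`: `x B' + x B + (x coth x - 1) B = 0` -/
theorem fb_rec (m : ℕ) (hm : 1 ≤ m) :
    (m : ℝ) * fb m + fb (m - 1) + ∑ i ∈ Finset.Icc 2 m, bt i * fb (m - i) = 0 := by
  have h := congrArg (PowerSeries.coeff m) FB_ode
  rw [X_deriv, map_sub, map_neg] at h
  unfold FB at h
  rw [coeff_BT_mul, PowerSeries.coeff_mk] at h
  obtain ⟨k, rfl⟩ : ∃ k, m = k + 1 := ⟨m - 1, by omega⟩
  rw [PowerSeries.coeff_succ_X_mul, PowerSeries.coeff_mk] at h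
  rw [Nat.add_sub_cancel]
  linarith

/-- the constant of the closed form: `n r_n = e_{n-3}` -/
theorem rr_eq {q : ℕ} (hq : Even q) : ((q : ℝ) + 3) * rr q = ee q := by
  unfold rr ee
  rw [if_pos hq, Nat.factorial_succ (q + 2), Nat.factorial_succ (q + 1)]
  have h1 : ((q + 1).factorial : ℝ) ≠ 0 := by exact_mod_cast (q + 1).factorial_ne_zero
  push_cast
  have h2 : (q : ℝ) + 2 + 1 ≠ 0 := by positivity
  have h3 : (q : ℝ) + 1 + 1 ≠ 0 := by positivity
  field_simp
  ring

end Pool.Agent.F194.Y

end
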