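import Pool.Agent.Work.MP_f194bb_nt.Y.SymR

/-!
# MP_f194bb_nt, odd n: the path argument
-/

set_option autoImplicit false

open scoped ComplexConjugate PeriodPair
open MeasureTheory Filter Topology

noncomputable section

namespace Pool.Agent.F194.Y

universe u

open Polynomial in
/-- evaluation of `f ∈ P¹(F(t))` at `l ∈ ℂ` -/
def evC {F : Type u} [Field F] (p : F →+* ℂ) (l : ℂ) : Option (RatFunc F) → Option ℂ
  | none => none
  | some f => open Classical in if (f.denom.map p).eval l = 0 then none else
      some ((f.num.map p).eval l / (f.denom.map p).eval l)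

open Polynomial in
/-- `l` is transcendental over `p(F)` -/
def Gen {F : Type u} [Field F] (p : F →+* ℂ) (l : ℂ) : Prop :=
  ∀ r : F[X], r ≠ 0 → (r.map p).eval l ≠ 0

theorem gen_dense {F : Type u} [Field F] [Countable F] (p : F →+* ℂ) :
    Dense {l : ℂ | Gen p l} := by
  have hc : Countable (Polynomial F) := by
    have h : Function.Injective (fun r : Polynomial F =>
        (Finsupp.onFinset r.support r.coeff
          (fun n hn => Polynomial.mem_support_iff.2 hn) : ℕ →₀ F)) := by
      intro r s hrs
      ext n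
      have := DFunLike.congr_fun hrs n
      simpa using this
    exact h.countable
  have h1 : {l : ℂ | Gen p l} =
      (⋃ r : Polynomial F, {l : ℂ | r ≠ 0 ∧ (r.map p).eval l = 0})ᶜ := by
    ext l
    simp only [Set.mem_setOf_eq, Set.mem_compl_iff, Set.mem_iUnion, not_exists, not_and]
    rfl
  rw [h1]
  refine Set.Countable.dense_compl ℝ (Set.countable_iUnion fun r => ?_)
  by_cases hr : r = 0
  · have : {l : ℂ | r ≠ 0 ∧ (r.map p).eval l = 0} = ∅ := by
      ext l
      simp [hr]
    rw [this]
    exact Set.countable_empty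
  · have hr' : r.map p ≠ 0 := (Polynomial.map_ne_zero_iff p.injective).2 hr
    refine Set.Finite.countable (((r.map p).roots.toFinset.finite_toSet).subset ?_)
    rintro l ⟨_, hl⟩
    simp only [Finset.mem_coe, Multiset.mem_toFinset, Polynomial.mem_roots hr']
    exact hl

private theorem exists_hom {F : Type u} [Field F] (p : F →+* ℂ) {l : ℂ} (hl : Gen p l) :
    ∃ e : RatFunc F →+* ℂ, ∀ f : RatFunc F,
      e f = (f.num.map p).eval l / (f.denom.map p).eval l := by
  have h0 : nonZeroDivisors (Polynomial F) ≤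
      (nonZeroDivisors ℂ).comap (Polynomial.eval₂RingHom p l) := by
    intro r hr
    rw [Submonoid.mem_comap, mem_nonZeroDivisors_iff_ne_zero, Polynomial.coe_eval₂RingHom,
      ← Polynomial.eval_map]
    exact hl r (nonZeroDivisors.ne_zero hr)
  refine ⟨RatFunc.liftRingHom (Polynomial.eval₂RingHom p l) h0, fun f => ?_⟩
  rw [RatFunc.liftRingHom_apply, Polynomial.coe_eval₂RingHom, ← Polynomial.eval_map,
    ← Polynomial.eval_map]

/-- for generic `l`, evaluation is an embedding `F(t) → ℂ` -/
theorem gen_hom {F : Type u} [Field F] (p : F →+* ℂ) {l : ℂ} (hl : Gen p l) :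
    ∃ e : RatFunc F →+* ℂ, (∀ x : Option (RatFunc F), evC p l x = x.map e) ∧
      (∀ c : F, e (RatFunc.C c) = p c) := by
  obtain ⟨e, he⟩ := exists_hom p hl
  refine ⟨e, ?_, ?_⟩
  · intro x
    cases x with
    | none => rfl
    | some f =>
      have h1 : (f.denom.map p).eval l ≠ 0 := hl _ (RatFunc.denom_ne_zero f)
      rw [evC, if_neg h1, Option.map_some, he]
  · intro c
    rw [he, RatFunc.num_C, RatFunc.denom_C]
    simp

theorem evC_const {F : Type u} [Field F] (p : F →+* ℂ) (t : F) (x : Option (RatFunc F)) :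
    evC p (p t) x = (evalAt t x).map p := by
  cases x with
  | none => rfl
  | some f =>
    have h1 : ∀ r : Polynomial F, (r.map p).eval (p t) = p (r.eval t) := by
      intro r
      rw [Polynomial.eval_map, Polynomial.eval₂_at_apply]
    by_cases h : f.denom.eval t = 0
    · have h2 : (f.denom.map p).eval (p t) = 0 := by rw [h1, h, map_zero]
      rw [evC, if_pos h2, evalAt, if_pos h]
      rfl
    · have h2 : (f.denom.map p).eval (p t) ≠ 0 := by
        rw [h1]
        exact fun h3 => h ((map_eq_zero p).1 h3)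
      rw [evC, if_neg h2, evalAt, if_neg h, Option.map_some, h1, h1, map_div₀]

/-- `∑ n_i L_k(f_i(l))` -/
def GG (P : PLs) (k : ℕ) {F : Type u} [Field F] (p : F →+* ℂ)
    (α : FreeAbelianGroup (Option (RatFunc F))) (l : ℂ) : ℝ :=
  FreeAbelianGroup.lift (fun x => vL P k (evC p l x)) α

private theorem cop {F : Type u} [Field F] (p : F →+* ℂ) (f : RatFunc F) (w : ℂ)
    (h : (f.denom.map p).eval w = 0) : (f.num.map p).eval w ≠ 0 := by
  intro h'
  obtain ⟨a, b, hab⟩ := RatFunc.isCoprime_num_denom f
  have h2 := congrArg (fun r : Polynomial F => (r.map p).eval w) hab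
  simp only [Polynomial.map_add, Polynomial.map_mul, Polynomial.eval_add, Polynomial.eval_mul,
    Polynomial.map_one, Polynomial.eval_one, h, h', mul_zero, add_zero] at h2
  exact zero_ne_one h2

private theorem evC_ev {F : Type u} [Field F] (p : F →+* ℂ) (f : RatFunc F) {l : ℂ}
    (h : (f.denom.map p).eval l ≠ 0) : ∀ᶠ w in 𝓝 l, evC p w (some f) =
      some ((f.num.map p).eval w / (f.denom.map p).eval w) := by
  have h1 : ∀ᶠ w in 𝓝 l, (f.denom.map p).eval w ≠ 0 :=
    (Polynomial.continuous _).continuousAt.eventually_ne h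
  filter_upwards [h1] with w hw
  rw [evC, if_neg hw]

private theorem cont_one (P : PLs) {k : ℕ} (hk : 2 ≤ k) {F : Type u} [Field F] (p : F →+* ℂ)
    (x : Option (RatFunc F)) : Continuous (fun w => vL P k (evC p w x)) := by
  cases x with
  | none => exact continuous_const
  | some f =>
    rw [continuous_iff_continuousAt]
    intro l
    by_cases hl : (f.denom.map p).eval l = 0
    · have hn := cop p f l hl
      have hv : vL P k (evC p l (some f)) = 0 := by
        rw [evC, if_pos hl]
        rfl
      rw [ContinuousAt, hv]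
      have hb : ∀ w, (vL P k (evC p w (some f))) ^ 2 * ‖(f.num.map p).eval w‖ ≤
          P.C k * ‖(f.denom.map p).eval w‖ := by
        intro w
        by_cases hw : (f.denom.map p).eval w = 0
        · have : vL P k (evC p w (some f)) = 0 := by
            rw [evC, if_pos hw]
            rfl
          rw [this, hw]
          simp
        · have h1 : vL P k (evC p w (some f)) =
              P.L k ((f.num.map p).eval w / (f.denom.map p).eval w) := by
            rw [evC, if_neg hw]
            rfl
          rw [h1]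
          have h2 := P.bi k ((f.num.map p).eval w / (f.denom.map p).eval w)
          have h3 : 0 < ‖(f.denom.map p).eval w‖ := norm_pos_iff.2 hw
          rw [norm_div, ← mul_div_assoc, div_le_iff₀ h3] at h2
          exact h2
      have hcn : Tendsto (fun w => ‖(f.num.map p).eval w‖) (𝓝 l) (𝓝 ‖(f.num.map p).eval l‖) :=
        (Polynomial.continuous _).norm.continuousAt
      have hcd : Tendsto (fun w => ‖(f.denom.map p).eval w‖) (𝓝 l) (𝓝 0) := by
        have : Tendsto (fun w => ‖(f.denom.map p).eval w‖) (𝓝 l) (𝓝 ‖(f.denom.map p).eval l‖) :=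
          (Polynomial.continuous _).norm.continuousAt
        rwa [hl, norm_zero] at this
      have hpos : ∀ᶠ w in 𝓝 l, 0 < ‖(f.num.map p).eval w‖ :=
        hcn.eventually (lt_mem_nhds (norm_pos_iff.2 hn))
      have h1 : Tendsto (fun w => P.C k * ‖(f.denom.map p).eval w‖ / ‖(f.num.map p).eval w‖)
          (𝓝 l) (𝓝 0) := by
        have := (hcd.const_mul (P.C k)).div hcn (norm_ne_zero_iff.2 hn)
        rw [mul_zero, zero_div] at this
        exact this
      have h2 : Tendsto (fun w => (vL P k (evC p w (some f))) ^ 2) (𝓝 l) (𝓝 0) := by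
        refine tendsto_of_tendsto_of_tendsto_of_le_of_le' tendsto_const_nhds h1
          (Eventually.of_forall fun w => sq_nonneg _) ?_
        filter_upwards [hpos] with w hw
        rw [le_div_iff₀ hw]
        exact hb w
      have h3 : Tendsto (fun w => Real.sqrt ((vL P k (evC p w (some f))) ^ 2)) (𝓝 l)
          (𝓝 (Real.sqrt 0)) := (Real.continuous_sqrt.tendsto 0).comp h2
      rw [Real.sqrt_zero] at h3
      simp only [Real.sqrt_sq_eq_abs] at h3
      exact (tendsto_zero_iff_abs_tendsto_zero _).2 h3
    · have h1 : ContinuousAt (fun w => P.L k ((f.num.map p).eval w / (f.denom.map p).eval w)) l :=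
        (P.cont k hk).continuousAt.comp (f := fun w => (f.num.map p).eval w /
          (f.denom.map p).eval w) (((Polynomial.continuous _).continuousAt).div
            ((Polynomial.continuous _).continuousAt) hl)
      refine h1.congr ?_
      filter_upwards [evC_ev p f hl] with w hw
      rw [hw]
      rfl

theorem GG_cont (P : PLs) {k : ℕ} (hk : 2 ≤ k) {F : Type u} [Field F] (p : F →+* ℂ)
    (α : FreeAbelianGroup (Option (RatFunc F))) : Continuous (GG P k p α) := by
  induction α using FreeAbelianGroup.induction_on with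
  | zero =>
    have : GG P k p (0 : FreeAbelianGroup (Option (RatFunc F))) = fun _ => 0 := by
      funext l
      exact map_zero _
    rw [this]
    exact continuous_const
  | of x =>
    have : GG P k p (FreeAbelianGroup.of x) = fun w => vL P k (evC p w x) := by
      funext l
      exact FreeAbelianGroup.lift_apply_of _ _
    rw [this]
    exact cont_one P hk p x
  | neg x h =>
    have : GG P k p (-FreeAbelianGroup.of x) = fun w => -GG P k p (FreeAbelianGroup.of x) w := by
      funext l
      exact map_neg _ _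
    rw [this]
    exact h.neg
  | add x y hx hy =>
    have : GG P k p (x + y) = fun w => GG P k p x w + GG P k p y w := by
      funext l
      exact map_add _ _ _
    rw [this]
    exact hx.add hy

private theorem il_zero : il 0 = 0 := by
  ext1 h
  simp

private theorem rl_zero : rl 0 = 0 := by
  ext1 h
  simp

private theorem il_cont : Continuous il :=
  continuous_const.clm_comp (ContinuousLinearMap.mul ℝ ℂ).continuous

private theorem rl_cont : Continuous rl :=
  continuous_const.clm_comp (ContinuousLinearMap.mul ℝ ℂ).continuous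

private theorem L_cd (P : PLs) {k : ℕ} (hk : 2 ≤ k) {z : ℂ} (h0 : z ≠ 0) (h1 : z ≠ 1) :
    ContDiffAt ℝ 1 (P.L k) z := by
  rw [contDiffAt_one_iff]
  have hu : IsOpen ({0, 1}ᶜ : Set ℂ) := (Set.toFinite _).isClosed.isOpen_compl
  have hz : ∀ w : ℂ, w ∈ ({0, 1}ᶜ : Set ℂ) ↔ w ≠ 0 ∧ w ≠ 1 := by
    intro w
    simp
  have c1 : ContinuousOn (fun w : ℂ => Real.log ‖w‖) ({0, 1}ᶜ : Set ℂ) :=
    continuousOn_id.norm.log fun w hw => norm_ne_zero_iff.2 ((hz w).1 hw).1
  have c2 : ContinuousOn (fun w : ℂ => Real.log ‖1 - w‖) ({0, 1}ᶜ : Set ℂ) :=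
    (continuousOn_const.sub continuousOn_id).norm.log fun w hw =>
      norm_ne_zero_iff.2 (sub_ne_zero.2 (Ne.symm ((hz w).1 hw).2))
  have c3 : ContinuousOn (fun w : ℂ => w⁻¹) ({0, 1}ᶜ : Set ℂ) :=
    continuousOn_id.inv₀ fun w hw => ((hz w).1 hw).1
  have c4 : ContinuousOn (fun w : ℂ => (w - 1)⁻¹) ({0, 1}ᶜ : Set ℂ) :=
    (continuousOn_id.sub continuousOn_const).inv₀ fun w hw => sub_ne_zero.2 ((hz w).1 hw).2
  rcases hk.eq_or_lt with h2 | h3
  · subst h2
    refine ⟨_, ({0, 1}ᶜ : Set ℂ), hu.mem_nhds ((hz z).2 ⟨h0, h1⟩), ?_,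
      fun w hw => P.d2 w ((hz w).1 hw).1 ((hz w).1 hw).2⟩
    exact (c1.smul (il_cont.comp_continuousOn c4)).sub (c2.smul (il_cont.comp_continuousOn c3))
  · refine ⟨_, ({0, 1}ᶜ : Set ℂ), hu.mem_nhds ((hz z).2 ⟨h0, h1⟩), ?_,
      fun w hw => P.d k h3 w ((hz w).1 hw).1 ((hz w).1 hw).2⟩
    refine ((((continuousOn_const.mul (P.cont (k - 1) (by omega)).continuousOn).smul
      (il_cont.comp_continuousOn c3)).sub ?_).sub ?_)
    · refine ContinuousOn.smul (f := fun w : ℂ => ∑ i ∈ Finset.Icc 2 (k - 2),
        bt i * Real.log ‖w‖ ^ (i - 1) * P.L (k - i) w) ?_ (rl_cont.comp_continuousOn c3)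
      refine continuousOn_finset_sum _ fun i hi => ?_
      rw [Finset.mem_Icc] at hi
      exact ((continuousOn_const.mul (c1.pow _)).mul (P.cont (k - i) (by omega)).continuousOn)
    · exact (continuousOn_const.mul (c1.pow _)).smul
        ((c1.smul (rl_cont.comp_continuousOn c4)).sub (c2.smul (rl_cont.comp_continuousOn c3)))

private theorem poly_cd {F : Type u} [Field F] (p : F →+* ℂ) (r : Polynomial F) :
    ContDiff ℂ 1 (fun w : ℂ => (r.map p).eval w) := by
  have h := Polynomial.contDiff_aeval (𝕜 := ℂ) (r.map p) (1 : WithTop ℕ∞)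
  simp only [Polynomial.coe_aeval_eq_eval] at h
  exact h

private theorem cd_one (P : PLs) {k : ℕ} (hk : 2 ≤ k) {F : Type u} [Field F] (p : F →+* ℂ)
    (x : Option (RatFunc F)) : ∃ Z : Set ℂ, Z.Finite ∧
      ∀ l, l ∉ Z → ContDiffAt ℝ 1 (fun w => vL P k (evC p w x)) l := by
  cases x with
  | none => exact ⟨∅, Set.finite_empty, fun l _ => contDiffAt_const⟩
  | some f =>
    by_cases hf0 : f = 0
    · subst hf0
      refine ⟨∅, Set.finite_empty, fun l _ => ?_⟩
      have : (fun w => vL P k (evC p w (some (0 : RatFunc F)))) = fun _ => vL P k (some 0) := by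
        funext w
        rw [evC, RatFunc.num_zero, RatFunc.denom_zero]
        simp
      rw [this]
      exact contDiffAt_const
    by_cases hf1 : f = 1
    · subst hf1
      refine ⟨∅, Set.finite_empty, fun l _ => ?_⟩
      have : (fun w => vL P k (evC p w (some (1 : RatFunc F)))) = fun _ => vL P k (some 1) := by
        funext w
        rw [evC, RatFunc.num_one, RatFunc.denom_one]
        simp
      rw [this]
      exact contDiffAt_const
    have fin : ∀ r : Polynomial F, r ≠ 0 → {l : ℂ | (r.map p).eval l = 0}.Finite := by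
      intro r hr
      have hr' : r.map p ≠ 0 := (Polynomial.map_ne_zero_iff p.injective).2 hr
      refine ((r.map p).roots.toFinset.finite_toSet).subset ?_
      intro l hl
      simp only [Finset.mem_coe, Multiset.mem_toFinset, Polynomial.mem_roots hr']
      exact hl
    have hn : f.num ≠ 0 := RatFunc.num_ne_zero hf0
    have hd : f.denom ≠ 0 := RatFunc.denom_ne_zero f
    have hnd : f.num - f.denom ≠ 0 := by
      intro h
      apply hf1
      rw [← RatFunc.num_div_denom f, sub_eq_zero.1 h]
      exact div_self (by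
        rw [Ne, map_eq_zero_iff _ (RatFunc.algebraMap_injective F)]
        exact hd)
    refine ⟨{l : ℂ | (f.num.map p).eval l = 0} ∪ {l : ℂ | (f.denom.map p).eval l = 0} ∪
      {l : ℂ | ((f.num - f.denom).map p).eval l = 0}, ((fin _ hn).union (fin _ hd)).union
      (fin _ hnd), fun l hl => ?_⟩
    simp only [Set.mem_union, Set.mem_setOf_eq, not_or] at hl
    obtain ⟨⟨l1, l2⟩, l3⟩ := hl
    rw [Polynomial.map_sub, Polynomial.eval_sub, sub_eq_zero] at l3
    have z0 : (f.num.map p).eval l / (f.denom.map p).eval l ≠ 0 := div_ne_zero l1 l2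
    have z1 : (f.num.map p).eval l / (f.denom.map p).eval l ≠ 1 := by
      rw [Ne, div_eq_one_iff_eq l2]
      exact l3
    have h1 : ContDiffAt ℝ 1 (fun w => P.L k ((f.num.map p).eval w / (f.denom.map p).eval w)) l :=
      ContDiffAt.comp (f := fun w => (f.num.map p).eval w / (f.denom.map p).eval w) l
        (L_cd P hk z0 z1) (ContDiffAt.restrict_scalars ℝ
          ((poly_cd p f.num).contDiffAt.div (poly_cd p f.denom).contDiffAt l2))
    refine h1.congr_of_eventuallyEq ?_
    filter_upwards [evC_ev p f l2] with w hw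
    rw [hw]
    rfl

theorem GG_cd (P : PLs) {k : ℕ} (hk : 2 ≤ k) {F : Type u} [Field F] (p : F →+* ℂ)
    (α : FreeAbelianGroup (Option (RatFunc F))) : ∃ Z : Set ℂ, Z.Finite ∧
      ∀ l, l ∉ Z → ContDiffAt ℝ 1 (GG P k p α) l := by
  induction α using FreeAbelianGroup.induction_on with
  | zero =>
    have : GG P k p (0 : FreeAbelianGroup (Option (RatFunc F))) = fun _ => 0 := by
      funext l
      exact map_zero _
    rw [this]
    exact ⟨∅, Set.finite_empty, fun l _ => contDiffAt_const⟩
  | of x =>
    have : GG P k p (FreeAbelianGroup.of x) = fun w => vL P k (evC p w x) := by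
      funext l
      exact FreeAbelianGroup.lift_apply_of _ _
    rw [this]
    exact cd_one P hk p x
  | neg x h =>
    have : GG P k p (-FreeAbelianGroup.of x) = fun w => -GG P k p (FreeAbelianGroup.of x) w := by
      funext l
      exact map_neg _ _
    rw [this]
    obtain ⟨Z, hZ, h⟩ := h
    exact ⟨Z, hZ, fun l hl => (h l hl).neg⟩
  | add x y hx hy =>
    have : GG P k p (x + y) = fun w => GG P k p x w + GG P k p y w := by
      funext l
      exact map_add _ _ _
    rw [this]
    obtain ⟨Z, hZ, h⟩ := hx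
    obtain ⟨Z', hZ', h'⟩ := hy
    refine ⟨Z ∪ Z', hZ.union hZ', fun l hl => ?_⟩
    rw [Set.mem_union, not_or] at hl
    exact (h l hl.1).add (h' l hl.2)

private theorem GG_at (P : PLs) (k : ℕ) {F : Type u} [Field F] (p : F →+* ℂ) (t : F)
    (α : FreeAbelianGroup (Option (RatFunc F))) :
    TF P k p (j := 0) Fin.elim0 (FreeAbelianGroup.map (evalAt t) α) = GG P k p α (p t) := by
  have h : (TF P k p (j := 0) Fin.elim0).comp (FreeAbelianGroup.map (evalAt t)) =
      FreeAbelianGroup.lift (fun x => vL P k (evC p (p t) x)) := by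
    refine FreeAbelianGroup.lift_ext _ _ fun x => ?_
    rw [AddMonoidHom.comp_apply, FreeAbelianGroup.map_of_apply, TF,
      FreeAbelianGroup.lift_apply_of, FreeAbelianGroup.lift_apply_of, evC_const]
    simp
  exact DFunLike.congr_fun h α

/-- if the derivative vanishes at the generic points, the values at `0` and `1` agree -/
theorem path (P : PLs) {k : ℕ} (hk : 2 ≤ k) {F : Type u} [Field F] [Countable F] (p : F →+* ℂ)
    (α : FreeAbelianGroup (Option (RatFunc F)))
    (h : ∀ l, Gen p l → HasFDerivAt (GG P k p α) (0 : ℂ →L[ℝ] ℝ) l) :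
    TF P k p (j := 0) Fin.elim0 (FreeAbelianGroup.map (evalAt 0) α) =
      TF P k p (j := 0) Fin.elim0 (FreeAbelianGroup.map (evalAt 1) α) := by
  rw [GG_at, GG_at]
  obtain ⟨Z, hZ, hcd⟩ := GG_cd P hk p α
  have hc := GG_cont P hk p α
  have hop : IsOpen (Zᶜ : Set ℂ) := hZ.isClosed.isOpen_compl
  have hd : ∀ l, l ∉ Z → fderiv ℝ (GG P k p α) l = 0 := by
    intro l hl
    have h1 : ContinuousAt (fderiv ℝ (GG P k p α)) l :=
      (((hcd l hl).fderiv_right (m := 0) (by norm_num))).continuousAt
    have h2 : ∃ᶠ w in 𝓝 l, fderiv ℝ (GG P k p α) w = 0 := by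
      have h3 : l ∈ closure {l : ℂ | Gen p l} := gen_dense p l
      rw [mem_closure_iff_frequently] at h3
      exact h3.mono fun w hw => (h w hw).fderiv
    exact (isClosed_singleton (x := (0 : ℂ →L[ℝ] ℝ))).mem_of_frequently_of_tendsto h2 h1
  have hcon : IsPreconnected (Zᶜ : Set ℂ) :=
    (Set.Countable.isConnected_compl_of_one_lt_rank (by
      rw [Complex.rank_real_complex]
      norm_num) hZ.countable).isPreconnected
  obtain ⟨a, ha⟩ := hop.exists_is_const_of_fderiv_eq_zero (𝕜 := ℝ) hcon
    (fun l hl => ((hcd l hl).differentiableAt (by norm_num)).differentiableWithinAt)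
    (fun l hl => hd l hl)
  have hden : Dense (Zᶜ : Set ℂ) := Set.Countable.dense_compl ℝ hZ.countable
  have hall : ∀ w, GG P k p α w = a := by
    intro w
    have hcl : IsClosed {w | GG P k p α w = a} := isClosed_eq hc continuous_const
    have : closure (Zᶜ : Set ℂ) ⊆ {w | GG P k p α w = a} :=
      hcl.closure_subset_iff.2 ha
    exact this (hden w)
  rw [hall, hall]

private def UU {F : Type u} [Field F] (p : F →+* ℂ) (f : RatFunc F) (w : ℂ) : ℂ :=
  (f.num.map p).eval w / (f.denom.map p).eval w

private theorem UU_diff {F : Type u} [Field F] (p : F →+* ℂ) (f : RatFunc F) {l : ℂ}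
    (h : (f.denom.map p).eval l ≠ 0) : DifferentiableAt ℂ (UU p f) l :=
  (Polynomial.differentiable _).differentiableAt.div
    (Polynomial.differentiable _).differentiableAt h

private theorem ev_ne {F : Type u} [Field F] (p : F →+* ℂ) {l : ℂ} (hl : Gen p l)
    {r : Polynomial F} (hr : r ≠ 0) : ∀ᶠ w in 𝓝 l, (r.map p).eval w ≠ 0 :=
  (Polynomial.continuous _).continuousAt.eventually_ne (hl r hr)

private theorem UU_mul {F : Type u} [Field F] (p : F →+* ℂ) {l : ℂ} (hl : Gen p l)
    (f g : RatFunc F) : UU p (f * g) =ᶠ[𝓝 l] fun w => UU p f w * UU p g w := by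
  filter_upwards [ev_ne p hl (RatFunc.denom_ne_zero f), ev_ne p hl (RatFunc.denom_ne_zero g),
    ev_ne p hl (RatFunc.denom_ne_zero (f * g))] with w h1 h2 h3
  have h := congrArg (fun r : Polynomial F => (r.map p).eval w) (RatFunc.num_denom_mul f g)
  simp only [Polynomial.map_mul, Polynomial.eval_mul] at h
  rw [UU, UU, UU, div_mul_div_comm, div_eq_div_iff h3 (mul_ne_zero h1 h2)]
  exact h

/-- `log |f(l)|` as a homomorphism -/
theorem exists_logHom {F : Type u} [Field F] (p : F →+* ℂ) {l : ℂ} (hl : Gen p l) :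
    ∃ (e : RatFunc F →+* ℂ) (lg : Additive (RatFunc F)ˣ →+ ℝ)
      (D : Additive (RatFunc F)ˣ →+ ℂ),
      (∀ x : Option (RatFunc F), evC p l x = x.map e) ∧
      (∀ u : (RatFunc F)ˣ, lg (Additive.ofMul u) = Real.log ‖e u‖) ∧
      (∀ u : (RatFunc F)ˣ, ∃ U : ℂ → ℂ, (∀ᶠ w in 𝓝 l, evC p w (some (u : RatFunc F)) = some (U w)) ∧
        HasDerivAt U (U l * D (Additive.ofMul u)) l ∧ U l = e u) := by
  obtain ⟨e, he⟩ := exists_hom p hl
  have hd : ∀ f : RatFunc F, (f.denom.map p).eval l ≠ 0 := fun f => hl _ (RatFunc.denom_ne_zero f)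
  have heu : ∀ u : (RatFunc F)ˣ, e (u : RatFunc F) ≠ 0 := fun u =>
    (map_ne_zero e).2 u.ne_zero
  have hU : ∀ f : RatFunc F, UU p f l = e f := fun f => (he f).symm
  refine ⟨e,
    { toFun := fun u => Real.log ‖e ((Additive.toMul u : (RatFunc F)ˣ) : RatFunc F)‖
      map_zero' := by simp
      map_add' := fun u v => by
        rw [toMul_add, Units.val_mul, map_mul, norm_mul,
          Real.log_mul (norm_ne_zero_iff.2 (heu _)) (norm_ne_zero_iff.2 (heu _))] },
    { toFun := fun u => deriv (UU p ((Additive.toMul u : (RatFunc F)ˣ) : RatFunc F)) l /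
        e ((Additive.toMul u : (RatFunc F)ˣ) : RatFunc F)
      map_zero' := by
        have : UU p (1 : RatFunc F) = fun _ => 1 := by
          funext w
          rw [UU, RatFunc.num_one, RatFunc.denom_one]
          simp
        rw [toMul_zero, Units.val_one, this]
        simp
      map_add' := fun u v => by
        have h1 := heu (Additive.toMul u)
        have h2 := heu (Additive.toMul v)
        rw [toMul_add, Units.val_mul, map_mul, (UU_mul p hl _ _).deriv_eq,
          deriv_fun_mul (UU_diff p _ (hd _)) (UU_diff p _ (hd _)), hU, hU]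
        field_simp }, ?_, ?_, ?_⟩
  · intro x
    cases x with
    | none => rfl
    | some f => rw [evC, if_neg (hd f), Option.map_some, he]
  · intro u
    rfl
  · intro u
    refine ⟨UU p u, evC_ev p u (hd u), ?_, hU u⟩
    have h1 := (UU_diff p (u : RatFunc F) (hd u)).hasDerivAt
    have h2 : UU p (u : RatFunc F) l * (deriv (UU p (u : RatFunc F)) l / e (u : RatFunc F)) =
        deriv (UU p (u : RatFunc F)) l := by
      rw [hU, mul_div_cancel₀ _ (heu u)]
    exact h2.symm ▸ h1

private theorem one_sub_ev {F : Type u} [Field F] (p : F →+* ℂ) (f : RatFunc F) {w a b : ℂ}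
    (ha : evC p w (some f) = some a) (hb : evC p w (some (1 - f)) = some b) : a + b = 1 := by
  by_cases h1 : (f.denom.map p).eval w = 0
  · rw [evC, if_pos h1] at ha
    exact absurd ha (by simp)
  by_cases h2 : ((1 - f).denom.map p).eval w = 0
  · rw [evC, if_pos h2] at hb
    exact absurd hb (by simp)
  rw [evC, if_neg h1, Option.some.injEq] at ha
  rw [evC, if_neg h2, Option.some.injEq] at hb
  have h := congrArg (fun r : Polynomial F => (r.map p).eval w)
    (RatFunc.num_denom_add f (1 - f))
  rw [add_sub_cancel, RatFunc.num_one, RatFunc.denom_one] at h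
  simp only [Polynomial.map_mul, Polynomial.eval_mul, Polynomial.map_add, Polynomial.eval_add,
    Polynomial.map_one, Polynomial.eval_one, one_mul, mul_one] at h
  rw [← ha, ← hb, div_add_div _ _ h1 h2, div_eq_one_iff_eq (mul_ne_zero h1 h2)]
  exact h.symm

private theorem il_comp (c U' : ℂ) : (il c).comp
    (((1 : ℂ →L[ℂ] ℂ).smulRight U').restrictScalars ℝ) = il (c * U') := by
  ext1 h
  simp only [ContinuousLinearMap.comp_apply, ContinuousLinearMap.coe_restrictScalars',
    ContinuousLinearMap.smulRight_apply, ContinuousLinearMap.one_apply, smul_eq_mul, il_apply]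
  congr 1
  ring

private theorem rl_comp (c U' : ℂ) : (rl c).comp
    (((1 : ℂ →L[ℂ] ℂ).smulRight U').restrictScalars ℝ) = rl (c * U') := by
  ext1 h
  simp only [ContinuousLinearMap.comp_apply, ContinuousLinearMap.coe_restrictScalars',
    ContinuousLinearMap.smulRight_apply, ContinuousLinearMap.one_apply, smul_eq_mul, rl_apply]
  congr 1
  ring

/-- the derivative of `L_2(f(l))` and of `L_k(f(l))`, `k ≥ 3`, at generic `l`, `f ≠ 1` -/
theorem vL_fd {P : PLs} {F : Type u} [Field F] (p : F →+* ℂ) {l : ℂ} {e : RatFunc F →+* ℂ}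
    {lg : Additive (RatFunc F)ˣ →+ ℝ} {D : Additive (RatFunc F)ˣ →+ ℂ}
    (h1 : ∀ x : Option (RatFunc F), evC p l x = x.map e)
    (h2 : ∀ u : (RatFunc F)ˣ, lg (Additive.ofMul u) = Real.log ‖e u‖)
    (h3 : ∀ u : (RatFunc F)ˣ, ∃ U : ℂ → ℂ,
      (∀ᶠ w in 𝓝 l, evC p w (some (u : RatFunc F)) = some (U w)) ∧
        HasDerivAt U (U l * D (Additive.ofMul u)) l ∧ U l = e u)
    (x : Option (RatFunc F)) :
    HasFDerivAt (fun w => vL P 2 (evC p w x))
      (lg (unitOf x) • il (D (unitOf (oneSub x))) - lg (unitOf (oneSub x)) • il (D (unitOf x))) l ∧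
    ∀ k, 3 ≤ k → HasFDerivAt (fun w => vL P k (evC p w x))
      (((-1) ^ k * vL P (k - 1) (x.map e)) • il (D (unitOf x)) -
        (∑ i ∈ Finset.Icc 2 (k - 2), bt i * lg (unitOf x) ^ (i - 1) * vL P (k - i) (x.map e)) •
          rl (D (unitOf x)) -
        (bt (k - 1) * lg (unitOf x) ^ (k - 2)) •
          (lg (unitOf x) • rl (D (unitOf (oneSub x))) -
            lg (unitOf (oneSub x)) • rl (D (unitOf x)))) l := by
  have hz : unitOf x = 0 → unitOf (oneSub x) = 0 → (∀ w, evC p w x = evC p l x) →
      HasFDerivAt (fun w => vL P 2 (evC p w x))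
      (lg (unitOf x) • il (D (unitOf (oneSub x))) - lg (unitOf (oneSub x)) • il (D (unitOf x))) l ∧
    ∀ k, 3 ≤ k → HasFDerivAt (fun w => vL P k (evC p w x))
      (((-1) ^ k * vL P (k - 1) (x.map e)) • il (D (unitOf x)) -
        (∑ i ∈ Finset.Icc 2 (k - 2), bt i * lg (unitOf x) ^ (i - 1) * vL P (k - i) (x.map e)) •
          rl (D (unitOf x)) -
        (bt (k - 1) * lg (unitOf x) ^ (k - 2)) •
          (lg (unitOf x) • rl (D (unitOf (oneSub x))) -
            lg (unitOf (oneSub x)) • rl (D (unitOf x)))) l := by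
    intro hx hy hc
    have hf : ∀ k, (fun w => vL P k (evC p w x)) = fun _ => vL P k (evC p l x) := by
      intro k
      funext w
      rw [hc w]
    rw [hx, hy]
    refine ⟨?_, fun k _ => ?_⟩
    · rw [hf]
      simp only [map_zero, il_zero, smul_zero, sub_zero]
      exact hasFDerivAt_const _ _
    · rw [hf]
      simp only [map_zero, il_zero, rl_zero, smul_zero, sub_zero]
      exact hasFDerivAt_const _ _
  cases x with
  | none => exact hz rfl rfl (fun w => rfl)
  | some f =>
    by_cases hf0 : f = 0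
    · subst hf0
      refine hz ?_ ?_ ?_
      · rw [unitOf, dif_pos rfl]
      · rw [oneSub, unitOf, dif_neg (by simp)]
        have : Units.mk0 (1 - (0 : RatFunc F)) (by simp) = 1 := by
          ext
          simp
        rw [this]
        rfl
      · intro w
        simp [evC, RatFunc.num_zero, RatFunc.denom_zero]
    by_cases hf1 : f = 1
    · subst hf1
      refine hz ?_ ?_ ?_
      · rw [unitOf, dif_neg one_ne_zero]
        have : Units.mk0 (1 : RatFunc F) one_ne_zero = 1 := by
          ext
          simp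
        rw [this]
        rfl
      · rw [oneSub, unitOf, dif_pos (sub_self _)]
      · intro w
        simp [evC, RatFunc.num_one, RatFunc.denom_one]
    have hg0 : 1 - f ≠ 0 := sub_ne_zero.2 (Ne.symm hf1)
    have hu : unitOf (some f) = Additive.ofMul (Units.mk0 f hf0) := by
      rw [unitOf, dif_neg hf0]
    have hv : unitOf (oneSub (some f)) = Additive.ofMul (Units.mk0 (1 - f) hg0) := by
      rw [oneSub, unitOf, dif_neg hg0]
    obtain ⟨U, hU1, hU2, hU3⟩ := h3 (Units.mk0 f hf0)
    obtain ⟨V, hV1, hV2, hV3⟩ := h3 (Units.mk0 (1 - f) hg0)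
    rw [Units.val_mk0] at hU1 hU3 hV1 hV3
    have hlu := h2 (Units.mk0 f hf0)
    have hlv := h2 (Units.mk0 (1 - f) hg0)
    rw [Units.val_mk0] at hlu hlv
    rw [hu, hv]
    generalize Additive.ofMul (Units.mk0 f hf0) = u at *
    generalize Additive.ofMul (Units.mk0 (1 - f) hg0) = v at *
    have z0 : U l ≠ 0 := by
      rw [hU3]
      exact (map_ne_zero e).2 hf0
    have z1 : U l ≠ 1 := by
      rw [hU3, ← map_one e]
      exact fun h => hf1 (e.injective h)
    have hVU : V l = 1 - U l := by
      rw [hV3, hU3, map_sub, map_one]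
    have hsum : V =ᶠ[𝓝 l] fun w => 1 - U w := by
      filter_upwards [hU1, hV1] with w ha hb
      exact eq_sub_of_add_eq' (one_sub_ev p f ha hb)
    have hder : V l * D v = -(U l * D u) :=
      (hV2.congr_of_eventuallyEq hsum.symm).unique (by simpa using hU2.const_sub 1)
    have hDv : D v = (U l - 1)⁻¹ * (U l * D u) := by
      have h4 : (1 - U l) ≠ 0 := sub_ne_zero.2 (Ne.symm z1)
      have h5 : (U l - 1) ≠ 0 := sub_ne_zero.2 z1
      rw [hVU] at hder
      rw [eq_inv_mul_iff_mul_eq₀ h5]
      linear_combination -hder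
    have hDu : D u = (U l)⁻¹ * (U l * D u) := by
      rw [inv_mul_cancel_left₀ z0]
    have hUf : HasFDerivAt U (((1 : ℂ →L[ℂ] ℂ).smulRight (U l * D u)).restrictScalars ℝ) l :=
      hU2.hasFDerivAt.restrictScalars ℝ
    have hlu' : lg u = Real.log ‖U l‖ := by rw [hlu, hU3]
    have hlv' : lg v = Real.log ‖1 - U l‖ := by rw [hlv, hU3, map_sub, map_one]
    have hvl : ∀ j, vL P j ((some f).map e) = P.L j (U l) := by
      intro j
      rw [hU3]
      rfl
    have hevk : ∀ k, (fun w => vL P k (evC p w (some f))) =ᶠ[𝓝 l] fun w => P.L k (U w) := by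
      intro k
      filter_upwards [hU1] with w hw
      rw [hw]
      rfl
    refine ⟨?_, fun k hk => ?_⟩
    · refine HasFDerivAt.congr_of_eventuallyEq ?_ (hevk 2)
      have h6 := (P.d2 (U l) z0 z1).comp l hUf
      refine h6.congr_fderiv ?_
      rw [ContinuousLinearMap.sub_comp, ContinuousLinearMap.smul_comp,
        ContinuousLinearMap.smul_comp, il_comp, il_comp, ← hDu, ← hDv, ← hlu', ← hlv']
    · refine HasFDerivAt.congr_of_eventuallyEq ?_ (hevk k)
      have h6 := (P.d k hk (U l) z0 z1).comp l hUf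
      refine h6.congr_fderiv ?_
      rw [ContinuousLinearMap.sub_comp, ContinuousLinearMap.sub_comp,
        ContinuousLinearMap.smul_comp, ContinuousLinearMap.smul_comp,
        ContinuousLinearMap.smul_comp, ContinuousLinearMap.sub_comp,
        ContinuousLinearMap.smul_comp, ContinuousLinearMap.smul_comp,
        il_comp, rl_comp, rl_comp, ← hDu, ← hDv, ← hlu', ← hlv']
      simp only [hvl]

end Pool.Agent.F194.Y

end
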