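import Pool.Agent.Work.MP_f194bb_nt.Y.Base

/-!
# MP_f194bb_nt, odd n: holomorphic polylogarithms of all weights on `ℂ ∖ [1, ∞)`
-/

set_option autoImplicit false

open scoped ComplexConjugate PeriodPair
open MeasureTheory Filter Topology

noncomputable section

namespace Pool.Agent.F194.Y

/-- `ℂ ∖ [1, ∞)` -/
def Om : Set ℂ := {z | 1 - z ∈ Complex.slitPlane}

/-- The holomorphic polylogarithms of all weights on `ℂ ∖ [1, ∞)`; `l 0 z = z / (1 - z)`. -/
structure HolLi where
  l : ℕ → ℂ → ℂ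
  l0 : ∀ z, l 0 z = z / (1 - z)
  l1 : ∀ z, l 1 z = -Complex.log (1 - z)
  h : ∀ k, ∀ z ∈ Om, z ≠ 0 → HasDerivAt (l (k + 1)) (l k z / z) z
  c : ∀ k, ∀ z ∈ Om, l k (conj z) = conj (l k z)
  C : ℕ → ℝ
  s : ∀ k z, ‖z‖ ≤ 1 / 2 → ‖l k z‖ ≤ C k * ‖z‖

theorem pla_isOpen : IsOpen Om :=
  Complex.isOpen_slitPlane.preimage (by fun_prop : Continuous fun z : ℂ => 1 - z)

theorem pla_zero : (0 : ℂ) ∈ Om := by
  show 1 - (0 : ℂ) ∈ Complex.slitPlane
  rw [sub_zero]
  exact Complex.one_mem_slitPlane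

theorem pla_star {z : ℂ} (hz : z ∈ Om) {t : ℝ} (h0 : 0 ≤ t) (h1 : t ≤ 1) : (t : ℂ) * z ∈ Om := by
  have h := Complex.starConvex_one_slitPlane (show (1 - z) ∈ Complex.slitPlane from hz)
    (a := 1 - t) (b := t) (by linarith) h0 (by ring)
  show 1 - (t : ℂ) * z ∈ Complex.slitPlane
  have e : 1 - (t : ℂ) * z = (1 - t) • (1 : ℂ) + t • (1 - z) := by
    simp only [Complex.real_smul]
    push_cast
    ring
  rw [e]
  exact h

theorem pla_small {z : ℂ} (hz : ‖z‖ < 1) : z ∈ Om := by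
  show 1 - z ∈ Complex.slitPlane
  left
  have h := Complex.abs_re_le_norm z
  have h2 := le_abs_self z.re
  simp only [Complex.sub_re, Complex.one_re]
  linarith

theorem pla_conj {z : ℂ} (hz : z ∈ Om) : conj z ∈ Om := by
  show 1 - conj z ∈ Complex.slitPlane
  have h : 1 - z ∈ Complex.slitPlane := hz
  rw [Complex.mem_slitPlane_iff] at h ⊢
  simp only [Complex.sub_re, Complex.one_re, Complex.conj_re, Complex.sub_im, Complex.one_im,
    Complex.conj_im] at h ⊢
  rcases h with h | h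
  · exact Or.inl h
  · right
    intro h'
    apply h
    linarith

/-- primitives on `Om` -/
theorem pla_prim {φ : ℂ → ℂ} (hφ : DifferentiableOn ℂ φ Om) (h0 : φ 0 = 0)
    (hc : ∀ z ∈ Om, φ (conj z) = conj (φ z)) : ∃ ψ : ℂ → ℂ, DifferentiableOn ℂ ψ Om ∧ ψ 0 = 0 ∧
      (∀ z ∈ Om, z ≠ 0 → HasDerivAt ψ (φ z / z) z) ∧ (∀ z ∈ Om, ψ (conj z) = conj (ψ z)) ∧
      ∃ C : ℝ, ∀ z, ‖z‖ ≤ 1 / 2 → ‖ψ z‖ ≤ C * ‖z‖ := by
  have hOm := pla_isOpen
  set g : ℂ → ℂ := dslope φ 0 with hg
  have hgd : DifferentiableOn ℂ g Om :=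
    (Complex.differentiableOn_dslope (hOm.mem_nhds pla_zero)).2 hφ
  have hgat : ∀ z ∈ Om, DifferentiableAt ℂ g z := fun z hz =>
    hgd.differentiableAt (hOm.mem_nhds hz)
  have hg' : ContinuousOn (deriv g) Om := (hgd.deriv hOm).continuousOn
  have hgz : ∀ z, z ≠ 0 → g z = φ z / z := by
    intro z hz
    rw [hg, dslope_of_ne _ hz, slope_def_field, h0, sub_zero, sub_zero]
  have hline : ∀ z ∈ Om, ContinuousOn (fun t : ℝ => g ((t : ℂ) * z)) (Set.Icc 0 1) := by
    intro z hz
    refine hgd.continuousOn.comp (by fun_prop) ?_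
    intro t ht
    exact pla_star hz ht.1 ht.2
  have hline' : ∀ z ∈ Om, ContinuousOn (fun t : ℝ => deriv g ((t : ℂ) * z)) (Set.Icc 0 1) := by
    intro z hz
    refine hg'.comp (by fun_prop) ?_
    intro t ht
    exact pla_star hz ht.1 ht.2
  set ψ : ℂ → ℂ := fun z => ∫ t in (0 : ℝ)..1, z * g ((t : ℂ) * z) with hψ
  have hder : ∀ z ∈ Om, HasDerivAt ψ (g z) z := by
    intro z hz
    obtain ⟨ε, hε, hball⟩ := Metric.isOpen_iff.1 hOm z hz
    set K : Set ℂ := (fun p : ℝ × ℂ => (p.1 : ℂ) * p.2) ''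
      (Set.Icc (0 : ℝ) 1 ×ˢ Metric.closedBall z (ε / 2)) with hK
    have hKc : IsCompact K := by
      refine (isCompact_Icc.prod (isCompact_closedBall z (ε / 2))).image ?_
      fun_prop
    have hKO : K ⊆ Om := by
      rintro _ ⟨⟨t, w⟩, ⟨ht, hw⟩, rfl⟩
      refine pla_star (hball ?_) ht.1 ht.2
      exact lt_of_le_of_lt (Metric.mem_closedBall.1 hw) (by linarith)
    obtain ⟨C₁, hC₁⟩ := hKc.exists_bound_of_continuousOn (hgd.continuousOn.mono hKO)
    obtain ⟨C₂, hC₂⟩ := hKc.exists_bound_of_continuousOn (hg'.mono hKO)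
    have hmem : ∀ t ∈ Set.uIoc (0 : ℝ) 1, ∀ w ∈ Metric.ball z (ε / 2), (t : ℂ) * w ∈ K := by
      intro t ht w hw
      rw [Set.uIoc_of_le zero_le_one] at ht
      exact ⟨(t, w), ⟨⟨ht.1.le, ht.2⟩, Metric.ball_subset_closedBall hw⟩, rfl⟩
    have hF : ∀ w ∈ Om, ContinuousOn (fun t : ℝ => w * g ((t : ℂ) * w)) (Set.Icc 0 1) :=
      fun w hw => continuousOn_const.mul (hline w hw)
    have hF' : ContinuousOn (fun t : ℝ => g ((t : ℂ) * z) + z * ((t : ℂ) * deriv g ((t : ℂ) * z)))
        (Set.Icc 0 1) :=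
      (hline z hz).add (continuousOn_const.mul
        ((Complex.continuous_ofReal.continuousOn).mul (hline' z hz)))
    have hmain := intervalIntegral.hasDerivAt_integral_of_dominated_loc_of_deriv_le
      (μ := volume) (a := 0) (b := 1)
      (F := fun (w : ℂ) (t : ℝ) => w * g ((t : ℂ) * w))
      (F' := fun (w : ℂ) (t : ℝ) => g ((t : ℂ) * w) + w * ((t : ℂ) * deriv g ((t : ℂ) * w)))
      (x₀ := z) (s := Metric.ball z (ε / 2)) (bound := fun _ => C₁ + (‖z‖ + ε / 2) * C₂)
      (Metric.ball_mem_nhds z (by positivity)) ?_ ?_ ?_ ?_ ?_ ?_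
    · -- the value of the derivative
      have hval : ∫ t in (0 : ℝ)..1, (g ((t : ℂ) * z) + z * ((t : ℂ) * deriv g ((t : ℂ) * z))) =
          g z := by
        have h1 := intervalIntegral.integral_eq_sub_of_hasDerivAt (a := 0) (b := 1)
          (f := fun t : ℝ => (t : ℂ) * g ((t : ℂ) * z))
          (f' := fun t : ℝ => g ((t : ℂ) * z) + z * ((t : ℂ) * deriv g ((t : ℂ) * z))) ?_ ?_
        · rw [h1]
          simp
        · intro t ht
          rw [Set.uIcc_of_le zero_le_one] at ht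
          have e1 : HasDerivAt (fun t : ℝ => ((t : ℂ) * z)) z t := by
            have := (Complex.ofRealCLM.hasDerivAt (x := t)).mul_const z
            simpa using this
          have e2 : HasDerivAt (fun t : ℝ => g ((t : ℂ) * z)) (deriv g ((t : ℂ) * z) * z) t :=
            (hgat _ (pla_star hz ht.1 ht.2)).hasDerivAt.comp t e1
          have e0 : HasDerivAt (fun t : ℝ => (t : ℂ)) 1 t := Complex.ofRealCLM.hasDerivAt
          have e3 : HasDerivAt (fun t : ℝ => (t : ℂ) * g ((t : ℂ) * z))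
              (1 * g ((t : ℂ) * z) + (t : ℂ) * (deriv g ((t : ℂ) * z) * z)) t := e0.fun_mul e2
          exact e3.congr_deriv (by ring)
        · exact (hF'.mono (by rw [Set.uIcc_of_le zero_le_one])).intervalIntegrable
      rw [hval] at hmain
      exact hmain.2
    · filter_upwards [Metric.ball_mem_nhds z hε] with w hw
      rw [Set.uIoc_of_le zero_le_one]
      exact ((hF w (hball hw)).mono Set.Ioc_subset_Icc_self).aestronglyMeasurable
        measurableSet_Ioc
    · exact ((hF z hz).mono (by rw [Set.uIcc_of_le zero_le_one])).intervalIntegrable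
    · rw [Set.uIoc_of_le zero_le_one]
      exact (hF'.mono Set.Ioc_subset_Icc_self).aestronglyMeasurable measurableSet_Ioc
    · refine Eventually.of_forall fun t ht w hw => ?_
      have hm := hmem t ht w hw
      rw [Set.uIoc_of_le zero_le_one] at ht
      have hw2 : ‖w‖ ≤ ‖z‖ + ε / 2 := by
        have h2 : ‖w - z‖ < ε / 2 := by
          rw [← dist_eq_norm]
          exact hw
        calc ‖w‖ = ‖z + (w - z)‖ := by congr 1; ring
          _ ≤ ‖z‖ + ‖w - z‖ := norm_add_le _ _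
          _ ≤ _ := by linarith
      have hC20 : 0 ≤ C₂ := (norm_nonneg _).trans (hC₂ _ hm)
      calc ‖g ((t : ℂ) * w) + w * ((t : ℂ) * deriv g ((t : ℂ) * w))‖
          ≤ ‖g ((t : ℂ) * w)‖ + ‖w‖ * (‖(t : ℂ)‖ * ‖deriv g ((t : ℂ) * w)‖) := by
            refine (norm_add_le _ _).trans ?_
            rw [norm_mul, norm_mul]
        _ ≤ C₁ + (‖z‖ + ε / 2) * (1 * C₂) := by
            have h3 : ‖(t : ℂ)‖ ≤ 1 := by
              rw [Complex.norm_real, Real.norm_of_nonneg ht.1.le]
              exact ht.2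
            gcongr
            · exact hC₁ _ hm
            · exact hC₂ _ hm
        _ = _ := by ring
    · exact intervalIntegrable_const
    · refine Eventually.of_forall fun t ht w hw => ?_
      have hm := hKO (hmem t ht w hw)
      have e1 : HasDerivAt (fun w : ℂ => (t : ℂ) * w) (t : ℂ) w := by
        simpa using (hasDerivAt_id w).const_mul (t : ℂ)
      have e2 : HasDerivAt (fun w : ℂ => g ((t : ℂ) * w)) (deriv g ((t : ℂ) * w) * t) w :=
        (hgat _ hm).hasDerivAt.comp w e1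
      have e3 : HasDerivAt (fun w : ℂ => w * g ((t : ℂ) * w))
          (1 * g ((t : ℂ) * w) + w * (deriv g ((t : ℂ) * w) * t)) w :=
        (hasDerivAt_id' w).fun_mul e2
      exact e3.congr_deriv (by ring)
  refine ⟨ψ, fun z hz => (hder z hz).differentiableAt.differentiableWithinAt, ?_, ?_, ?_, ?_⟩
  · simp [hψ]
  · intro z hz hz0
    rw [← hgz z hz0]
    exact hder z hz
  · intro z hz
    by_cases hz0 : z = 0
    · subst hz0
      simp [hψ]
    have hgc : ∀ w ∈ Om, w ≠ 0 → g (conj w) = conj (g w) := by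
      intro w hw hw0
      have hw1 : conj w ≠ 0 := fun h => hw0 ((map_eq_zero _).1 h)
      rw [hgz _ hw1, hgz _ hw0, hc w hw, map_div₀]
    simp only [hψ]
    rw [intervalIntegral.integral_of_le zero_le_one, intervalIntegral.integral_of_le zero_le_one,
      ← integral_conj]
    refine setIntegral_congr_fun measurableSet_Ioc fun t ht => ?_
    show conj z * g ((t : ℂ) * conj z) = conj (z * g ((t : ℂ) * z))
    have ht0 : (t : ℂ) * z ≠ 0 := mul_ne_zero (by exact_mod_cast ht.1.ne') hz0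
    have e : (t : ℂ) * conj z = conj ((t : ℂ) * z) := by
      rw [map_mul, Complex.conj_ofReal]
    rw [e, hgc _ (pla_star hz ht.1.le ht.2) ht0, map_mul]
  · obtain ⟨C, hC⟩ := (isCompact_closedBall (0 : ℂ) (1 / 2)).exists_bound_of_continuousOn
      (hgd.continuousOn.mono fun z hz => pla_small (by
        have := mem_closedBall_zero_iff.1 hz
        linarith))
    refine ⟨C, fun z hz => ?_⟩
    have h1 : ∀ t ∈ Set.uIoc (0 : ℝ) 1, ‖z * g ((t : ℂ) * z)‖ ≤ ‖z‖ * C := by
      intro t ht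
      rw [Set.uIoc_of_le zero_le_one] at ht
      rw [norm_mul]
      have h2 : ‖(t : ℂ) * z‖ ≤ 1 / 2 := by
        rw [norm_mul, Complex.norm_real, Real.norm_of_nonneg ht.1.le]
        calc t * ‖z‖ ≤ 1 * ‖z‖ := by gcongr; exact ht.2
          _ ≤ 1 / 2 := by linarith
      exact mul_le_mul_of_nonneg_left (hC _ (mem_closedBall_zero_iff.2 h2)) (norm_nonneg _)
    have h3 := intervalIntegral.norm_integral_le_of_norm_le_const h1
    calc ‖ψ z‖ ≤ ‖z‖ * C * |1 - 0| := h3
      _ = C * ‖z‖ := by simp [mul_comm]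

/-- a function on `Om` with the properties needed for a primitive -/
private def PlaGood (φ : ℂ → ℂ) : Prop :=
  DifferentiableOn ℂ φ Om ∧ φ 0 = 0 ∧ ∀ z ∈ Om, φ (conj z) = conj (φ z)

private theorem pla_good_one : PlaGood fun z : ℂ => -Complex.log (1 - z) := by
  refine ⟨?_, by simp, ?_⟩
  · intro z hz
    have h : DifferentiableAt ℂ (fun z : ℂ => Complex.log (1 - z)) z :=
      (Complex.differentiableAt_log hz).comp z
        (by fun_prop : DifferentiableAt ℂ (fun z : ℂ => 1 - z) z)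
    exact h.neg.differentiableWithinAt
  · intro z hz
    have h : Complex.log (conj (1 - z)) = conj (Complex.log (1 - z)) := by
      rw [Complex.log_conj]
      exact (Complex.mem_slitPlane_iff_arg.1 hz).1
    rw [map_neg, ← h, map_sub, map_one]

private theorem pla_next (φ : {φ : ℂ → ℂ // PlaGood φ}) : ∃ ψ : {ψ : ℂ → ℂ // PlaGood ψ},
    (∀ z ∈ Om, z ≠ 0 → HasDerivAt ψ.1 (φ.1 z / z) z) ∧
      ∃ C : ℝ, ∀ z, ‖z‖ ≤ 1 / 2 → ‖ψ.1 z‖ ≤ C * ‖z‖ := by
  obtain ⟨ψ, h1, h2, h3, h4, h5⟩ := pla_prim φ.2.1 φ.2.2.1 φ.2.2.2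
  exact ⟨⟨ψ, h1, h2, h4⟩, h3, h5⟩

/-- the sequence of the polylogarithms of weights `k + 1` -/
private def plaSeq : ℕ → {φ : ℂ → ℂ // PlaGood φ}
  | 0 => ⟨_, pla_good_one⟩
  | k + 1 => (pla_next (plaSeq k)).choose

private theorem plaSeq_h (k : ℕ) :
    ∀ z ∈ Om, z ≠ 0 → HasDerivAt (plaSeq (k + 1)).1 ((plaSeq k).1 z / z) z :=
  (pla_next (plaSeq k)).choose_spec.1

private theorem pla_logn {z : ℂ} (h : ‖z‖ ≤ 1 / 2) : ‖Complex.log (1 - z)‖ ≤ 3 / 2 * ‖z‖ := by
  have := Complex.norm_log_one_add_half_le_self (z := -z) (by rwa [norm_neg])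
  rwa [norm_neg, ← sub_eq_add_neg] at this

private theorem plaSeq_s (k : ℕ) : ∃ C : ℝ, ∀ z, ‖z‖ ≤ 1 / 2 → ‖(plaSeq k).1 z‖ ≤ C * ‖z‖ := by
  cases k with
  | zero =>
    refine ⟨3 / 2, fun z hz => ?_⟩
    show ‖-Complex.log (1 - z)‖ ≤ _
    rw [norm_neg]
    exact pla_logn hz
  | succ k => exact (pla_next (plaSeq k)).choose_spec.2

/-- `z / (1 - z)`, then `-log (1 - z)` and its iterated primitives of `φ z / z`. -/
theorem exists_holLi : Nonempty HolLi := by
  choose C hC using plaSeq_s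
  refine ⟨{
    l := fun k => match k with
      | 0 => fun z => z / (1 - z)
      | k + 1 => (plaSeq k).1
    l0 := fun z => rfl
    l1 := fun z => rfl
    h := ?_
    c := ?_
    C := fun k => match k with
      | 0 => 2
      | k + 1 => C k
    s := ?_ }⟩
  · intro k z hz h0
    cases k with
    | zero =>
      show HasDerivAt (fun z : ℂ => -Complex.log (1 - z)) (z / (1 - z) / z) z
      have h2 : HasDerivAt (fun z : ℂ => 1 - z) (-1) z := (hasDerivAt_id' z).const_sub 1
      have h3 := ((Complex.hasDerivAt_log hz).comp z h2).fun_neg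
      refine h3.congr_deriv ?_
      have h4 : 1 - z ≠ 0 := Complex.slitPlane_ne_zero hz
      field_simp
    | succ k => exact plaSeq_h k z hz h0
  · intro k z hz
    cases k with
    | zero =>
      show conj z / (1 - conj z) = conj (z / (1 - z))
      rw [map_div₀, map_sub, map_one]
    | succ k => exact (plaSeq k).2.2.2 z hz
  · intro k z hz
    cases k with
    | zero =>
      show ‖z / (1 - z)‖ ≤ 2 * ‖z‖
      have h1 : 1 / 2 ≤ ‖1 - z‖ := by
        have h2 := norm_add_le (1 - z) z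
        rw [sub_add_cancel, norm_one] at h2
        linarith
      rw [norm_div, div_le_iff₀ (by linarith)]
      nlinarith [norm_nonneg z]
    | succ k => exact hC k z hz

end Pool.Agent.F194.Y

end
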