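import Pool.Agent.Work.MP_f194bb_nt.Y.PolyA
import Pool.Agent.Work.MP_f194bb_nt.Y.NumA

/-!
# MP_f194bb_nt, odd n: single valued polylogarithms of all weights, derivatives and inversion
-/

set_option autoImplicit false

open scoped ComplexConjugate PeriodPair
open MeasureTheory Filter Topology

noncomputable section

namespace Pool.Agent.F194.Y

/-- The single valued polylogarithms of all weights without the estimates (`L k 1 = 0`). -/
structure PLD where
  L : ℕ → ℂ → ℝ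
  C : ℕ → ℝ
  d2 : ∀ z, z ≠ 0 → z ≠ 1 → HasFDerivAt (L 2)
    (Real.log ‖z‖ • il (z - 1)⁻¹ - Real.log ‖1 - z‖ • il z⁻¹) z
  d : ∀ k, 3 ≤ k → ∀ z, z ≠ 0 → z ≠ 1 → HasFDerivAt (L k)
    (((-1) ^ k * L (k - 1) z) • il z⁻¹ -
      (∑ i ∈ Finset.Icc 2 (k - 2), bt i * Real.log ‖z‖ ^ (i - 1) * L (k - i) z) • rl z⁻¹ -
      (bt (k - 1) * Real.log ‖z‖ ^ (k - 2)) •
        (Real.log ‖z‖ • rl (z - 1)⁻¹ - Real.log ‖1 - z‖ • rl z⁻¹)) z
  r : ∀ k, Even k → ∀ z, z.im = 0 → L k z = 0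
  n : ∀ k, 2 ≤ k → ∀ z, z ≠ 0 → L k z⁻¹ = (-1) ^ (k - 1) * L k z
  s : ∀ k z, z ≠ 0 → ‖z‖ ≤ 1 / 2 → |L k z| ≤ C k * ‖z‖ * (1 + |Real.log ‖z‖|) ^ k
  low : ∀ k, k < 2 → ∀ z, L k z = 0
  zero : ∀ k, L k 0 = 0
  one : ∀ k, L k 1 = 0

/-! ### real derivatives -/

theorem plb_re {f : ℂ → ℂ} {d z : ℂ} (h : HasDerivAt f d z) :
    HasFDerivAt (fun z => (f z).re) (rl d) z := by
  have h1 := Complex.reCLM.hasFDerivAt.comp z (h.hasFDerivAt.restrictScalars ℝ)
  refine h1.congr_fderiv ?_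
  ext v
  simp [mul_comm]

theorem plb_im {f : ℂ → ℂ} {d z : ℂ} (h : HasDerivAt f d z) :
    HasFDerivAt (fun z => (f z).im) (il d) z := by
  have h1 := Complex.imCLM.hasFDerivAt.comp z (h.hasFDerivAt.restrictScalars ℝ)
  refine h1.congr_fderiv ?_
  ext v
  simp [mul_comm]

theorem plb_log {z : ℂ} (hz : z ≠ 0) :
    HasFDerivAt (fun z : ℂ => Real.log ‖z‖) (rl z⁻¹) z := by
  have h1 : HasDerivAt (fun w : ℂ => Complex.log (w / z)) z⁻¹ z := by
    have h2 : HasDerivAt (fun w : ℂ => w / z) (1 / z) z := (hasDerivAt_id' z).div_const z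
    have h3 : HasDerivAt Complex.log (1 : ℂ)⁻¹ ((fun w : ℂ => w / z) z) := by
      show HasDerivAt Complex.log (1 : ℂ)⁻¹ (z / z)
      rw [div_self hz]
      exact Complex.hasDerivAt_log Complex.one_mem_slitPlane
    have h4 := HasDerivAt.comp (h₂ := Complex.log) (h := fun w : ℂ => w / z) z h3 h2
    refine h4.congr_deriv ?_
    simp
  have h5 := (plb_re h1).add_const (Real.log ‖z‖)
  refine h5.congr_of_eventuallyEq ?_
  filter_upwards [isOpen_ne.mem_nhds hz] with w hw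
  rw [Complex.log_re, norm_div, Real.log_div (norm_ne_zero_iff.2 hw) (norm_ne_zero_iff.2 hz)]
  ring

theorem plb_log1 {z : ℂ} (hz : z ≠ 1) :
    HasFDerivAt (fun z : ℂ => Real.log ‖1 - z‖) (rl (z - 1)⁻¹) z := by
  have h0 : 1 - z ≠ 0 := sub_ne_zero.2 hz.symm
  have h1 := plb_log h0
  have h2 : HasFDerivAt (fun z : ℂ => 1 - z) (-(ContinuousLinearMap.id ℝ ℂ)) z :=
    (hasFDerivAt_id z).const_sub 1
  have h3 := h1.comp z h2
  refine h3.congr_fderiv ?_
  ext v
  simp only [ContinuousLinearMap.comp_apply, rl_apply, ContinuousLinearMap.neg_apply,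
    ContinuousLinearMap.id_apply]
  have e : (1 - z)⁻¹ * -v = (z - 1)⁻¹ * v := by
    rw [← neg_sub z 1, inv_neg]
    ring
  rw [e]

theorem plb_arg {z : ℂ} (hz : z ∈ Om) :
    HasFDerivAt (fun z : ℂ => Complex.arg (1 - z)) (il (z - 1)⁻¹) z := by
  have h1 : HasDerivAt (fun z : ℂ => Complex.log (1 - z)) (z - 1)⁻¹ z := by
    have h2 : HasDerivAt (fun z : ℂ => 1 - z) (-1) z := (hasDerivAt_id' z).const_sub 1
    have h3 := (Complex.hasDerivAt_log hz).comp z h2
    refine h3.congr_deriv ?_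
    rw [← neg_sub z 1, inv_neg]
    ring
  have h4 := plb_im h1
  simpa only [Complex.log_im] using h4

/-! ### the formulas -/

theorem fb_zero : fb 0 = 1 := by simp [fb]

theorem fb_one : fb 1 = -1 := by
  have h : bernoulli 1 = -1 / 2 := bernoulli_one
  simp only [fb, h]
  norm_num

theorem fb_odd {m : ℕ} (h : ¬ Even m) (h1 : m ≠ 1) : fb m = 0 := by
  have ho : Odd m := Nat.not_even_iff_odd.1 h
  have hlt : 1 < m := by
    rcases ho with ⟨r, hr⟩
    omega
  have hb : bernoulli m = 0 := by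
    rw [bernoulli_eq_bernoulli'_of_ne_one h1]
    exact bernoulli'_eq_zero_of_odd ho hlt
  simp [fb, hb]

/-- real part for odd `k`, imaginary part for even `k` -/
def plP (k : ℕ) : ℂ →L[ℝ] ℝ := if Even k then Complex.imCLM else Complex.reCLM

theorem plP_even {k : ℕ} (h : Even k) (w : ℂ) : plP k w = w.im := by
  simp [plP, h]

theorem plP_odd {k : ℕ} (h : ¬ Even k) (w : ℂ) : plP k w = w.re := by
  simp [plP, h]

theorem plP_I {k : ℕ} (hk : 1 ≤ k) (w : ℂ) :
    plP k (Complex.I * w) = (-1) ^ k * plP (k - 1) w := by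
  by_cases h : Even k
  · have h' : ¬ Even (k - 1) := by
      intro h2
      rcases h with ⟨r, hr⟩
      rcases h2 with ⟨s, hs⟩
      omega
    rw [plP_even h, plP_odd h', h.neg_one_pow]
    simp
  · have ho : Odd k := Nat.not_even_iff_odd.1 h
    have h' : Even (k - 1) := by
      rcases ho with ⟨r, hr⟩
      exact ⟨r, by omega⟩
    rw [plP_odd h, plP_even h', ho.neg_one_pow]
    simp

theorem plP_shift {k i : ℕ} (hi : Even i) (hik : i ≤ k) : plP (k - i) = plP k := by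
  have h : Even (k - i) ↔ Even k := by
    rw [Nat.even_sub hik]
    simp [hi]
  simp only [plP, h]

theorem plP_norm (k : ℕ) (w : ℂ) : |plP k w| ≤ ‖w‖ := by
  by_cases h : Even k
  · rw [plP_even h]
    exact Complex.abs_im_le_norm w
  · rw [plP_odd h]
    exact Complex.abs_re_le_norm w

theorem plP_conj (k : ℕ) (hk : 1 ≤ k) (w : ℂ) : plP k (conj w) = (-1) ^ (k - 1) * plP k w := by
  by_cases h : Even k
  · have ho : Odd (k - 1) := by
      rcases h with ⟨r, hr⟩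
      exact ⟨r - 1, by omega⟩
    rw [plP_even h, plP_even h, ho.neg_one_pow]
    simp
  · have h' : Even (k - 1) := by
      rcases Nat.not_even_iff_odd.1 h with ⟨r, hr⟩
      exact ⟨r, by omega⟩
    rw [plP_odd h, plP_odd h, h'.neg_one_pow]
    simp

/-- the combinatorial identity for the derivative -/
theorem pl_comb (l : ℕ → ℂ) (a x y : ℝ) (K : ℕ) :
    ∑ j ∈ Finset.range (K + 1), ((fb j * a ^ j) • (l (K - j) * (x + y * Complex.I)) +
      (fb j * (j * a ^ (j - 1)) * x) • l (K + 1 - j)) =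
    -(∑ i ∈ Finset.Icc 2 K, (bt i * a ^ (i - 1) * x) •
      ∑ j ∈ Finset.range (K + 1 - i), (fb j * a ^ j) • l (K + 1 - i - j)) +
    y • (Complex.I * ∑ j ∈ Finset.range K, (fb j * a ^ j) • l (K - j)) +
    (fb K * a ^ K) • (l 0 * (x + y * Complex.I)) := by
  have h1 : ∑ j ∈ Finset.range K, ((fb (j + 1) * ((j + 1 : ℕ) * a ^ j) * x) • l (K - j) +
      (fb j * a ^ j * x) • l (K - j)) = -∑ j ∈ Finset.range K,
        ∑ i ∈ Finset.Icc 2 (j + 1), (bt i * fb (j + 1 - i) * a ^ j * x) • l (K - j) := by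
    rw [← Finset.sum_neg_distrib]
    refine Finset.sum_congr rfl fun j _ => ?_
    rw [← Finset.sum_smul, ← add_smul, ← neg_smul, ← Finset.sum_mul, ← Finset.sum_mul]
    congr 1
    have h := fb_rec (j + 1) (by omega)
    rw [Nat.add_sub_cancel] at h
    have h2 : ∑ i ∈ Finset.Icc 2 (j + 1), bt i * fb (j + 1 - i) =
        -(((j + 1 : ℕ) : ℝ) * fb (j + 1) + fb j) := by linarith
    rw [h2]
    ring
  have h2 : ∑ j ∈ Finset.range K, ∑ i ∈ Finset.Icc 2 (j + 1),
      (bt i * fb (j + 1 - i) * a ^ j * x) • l (K - j) = ∑ i ∈ Finset.Icc 2 K,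
        (bt i * a ^ (i - 1) * x) •
      ∑ j ∈ Finset.range (K + 1 - i), (fb j * a ^ j) • l (K + 1 - i - j) := by
    simp only [Finset.smul_sum]
    rw [Finset.sum_sigma', Finset.sum_sigma']
    refine Finset.sum_bij' (fun p _ => ⟨p.2, p.1 + 1 - p.2⟩) (fun p _ => ⟨p.1 + p.2 - 1, p.1⟩)
      ?_ ?_ ?_ ?_ ?_
    · rintro ⟨j, i⟩ h
      simp only [Finset.mem_sigma, Finset.mem_range, Finset.mem_Icc] at h ⊢
      omega
    · rintro ⟨i, j⟩ h
      simp only [Finset.mem_sigma, Finset.mem_range, Finset.mem_Icc] at h ⊢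
      omega
    · rintro ⟨j, i⟩ h
      simp only [Finset.mem_sigma, Finset.mem_range, Finset.mem_Icc] at h
      have e : i + (j + 1 - i) - 1 = j := by omega
      simp only [e]
    · rintro ⟨i, j⟩ h
      simp only [Finset.mem_sigma, Finset.mem_range, Finset.mem_Icc] at h
      have e : i + j - 1 + 1 - i = j := by omega
      simp only [e]
    · rintro ⟨j, i⟩ h
      simp only [Finset.mem_sigma, Finset.mem_range, Finset.mem_Icc] at h
      have e1 : K + 1 - i - (j + 1 - i) = K - j := by omega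
      have e2 : a ^ j = a ^ (i - 1) * a ^ (j + 1 - i) := by
        rw [← pow_add]
        congr 1
        omega
      simp only [e1, smul_smul, e2]
      congr 1
      ring
  have h3 : ∑ j ∈ Finset.range (K + 1), (fb j * (j * a ^ (j - 1)) * x) • l (K + 1 - j) =
      ∑ j ∈ Finset.range K, (fb (j + 1) * ((j + 1 : ℕ) * a ^ j) * x) • l (K - j) := by
    rw [Finset.sum_range_succ']
    simp
  have h4 : ∑ j ∈ Finset.range (K + 1), (fb j * a ^ j) • (l (K - j) * (x + y * Complex.I)) =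
      ∑ j ∈ Finset.range K, (fb j * a ^ j * x) • l (K - j) +
      y • (Complex.I * ∑ j ∈ Finset.range K, (fb j * a ^ j) • l (K - j)) +
      (fb K * a ^ K) • (l 0 * (x + y * Complex.I)) := by
    rw [Finset.sum_range_succ, Nat.sub_self, Finset.mul_sum, Finset.smul_sum,
      ← Finset.sum_add_distrib]
    congr 1
    refine Finset.sum_congr rfl fun j _ => ?_
    simp only [Complex.real_smul]
    push_cast
    ring
  rw [Finset.sum_add_distrib, h3, h4, ← h2]
  rw [Finset.sum_add_distrib] at h1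
  linear_combination h1

/-- `∑_{j<k} fb j log^j |z| Li_{k-j}(z)` -/
def plS (H : HolLi) (k : ℕ) (z : ℂ) : ℂ :=
  ∑ j ∈ Finset.range k, (fb j * Real.log ‖z‖ ^ j) • H.l (k - j) z

/-- the real functions -/
def plQ (H : HolLi) (k : ℕ) (z : ℂ) : ℝ := plP k (plS H k z)

variable (H : HolLi)

theorem plS_one (z : ℂ) : plS H 1 z = -Complex.log (1 - z) := by
  simp [plS, fb_zero, H.l1]

theorem plS_deriv (K : ℕ) {z : ℂ} (hz : z ∈ Om) (h0 : z ≠ 0) :
    ∃ D : ℂ →L[ℝ] ℂ, HasFDerivAt (plS H (K + 1)) D z ∧ ∀ v, D v =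
      -(∑ i ∈ Finset.Icc 2 K, (bt i * Real.log ‖z‖ ^ (i - 1) * rl z⁻¹ v) •
        plS H (K + 1 - i) z) +
      (il z⁻¹ v) • (Complex.I * plS H K z) +
      (fb K * Real.log ‖z‖ ^ K) • (-((z - 1)⁻¹ * v)) := by
  have hterm : ∀ j ∈ Finset.range (K + 1), HasFDerivAt
      (fun z : ℂ => (fb j * Real.log ‖z‖ ^ j) • H.l (K + 1 - j) z)
      ((fb j * Real.log ‖z‖ ^ j) • ContinuousLinearMap.mul ℝ ℂ (H.l (K - j) z / z) +
        (fb j • ((j * Real.log ‖z‖ ^ (j - 1)) • rl z⁻¹)).smulRight (H.l (K + 1 - j) z)) z := by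
    intro j hj
    have hj' : j ≤ K := Nat.lt_succ_iff.1 (Finset.mem_range.1 hj)
    have e : K + 1 - j = K - j + 1 := by omega
    have h1 : HasFDerivAt (fun z : ℂ => fb j * Real.log ‖z‖ ^ j)
        (fb j • ((j * Real.log ‖z‖ ^ (j - 1)) • rl z⁻¹)) z := by
      have h2 := ((plb_log h0).pow j).const_mul (fb j)
      refine h2.congr_fderiv ?_
      ext v
      simp
    have h3 : HasFDerivAt (fun z : ℂ => H.l (K + 1 - j) z)
        (ContinuousLinearMap.mul ℝ ℂ (H.l (K - j) z / z)) z := by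
      rw [e]
      refine ((H.h (K - j) z hz h0).hasFDerivAt.restrictScalars ℝ).congr_fderiv ?_
      ext v
      simp [mul_comm]
    exact h1.fun_smul h3
  refine ⟨_, HasFDerivAt.fun_sum hterm, fun v => ?_⟩
  have hu : z⁻¹ * v = ((z⁻¹ * v).re : ℂ) + ((z⁻¹ * v).im : ℂ) * Complex.I :=
    (Complex.re_add_im _).symm
  have h := pl_comb (fun m => H.l m z) (Real.log ‖z‖) (z⁻¹ * v).re (z⁻¹ * v).im K
  rw [← hu] at h
  have hl0 : H.l 0 z * (z⁻¹ * v) = -((z - 1)⁻¹ * v) := by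
    have h1 : 1 - z ≠ 0 := Complex.slitPlane_ne_zero hz
    have h2 : z - 1 ≠ 0 := by
      rw [← neg_sub]
      exact neg_ne_zero.2 h1
    have h3 : (z - 1)⁻¹ = -(1 - z)⁻¹ := by rw [← neg_sub 1 z, inv_neg]
    rw [H.l0, h3]
    field_simp
  simp only [hl0] at h
  have e : (∑ j ∈ Finset.range (K + 1), ((fb j * Real.log ‖z‖ ^ j) •
      ContinuousLinearMap.mul ℝ ℂ (H.l (K - j) z / z) +
      (fb j • ((j * Real.log ‖z‖ ^ (j - 1)) • rl z⁻¹)).smulRight (H.l (K + 1 - j) z))) v =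
      ∑ j ∈ Finset.range (K + 1), ((fb j * Real.log ‖z‖ ^ j) • (H.l (K - j) z * (z⁻¹ * v)) +
      (fb j * (j * Real.log ‖z‖ ^ (j - 1)) * (z⁻¹ * v).re) • H.l (K + 1 - j) z) := by
    rw [ContinuousLinearMap.sum_apply]
    refine Finset.sum_congr rfl fun j _ => ?_
    simp only [ContinuousLinearMap.add_apply, ContinuousLinearMap.smul_apply,
      ContinuousLinearMap.smulRight_apply, rl_apply, ContinuousLinearMap.mul_apply', smul_eq_mul]
    congr 1
    · congr 1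
      rw [div_eq_mul_inv]
      ring
    · congr 1
      ring
  rw [e, h]
  rfl

/-- the derivative in weight 2 -/
def plE2 (z : ℂ) : ℂ →L[ℝ] ℝ := Real.log ‖z‖ • il (z - 1)⁻¹ - Real.log ‖1 - z‖ • il z⁻¹

/-- the derivative in weight `k ≥ 3` -/
def plE (k : ℕ) (p : ℕ → ℝ) (z : ℂ) : ℂ →L[ℝ] ℝ :=
  ((-1) ^ k * p (k - 1)) • il z⁻¹ -
    (∑ i ∈ Finset.Icc 2 (k - 2), bt i * Real.log ‖z‖ ^ (i - 1) * p (k - i)) • rl z⁻¹ -
    (bt (k - 1) * Real.log ‖z‖ ^ (k - 2)) •
      (Real.log ‖z‖ • rl (z - 1)⁻¹ - Real.log ‖1 - z‖ • rl z⁻¹)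

theorem plE_congr {k : ℕ} (hk : 3 ≤ k) {p q : ℕ → ℝ} (h : ∀ m, 2 ≤ m → m < k → p m = q m)
    (z : ℂ) : plE k p z = plE k q z := by
  have h1 : p (k - 1) = q (k - 1) := h _ (by omega) (by omega)
  have h2 : ∑ i ∈ Finset.Icc 2 (k - 2), bt i * Real.log ‖z‖ ^ (i - 1) * p (k - i) =
      ∑ i ∈ Finset.Icc 2 (k - 2), bt i * Real.log ‖z‖ ^ (i - 1) * q (k - i) := by
    refine Finset.sum_congr rfl fun i hi => ?_
    have hi' := Finset.mem_Icc.1 hi
    rw [h (k - i) (by omega) (by omega)]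
  rw [plE, plE, h1, h2]

theorem plQ2_deriv {z : ℂ} (hz : z ∈ Om) (h0 : z ≠ 0) : HasFDerivAt (plQ H 2) (plE2 z) z := by
  obtain ⟨D, hD, hv⟩ := plS_deriv H 1 hz h0
  have h1 := (plP 2).hasFDerivAt.comp z hD
  refine h1.congr_fderiv ?_
  ext v
  have h2 : Even 2 := even_two
  have hlog : Complex.log (1 - z) = (Real.log ‖1 - z‖ : ℂ) + Complex.arg (1 - z) * Complex.I := rfl
  simp only [ContinuousLinearMap.comp_apply, hv, plS_one, plE2, plP_even h2, fb_one]
  simp [hlog]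
  ring

theorem plQ_deriv {k : ℕ} (hk : 3 ≤ k) {z : ℂ} (hz : z ∈ Om) (h0 : z ≠ 0) :
    HasFDerivAt (plQ H k) (plE k (fun m => plQ H m z) z) z := by
  obtain ⟨M, rfl⟩ : ∃ M, k = M + 2 := ⟨k - 2, by omega⟩
  have hM : 1 ≤ M := by omega
  obtain ⟨D, hD, hv⟩ := plS_deriv H (M + 1) hz h0
  have h1 := (plP (M + 2)).hasFDerivAt.comp z hD
  refine h1.congr_fderiv ?_
  ext v
  have e1 : M + 2 - 1 = M + 1 := rfl
  have e2 : M + 2 - 2 = M := rfl
  have e3 : M + 1 - 1 = M := rfl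
  have e4 : M + 1 + 1 = M + 2 := rfl
  have e5 : M + 2 - (M + 1) = 1 := by omega
  have hsum : ∑ i ∈ Finset.Icc 2 M, bt i * Real.log ‖z‖ ^ (i - 1) * rl z⁻¹ v *
      plP (M + 2) (plS H (M + 2 - i) z) = (∑ i ∈ Finset.Icc 2 M,
        bt i * Real.log ‖z‖ ^ (i - 1) * plQ H (M + 2 - i) z) * rl z⁻¹ v := by
    rw [Finset.sum_mul]
    refine Finset.sum_congr rfl fun i hi => ?_
    have hi' := Finset.mem_Icc.1 hi
    by_cases hev : Even i
    · rw [plQ, plP_shift hev (by omega : i ≤ M + 2)]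
      ring
    · rw [bt_odd hev]
      ring
  have htop : bt (M + 1) * plP (M + 2) (-Complex.log (1 - z)) =
      -(bt (M + 1) * Real.log ‖1 - z‖) := by
    by_cases hev : Even (M + 1)
    · have ho : ¬ Even (M + 2) := by
        rw [show M + 2 = (M + 1) + 1 from rfl, Nat.even_add_one]
        exact not_not.2 hev
      rw [plP_odd ho, Complex.neg_re, Complex.log_re]
      ring
    · rw [bt_odd hev]
      ring
  have hlast : fb (M + 1) * plP (M + 2) (-((z - 1)⁻¹ * v)) =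
      -(bt (M + 1) * rl (z - 1)⁻¹ v) := by
    by_cases hev : Even (M + 1)
    · have ho : ¬ Even (M + 2) := by
        rw [show M + 2 = (M + 1) + 1 from rfl, Nat.even_add_one]
        exact not_not.2 hev
      rw [plP_odd ho, Complex.neg_re, rl_apply, fb_even hev]
      ring
    · rw [bt_odd hev, fb_odd hev (by omega)]
      ring
  rw [map_neg] at hlast
  simp only [ContinuousLinearMap.comp_apply, hv, map_add, map_neg, map_sum, map_smul,
    smul_eq_mul]
  rw [Finset.sum_Icc_succ_top (by omega : 2 ≤ M + 1), e4, hsum, e5, plS_one,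
    plP_I (by omega : 1 ≤ M + 2), e1, e3]
  simp only [plE, e1, e2, ContinuousLinearMap.sub_apply, ContinuousLinearMap.smul_apply,
    smul_eq_mul]
  rw [show plP (M + 1) (plS H (M + 1) z) = plQ H (M + 1) z from rfl]
  rw [pow_succ (Real.log ‖z‖) M]
  linear_combination (-(Real.log ‖z‖ ^ M * rl z⁻¹ v)) * htop +
    (Real.log ‖z‖ ^ M * Real.log ‖z‖) * hlast

theorem plQ_derivE {k : ℕ} (hk : 2 ≤ k) {z : ℂ} (hz : z ∈ Om) (h0 : z ≠ 0) :
    HasFDerivAt (plQ H k) (if k = 2 then plE2 z else plE k (fun m => plQ H m z) z) z := by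
  by_cases h2 : k = 2
  · subst h2
    rw [if_pos rfl]
    exact plQ2_deriv H hz h0
  · rw [if_neg h2]
    exact plQ_deriv H (by omega) hz h0

/-! ### inversion -/

/-- the derivative of the inversion -/
def plI (z : ℂ) : ℂ →L[ℝ] ℂ := ContinuousLinearMap.mul ℝ ℂ (-(z ^ 2)⁻¹)

theorem plI_deriv {z : ℂ} (h0 : z ≠ 0) : HasFDerivAt (fun z : ℂ => z⁻¹) (plI z) z := by
  refine ((hasDerivAt_inv h0).hasFDerivAt.restrictScalars ℝ).congr_fderiv ?_
  ext v
  simp [plI, mul_comm]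

theorem plI_a {z : ℂ} (h0 : z ≠ 0) (v : ℂ) : (z⁻¹)⁻¹ * plI z v = -(z⁻¹ * v) := by
  show (z⁻¹)⁻¹ * (-(z ^ 2)⁻¹ * v) = _
  field_simp

theorem plI_b {z : ℂ} (h0 : z ≠ 0) (h1 : z ≠ 1) (v : ℂ) :
    (z⁻¹ - 1)⁻¹ * plI z v = (z - 1)⁻¹ * v - z⁻¹ * v := by
  show (z⁻¹ - 1)⁻¹ * (-(z ^ 2)⁻¹ * v) = _
  have h2 : z - 1 ≠ 0 := sub_ne_zero.2 h1
  have h3 : 1 - z ≠ 0 := sub_ne_zero.2 h1.symm
  have e : z⁻¹ - 1 = (1 - z) / z := by
    field_simp
  rw [e, inv_div]
  have e2 : (z - 1)⁻¹ = -(1 - z)⁻¹ := by rw [← neg_sub z 1, inv_neg, neg_neg]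
  rw [e2]
  field_simp
  ring

theorem plI_log (z : ℂ) : Real.log ‖z⁻¹‖ = -Real.log ‖z‖ := by
  rw [norm_inv, Real.log_inv]

theorem plI_log1 {z : ℂ} (h0 : z ≠ 0) (h1 : z ≠ 1) :
    Real.log ‖1 - z⁻¹‖ = Real.log ‖1 - z‖ - Real.log ‖z‖ := by
  have e : 1 - z⁻¹ = -(1 - z) / z := by
    field_simp
    ring
  rw [e, norm_div, norm_neg, Real.log_div (norm_ne_zero_iff.2 (sub_ne_zero.2 h1.symm))
    (norm_ne_zero_iff.2 h0)]

theorem plE2_inv {z : ℂ} (h0 : z ≠ 0) (h1 : z ≠ 1) : (plE2 z⁻¹).comp (plI z) = -plE2 z := by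
  ext v
  simp only [plE2, ContinuousLinearMap.comp_apply, ContinuousLinearMap.smul_apply,
    ContinuousLinearMap.sub_apply, ContinuousLinearMap.neg_apply, il_apply, plI_a h0,
    plI_b h0 h1, plI_log, plI_log1 h0 h1, smul_eq_mul, Complex.sub_im, Complex.neg_im]
  ring

theorem plE_inv {k : ℕ} (hk : 3 ≤ k) (p : ℕ → ℝ) {z : ℂ} (h0 : z ≠ 0) (h1 : z ≠ 1) :
    (plE k p z⁻¹).comp (plI z) =
      ((-1 : ℝ) ^ (k - 1)) • plE k (fun m => (-1) ^ (m - 1) * p m) z := by
  have hsum : ∑ i ∈ Finset.Icc 2 (k - 2), bt i * (-Real.log ‖z‖) ^ (i - 1) * p (k - i) =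
      -((-1 : ℝ) ^ (k - 1) * ∑ i ∈ Finset.Icc 2 (k - 2), bt i * Real.log ‖z‖ ^ (i - 1) *
        ((-1) ^ (k - i - 1) * p (k - i))) := by
    rw [Finset.mul_sum, ← Finset.sum_neg_distrib]
    refine Finset.sum_congr rfl fun i hi => ?_
    have hi' := Finset.mem_Icc.1 hi
    by_cases hev : Even i
    · have ho : Odd (i - 1) := by
        rcases hev with ⟨r, hr⟩
        exact ⟨r - 1, by omega⟩
      have hs : (-1 : ℝ) ^ (k - 1) * (-1) ^ (k - i - 1) = 1 := by
        rw [← pow_add]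
        refine Even.neg_one_pow ?_
        rcases hev with ⟨r, hr⟩
        exact ⟨k - 1 - r, by omega⟩
      rw [ho.neg_pow]
      linear_combination (bt i * Real.log ‖z‖ ^ (i - 1) * p (k - i)) * hs
    · rw [bt_odd hev]
      ring
  have hlast : bt (k - 1) * (-Real.log ‖z‖) ^ (k - 2) =
      (-1 : ℝ) ^ k * (bt (k - 1) * Real.log ‖z‖ ^ (k - 2)) := by
    by_cases hev : Even (k - 1)
    · have ho : Odd (k - 2) := by
        rcases hev with ⟨r, hr⟩
        exact ⟨r - 1, by omega⟩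
      have ho2 : Odd k := by
        rcases hev with ⟨r, hr⟩
        exact ⟨r, by omega⟩
      rw [ho.neg_pow, ho2.neg_one_pow]
      ring
    · rw [bt_odd hev]
      ring
  have hk1 : (-1 : ℝ) ^ k = -((-1) ^ (k - 1)) := by
    obtain ⟨m, rfl⟩ : ∃ m, k = m + 1 := ⟨k - 1, by omega⟩
    rw [Nat.add_sub_cancel, pow_succ]
    ring
  have hk2 : (-1 : ℝ) ^ (k - 1 - 1) = -((-1) ^ (k - 1)) := by
    obtain ⟨m, rfl⟩ : ∃ m, k = m + 2 := ⟨k - 2, by omega⟩
    rw [show m + 2 - 1 - 1 = m from rfl, show m + 2 - 1 = m + 1 from rfl, pow_succ]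
    ring
  have hk3 : (-1 : ℝ) ^ (k - 1) * (-1) ^ (k - 1) = 1 := by
    rw [← mul_pow]
    norm_num
  ext v
  simp only [plE, ContinuousLinearMap.comp_apply, ContinuousLinearMap.smul_apply,
    ContinuousLinearMap.sub_apply, il_apply, rl_apply, plI_a h0,
    plI_b h0 h1, plI_log, plI_log1 h0 h1, smul_eq_mul, Complex.sub_re, Complex.neg_im,
    Complex.neg_re, hsum, hlast, hk1, hk2]
  generalize (∑ i ∈ Finset.Icc 2 (k - 2), bt i * Real.log ‖z‖ ^ (i - 1) *
        ((-1) ^ (k - i - 1) * p (k - i))) = S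
  linear_combination (-((-1 : ℝ) ^ (k - 1) * p (k - 1) * (z⁻¹ * v).im)) * hk3

/-! ### complex conjugation -/

theorem plQ_conj (k : ℕ) (hk : 1 ≤ k) {z : ℂ} (hz : z ∈ Om) :
    plQ H k (conj z) = (-1) ^ (k - 1) * plQ H k z := by
  have h : plS H k (conj z) = conj (plS H k z) := by
    rw [plS, plS, map_sum]
    refine Finset.sum_congr rfl fun j _ => ?_
    rw [H.c _ z hz, Complex.norm_conj, Complex.real_smul, Complex.real_smul, map_mul,
      Complex.conj_ofReal]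
  rw [plQ, h, plP_conj k hk]
  rfl

theorem plQ_real {k : ℕ} (hk : Even k) {z : ℂ} (hz : z ∈ Om) (h : z.im = 0) :
    plQ H k z = 0 := by
  rcases Nat.eq_zero_or_pos k with h0 | h0
  · subst h0
    simp [plQ, plS]
  have e : conj z = z := Complex.conj_eq_iff_im.2 h
  have h1 := plQ_conj H k h0 hz
  have ho : Odd (k - 1) := by
    rcases hk with ⟨r, hr⟩
    exact ⟨r - 1, by omega⟩
  rw [e, ho.neg_one_pow] at h1
  linarith

/-! ### the domain `ℂ ∖ [0, ∞)` -/

/-- `ℂ ∖ [0, ∞)` -/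
def OmN : Set ℂ := {z | -z ∈ Complex.slitPlane}

theorem plN_isOpen : IsOpen OmN := Complex.isOpen_slitPlane.preimage continuous_neg

theorem plN_preconnected : IsPreconnected OmN := by
  have h : OmN = (fun z : ℂ => -z) '' Complex.slitPlane := by
    ext z
    constructor
    · intro hz
      exact ⟨-z, hz, neg_neg z⟩
    · rintro ⟨w, hw, rfl⟩
      show - -w ∈ Complex.slitPlane
      rwa [neg_neg]
  rw [h]
  have h1 : IsPreconnected Complex.slitPlane :=
    (Complex.starConvex_one_slitPlane.isPathConnected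
      Complex.one_mem_slitPlane).isConnected.isPreconnected
  exact h1.image _ continuous_neg.continuousOn

theorem plN_ne {z : ℂ} (hz : z ∈ OmN) : z ≠ 0 ∧ z ≠ 1 ∧ z ∈ Om := by
  have h : 0 < (-z).re ∨ (-z).im ≠ 0 := Complex.mem_slitPlane_iff.1 hz
  simp only [Complex.neg_re, Complex.neg_im, neg_ne_zero] at h
  refine ⟨?_, ?_, ?_⟩
  · rintro rfl
    simp at h
  · rintro rfl
    simp at h
    linarith
  · show 1 - z ∈ Complex.slitPlane
    rw [Complex.mem_slitPlane_iff]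
    simp only [Complex.sub_re, Complex.one_re, Complex.sub_im, Complex.one_im]
    rcases h with h | h
    · left
      linarith
    · right
      intro h'
      apply h
      linarith

theorem plN_inv {z : ℂ} (hz : z ∈ OmN) : z⁻¹ ∈ OmN := by
  have h : 0 < (-z).re ∨ (-z).im ≠ 0 := Complex.mem_slitPlane_iff.1 hz
  have h0 := (plN_ne hz).1
  show -z⁻¹ ∈ Complex.slitPlane
  have hp : 0 < Complex.normSq z := Complex.normSq_pos.2 h0
  rw [Complex.mem_slitPlane_iff]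
  simp only [Complex.neg_re, Complex.neg_im, neg_ne_zero, Complex.inv_re, Complex.inv_im] at h ⊢
  rcases h with h | h
  · left
    rw [← neg_div]
    exact div_pos h hp
  · right
    exact div_ne_zero (neg_ne_zero.2 h) hp.ne'

theorem plN_one : (-1 : ℂ) ∈ OmN := by
  show -(-1 : ℂ) ∈ Complex.slitPlane
  rw [neg_neg]
  exact Complex.one_mem_slitPlane

theorem plN_const {f : ℂ → ℝ} (hf : ∀ z ∈ OmN, HasFDerivAt f (0 : ℂ →L[ℝ] ℝ) z)
    (h1 : f (-1) = 0) {z : ℂ} (hz : z ∈ OmN) : f z = 0 := by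
  rw [← h1]
  refine plN_isOpen.is_const_of_fderiv_eq_zero (𝕜 := ℝ) plN_preconnected
    (fun z hz => (hf z hz).differentiableAt.differentiableWithinAt) ?_ hz plN_one
  intro z hz
  exact (hf z hz).fderiv

theorem plQ_inv : ∀ k, 2 ≤ k → ∀ z ∈ OmN, plQ H k z⁻¹ = (-1) ^ (k - 1) * plQ H k z := by
  intro k
  induction k using Nat.strong_induction_on with
  | _ k ih =>
    intro hk z hz
    have hk3 : (-1 : ℝ) ^ (k - 1) * (-1) ^ (k - 1) = 1 := by
      rw [← mul_pow]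
      norm_num
    have h : plQ H k z - (-1) ^ (k - 1) * plQ H k z⁻¹ = 0 := by
      refine plN_const (f := fun z => plQ H k z - (-1) ^ (k - 1) * plQ H k z⁻¹) ?_ ?_ hz
      · intro w hw
        obtain ⟨h0, h1, h2⟩ := plN_ne hw
        obtain ⟨k0, k1, k2⟩ := plN_ne (plN_inv hw)
        have e1 := plQ_derivE H hk h2 h0
        have e2 := ((plQ_derivE H hk k2 k0).comp w (plI_deriv h0)).const_mul ((-1) ^ (k - 1))
        refine (e1.fun_sub e2).congr_fderiv ?_
        by_cases hk2 : k = 2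
        · subst hk2
          rw [if_pos rfl, if_pos rfl, plE2_inv h0 h1]
          norm_num
        · rw [if_neg hk2, if_neg hk2, plE_inv (by omega) _ h0 h1, smul_smul, hk3, one_smul,
            sub_eq_zero]
          refine plE_congr (by omega) (fun m hm1 hm2 => ?_) w
          have hm3 : (-1 : ℝ) ^ (m - 1) * (-1) ^ (m - 1) = 1 := by
            rw [← mul_pow]
            norm_num
          rw [ih m hm2 hm1 w hw, ← mul_assoc, hm3, one_mul]
      · by_cases hev : Even k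
        · have e := plQ_real H hev (plN_ne plN_one).2.2 (by simp)
          simp [e]
        · have hev' : Even (k - 1) := by
            rcases Nat.not_even_iff_odd.1 hev with ⟨r, hr⟩
            exact ⟨r, by omega⟩
          simp [hev'.neg_one_pow]
    have h4 : (-1 : ℝ) ^ (k - 1) * (plQ H k z - (-1) ^ (k - 1) * plQ H k z⁻¹) = 0 := by
      rw [h, mul_zero]
    rw [mul_sub, ← mul_assoc, hk3, one_mul] at h4
    linarith

/-! ### patching -/

theorem plb_mem {z : ℂ} (h : ‖z‖ ≤ 1) (h1 : z ≠ 1) : z ∈ Om := by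
  show 1 - z ∈ Complex.slitPlane
  rw [Complex.mem_slitPlane_iff]
  by_contra hcon
  push Not at hcon
  obtain ⟨h2, h3⟩ := hcon
  simp only [Complex.sub_re, Complex.one_re, Complex.sub_im, Complex.one_im, zero_sub,
    neg_eq_zero] at h2 h3
  have h4 : z.re ≤ 1 := (le_abs_self _).trans ((Complex.abs_re_le_norm z).trans h)
  apply h1
  apply Complex.ext
  · simp
    linarith
  · simp [h3]

theorem plb_memN {z : ℂ} (h : ‖z‖ = 1) (h1 : z ≠ 1) : z ∈ OmN := by
  show -z ∈ Complex.slitPlane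
  rw [Complex.mem_slitPlane_iff]
  by_contra hcon
  push Not at hcon
  obtain ⟨h2, h3⟩ := hcon
  simp only [Complex.neg_re, Complex.neg_im, neg_eq_zero] at h2 h3
  have h4 : ‖z‖ = |z.re| := by
    have e : z = (z.re : ℂ) := by
      apply Complex.ext
      · simp
      · simp [h3]
    rw [e, Complex.norm_real, Real.norm_eq_abs]
    simp
  rw [h, abs_of_nonneg (by linarith)] at h4
  apply h1
  apply Complex.ext
  · simp [← h4]
  · simp [h3]

/-- the single valued polylogarithm -/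
def plL (k : ℕ) (z : ℂ) : ℝ :=
  open Classical in if k < 2 ∨ z = 1 then 0 else if ‖z‖ ≤ 1 then plQ H k z
    else (-1) ^ (k - 1) * plQ H k z⁻¹

theorem plL_in {k : ℕ} (hk : 2 ≤ k) {z : ℂ} (h : ‖z‖ ≤ 1) (h1 : z ≠ 1) :
    plL H k z = plQ H k z := by
  rw [plL, if_neg (not_or.2 ⟨by omega, h1⟩), if_pos h]

theorem plb_ne_one {z : ℂ} (h : 1 < ‖z‖) : z ≠ 1 := by
  rintro rfl
  simp at h

theorem plL_out {k : ℕ} (hk : 2 ≤ k) {z : ℂ} (h : 1 < ‖z‖) :
    plL H k z = (-1) ^ (k - 1) * plQ H k z⁻¹ := by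
  rw [plL, if_neg (not_or.2 ⟨by omega, plb_ne_one h⟩), if_neg h.not_ge]

theorem plL_N {k : ℕ} (hk : 2 ≤ k) {z : ℂ} (h : z ∈ OmN) : plL H k z = plQ H k z := by
  rcases le_or_gt ‖z‖ 1 with h1 | h1
  · exact plL_in H hk h1 (plN_ne h).2.1
  · rw [plL_out H hk h1, plQ_inv H k hk z h, ← mul_assoc, ← mul_pow]
    norm_num

theorem plL_one (k : ℕ) : plL H k 1 = 0 := by
  rw [plL, if_pos (Or.inr rfl)]

theorem plL_low {k : ℕ} (hk : k < 2) (z : ℂ) : plL H k z = 0 := by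
  rw [plL, if_pos (Or.inl hk)]

/-- points of the closed disk other than `0, 1` have a neighbourhood where the formulas hold -/
theorem plb_nhds {L Q : ℂ → ℝ} (hin : ∀ z, ‖z‖ ≤ 1 → z ≠ 1 → L z = Q z)
    (hN : ∀ z, z ∈ OmN → L z = Q z) {z : ℂ} (h : ‖z‖ ≤ 1) (h1 : z ≠ 1) : L =ᶠ[𝓝 z] Q := by
  rcases h.lt_or_eq with h2 | h2
  · have ho : IsOpen {w : ℂ | ‖w‖ < 1} := isOpen_lt continuous_norm continuous_const
    filter_upwards [ho.mem_nhds h2] with w hw
    refine hin w (le_of_lt hw) ?_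
    rintro rfl
    simp at hw
  · filter_upwards [plN_isOpen.mem_nhds (plb_memN h2 h1)] with w hw
    exact hN w hw

theorem plb_inv_lt {z : ℂ} (h : 1 < ‖z‖) : ‖z⁻¹‖ < 1 := by
  rw [norm_inv]
  exact inv_lt_one_of_one_lt₀ h

theorem plb_inv_mem {z : ℂ} (h : 1 < ‖z‖) : z⁻¹ ∈ Om ∧ z⁻¹ ≠ 0 ∧ z⁻¹ ≠ 1 ∧ z ≠ 0 ∧ z ≠ 1 := by
  have h0 : z ≠ 0 := by
    rintro rfl
    simp at h
    linarith
  have h1 := plb_ne_one h
  have h2 : z⁻¹ ≠ 1 := by
    intro h'
    exact h1 (inv_eq_one.1 h')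
  exact ⟨plb_mem (plb_inv_lt h).le h2, inv_ne_zero h0, h2, h0, h1⟩

theorem plL_deriv {k : ℕ} (hk : 2 ≤ k) {z : ℂ} (h0 : z ≠ 0) (h1 : z ≠ 1) :
    HasFDerivAt (plL H k) (if k = 2 then plE2 z else plE k (fun m => plL H m z) z) z := by
  rcases le_or_gt ‖z‖ 1 with h | h
  · have e : (if k = 2 then plE2 z else plE k (fun m => plL H m z) z) =
        (if k = 2 then plE2 z else plE k (fun m => plQ H m z) z) := by
      split_ifs with h2
      · rfl
      · exact plE_congr (by omega) (fun m hm1 hm2 => plL_in H hm1 h h1) z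
    rw [e]
    exact (plQ_derivE H hk (plb_mem h h1) h0).congr_of_eventuallyEq
      (plb_nhds (fun z => plL_in H hk) (fun z => plL_N H hk) h h1)
  · obtain ⟨k1, k2, k3, k4, k5⟩ := plb_inv_mem h
    have e2 := ((plQ_derivE H hk k1 k2).comp z (plI_deriv h0)).const_mul ((-1) ^ (k - 1))
    have hk3 : (-1 : ℝ) ^ (k - 1) * (-1) ^ (k - 1) = 1 := by
      rw [← mul_pow]
      norm_num
    have ho : IsOpen {w : ℂ | 1 < ‖w‖} := isOpen_lt continuous_const continuous_norm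
    have e3 : (-1 : ℝ) ^ (k - 1) • (if k = 2 then plE2 z⁻¹ else
        plE k (fun m => plQ H m z⁻¹) z⁻¹).comp (plI z) =
        (if k = 2 then plE2 z else plE k (fun m => plL H m z) z) := by
      split_ifs with h2
      · subst h2
        rw [plE2_inv h0 h1]
        norm_num
      · rw [plE_inv (by omega) _ h0 h1, smul_smul, hk3, one_smul]
        exact plE_congr (by omega) (fun m hm1 hm2 => (plL_out H hm1 h).symm) z
    rw [e3] at e2
    refine e2.congr_of_eventuallyEq ?_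
    filter_upwards [ho.mem_nhds h] with w hw
    exact plL_out H hk hw

/-! ### the symmetries -/

theorem plb_inv_conj {z : ℂ} (h : ‖z‖ = 1) : z⁻¹ = conj z := by
  rw [Complex.inv_def, Complex.normSq_eq_norm_sq, h]
  simp

theorem plL_n {k : ℕ} (hk : 2 ≤ k) {z : ℂ} (h0 : z ≠ 0) :
    plL H k z⁻¹ = (-1) ^ (k - 1) * plL H k z := by
  by_cases h1 : z = 1
  · subst h1
    rw [inv_one, plL_one, mul_zero]
  have h1' : z⁻¹ ≠ 1 := fun h' => h1 (inv_eq_one.1 h')
  rcases lt_trichotomy ‖z‖ 1 with h | h | h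
  · have h2 : 1 < ‖z⁻¹‖ := by
      rw [norm_inv]
      exact (one_lt_inv₀ (norm_pos_iff.2 h0)).2 h
    rw [plL_out H hk h2, inv_inv, plL_in H hk h.le h1]
  · have h2 : ‖z⁻¹‖ ≤ 1 := by
      rw [norm_inv, h, inv_one]
    rw [plL_in H hk h2 h1', plL_in H hk h.le h1, plb_inv_conj h,
      plQ_conj H k (by omega) (plb_mem h.le h1)]
  · have h2 : ‖z⁻¹‖ ≤ 1 := (plb_inv_lt h).le
    rw [plL_in H hk h2 h1', plL_out H hk h, ← mul_assoc, ← mul_pow]
    norm_num

theorem plL_real {k : ℕ} (hk : Even k) {z : ℂ} (hz : z.im = 0) : plL H k z = 0 := by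
  by_cases hk2 : k < 2
  · exact plL_low H hk2 z
  have hk3 : 2 ≤ k := by omega
  by_cases h1 : z = 1
  · rw [h1, plL_one]
  rcases le_or_gt ‖z‖ 1 with h | h
  · rw [plL_in H hk3 h h1, plQ_real H hk (plb_mem h h1) hz]
  · rw [plL_out H hk3 h, plQ_real H hk (plb_inv_mem h).1 (by rw [Complex.inv_im, hz]; simp),
      mul_zero]

/-! ### the estimates -/

theorem plb_half {z : ℂ} (h : ‖z‖ ≤ 1 / 2) : ‖z‖ ≤ 1 ∧ z ≠ 1 := by
  refine ⟨by linarith, ?_⟩
  rintro rfl
  simp at h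
  linarith

theorem plb_l0 (m : ℕ) : H.l m 0 = 0 := by
  have h1 := H.s m 0 (by simp)
  rw [norm_zero, mul_zero] at h1
  exact norm_le_zero_iff.1 h1

/-- the constant of the estimate near `0` -/
def plC (k : ℕ) : ℝ := ∑ j ∈ Finset.range k, |fb j| * |H.C (k - j)|

theorem plC_nonneg (k : ℕ) : 0 ≤ plC H k :=
  Finset.sum_nonneg fun _ _ => mul_nonneg (abs_nonneg _) (abs_nonneg _)

theorem plL_s (k : ℕ) {z : ℂ} (h : ‖z‖ ≤ 1 / 2) :
    |plL H k z| ≤ plC H k * ‖z‖ * (1 + |Real.log ‖z‖|) ^ k := by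
  have ha : 0 ≤ |Real.log ‖z‖| := abs_nonneg _
  by_cases hk2 : k < 2
  · rw [plL_low H hk2, abs_zero]
    exact mul_nonneg (mul_nonneg (plC_nonneg H k) (norm_nonneg _)) (by positivity)
  rw [plL_in H (by omega) (plb_half h).1 (plb_half h).2, plQ]
  refine (plP_norm k _).trans ?_
  rw [plS, plC, Finset.sum_mul, Finset.sum_mul]
  refine (norm_sum_le _ _).trans (Finset.sum_le_sum fun j hj => ?_)
  have hj' := Finset.mem_range.1 hj
  rw [norm_smul, Real.norm_eq_abs, abs_mul, abs_pow]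
  have h1 : ‖H.l (k - j) z‖ ≤ |H.C (k - j)| * ‖z‖ :=
    (H.s (k - j) z h).trans (mul_le_mul_of_nonneg_right (le_abs_self _) (norm_nonneg _))
  have h2 : |Real.log ‖z‖| ^ j ≤ (1 + |Real.log ‖z‖|) ^ k := by
    calc |Real.log ‖z‖| ^ j ≤ (1 + |Real.log ‖z‖|) ^ j := pow_le_pow_left₀ ha (by linarith) j
      _ ≤ (1 + |Real.log ‖z‖|) ^ k := pow_le_pow_right₀ (by linarith) hj'.le
  calc |fb j| * |Real.log ‖z‖| ^ j * ‖H.l (k - j) z‖
      ≤ |fb j| * (1 + |Real.log ‖z‖|) ^ k * (|H.C (k - j)| * ‖z‖) := by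
        gcongr
    _ = _ := by ring

theorem plL_zero (k : ℕ) : plL H k 0 = 0 := by
  have h := plL_s H k (z := 0) (by simp)
  rw [norm_zero, mul_zero, zero_mul] at h
  exact abs_nonpos_iff.1 h

/-- On `Om`: `L_k = Re (k odd) or Im (k even) of ∑_{j<k} fb j log^j ‖z‖ Li_{k-j}(z)`, and for
`‖z‖ > 1` the inversion formula (both descriptions agree on `ℂ ∖ [0, ∞)`: same derivative, same
value at `-1`). -/
theorem exists_PLD : Nonempty PLD := by
  obtain ⟨H⟩ := exists_holLi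
  exact ⟨{
    L := plL H
    C := plC H
    d2 := fun z h0 h1 => by
      have h := plL_deriv H le_rfl h0 h1
      rw [if_pos rfl] at h
      exact h
    d := fun k hk z h0 h1 => by
      have h := plL_deriv H (by omega : 2 ≤ k) h0 h1
      rw [if_neg (by omega : ¬ k = 2)] at h
      exact h
    r := fun k hk z hz => plL_real H hk hz
    n := fun k hk z h0 => plL_n H hk h0
    s := fun k z _ h => plL_s H k h
    low := fun k hk z => plL_low H hk z
    zero := plL_zero H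
    one := plL_one H }⟩

end Pool.Agent.F194.Y

end
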