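import Pool.Agent.Work.MP_f194bb_nt.Y.Closed
import Pool.Agent.Work.MP_f194bb_nt.Y.Cusp

/-!
# MP_f194bb_nt, odd n: the integral over horizontal lines
-/

set_option autoImplicit false

open scoped ComplexConjugate PeriodPair
open MeasureTheory Filter Topology

noncomputable section

namespace Pool.Agent.F194.Y

variable {L : PeriodPair} {P : PLs} {q : ℕ} {ι : Type} [Fintype ι] (S : Sys L P q ι)

private theorem om1 (hL : RL L) : (L.ω₁.re : ℂ) = L.ω₁ :=
  Complex.ext (Complex.ofReal_re _) (by rw [Complex.ofReal_im, hL.re1])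

/-- `(t, y) ↦ t + y I` -/
private def ch : ℝ × ℝ →L[ℝ] ℂ :=
  Complex.ofRealCLM.comp (ContinuousLinearMap.fst ℝ ℝ ℝ) +
    ((ContinuousLinearMap.snd ℝ ℝ ℝ).smulRight Complex.I)

private theorem ch_apply (p : ℝ × ℝ) : ch p = p.1 + p.2 * Complex.I := by
  simp [ch]

/-- divergence theorem in a strip without cusps -/
theorem ri_loc (hL : RL L) (hq : Even q) (hq2 : 2 ≤ q) {y y' : ℝ} (h : y ≤ y')
    (hC : ∀ z ∈ S.C, z.im < y ∨ y' < z.im) : ri S y = ri S y' := by
  have hcs : ∀ p : ℝ × ℝ, p.2 ∈ Set.Icc y y' → ch p ∉ S.C := by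
    intro p hp hc
    have him : (ch p).im = p.2 := by simp [ch_apply]
    rcases hC _ hc with h1 | h1
    · rw [him] at h1
      exact absurd hp.1 (not_le.2 h1)
    · rw [him] at h1
      exact absurd hp.2 (not_le.2 h1)
  have dR : ∀ p : ℝ × ℝ, p.2 ∈ Set.Icc y y' →
      HasFDerivAt (fun p => Rx S (ch p)) ((fderiv ℝ (Rx S) (ch p)).comp ch) p := fun p hp =>
    (((Rx_cd S (hcs p hp)).differentiableAt (by norm_num)).hasFDerivAt).comp p ch.hasFDerivAt
  have dS : ∀ p : ℝ × ℝ, p.2 ∈ Set.Icc y y' →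
      HasFDerivAt (fun p => -Ry S (ch p)) (-((fderiv ℝ (Ry S) (ch p)).comp ch)) p :=
    fun p hp => ((((Ry_cd S (hcs p hp)).differentiableAt (by norm_num)).hasFDerivAt).comp p
      ch.hasFDerivAt).neg
  have mem : ∀ p : ℝ × ℝ, p ∈ Set.uIcc (0 : ℝ) L.ω₁.re ×ˢ Set.uIcc y y' → p.2 ∈ Set.Icc y y' :=
    fun p hp => by
      have := hp.2
      rwa [Set.uIcc_of_le h] at this
  have mem' : ∀ p : ℝ × ℝ, p ∈ Set.Ioo (min (0 : ℝ) L.ω₁.re) (max (0 : ℝ) L.ω₁.re) ×ˢ
      Set.Ioo (min y y') (max y y') \ ∅ → p.2 ∈ Set.Icc y y' := fun p hp => by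
    have := hp.1.2
    rw [min_eq_left h, max_eq_right h] at this
    exact Set.Ioo_subset_Icc_self this
  have hz : ∀ p : ℝ × ℝ, p.2 ∈ Set.Icc y y' →
      (-((fderiv ℝ (Ry S) (ch p)).comp ch)) (1, 0) +
        ((fderiv ℝ (Rx S) (ch p)).comp ch) (0, 1) = 0 := by
    intro p hp
    have e1 : ch (1, 0) = 1 := by simp [ch_apply]
    have e2 : ch (0, 1) = Complex.I := by simp [ch_apply]
    rw [neg_apply, ContinuousLinearMap.comp_apply,
      ContinuousLinearMap.comp_apply, e1, e2, closed S hq hq2 (hcs p hp)]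
    ring
  have key := integral2_divergence_prod_of_hasFDerivAt_off_countable
    (fun p => -Ry S (ch p)) (fun p => Rx S (ch p))
    (fun p => -((fderiv ℝ (Ry S) (ch p)).comp ch))
    (fun p => (fderiv ℝ (Rx S) (ch p)).comp ch) 0 y L.ω₁.re y' ∅ Set.countable_empty
    (fun p hp => (dS p (mem p hp)).continuousAt.continuousWithinAt)
    (fun p hp => (dR p (mem p hp)).continuousAt.continuousWithinAt)
    (fun p hp => dS p (mem' p hp)) (fun p hp => dR p (mem' p hp)) ?_
  · have z0 : (∫ x in (0 : ℝ)..L.ω₁.re, ∫ t in y..y',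
        (-((fderiv ℝ (Ry S) (ch (x, t))).comp ch)) (1, 0) +
        ((fderiv ℝ (Rx S) (ch (x, t))).comp ch) (0, 1)) = 0 := by
      have : ∀ x : ℝ, (∫ t in y..y',
        (-((fderiv ℝ (Ry S) (ch (x, t))).comp ch)) (1, 0) +
        ((fderiv ℝ (Rx S) (ch (x, t))).comp ch) (0, 1)) = 0 := fun x => by
        rw [intervalIntegral.integral_congr (g := fun _ => (0 : ℝ))]
        · simp
        · intro t ht
          rw [Set.uIcc_of_le h] at ht
          exact hz (x, t) ht
      simp only [this, intervalIntegral.integral_zero]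
    have per : (∫ t in y..y', -Ry S (ch (L.ω₁.re, t))) = ∫ t in y..y', -Ry S (ch (0, t)) := by
      refine intervalIntegral.integral_congr fun t _ => ?_
      have := Ry_per S ⟨L.ω₁, L.ω₁_mem_lattice⟩ (ch (0, t))
      have e : ch (L.ω₁.re, t) = ch (0, t) + L.ω₁ := by
        rw [ch_apply, ch_apply]
        simp only [Complex.ofReal_zero, zero_add, om1 hL]
        ring
      show -Ry S (ch (L.ω₁.re, t)) = -Ry S (ch (0, t))
      rw [e, this]
    have e1 : ri S y = ∫ t in (0 : ℝ)..L.ω₁.re, Rx S (ch (t, y)) := by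
      unfold ri
      simp only [ch_apply]
    have e2 : ri S y' = ∫ t in (0 : ℝ)..L.ω₁.re, Rx S (ch (t, y')) := by
      unfold ri
      simp only [ch_apply]
    rw [z0, per] at key
    rw [e1, e2]
    linarith
  · refine (integrableOn_zero (α := ℝ × ℝ) (ε' := ℝ)).congr_fun (fun p hp => (hz p (mem p hp)).symm) ?_
    exact measurableSet_uIcc.prod measurableSet_uIcc

private theorem shift_re (hL : RL L) {z : ℂ} (hz : z ∈ S.C) :
    ∃ w ∈ S.C, w.im = z.im ∧ w.re ∈ Set.Icc (0 : ℝ) L.ω₁.re := by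
  set m : ℤ := ⌊z.re / L.ω₁.re⌋ with hm
  have hl : (m : ℂ) * L.ω₁ ∈ L.lattice :=
    PeriodPair.mem_lattice.2 ⟨m, 0, by simp⟩
  have hl' : -((m : ℂ) * L.ω₁) ∈ L.lattice := neg_mem hl
  refine ⟨z + -((m : ℂ) * L.ω₁), (S.per ⟨_, hl'⟩ z).2 hz, ?_, ?_⟩
  · simp [hL.re1]
  · have e : (z + -((m : ℂ) * L.ω₁)).re = z.re - m * L.ω₁.re := by
      simp [sub_eq_add_neg]
    have h0 := hL.pos1
    have h1 : (m : ℝ) ≤ z.re / L.ω₁.re := Int.floor_le _
    have h2 : z.re / L.ω₁.re < m + 1 := Int.lt_floor_add_one _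
    rw [le_div_iff₀ h0] at h1
    rw [div_lt_iff₀ h0] at h2
    rw [e]
    constructor
    · linarith
    · nlinarith

/-- the heights of the cusps form a closed countable set -/
theorem heights (hL : RL L) : IsClosed (Complex.im '' S.C) ∧ (Complex.im '' S.C).Countable := by
  refine ⟨isClosed_of_closure_subset fun y hy => ?_, S.cnt.image _⟩
  have hK : IsCompact (S.C ∩ (Set.Icc (0 : ℝ) L.ω₁.re ×ℂ Set.Icc (y - 1) (y + 1))) :=
    (isCompact_Icc.reProdIm isCompact_Icc).inter_left S.closed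
  have hK' := (hK.image Complex.continuous_im).isClosed
  have h1 : y ∈ closure ((Complex.im '' S.C) ∩ Set.Icc (y - 1) (y + 1)) := by
    rw [mem_closure_iff_nhds] at hy ⊢
    intro t ht
    obtain ⟨w, hw, hw'⟩ := hy (t ∩ Set.Icc (y - 1) (y + 1))
      (inter_mem ht (Icc_mem_nhds (by linarith) (by linarith)))
    exact ⟨w, hw.1, hw', hw.2⟩
  have h2 : (Complex.im '' S.C) ∩ Set.Icc (y - 1) (y + 1) ⊆
      Complex.im '' (S.C ∩ (Set.Icc (0 : ℝ) L.ω₁.re ×ℂ Set.Icc (y - 1) (y + 1))) := by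
    rintro _ ⟨⟨z, hz, rfl⟩, h3⟩
    obtain ⟨w, hw, e, hr⟩ := shift_re S hL hz
    exact ⟨w, ⟨hw, Complex.mem_reProdIm.2 ⟨hr, by rwa [e]⟩⟩, e⟩
  have h3 := closure_mono h2 h1
  rw [hK'.closure_eq] at h3
  obtain ⟨z, hz, e⟩ := h3
  exact ⟨z, hz.1, e⟩

/-! ### domination -/

private theorem rpow_ii (s a b : ℝ) :
    IntervalIntegrable (fun t : ℝ => |t - s| ^ (-(3 / 4 : ℝ))) volume a b := by
  have h0 : ∀ a b : ℝ, IntervalIntegrable (fun t : ℝ => |t| ^ (-(3 / 4 : ℝ))) volume a b := by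
    intro a b
    refine intervalIntegrable_of_even (fun x => by rw [abs_neg]) (fun x hx => ?_)
    refine (intervalIntegral.intervalIntegrable_rpow' (by norm_num : (-1 : ℝ) < -(3 / 4))).congr
      fun t ht => ?_
    rw [Set.uIoc_of_le hx.le] at ht
    show t ^ (-(3 / 4 : ℝ)) = |t| ^ (-(3 / 4 : ℝ))
    rw [abs_of_pos ht.1]
  have := (h0 (a - s) (b - s)).comp_sub_right s
  simpa using this

private theorem lim_local {F : ℂ → ℝ} (hc : ∀ z, z ∉ S.C → ContinuousAt F z)
    (hs : ∀ s : ℂ, ∃ A : ℝ, ∀ᶠ z in 𝓝[≠] s, |F z| ≤ A * ‖z - s‖ ^ (-(3 / 4 : ℝ))) (y₀ s : ℝ) :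
    ∃ r : ℝ, 0 < r ∧ ∃ A : ℝ, 0 ≤ A ∧ ∀ t y : ℝ,
      ‖(t : ℂ) + y * Complex.I - (s + y₀ * Complex.I)‖ < r →
      (t : ℂ) + y₀ * Complex.I ∉ S.C → (t : ℂ) + y * Complex.I ∉ S.C ∧
        |F (t + y * Complex.I)| ≤ A * (|t - s| ^ (-(3 / 4 : ℝ)) + 1) := by
  by_cases h : (s : ℂ) + y₀ * Complex.I ∈ S.C
  · obtain ⟨C, hC⟩ := hs ((s : ℂ) + y₀ * Complex.I)
    have h1 := hC.and (S.isol ((s : ℂ) + y₀ * Complex.I))
    rw [eventually_nhdsWithin_iff, Metric.eventually_nhds_iff] at h1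
    obtain ⟨r, hr, h2⟩ := h1
    refine ⟨r, hr, |C|, abs_nonneg _, fun t y hty ht => ?_⟩
    have hts : t ≠ s := by
      rintro rfl
      exact ht h
    have hre : (t : ℂ) + y * Complex.I - (s + y₀ * Complex.I) =
        ((t - s : ℝ) : ℂ) + ((y - y₀ : ℝ) : ℂ) * Complex.I := by
      push_cast
      ring
    have hn : |t - s| ≤ ‖(t : ℂ) + y * Complex.I - (s + y₀ * Complex.I)‖ := by
      have := Complex.abs_re_le_norm ((t : ℂ) + y * Complex.I - (s + y₀ * Complex.I))
      rw [hre] at this ⊢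
      simpa using this
    have hpos : 0 < |t - s| := abs_pos.2 (sub_ne_zero.2 hts)
    have hne : (t : ℂ) + y * Complex.I ∈ ({(s : ℂ) + y₀ * Complex.I}ᶜ : Set ℂ) := by
      intro h3
      rw [Set.mem_singleton_iff] at h3
      rw [h3, sub_self, norm_zero] at hn
      linarith
    obtain ⟨h3, h4⟩ := h2 (by rwa [dist_eq_norm]) hne
    refine ⟨h4, h3.trans ?_⟩
    calc C * ‖(t : ℂ) + y * Complex.I - (s + y₀ * Complex.I)‖ ^ (-(3 / 4 : ℝ))
        ≤ |C| * |t - s| ^ (-(3 / 4 : ℝ)) :=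
          mul_le_mul (le_abs_self C) (Real.rpow_le_rpow_of_nonpos hpos hn (by norm_num))
            (Real.rpow_nonneg (norm_nonneg _) _) (abs_nonneg _)
      _ ≤ _ := mul_le_mul_of_nonneg_left (by linarith) (abs_nonneg _)
  · have h0 : ∀ᶠ z in 𝓝 ((s : ℂ) + y₀ * Complex.I), z ∉ S.C := S.closed.isOpen_compl.mem_nhds h
    have h1 : ∀ᶠ z in 𝓝 ((s : ℂ) + y₀ * Complex.I), |F z| < |F (s + y₀ * Complex.I)| + 1 :=
      (hc _ h).abs.eventually (gt_mem_nhds (lt_add_one _))
    have h2 := h0.and h1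
    rw [Metric.eventually_nhds_iff] at h2
    obtain ⟨r, hr, h3⟩ := h2
    refine ⟨r, hr, |F (s + y₀ * Complex.I)| + 1, by positivity, fun t y hty _ => ?_⟩
    obtain ⟨h4, h5⟩ := h3 (by rwa [dist_eq_norm])
    refine ⟨h4, h5.le.trans ?_⟩
    have h6 : 0 ≤ |t - s| ^ (-(3 / 4 : ℝ)) := Real.rpow_nonneg (abs_nonneg _) _
    exact le_mul_of_one_le_right (by positivity) (by linarith)

private theorem lim_dominate {F : ℂ → ℝ} (hc : ∀ z, z ∉ S.C → ContinuousAt F z)
    (hs : ∀ s : ℂ, ∃ A : ℝ, ∀ᶠ z in 𝓝[≠] s, |F z| ≤ A * ‖z - s‖ ^ (-(3 / 4 : ℝ))) (y₀ : ℝ) :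
    ∃ (G : ℝ → ℝ) (δ : ℝ), 0 < δ ∧ IntervalIntegrable G volume 0 L.ω₁.re ∧
    ∀ t y : ℝ, t ∈ Set.Icc 0 L.ω₁.re → |y - y₀| ≤ δ → (t : ℂ) + y₀ * Complex.I ∉ S.C →
      (t : ℂ) + y * Complex.I ∉ S.C ∧ |F (t + y * Complex.I)| ≤ G t := by
  choose r hr C hC h using lim_local S hc hs y₀
  have hcont : Continuous fun t : ℝ => (t : ℂ) + y₀ * Complex.I :=
    Complex.continuous_ofReal.add continuous_const
  have hK : IsCompact ((fun t : ℝ => (t : ℂ) + y₀ * Complex.I) '' Set.Icc 0 L.ω₁.re) :=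
    isCompact_Icc.image hcont
  obtain ⟨T, -, hT⟩ := hK.elim_nhds_subcover
    (fun z => Metric.ball (((z.re : ℝ) : ℂ) + y₀ * Complex.I) (r z.re))
    (by
      rintro _ ⟨t, -, rfl⟩
      have e : ((t : ℂ) + y₀ * Complex.I).re = t := by simp
      simp only [e]
      exact Metric.ball_mem_nhds _ (hr t))
  have hO : IsOpen (⋃ z ∈ T, Metric.ball (((z.re : ℝ) : ℂ) + y₀ * Complex.I) (r z.re)) :=
    isOpen_biUnion fun z _ => Metric.isOpen_ball
  obtain ⟨δ, hδ, hδT⟩ := hK.exists_cthickening_subset_open hO hT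
  refine ⟨fun t => ∑ z ∈ T, C z.re * (|t - z.re| ^ (-(3 / 4 : ℝ)) + 1), δ, hδ, ?_, ?_⟩
  · have h1 := IntervalIntegrable.sum (μ := volume) (a := 0) (b := L.ω₁.re) T
      (f := fun (z : ℂ) (t : ℝ) => C z.re * (|t - z.re| ^ (-(3 / 4 : ℝ)) + 1)) fun z _ =>
      ((rpow_ii z.re _ _).add intervalIntegrable_const).const_mul _
    refine h1.congr fun t _ => ?_
    rw [Finset.sum_apply]
  · intro t y ht hy htC
    have h1 : (t : ℂ) + y * Complex.I ∈ Metric.cthickening δ
        ((fun t : ℝ => (t : ℂ) + y₀ * Complex.I) '' Set.Icc 0 L.ω₁.re) := by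
      refine Metric.mem_cthickening_of_dist_le _ ((t : ℂ) + y₀ * Complex.I) _ _ ⟨t, ht, rfl⟩ ?_
      have e : (t : ℂ) + y * Complex.I - ((t : ℂ) + y₀ * Complex.I) =
          ((y - y₀ : ℝ) : ℂ) * Complex.I := by
        push_cast
        ring
      rw [dist_eq_norm, e, norm_mul, Complex.norm_I, mul_one, Complex.norm_real]
      exact hy
    have h2 := hδT h1
    rw [Set.mem_iUnion₂] at h2
    obtain ⟨z, hz, h3⟩ := h2
    rw [Metric.mem_ball, dist_eq_norm] at h3
    obtain ⟨h4, h5⟩ := h z.re t y h3 htC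
    refine ⟨h4, h5.trans ?_⟩
    exact Finset.single_le_sum (f := fun z : ℂ => C z.re * (|t - z.re| ^ (-(3 / 4 : ℝ)) + 1))
      (fun z _ => mul_nonneg (hC _) (by
        have : 0 ≤ |t - z.re| ^ (-(3 / 4 : ℝ)) := Real.rpow_nonneg (abs_nonneg _) _
        linarith)) hz

private theorem line_inj (y : ℝ) : Function.Injective fun t : ℝ => (t : ℂ) + y * Complex.I := by
  intro a b h
  have := congrArg Complex.re h
  simpa using this

private theorem ae_line (y : ℝ) : ∀ᵐ t : ℝ, (t : ℂ) + y * Complex.I ∉ S.C := by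
  have h : {t : ℝ | (t : ℂ) + y * Complex.I ∈ S.C}.Countable := S.cnt.preimage (line_inj y)
  exact h.ae_notMem volume

private theorem lim_meas {F : ℝ → ℝ} {a b y : ℝ}
    (hF : ∀ t ∈ Set.uIoc a b, (t : ℂ) + y * Complex.I ∉ S.C → ContinuousAt F t) :
    AEStronglyMeasurable F (volume.restrict (Set.uIoc a b)) := by
  have hcont : Continuous fun t : ℝ => (t : ℂ) + y * Complex.I :=
    Complex.continuous_ofReal.add continuous_const
  have hA : MeasurableSet {t : ℝ | (t : ℂ) + y * Complex.I ∉ S.C} :=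
    (S.closed.isOpen_compl.preimage hcont).measurableSet
  have h1 : AEStronglyMeasurable F
      (volume.restrict (Set.uIoc a b ∩ {t : ℝ | (t : ℂ) + y * Complex.I ∉ S.C})) := by
    refine ContinuousOn.aestronglyMeasurable ?_ (measurableSet_uIoc.inter hA)
    intro t ht
    exact (hF t ht.1 ht.2).continuousWithinAt
  have h2 : (Set.uIoc a b ∩ {t : ℝ | (t : ℂ) + y * Complex.I ∉ S.C} : Set ℝ)
      =ᵐ[volume] Set.uIoc a b := by
    filter_upwards [ae_line S y] with t ht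
    refine propext ⟨fun h => h.1, fun h => ⟨h, ht⟩⟩
  rwa [Measure.restrict_congr_set h2] at h1

private theorem I0_cont {z : ℂ} (hz : z ∉ S.C) : ContinuousAt (I0 S) z := by
  unfold I0
  refine tendsto_finsetSum _ fun i _ => ?_
  have a1 := (la_fd (S.fa i z hz) (S.f0 i z hz)).continuousAt
  have a2 := (la_fd (S.ha i z hz) (S.h0 i z hz)).continuousAt
  have a3 := (la_fd (S.ga i z hz) (S.g0 i z hz)).continuousAt
  have a4 := (lxy_fd (S.fa i z hz) (S.f0 i z hz)).1.continuousAt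
  have a5 := (lxy_fd (S.ha i z hz) (S.h0 i z hz)).1.continuousAt
  exact (a3.mul (a1.pow q)).mul ((a1.mul a5).sub (a2.mul a4))

/-- dominated convergence, `cusp_Rx` -/
theorem ri_cont (hL : RL L) (hq : Even q) (hq2 : 2 ≤ q) : Continuous (ri S) := by
  rw [continuous_iff_continuousAt]
  intro y₀
  obtain ⟨G, δ, hδ, hG, h⟩ := lim_dominate (F := Rx S) S (fun _ hz => (Rx_cd S hz).continuousAt)
    (cusp_Rx S hq hq2) y₀
  have hy : ∀ᶠ y : ℝ in 𝓝 y₀, |y - y₀| ≤ δ := by
    filter_upwards [Metric.ball_mem_nhds y₀ hδ] with y hy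
    rw [Metric.mem_ball, Real.dist_eq] at hy
    exact hy.le
  have hline : ∀ t y : ℝ, ContinuousAt (fun t : ℝ => (t : ℂ) + y * Complex.I) t := fun t y =>
    (Complex.continuous_ofReal.add continuous_const).continuousAt
  show Tendsto (fun y => ri S y) (𝓝 y₀) (𝓝 (ri S y₀))
  unfold ri
  refine intervalIntegral.tendsto_integral_filter_of_dominated_convergence G ?_ ?_ hG ?_
  · filter_upwards [hy] with y hy
    refine lim_meas S (y := y₀) fun t hti ht => ?_
    rw [Set.uIoc_of_le hL.pos1.le] at hti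
    have h1 := (h t y ⟨hti.1.le, hti.2⟩ hy ht).1
    exact ContinuousAt.comp (f := fun t : ℝ => (t : ℂ) + y * Complex.I) (x := t)
      (Rx_cd S h1).continuousAt (hline t y)
  · filter_upwards [hy] with y hy
    filter_upwards [ae_line S y₀] with t ht hti
    rw [Set.uIoc_of_le hL.pos1.le] at hti
    rw [Real.norm_eq_abs]
    exact (h t y ⟨hti.1.le, hti.2⟩ hy ht).2
  · filter_upwards [ae_line S y₀] with t ht _
    have h1 : Tendsto (fun y : ℝ => (t : ℂ) + y * Complex.I) (𝓝 y₀)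
        (𝓝 ((t : ℂ) + y₀ * Complex.I)) := by
      have : Continuous fun y : ℝ => (t : ℂ) + y * Complex.I :=
        continuous_const.add (Complex.continuous_ofReal.mul continuous_const)
      exact this.tendsto y₀
    exact ((Rx_cd S ht).continuousAt.tendsto).comp h1

theorem int_line (hL : RL L) (y : ℝ) :
    IntervalIntegrable (fun t : ℝ => I0 S (t + y * Complex.I)) volume 0 L.ω₁.re := by
  obtain ⟨G, δ, hδ, hG, h⟩ := lim_dominate (F := I0 S) S (fun _ hz => I0_cont S hz)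
    (cusp_I0 S) y
  refine hG.mono_fun (lim_meas S (y := y) fun t _ ht => ?_) ?_
  · exact ContinuousAt.comp (f := fun t : ℝ => (t : ℂ) + y * Complex.I) (x := t)
      (I0_cont S ht) (Complex.continuous_ofReal.add continuous_const).continuousAt
  · rw [Filter.EventuallyLE, ae_restrict_iff' measurableSet_uIoc]
    filter_upwards [ae_line S y] with t ht hti
    rw [Set.uIoc_of_le hL.pos1.le] at hti
    have := (h t y ⟨hti.1.le, hti.2⟩ (by rw [sub_self, abs_zero]; exact hδ.le) ht).2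
    rw [Real.norm_eq_abs, Real.norm_eq_abs]
    exact this.trans (le_abs_self _)

/-- `ri` is continuous, and locally constant outside a countable set -/
theorem ri_const (hL : RL L) (hq : Even q) (hq2 : 2 ≤ q) (y y' : ℝ) : ri S y = ri S y' := by
  obtain ⟨hcl, hcn⟩ := heights S hL
  have hd : ∀ x : ℝ, x ∉ Complex.im '' S.C → HasDerivAt (ri S) 0 x := by
    intro x hx
    have h0 : ∀ᶠ z in 𝓝 x, z ∉ Complex.im '' S.C := hcl.isOpen_compl.mem_nhds hx
    rw [Metric.eventually_nhds_iff] at h0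
    obtain ⟨ε, hε, h1⟩ := h0
    have key : ∀ a b : ℝ, dist a x < ε → dist b x < ε → a ≤ b → ri S a = ri S b := by
      intro a b ha hb hab
      refine ri_loc S hL hq hq2 hab fun z hz => ?_
      by_contra hcon
      push Not at hcon
      rw [Real.dist_eq, abs_lt] at ha hb
      refine h1 (y := z.im) ?_ ⟨z, hz, rfl⟩
      rw [Real.dist_eq, abs_lt]
      constructor <;> linarith [ha.1, ha.2, hb.1, hb.2, hcon.1, hcon.2]
    have hev : ri S =ᶠ[𝓝 x] fun _ => ri S x := by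
      filter_upwards [Metric.ball_mem_nhds x hε] with w hw
      rw [Metric.mem_ball] at hw
      have hx0 : dist x x < ε := by simpa using hε
      rcases le_total w x with h2 | h2
      · exact key w x hw hx0 h2
      · exact (key x w hx0 hw h2).symm
    exact (hasDerivAt_const x (ri S x)).congr_of_eventuallyEq hev
  have key := integral_eq_of_hasDerivAt_off_countable (ri S) (fun _ => (0 : ℝ)) (a := y) (b := y')
    hcn (ri_cont S hL hq hq2).continuousOn (fun x hx => hd x hx.2) intervalIntegrable_const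
  rw [intervalIntegral.integral_zero] at key
  linarith

end Pool.Agent.F194.Y

end
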