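import Pool.Agent.Work.MP_f194bb_nt.Y.Base
import Pool.Agent.Work.MP_f194bb_nt.Symbol

/-!
# MP_f194bb_nt, odd n: the symbol with real functionals
-/

set_option autoImplicit false

open scoped ComplexConjugate PeriodPair
open MeasureTheory Filter Topology

noncomputable section

namespace Pool.Agent.F194.Y

universe u

/-- a functional on `B ⊗ M` from functionals on `B` and `M` -/
def tmapR {A M : Type u} [AddCommGroup A] [AddCommGroup M] (a : A →+ ℝ) (b : M →+ ℝ) :
    Tens A M →+ ℝ :=
  (TensorProduct.lift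
    { toFun := fun x => (a x) • b.toIntLinearMap
      map_add' := fun x y => by rw [map_add, add_smul]
      map_smul' := fun c x => by
        rw [map_zsmul, RingHom.id_apply, smul_assoc] } : TensorProduct ℤ A M →ₗ[ℤ] ℝ).toAddMonoidHom

theorem tmapR_tmul {A M : Type u} [AddCommGroup A] [AddCommGroup M] (a : A →+ ℝ) (b : M →+ ℝ)
    (x : A) (y : M) : tmapR a b (tmul x y) = a x * b y := rfl

/-- `l ∧ m` on `Λ²` -/
def wmapR {A : Type u} [AddCommGroup A] (l m : A →+ ℝ) : Ext2 A →+ ℝ :=
  QuotientAddGroup.lift (diag A) (tmapR l m - tmapR m l) (by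
    have h : diag A ≤ (tmapR l m - tmapR m l).ker := by
      rw [diag, AddSubgroup.closure_le]
      rintro t ⟨a, rfl⟩
      rw [SetLike.mem_coe, AddMonoidHom.mem_ker, AddMonoidHom.sub_apply, tmapR_tmul, tmapR_tmul]
      ring
    exact fun x hx => h hx)

theorem wmapR_wdg {A : Type u} [AddCommGroup A] (l m : A →+ ℝ) (a b : A) :
    wmapR l m (wdg a b) = l a * m b - l b * m a := by
  have h : wmapR l m (wdg a b) = tmapR l m (tmul a b) - tmapR m l (tmul a b) := rfl
  rw [h, tmapR_tmul, tmapR_tmul]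
  ring

/-- `(l ∧ m)((1-x) ∧ x) ∏ ν(x)` -/
def phiR {F : Type u} [Field F] {k : ℕ} (l m : Additive Fˣ →+ ℝ) (ν : Fin k → (Additive Fˣ →+ ℝ)) :
    FreeAbelianGroup (Option F) →+ ℝ :=
  FreeAbelianGroup.lift fun x =>
    (l (unitOf (oneSub x)) * m (unitOf x) - l (unitOf x) * m (unitOf (oneSub x))) *
    ∏ j, ν j (unitOf x)

theorem phiR_of {F : Type u} [Field F] {k : ℕ} (l m : Additive Fˣ →+ ℝ)
    (ν : Fin k → (Additive Fˣ →+ ℝ)) (x : Option F) :
    phiR l m ν (FreeAbelianGroup.of x) =
      (l (unitOf (oneSub x)) * m (unitOf x) - l (unitOf x) * m (unitOf (oneSub x))) *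
        ∏ j, ν j (unitOf x) := FreeAbelianGroup.lift_apply_of _ _

theorem unitOf_negR {F : Type u} [Field F] (l : Additive Fˣ →+ ℝ) (x : F) :
    l (unitOf (some (-x))) = l (unitOf (some x)) := by
  classical
  by_cases hx : x = 0
  · rw [hx, neg_zero]
  · have hx' : -x ≠ 0 := neg_ne_zero.2 hx
    have h1 : l (Additive.ofMul (-1 : Fˣ)) = 0 := by
      have h2 : l (Additive.ofMul ((-1 : Fˣ) * (-1))) = 0 := by
        rw [neg_mul_neg, one_mul]
        exact map_zero l
      rw [ofMul_mul, map_add] at h2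
      linarith
    have h3 : (unitOf (some (-x)) : Additive Fˣ) = Additive.ofMul (-1 : Fˣ) + unitOf (some x) := by
      simp only [unitOf, dif_neg hx, dif_neg hx']
      rw [← ofMul_mul]
      congr 1
      apply Units.ext
      simp
    rw [h3, map_add, h1, zero_add]

theorem phiR_spec_of {F : Type u} [Field F] {k : ℕ} (l m : Additive Fˣ →+ ℝ)
    (ν : Fin k → (Additive Fˣ →+ ℝ)) (t₀ : F) (x : Option (RatFunc F)) :
    phiR l m ν (FreeAbelianGroup.of (evalAt t₀ x)) =
      phiR (l.comp (lcU t₀)) (m.comp (lcU t₀)) (fun j => (ν j).comp (lcU t₀))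
        (FreeAbelianGroup.of x) := by
  classical
  rw [phiR_of, phiR_of]
  rcases x with _ | f
  · simp [evalAt, oneSub, unitOf]
  simp only [oneSub, AddMonoidHom.comp_apply, lcU_unitOf]
  by_cases hf0 : f = 0
  · subst hf0
    simp [evalAt, unitOf_zero, unitOf_one, sub_zero]
  by_cases hf1 : f = 1
  · subst hf1
    simp [evalAt, unitOf_zero, unitOf_one]
  -- numerator and denominator
  set n := f.num with hn
  set d := f.denom with hd
  have hd0 : d ≠ 0 := f.denom_ne_zero
  have hn0 : n ≠ 0 := by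
    rw [hn]
    exact RatFunc.num_ne_zero hf0
  have hcop : IsCoprime n d := f.isCoprime_num_denom
  have hfe : f = algebraMap _ (RatFunc F) n / algebraMap _ (RatFunc F) d := (f.num_div_denom).symm
  have hdm : algebraMap _ (RatFunc F) d ≠ 0 := by
    exact (map_ne_zero_iff _ (RatFunc.algebraMap_injective F)).2 hd0
  have hfs : 1 - f = algebraMap _ (RatFunc F) (d - n) / algebraMap _ (RatFunc F) d := by
    rw [map_sub, sub_div, div_self hdm, ← hfe]
  have hlc : ∀ p : Polynomial F, lcRat t₀ (algebraMap _ (RatFunc F) p) = lcPoly t₀ p := by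
    intro p
    have := RatFunc.liftMonoidWithZeroHom_apply_div' (lcPoly t₀) (lcPoly_cond t₀) p 1
    simp only [map_one, div_one] at this
    exact this
  have hlf : lcRat t₀ f = lcPoly t₀ n / lcPoly t₀ d := by
    conv_lhs => rw [hfe]
    rw [map_div₀, hlc, hlc]
  have hls : lcRat t₀ (1 - f) = lcPoly t₀ (d - n) / lcPoly t₀ d := by
    rw [hfs, map_div₀, hlc, hlc]
  by_cases hdt : d.eval t₀ = 0
  · have hnt : n.eval t₀ ≠ 0 := by
      intro h
      obtain ⟨a, b, hab⟩ := hcop
      have := congrArg (Polynomial.eval t₀) hab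
      rw [Polynomial.eval_add, Polynomial.eval_mul, Polynomial.eval_mul, h, hdt, mul_zero,
        mul_zero, add_zero, Polynomial.eval_one] at this
      exact zero_ne_one this
    have he : evalAt t₀ (some f) = none := by
      simp only [evalAt, ← hd, if_pos hdt]
    have hdn : (d - n).eval t₀ ≠ 0 := by
      rw [Polynomial.eval_sub, hdt, zero_sub]
      exact neg_ne_zero.2 hnt
    have h1 : lcRat t₀ (1 - f) = - lcRat t₀ f := by
      rw [hlf, hls, lcPoly_of_ne _ _ hnt, lcPoly_of_ne _ _ hdn, Polynomial.eval_sub, hdt,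
        zero_sub, neg_div]
    rw [he, h1, unitOf_negR, unitOf_negR]
    simp only [unitOf_none, map_zero]
    ring
  · have he : evalAt t₀ (some f) = some (n.eval t₀ / d.eval t₀) := by
      simp only [evalAt, ← hd, ← hn, if_neg hdt]
    rw [he]
    have hld : lcPoly t₀ d = d.eval t₀ := lcPoly_of_ne _ _ hdt
    by_cases hnt : n.eval t₀ = 0
    · have hdn : (d - n).eval t₀ ≠ 0 := by
        rw [Polynomial.eval_sub, hnt, sub_zero]
        exact hdt
      have h1 : lcRat t₀ (1 - f) = 1 := by
        rw [hls, lcPoly_of_ne _ _ hdn, hld, Polynomial.eval_sub, hnt, sub_zero, div_self hdt]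
      rw [hnt, zero_div, h1]
      simp only [unitOf_zero, unitOf_one, sub_zero, map_zero]
      ring
    · have hln : lcPoly t₀ n = n.eval t₀ := lcPoly_of_ne _ _ hnt
      have h2 : lcRat t₀ f = n.eval t₀ / d.eval t₀ := by rw [hlf, hln, hld]
      by_cases hnd : n.eval t₀ = d.eval t₀
      · have h3 : n.eval t₀ / d.eval t₀ = 1 := by rw [hnd, div_self hdt]
        rw [h2, h3]
        simp only [unitOf_one, sub_self, unitOf_zero, map_zero]
        ring
      · have hdn : (d - n).eval t₀ ≠ 0 := by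
          rw [Polynomial.eval_sub, sub_ne_zero]
          exact fun h => hnd h.symm
        have h1 : lcRat t₀ (1 - f) = 1 - n.eval t₀ / d.eval t₀ := by
          rw [hls, lcPoly_of_ne _ _ hdn, hld, Polynomial.eval_sub, sub_div, div_self hdt]
        rw [h1, h2]

theorem phiR_spec {F : Type u} [Field F] {k : ℕ} (l m : Additive Fˣ →+ ℝ)
    (ν : Fin k → (Additive Fˣ →+ ℝ)) (t₀ : F) (α : FreeAbelianGroup (Option (RatFunc F))) :
    phiR l m ν (FreeAbelianGroup.map (evalAt t₀) α) =
      phiR (l.comp (lcU t₀)) (m.comp (lcU t₀)) (fun j => (ν j).comp (lcU t₀)) α := by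
  have h : (phiR l m ν).comp (FreeAbelianGroup.map (evalAt t₀)) =
      phiR (l.comp (lcU t₀)) (m.comp (lcU t₀)) (fun j => (ν j).comp (lcU t₀)) := by
    ext x
    rw [AddMonoidHom.comp_apply, FreeAbelianGroup.map_of_apply]
    exact phiR_spec_of l m ν t₀ x
  exact DFunLike.congr_fun h α

/-- The symbol kills Goncharov's relations, for all fields at once. -/
theorem phiR_kills_aux (k : ℕ) : ∀ (F : Type u) [Field F] (l m : Additive Fˣ →+ ℝ)
    (ν : Fin k → (Additive Fˣ →+ ℝ)), ∀ x ∈ R k F, phiR l m ν x = 0 := by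
  have gens : ∀ (k : ℕ) (F : Type u) [Field F] (Z : Set (FreeAbelianGroup (Option (RatFunc F)))),
      (∀ (l m : Additive (RatFunc F)ˣ →+ ℝ) (ν : Fin k → (Additive (RatFunc F)ˣ →+ ℝ)),
        ∀ α ∈ Z, phiR l m ν α = 0) →
      ∀ (l m : Additive Fˣ →+ ℝ) (ν : Fin k → (Additive Fˣ →+ ℝ)), ∀ x ∈ relOf F Z,
        phiR l m ν x = 0 := by
    intro k F _ Z hZ l m ν x hx
    have h1 : relOf F Z ≤ (phiR l m ν).ker := by
      rw [relOf, AddSubgroup.closure_le]
      rintro y ((h | h) | ⟨α, hα, h⟩)
      · rw [SetLike.mem_coe, AddMonoidHom.mem_ker, h, phiR_of]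
        simp [unitOf_zero, oneSub, unitOf_one]
      · rw [SetLike.mem_coe, AddMonoidHom.mem_ker, h, phiR_of]
        simp [unitOf_none, oneSub]
      · rw [SetLike.mem_coe, AddMonoidHom.mem_ker, h, map_sub, phiR_spec, phiR_spec,
          hZ _ _ _ α hα, hZ _ _ _ α hα, sub_zero]
    exact h1 hx
  induction k with
  | zero =>
    intro F _ l m ν x hx
    refine gens 0 F _ ?_ l m ν x hx
    intro l m ν α hα
    have h : phiR l m ν = (wmapR l m).comp (delta2 (RatFunc F)) := by
      ext x
      rw [phiR_of, AddMonoidHom.comp_apply, delta2, FreeAbelianGroup.lift_apply_of]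
      rw [wmapR_wdg, Finset.univ_eq_empty, Finset.prod_empty, mul_one]
    rw [h, AddMonoidHom.comp_apply, hα, map_zero]
  | succ k ih =>
    intro F _ l m ν x hx
    refine gens (k + 1) F _ ?_ l m ν x hx
    intro l m ν α hα
    let φ : (FreeAbelianGroup (Option (RatFunc F)) ⧸ R k (RatFunc F)) →+ ℝ :=
      QuotientAddGroup.lift _ (phiR l m (fun j => ν j.castSucc)) (ih (RatFunc F) l m _)
    have h : phiR l m ν = (show TQ (RatFunc F) (R k (RatFunc F)) →+ ℝ from
        tmapR φ (ν (Fin.last k))).comp (deltaN (RatFunc F) (R k (RatFunc F))) := by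
      ext x
      rw [phiR_of, AddMonoidHom.comp_apply, deltaN, FreeAbelianGroup.lift_apply_of]
      show _ = phiR l m (fun j => ν j.castSucc) (FreeAbelianGroup.of x) * ν (Fin.last k) (unitOf x)
      rw [phiR_of, Fin.prod_univ_castSucc, mul_assoc]
    rw [h, AddMonoidHom.comp_apply, hα, map_zero]

/-- The symbol kills Goncharov's relations (copy of `phi_kills` with real functionals). -/
theorem phiR_kills (k : ℕ) (F : Type u) [Field F] (l m : Additive Fˣ →+ ℝ)
    (ν : Fin k → (Additive Fˣ →+ ℝ)) (x : FreeAbelianGroup (Option F)) (hx : x ∈ R k F) :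
    phiR l m ν x = 0 :=
  phiR_kills_aux k F l m ν x hx

/-- The numerical form of condition (i) (copy of `cocycle_num`). -/
theorem cocycle_numR (k : ℕ) {K : Type u} [Field K] {ι : Type} [Fintype ι] (f g : ι → Kˣ)
    (h : CocycleI k f g) (l m r s : Additive Kˣ →+ ℝ) (ν : Fin k → (Additive Kˣ →+ ℝ)) :
    ∑ i, (l (unitOf (some (1 - (f i : K)))) * m (Additive.ofMul (f i)) -
        l (Additive.ofMul (f i)) * m (unitOf (some (1 - (f i : K))))) *
      (∏ j, ν j (Additive.ofMul (f i))) *
      (r (Additive.ofMul (f i)) * s (Additive.ofMul (g i)) -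
        r (Additive.ofMul (g i)) * s (Additive.ofMul (f i))) = 0 := by
  classical
  let φ : B k K →+ ℝ := QuotientAddGroup.lift _ (phiR l m ν) (phiR_kills k K l m ν)
  have h1 := congrArg (tmapR φ (wmapR r s)) h
  rw [map_sum, map_zero] at h1
  rw [← h1]
  refine Finset.sum_congr rfl fun i _ => ?_
  rw [tmapR_tmul]
  have h2 : φ (cls k (some (f i : K))) =
      (l (unitOf (oneSub (some (f i : K)))) * m (unitOf (some (f i : K))) -
        l (unitOf (some (f i : K))) * m (unitOf (oneSub (some (f i : K))))) *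
        ∏ j, ν j (unitOf (some (f i : K))) := phiR_of l m ν _
  have h3 : unitOf (some (f i : K)) = Additive.ofMul (f i) := by
    simp only [unitOf, dif_neg (f i).ne_zero, Units.mk0_val]
  have h4 : (wmapR r s) (wdg (Additive.ofMul (f i)) (Additive.ofMul (g i))) =
      r (Additive.ofMul (f i)) * s (Additive.ofMul (g i)) -
        r (Additive.ofMul (g i)) * s (Additive.ofMul (f i)) := wmapR_wdg r s _ _
  rw [h2, h4, h3]
  rfl

end Pool.Agent.F194.Y

end
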