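import Pool.Agent.Work.MP_f194bb_nt.Y.KK
import Pool.Agent.Work.MP_f194bb_nt.Y.Line

/-!
# MP_f194bb_nt, odd n: the value of the lattice sums
-/

set_option autoImplicit false

open scoped ComplexConjugate PeriodPair
open MeasureTheory Filter Topology

noncomputable section

namespace Pool.Agent.F194.Y

variable {L : PeriodPair} {P : PLs} {q : ℕ} {ι : Type} [Fintype ι] (S : Sys L P q ι)


theorem ksum_val (hL : RL L) (hq : Even q) (hq2 : 2 ≤ q) {y : ℝ}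
    (hy : (2 * y * Complex.I : ℂ) ∈ L.lattice) :
    ∑ i, Ksum L q (pr L (dv (S.g i))) (pr L (dv (S.f i))) (pr L (dv (S.h i))) =
      -(((areaA L) ^ (q + 2) * (L.ω₁.re : ℂ))⁻¹ *
        ((∫ t in (0 : ℝ)..L.ω₁.re, I0 S (t + y * Complex.I) : ℝ) : ℂ)) := by
  obtain ⟨h1, h2⟩ := kap_eq hL
  rw [ksum_eq S hL hq2, h1, h2, mean_I0 S hL hq hq2 hy]
  have h3 : (areaA L / 2) ^ (q + 2) = areaA L ^ (q + 2) / 2 ^ (q + 2) := div_pow _ _ _
  rw [h3]
  push_cast
  have h4 : (2 : ℂ) ^ (q + 2) ≠ 0 := pow_ne_zero _ two_ne_zero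
  rw [mul_neg_one, inv_neg, inv_div, mul_inv]
  field_simp

end Pool.Agent.F194.Y

end
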